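import Mathlib
import Pool.Agent.PTr.Gen

/-!
# Piecewise affine maps with linear parts in a set of integer matrices: definitions
-/

set_option autoImplicit false

namespace Pool.Agent.MTr

open Pool.Agent.Grz Pool.Agent.PTr Finset

variable {r k : ℕ}

/-- `u` lies in the box with the lower corner `a` and the upper corner `b`. -/
def InBox (a b u : Fin r → ℕ) : Prop := ∀ l, a l ≤ u l ∧ u l < b l

instance (a b u : Fin r → ℕ) : Decidable (InBox a b u) := by unfold InBox; infer_instance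

/-- The first of the boxes containing `u` is the `i`-th one. -/
def First (a b : Fin k → Fin r → ℕ) (u : Fin r → ℕ) (i : Fin k) : Prop :=
  InBox (a i) (b i) u ∧ ∀ j, j < i → ¬ InBox (a j) (b j) u

instance (a b : Fin k → Fin r → ℕ) (u : Fin r → ℕ) (i : Fin k) : Decidable (First a b u i) := by
  unfold First; infer_instance

/-- The vector `A u`. -/
def lin (A : Matrix (Fin r) (Fin r) ℤ) (u : Fin r → ℕ) (l : Fin r) : ℤ := ∑ m, A l m * (u m : ℤ)

/-- The map `u ↦ A i u + c i` modulo `N` for the first box `i` containing `u`, and `0` if there is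
no such box. -/
def amap (A : Fin k → Matrix (Fin r) (Fin r) ℤ) (N : ℕ) (a b c : Fin k → Fin r → ℕ)
    (u : Fin r → ℕ) : Fin r → ℕ := fun l =>
  ((∑ i : Fin k, if First a b u i then lin (A i) u l + (c i l : ℤ) else 0) % (N : ℤ)).toNat

/-- The orbits of the maps `amap` with `k` boxes and linear parts in `S` are definable by bounded
formulas. -/
def OrbA (S : Set (Matrix (Fin r) (Fin r) ℤ)) (k : ℕ) : Prop :=
  ∀ (A : Fin k → Matrix (Fin r) (Fin r) ℤ), (∀ i, A i ∈ S) → ∀ (n : ℕ) (N : (Fin n → ℕ) → ℕ)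
    (a b c : Fin k → Fin r → (Fin n → ℕ) → ℕ) (x y : Fin r → (Fin n → ℕ) → ℕ), DFun n N →
    (∀ i l, DFun n (a i l)) → (∀ i l, DFun n (b i l)) → (∀ i l, DFun n (c i l)) →
    (∀ l, DFun n (x l)) → (∀ l, DFun n (y l)) → Delta0 n (fun v => 0 < N v ∧
      ∃ t, (amap A (N v) (fun i l => a i l v) (fun i l => b i l v) (fun i l => c i l v))^[t]
        (fun l => x l v) = fun l => y l v)

/-- The exact map `u ↦ B u + p i - m i` for the first box `i` containing `u`. -/
def bmap (B : Matrix (Fin r) (Fin r) ℤ) (a b p m : Fin k → Fin r → ℕ) (u : Fin r → ℕ) :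
    Fin r → ℕ := fun l =>
  (∑ i : Fin k, if First a b u i then lin B u l + (p i l : ℤ) - (m i l : ℤ) else 0).toNat

/-- Along the orbit of `x` under `bmap` all points are in `[0, R)^r` and in some box, and the
values are nonnegative. -/
def Good (B : Matrix (Fin r) (Fin r) ℤ) (R : ℕ) (a b p m : Fin k → Fin r → ℕ) (x : Fin r → ℕ) :
    Prop := ∀ t, (∀ l, ((bmap B a b p m)^[t] x) l < R) ∧
  ∃ i, First a b ((bmap B a b p m)^[t] x) i ∧
    ∀ l, 0 ≤ lin B ((bmap B a b p m)^[t] x) l + (p i l : ℤ) - (m i l : ℤ)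

/-- The orbits of good exact maps with `k` boxes and the linear part `B` are definable by bounded
formulas. -/
def OrbB (B : Matrix (Fin r) (Fin r) ℤ) (k : ℕ) : Prop :=
  ∀ (n : ℕ) (R : (Fin n → ℕ) → ℕ) (a b p m : Fin k → Fin r → (Fin n → ℕ) → ℕ)
    (x y : Fin r → (Fin n → ℕ) → ℕ), DFun n R →
    (∀ i l, DFun n (a i l)) → (∀ i l, DFun n (b i l)) → (∀ i l, DFun n (p i l)) →
    (∀ i l, DFun n (m i l)) → (∀ l, DFun n (x l)) → (∀ l, DFun n (y l)) →
    ∃ Q : (Fin n → ℕ) → Prop, Delta0 n Q ∧ ∀ v,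
      Good B (R v) (fun i l => a i l v) (fun i l => b i l v) (fun i l => p i l v)
        (fun i l => m i l v) (fun l => x l v) →
      (Q v ↔ ∃ t, (bmap B (fun i l => a i l v) (fun i l => b i l v) (fun i l => p i l v)
        (fun i l => m i l v))^[t] (fun l => x l v) = fun l => y l v)

/-- The maximum norm. -/
def nrm (w : Fin r → ℤ) : ℕ := univ.sup fun l => (w l).natAbs

/-- The norms of `B ^ j w` grow by a factor `8` in each step. -/
def Growth (B : Matrix (Fin r) (Fin r) ℤ) : Prop :=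
  ∃ w : Fin r → ℤ, w ≠ 0 ∧ ∀ j, 8 * nrm ((B ^ j).mulVec w) ≤ nrm ((B ^ (j + 1)).mulVec w)

/-- `B` acts as a shear or the identity on a plane. -/
def Shear (B : Matrix (Fin r) (Fin r) ℤ) : Prop :=
  ∃ (f₁ f₂ : Fin r → ℤ) (κ : ℤ), LinearIndependent ℤ ![f₁, f₂] ∧ B.mulVec f₁ = f₁ ∧
    B.mulVec f₂ = f₂ + κ • f₁

/-- The characteristic polynomials of the tame matrices. -/
def TamePoly (r : ℕ) (f : Polynomial ℤ) : Prop :=
  f = Polynomial.X ^ r ∨ f = Polynomial.X ^ (r - 1) * (Polynomial.X - 1) ∨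
    f = Polynomial.X ^ (r - 1) * (Polynomial.X + 1)

/-- All products of matrices of `S` are tame. -/
def TameSet (S : Set (Matrix (Fin r) (Fin r) ℤ)) : Prop :=
  ∀ M ∈ Subsemigroup.closure S, TamePoly r M.charpoly

end Pool.Agent.MTr
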