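import Mathlib
import Pool.Agent.MTr.Defs

/-!
# Words, their matrices, certificates
-/

set_option autoImplicit false

namespace Pool.Agent.MTr

open Finset

variable {r q L : ℕ}

/-- The product of the matrices of a word; the first letter acts first. -/
def wprod (A : Fin q → Matrix (Fin r) (Fin r) ℤ) : List (Fin q) → Matrix (Fin r) (Fin r) ℤ
  | [] => 1
  | i :: l => wprod A l * A i

theorem wprod_append (A : Fin q → Matrix (Fin r) (Fin r) ℤ) (l l' : List (Fin q)) :
    wprod A (l ++ l') = wprod A l' * wprod A l := by
  induction l with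
  | nil => simp [wprod]
  | cons i l ih => simp only [List.cons_append, wprod, ih, Matrix.mul_assoc]

theorem wprod_eq (A : Fin q → Matrix (Fin r) (Fin r) ℤ) (l : List (Fin q)) :
    wprod A l = (l.reverse.map A).prod := by
  induction l with
  | nil => rfl
  | cons i l ih => simp [wprod, ih]

/-- Remove the first letter of the word and append a letter. -/
def shift (w : Fin (L + 1) → Fin q) (i : Fin q) : Fin (L + 1) → Fin q :=
  Fin.snoc (Fin.tail w) i

/-- A certificate: factorizations of the matrices of the words of length `L + 1`, the slopes, and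
finitely many weights. -/
structure Cert (A : Fin q → Matrix (Fin r) (Fin r) ℤ) (L S : ℕ)
    (g h : (Fin (L + 1) → Fin q) → Fin r → ℤ) (lam : (Fin (L + 1) → Fin q) → Fin q → ℤ)
    (P : (Fin (L + 1) → Fin q) → ℕ → Prop) : Prop where
  fac : ∀ w i j, wprod A (List.ofFn w) i j = g w i * h w j
  slope : ∀ w i, Matrix.vecMul (h (shift w i)) (A (w 0)) = lam w i • h w
  one : ∀ w, P w 1
  step : ∀ w i s, P w s → lam w i ≠ 0 → P (shift w i) (s * (lam w i).natAbs)
  bd : ∀ w s, P w s → 1 ≤ s ∧ s ≤ S

end Pool.Agent.MTr
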