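import Mathlib
import Pool.Agent.MTr.Defs

/-!
# Integer valued functions which are differences of definable functions
-/

set_option autoImplicit false

namespace Pool.Agent.MTr

open Pool.Agent.Grz Pool.Agent.PTr Finset

variable {n : ℕ}

/-- `f` is the difference of two definable functions. -/
def ZF (n : ℕ) (f : (Fin n → ℕ) → ℤ) : Prop :=
  ∃ p m : (Fin n → ℕ) → ℕ, DFun n p ∧ DFun n m ∧ ∀ v, f v = (p v : ℤ) - (m v : ℤ)

theorem ZF.congr {f g : (Fin n → ℕ) → ℤ} (hf : ZF n f) (h : ∀ v, g v = f v) : ZF n g := by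
  obtain ⟨p, m, hp, hm, e⟩ := hf
  exact ⟨p, m, hp, hm, fun v => (h v).trans (e v)⟩

theorem ZF.nat {f : (Fin n → ℕ) → ℕ} (hf : DFun n f) : ZF n (fun v => (f v : ℤ)) :=
  ⟨f, fun _ => 0, hf, DFun.const 0, fun v => by simp⟩

theorem ZF.const (c : ℤ) : ZF n (fun _ => c) :=
  ⟨fun _ => c.toNat, fun _ => (-c).toNat, DFun.const _, DFun.const _, fun v => by
    dsimp only; omega⟩

theorem ZF.add {f g : (Fin n → ℕ) → ℤ} (hf : ZF n f) (hg : ZF n g) :
    ZF n (fun v => f v + g v) := by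
  obtain ⟨p, m, hp, hm, e⟩ := hf
  obtain ⟨p', m', hp', hm', e'⟩ := hg
  refine ⟨fun v => p v + p' v, fun v => m v + m' v, hp.add hp', hm.add hm', fun v => ?_⟩
  dsimp only
  rw [e, e']
  push_cast
  ring

theorem ZF.neg {f : (Fin n → ℕ) → ℤ} (hf : ZF n f) : ZF n (fun v => - f v) := by
  obtain ⟨p, m, hp, hm, e⟩ := hf
  refine ⟨m, p, hm, hp, fun v => ?_⟩
  dsimp only
  rw [e]
  ring

theorem ZF.sub {f g : (Fin n → ℕ) → ℤ} (hf : ZF n f) (hg : ZF n g) :
    ZF n (fun v => f v - g v) := (hf.add hg.neg).congr fun v => by ring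

theorem ZF.mul {f g : (Fin n → ℕ) → ℤ} (hf : ZF n f) (hg : ZF n g) :
    ZF n (fun v => f v * g v) := by
  obtain ⟨p, m, hp, hm, e⟩ := hf
  obtain ⟨p', m', hp', hm', e'⟩ := hg
  refine ⟨fun v => p v * p' v + m v * m' v, fun v => p v * m' v + m v * p' v,
    (hp.mul hp').add (hm.mul hm'), (hp.mul hm').add (hm.mul hp'), fun v => ?_⟩
  dsimp only
  rw [e, e']
  push_cast
  ring

theorem ZF.sum {α : Type} (s : Finset α) {f : α → (Fin n → ℕ) → ℤ} (hf : ∀ i, ZF n (f i)) :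
    ZF n (fun v => ∑ i ∈ s, f i v) := by
  classical
  induction s using Finset.induction_on with
  | empty => exact (ZF.const 0).congr fun v => by simp
  | insert a s ha ih => exact ((hf a).add ih).congr fun v => by rw [Finset.sum_insert ha]

theorem ZF.ite {P : (Fin n → ℕ) → Prop} (hP : Delta0 n P) {f g : (Fin n → ℕ) → ℤ} (hf : ZF n f)
    (hg : ZF n g) [∀ v, Decidable (P v)] : ZF n (fun v => if P v then f v else g v) := by
  obtain ⟨p, m, hp, hm, e⟩ := hf
  obtain ⟨p', m', hp', hm', e'⟩ := hg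
  have h1 := DFun.ite hP hp hp'
  have h2 := DFun.ite hP hm hm'
  refine ⟨fun v => if P v then p v else p' v, fun v => if P v then m v else m' v, ?_, ?_,
    fun v => ?_⟩
  · convert h1
  · convert h2
  · by_cases h : P v
    · simp only [if_pos h]; exact e v
    · simp only [if_neg h]; exact e' v

theorem ZF.toNat {f : (Fin n → ℕ) → ℤ} (hf : ZF n f) : DFun n (fun v => (f v).toNat) := by
  obtain ⟨p, m, hp, hm, e⟩ := hf
  have h := hp.sub hm
  refine (?_ : (fun v => (f v).toNat) = fun v => p v - m v) ▸ h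
  funext v
  rw [e]
  omega

theorem ZF.le {f g : (Fin n → ℕ) → ℤ} (hf : ZF n f) (hg : ZF n g) :
    Delta0 n (fun v => f v ≤ g v) := by
  obtain ⟨p, m, hp, hm, e⟩ := hf
  obtain ⟨p', m', hp', hm', e'⟩ := hg
  refine (Delta0.leFun (hp.add hm') (hp'.add hm)).of_iff fun v => ?_
  rw [e, e']
  omega

theorem ZF.lt {f g : (Fin n → ℕ) → ℤ} (hf : ZF n f) (hg : ZF n g) :
    Delta0 n (fun v => f v < g v) := by
  refine ((hg.le hf).not).of_iff fun v => ?_
  omega

theorem ZF.eq {f g : (Fin n → ℕ) → ℤ} (hf : ZF n f) (hg : ZF n g) :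
    Delta0 n (fun v => f v = g v) := by
  refine ((hf.le hg).and (hg.le hf)).of_iff fun v => ?_
  omega

theorem ZF.natAbs {f : (Fin n → ℕ) → ℤ} (hf : ZF n f) : DFun n (fun v => (f v).natAbs) := by
  have h := hf.toNat.add hf.neg.toNat
  refine (?_ : (fun v => (f v).natAbs) = fun v => (f v).toNat + (- f v).toNat) ▸ h
  funext v
  omega

theorem emod_toNat (p m N : ℕ) (hN : 0 < N) :
    (((p : ℤ) - (m : ℤ)) % (N : ℤ)).toNat = (p + (N - m % N)) % N := by
  have h1 := Nat.mod_lt m hN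
  have h2 : ((p + (N - m % N) : ℕ) : ℤ) = ((p : ℤ) - (m : ℤ)) + (N : ℤ) * (1 + (m / N : ℕ)) := by
    have h3 : ((m % N : ℕ) : ℤ) = (m : ℤ) - (N : ℤ) * ((m / N : ℕ) : ℤ) := by
      have := Nat.div_add_mod m N
      push_cast
      have h4 : (m : ℤ) = (N : ℤ) * ((m : ℤ) / (N : ℤ)) + (m : ℤ) % (N : ℤ) := by
        exact_mod_cast this.symm
      linarith
    push_cast [Nat.cast_sub h1.le]
    push_cast at h3
    rw [h3]
    ring
  have h5 : (((p + (N - m % N)) % N : ℕ) : ℤ) = ((p : ℤ) - (m : ℤ)) % (N : ℤ) := by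
    rw [Int.natCast_mod, h2, Int.add_mul_emod_self_left]
  rw [← h5, Int.toNat_natCast]

theorem ZF.emod {f : (Fin n → ℕ) → ℤ} {N : (Fin n → ℕ) → ℕ} (hf : ZF n f) (hN : DFun n N) :
    DFun n (fun v => if N v = 0 then 0 else (f v % (N v : ℤ)).toNat) := by
  obtain ⟨p, m, hp, hm, e⟩ := hf
  have h1 : DFun n (fun v => (p v + (N v - m v % N v)) % N v) :=
    DFun.modAny (hp.add (hN.sub (DFun.modAny hm hN))) hN
  have h2 := DFun.ite (Delta0.eqFun hN (DFun.const 0)) (DFun.const 0) h1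
  refine (?_ : (fun v => if N v = 0 then 0 else (f v % (N v : ℤ)).toNat) =
    fun v => if N v = 0 then 0 else (p v + (N v - m v % N v)) % N v) ▸ h2
  funext v
  by_cases h : N v = 0
  · simp only [if_pos h]
  · simp only [if_neg h]
    rw [e, emod_toNat _ _ _ (Nat.pos_of_ne_zero h)]

/-- Substitution. -/
theorem ZF.comp {m : ℕ} {f : (Fin m → ℕ) → ℤ} (hf : ZF m f) {h : Fin m → (Fin n → ℕ) → ℕ}
    (hh : ∀ i, DFun n (h i)) : ZF n (fun v => f (fun i => h i v)) := by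
  obtain ⟨p, q, hp, hq, e⟩ := hf
  exact ⟨_, _, hp.comp hh, hq.comp hh, fun v => e _⟩

theorem ZF.weak {f : (Fin n → ℕ) → ℤ} (hf : ZF n f) : ZF (n + 1) (fun w => f (fun i => w i.succ)) :=
  hf.comp fun i => DFun.proj i.succ

end Pool.Agent.MTr
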