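import Mathlib
import Pool.Agent.MTr.ZF
import Pool.Agent.PTr.ZUniv

/-!
# Upper bound, padding, polynomial data and one number of boxes
-/

set_option autoImplicit false

namespace Pool.Agent.MTr

open Pool.Agent.Grz Pool.Agent.PTr Finset MvPolynomial

variable {r k n : ℕ}

theorem delta0_inBox {a b u : Fin r → (Fin n → ℕ) → ℕ} (ha : ∀ l, DFun n (a l))
    (hb : ∀ l, DFun n (b l)) (hu : ∀ l, DFun n (u l)) :
    Delta0 n (fun v => InBox (fun l => a l v) (fun l => b l v) (fun l => u l v)) :=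
  Delta0.allOf fun l => (Delta0.leFun (ha l) (hu l)).and (Delta0.ltFun (hu l) (hb l))

theorem delta0_first {a b : Fin k → Fin r → (Fin n → ℕ) → ℕ} {u : Fin r → (Fin n → ℕ) → ℕ}
    (ha : ∀ i l, DFun n (a i l)) (hb : ∀ i l, DFun n (b i l)) (hu : ∀ l, DFun n (u l))
    (i : Fin k) : Delta0 n (fun v => First (fun i l => a i l v) (fun i l => b i l v)
      (fun l => u l v) i) := by
  refine (delta0_inBox (ha i) (hb i) hu).and ?_
  refine Delta0.allOf fun j => ?_
  by_cases h : j < i
  · exact ((delta0_inBox (ha j) (hb j) hu).not).of_iff fun v => by simp [h]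
  · exact ((Delta0.eqFun (DFun.const 0) (DFun.const 0))).of_iff fun v => by simp [h]

theorem zf_lin (A : Matrix (Fin r) (Fin r) ℤ) {u : Fin r → (Fin n → ℕ) → ℕ}
    (hu : ∀ l, DFun n (u l)) (l : Fin r) : ZF n (fun v => lin A (fun l => u l v) l) :=
  ZF.sum _ fun m => (ZF.const _).mul (ZF.nat (hu m))

theorem first_unique {a b : Fin k → Fin r → ℕ} {u : Fin r → ℕ} {i j : Fin k}
    (hi : First a b u i) (hj : First a b u j) : i = j := by
  rcases lt_trichotomy i j with h | h | h
  · exact absurd hi.1 (hj.2 i h)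
  · exact h
  · exact absurd hj.1 (hi.2 j h)

theorem exists_first {a b : Fin k → Fin r → ℕ} {u : Fin r → ℕ} {j : Fin k}
    (h : InBox (a j) (b j) u) : ∃ i, First a b u i := by
  classical
  let S := univ.filter fun i => InBox (a i) (b i) u
  have hS : S.Nonempty := ⟨j, by simp [S, h]⟩
  refine ⟨S.min' hS, ?_, fun i hi hb => ?_⟩
  · have := S.min'_mem hS
    simpa [S] using this
  · have := S.min'_le i (by simp [S, hb])
    exact absurd hi (not_lt.2 this)

theorem sum_first {M : Type} [AddCommMonoid M] {a b : Fin k → Fin r → ℕ} {u : Fin r → ℕ}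
    {i : Fin k} (hi : First a b u i) (f : Fin k → M) :
    (∑ j : Fin k, if First a b u j then f j else 0) = f i := by
  rw [Finset.sum_eq_single i]
  · rw [if_pos hi]
  · intro j _ hj
    rw [if_neg fun h => hj (first_unique h hi)]
  · intro h
    exact absurd (Finset.mem_univ _) h

theorem amap_lt {A : Fin k → Matrix (Fin r) (Fin r) ℤ} {N : ℕ} (hN : 0 < N)
    (a b c : Fin k → Fin r → ℕ) (u : Fin r → ℕ) (l : Fin r) : amap A N a b c u l < N := by
  unfold amap
  have h1 : (0 : ℤ) < (N : ℤ) := by omega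
  have h2 := Int.emod_nonneg (∑ i : Fin k, if First a b u i then lin (A i) u l + (c i l : ℤ)
    else 0) h1.ne'
  have h3 := Int.emod_lt_of_pos (∑ i : Fin k, if First a b u i then lin (A i) u l + (c i l : ℤ)
    else 0) h1
  omega

theorem dfun_amap (A : Fin k → Matrix (Fin r) (Fin r) ℤ) {N : (Fin n → ℕ) → ℕ}
    {a b c : Fin k → Fin r → (Fin n → ℕ) → ℕ} {u : Fin r → (Fin n → ℕ) → ℕ} (hN : DFun n N)
    (ha : ∀ i l, DFun n (a i l)) (hb : ∀ i l, DFun n (b i l)) (hc : ∀ i l, DFun n (c i l))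
    (hu : ∀ l, DFun n (u l)) (l : Fin r) :
    DFun n (fun v => if N v = 0 then 0 else
      amap A (N v) (fun i l => a i l v) (fun i l => b i l v) (fun i l => c i l v)
        (fun l => u l v) l) := by
  refine ZF.emod (f := fun v => ∑ i : Fin k, if First (fun i l => a i l v) (fun i l => b i l v)
    (fun l => u l v) i then lin (A i) (fun l => u l v) l + (c i l v : ℤ) else 0) ?_ hN
  refine ZF.sum _ fun i => ?_
  exact ZF.ite (delta0_first ha hb hu i) ((zf_lin (A i) hu l).add (ZF.nat (hc i l))) (ZF.const 0)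

theorem amap_dmap (A : Fin k → Matrix (Fin r) (Fin r) ℤ) {N : (Fin n → ℕ) → ℕ}
    {a b c : Fin k → Fin r → (Fin n → ℕ) → ℕ} (hN : DFun n N)
    (ha : ∀ i l, DFun n (a i l)) (hb : ∀ i l, DFun n (b i l)) (hc : ∀ i l, DFun n (c i l)) :
    DMap n r N (fun v => amap A (N v) (fun i l => a i l v) (fun i l => b i l v)
      (fun i l => c i l v)) where
  dN := hN
  step := fun l => dfun_amap A (N := fun w : Fin (n + 1) → ℕ => N (fun i => w i.succ))
    (a := fun i l w => a i l (fun i => w i.succ)) (b := fun i l w => b i l (fun i => w i.succ))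
    (c := fun i l w => c i l (fun i => w i.succ)) (u := fun l w => dec r (w 0) l)
    hN.weak (fun i l => (ha i l).weak) (fun i l => (hb i l).weak) (fun i l => (hc i l).weak)
    (fun l => DFun.dec (DFun.proj 0) l) l
  lt := fun _ u l hv => amap_lt hv _ _ _ u l

/-! ### Padding -/

theorem first_pad {k' : ℕ} (hk : k ≤ k') (hr : 0 < r) (a b : Fin k → Fin r → ℕ) (u : Fin r → ℕ)
    (i : Fin k') : First (padB k' (fun _ => 0) a) (padB k' (fun _ => 0) b) u i ↔
      ∃ h : (i : ℕ) < k, First a b u ⟨i, h⟩ := by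
  have hbox : ∀ j : Fin k', InBox (padB k' (fun _ => 0) a j) (padB k' (fun _ => 0) b j) u ↔
      ∃ h : (j : ℕ) < k, InBox (a ⟨j, h⟩) (b ⟨j, h⟩) u := by
    intro j
    unfold padB
    by_cases h : (j : ℕ) < k
    · simp only [dif_pos h, exists_prop_of_true h]
    · simp only [dif_neg h, h, IsEmpty.exists_iff, iff_false]
      intro h'
      exact absurd (h' ⟨0, hr⟩).2 (Nat.not_lt_zero _)
  unfold First
  rw [hbox]
  constructor
  · rintro ⟨⟨h, h1⟩, h2⟩
    refine ⟨h, h1, fun j hj hb => h2 ⟨j, j.2.trans_le hk⟩ ?_ ((hbox _).2 ⟨j.2, hb⟩)⟩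
    exact hj
  · rintro ⟨h, h1, h2⟩
    refine ⟨⟨h, h1⟩, fun j hj hb => ?_⟩
    obtain ⟨h3, h4⟩ := (hbox j).1 hb
    exact h2 ⟨j, h3⟩ hj h4

theorem amap_pad {k' : ℕ} (hk : k ≤ k') (hr : 0 < r) (A₀ : Matrix (Fin r) (Fin r) ℤ)
    (A : Fin k → Matrix (Fin r) (Fin r) ℤ) (N : ℕ) (a b c : Fin k → Fin r → ℕ) :
    amap (padB k' A₀ A) N (padB k' (fun _ => 0) a) (padB k' (fun _ => 0) b)
      (padB k' (fun _ => 0) c) = amap A N a b c := by
  funext u l
  unfold amap
  congr 2
  by_cases h : ∃ i, First a b u i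
  · obtain ⟨i, hi⟩ := h
    rw [sum_first hi]
    have h1 : First (padB k' (fun _ => 0) a) (padB k' (fun _ => 0) b) u ⟨i, i.2.trans_le hk⟩ :=
      (first_pad hk hr a b u _).2 ⟨i.2, hi⟩
    rw [sum_first h1]
    simp only [padB, dif_pos i.2, Fin.eta]
  · rw [Finset.sum_eq_zero, Finset.sum_eq_zero]
    · intro i _
      rw [if_neg fun hi => h ⟨i, hi⟩]
    · intro i _
      rw [if_neg]
      intro hi
      obtain ⟨h1, h2⟩ := (first_pad hk hr a b u i).1 hi
      exact h ⟨_, h2⟩

theorem OrbA.anti {S : Set (Matrix (Fin r) (Fin r) ℤ)} {k' : ℕ} (hk : k ≤ k') (hr : 0 < r)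
    (hS : S.Nonempty) (H : OrbA S k') : OrbA S k := by
  obtain ⟨A₀, hA₀⟩ := hS
  intro A hA n N a b c x y hN ha hb hc hx hy
  have hpad : ∀ (g : Fin k → Fin r → (Fin n → ℕ) → ℕ), (∀ i l, DFun n (g i l)) →
      ∀ (i : Fin k') (l : Fin r), DFun n (fun v => padB k' (fun _ => 0) (fun i l => g i l v) i l) := by
    intro g hg i l
    unfold padB
    by_cases h : (i : ℕ) < k
    · simp only [dif_pos h]
      exact hg _ _
    · simp only [dif_neg h]
      exact DFun.const 0
  have h := H (padB k' A₀ A) (fun i => by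
      unfold padB
      by_cases h : (i : ℕ) < k
      · simp only [dif_pos h]
        exact hA _
      · simp only [dif_neg h]
        exact hA₀) n N (fun i l v => padB k' (fun _ => 0) (fun i l => a i l v) i l)
    (fun i l v => padB k' (fun _ => 0) (fun i l => b i l v) i l)
    (fun i l v => padB k' (fun _ => 0) (fun i l => c i l v) i l) x y hN (hpad a ha) (hpad b hb)
    (hpad c hc) hx hy
  refine h.of_iff fun v => ?_
  have e := amap_pad hk hr A₀ A (N v) (fun i l => a i l v) (fun i l => b i l v)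
    (fun i l => c i l v)
  rw [← e]

/-! ### Polynomial data -/

theorem orbA_of_poly {S : Set (Matrix (Fin r) (Fin r) ℤ)}
    (H : ∀ (A : Fin k → Matrix (Fin r) (Fin r) ℤ), (∀ i, A i ∈ S) → ∀ (n : ℕ)
      (N : MvPolynomial (Fin n) ℕ) (a b c : Fin k → Fin r → MvPolynomial (Fin n) ℕ)
      (x y : Fin r → MvPolynomial (Fin n) ℕ), Delta0 n (fun v => 0 < eval v N ∧
        ∃ t, (amap A (eval v N) (fun i l => eval v (a i l)) (fun i l => eval v (b i l))
          (fun i l => eval v (c i l)))^[t] (fun l => eval v (x l)) = fun l => eval v (y l))) :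
    OrbA S k := by
  intro A hA n N a b c x y hN ha hb hc hx hy
  let e := Fintype.equivFin (UIx r k)
  have h1 := H A hA (Fintype.card (UIx r k)) (X (e none)) (fun i l => X (e (some (.inl (0, i, l)))))
    (fun i l => X (e (some (.inl (1, i, l))))) (fun i l => X (e (some (.inl (2, i, l)))))
    (fun l => X (e (some (.inr (0, l))))) (fun l => X (e (some (.inr (1, l)))))
  simp only [eval_X] at h1
  let g : UIx r k → (Fin n → ℕ) → ℕ := fun z => match z with
    | none => N
    | some (.inl (0, i, l)) => a i l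
    | some (.inl (1, i, l)) => b i l
    | some (.inl (2, i, l)) => c i l
    | some (.inr (0, l)) => x l
    | some (.inr (1, l)) => y l
  have hg : ∀ z, DFun n (g z) := by
    intro z
    match z with
    | none => exact hN
    | some (.inl (0, i, l)) => exact ha i l
    | some (.inl (1, i, l)) => exact hb i l
    | some (.inl (2, i, l)) => exact hc i l
    | some (.inr (0, l)) => exact hx l
    | some (.inr (1, l)) => exact hy l
  have h2 := h1.subst (h := fun j => g (e.symm j)) (fun j => hg _)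
  refine h2.of_iff fun v => ?_
  have he : ∀ z, (fun j => g (e.symm j) v) (e z) = g z v := by
    intro z
    show g (e.symm (e z)) v = g z v
    rw [Equiv.symm_apply_apply]
  simp only [he]
  exact Iff.rfl

/-! ### One number of boxes -/

theorem exists_k0 {S : Set (Matrix (Fin r) (Fin r) ℤ)} (hr : 0 < r) (hS : S.Nonempty)
    (H : ∀ (n : ℕ) (R : (Fin n → ℕ) → Prop), E2Star n R → ∃ k, OrbA S k → Delta0 n R) :
    ∃ k₀, ∀ k, k₀ ≤ k → OrbA S k →
      ∀ (n : ℕ) (R : (Fin n → ℕ) → Prop), E2Star n R → Delta0 n R := by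
  obtain ⟨k₀, hk₀⟩ := H _ _ urel_e2Star
  refine ⟨k₀, fun k hk hO n R hR => ?_⟩
  have h1 := hk₀ (hO.anti hk hr hS)
  obtain ⟨g, hg⟩ := urel_complete hR
  refine (h1.subst (h := fun i v => eval v (g i)) (fun i => DFun.ofPoly _)).of_iff fun v => ?_
  exact hg v

end Pool.Agent.MTr
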