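import Mathlib
import Pool.Agent.MTr.Univ
import Pool.Agent.MTr.EDefs
import Pool.Agent.PTr.Birk2

/-!
# Dynamics of tame families: definitions
-/

set_option autoImplicit false

namespace Pool.Agent.MTr

open Pool.Agent.Grz Pool.Agent.PTr Finset

variable {r k q L S : ℕ}

/-- The map given by a matrix and a translation for each letter. -/
def gmap (A : Fin q → Matrix (Fin r) (Fin r) ℤ) (c : Fin q → Fin r → ℤ) (N : ℕ)
    (ix : (Fin r → ℕ) → Fin q) (u : Fin r → ℕ) (l : Fin r) : ℕ :=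
  ((lin (A (ix u)) u l + c (ix u) l) % (N : ℤ)).toNat

open Classical in
/-- The letter of a point: the first box containing it; the last letter if there is none. -/
noncomputable def bix (a b : Fin k → Fin r → ℕ) (u : Fin r → ℕ) : Fin (k + 1) :=
  if h : ∃ i, First a b u i then h.choose.castSucc else Fin.last k

/-- The matrices with the default matrix `0`. -/
def extA (A : Fin k → Matrix (Fin r) (Fin r) ℤ) : Fin (k + 1) → Matrix (Fin r) (Fin r) ℤ :=
  Fin.snoc (α := fun _ => Matrix (Fin r) (Fin r) ℤ) A 0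

/-- The translations with the default translation `0`. -/
def extC (c : Fin k → Fin r → ℕ) : Fin (k + 1) → Fin r → ℤ :=
  Fin.snoc (α := fun _ => Fin r → ℤ) (fun i l => (c i l : ℤ)) 0

/-- The translation part of the composition of the affine maps of a word; the first letter acts
first. -/
def wcst (A : Fin q → Matrix (Fin r) (Fin r) ℤ) (c : Fin q → Fin r → ℤ) :
    List (Fin q) → Fin r → ℤ
  | [] => 0
  | i :: l => fun j => (wprod A l).mulVec (c i) j + wcst A c l j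

/-- The word of the letters of `L + 1` consecutive points of the orbit. -/
def wd (T : (Fin r → ℕ) → Fin r → ℕ) (ix : (Fin r → ℕ) → Fin q) (L : ℕ) (x : Fin r → ℕ) (j : ℕ) :
    Fin (L + 1) → Fin q := fun m => ix (T^[j + (m : ℕ)] x)

/-- The coordinate of the point at time `j`. -/
def zc (T : (Fin r → ℕ) → Fin r → ℕ) (ix : (Fin r → ℕ) → Fin q) (L : ℕ)
    (h : (Fin (L + 1) → Fin q) → Fin r → ℤ) (N : ℕ) (x : Fin r → ℕ) (j : ℕ) : ℕ :=
  ((∑ m, h (wd T ix L x j) m * ((T^[j] x m : ℕ) : ℤ)) % (N : ℤ)).toNat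

/-- The point `L + 1` steps later, from the coordinate `ζ`. -/
def opt (A : Fin q → Matrix (Fin r) (Fin r) ℤ) (c : Fin q → Fin r → ℤ) (N : ℕ)
    (g : (Fin (L + 1) → Fin q) → Fin r → ℤ) (w : Fin (L + 1) → Fin q) (ζ : ℕ) (l : Fin r) : ℕ :=
  ((g w l * (ζ : ℤ) + wcst A c (List.ofFn w) l) % (N : ℤ)).toNat

/-- The new weight. -/
def nwt (lam : (Fin (L + 1) → Fin q) → Fin q → ℤ) (w : Fin (L + 1) → Fin q) (i : Fin q)
    (s : ℕ) : ℕ := if lam w i = 0 then 1 else s * (lam w i).natAbs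

/-- The new scaled coordinate. -/
def nval (c : Fin q → Fin r → ℤ) (N Lam : ℕ) (h : (Fin (L + 1) → Fin q) → Fin r → ℤ)
    (lam : (Fin (L + 1) → Fin q) → Fin q → ℤ) (w : Fin (L + 1) → Fin q) (i : Fin q)
    (s z : ℕ) : ℕ :=
  (((lam w i).sign * (z : ℤ) + ((Lam / nwt lam w i s : ℕ) : ℤ) *
    ∑ m, h (shift w i) m * c (w 0) m) % ((Lam / nwt lam w i s * N : ℕ) : ℤ)).toNat

/-- The next state of the state machine; states are (word, weight, scaled coordinate). -/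
def nxt (A : Fin q → Matrix (Fin r) (Fin r) ℤ) (c : Fin q → Fin r → ℤ) (N Lam : ℕ)
    (g h : (Fin (L + 1) → Fin q) → Fin r → ℤ) (lam : (Fin (L + 1) → Fin q) → Fin q → ℤ)
    (ix : (Fin r → ℕ) → Fin q) (s : (Fin (L + 1) → Fin q) × ℕ × ℕ) :
    (Fin (L + 1) → Fin q) × ℕ × ℕ :=
  (shift s.1 (ix (opt A c N g s.1 (s.2.1 * s.2.2 / Lam))),
    nwt lam s.1 (ix (opt A c N g s.1 (s.2.1 * s.2.2 / Lam))) s.2.1,
    nval c N Lam h lam s.1 (ix (opt A c N g s.1 (s.2.1 * s.2.2 / Lam))) s.2.1 s.2.2)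

/-- The pairs of a word and a weight. -/
abbrev QS (q L S : ℕ) : Type := (Fin (L + 1) → Fin q) × Fin (S + 1)

/-- The number of a word and a weight. -/
def ecd {m : ℕ} (e : QS q L S ≃ Fin m) (w : Fin (L + 1) → Fin q) (s : ℕ) : ℕ :=
  if h : s < S + 1 then (e (w, ⟨s, h⟩) : ℕ) else 0

/-- The code of a state. -/
def cod {m : ℕ} (e : QS q L S ≃ Fin m) (N Lam : ℕ) (s : (Fin (L + 1) → Fin q) × ℕ × ℕ) : ℕ :=
  ecd e s.1 s.2.1 * (Lam * N) + s.2.2

open Classical in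
/-- The state machine on codes. -/
noncomputable def fcd {m : ℕ} (e : QS q L S ≃ Fin m) (P : (Fin (L + 1) → Fin q) → ℕ → Prop)
    (A : Fin q → Matrix (Fin r) (Fin r) ℤ) (c : Fin q → Fin r → ℤ) (N Lam : ℕ)
    (g h : (Fin (L + 1) → Fin q) → Fin r → ℤ) (lam : (Fin (L + 1) → Fin q) → Fin q → ℤ)
    (ix : (Fin r → ℕ) → Fin q) (u : ℕ) : ℕ :=
  ∑ Q : QS q L S, if u / (Lam * N) = (e Q : ℕ) ∧ P Q.1 Q.2 ∧
      u % (Lam * N) < Lam / (Q.2 : ℕ) * N then
    (∑ i : Fin q, if ix (opt A c N g Q.1 ((Q.2 : ℕ) * (u % (Lam * N)) / Lam)) = i then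
      ecd e (shift Q.1 i) (nwt lam Q.1 i Q.2) * (Lam * N) +
        nval c N Lam h lam Q.1 i Q.2 (u % (Lam * N)) else 0) else 0

/-- At most `d` jumps on `[0, M)`. -/
def Jmp {α : Type} (d M : ℕ) (f : ℕ → α) : Prop :=
  ∃ c : Finset ℕ, c.card ≤ d ∧ ∀ u, u + 1 < M → u + 1 ∉ c → f (u + 1) = f u

end Pool.Agent.MTr
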