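import Mathlib
import Pool.Agent.MTr.DDefs

/-!
# The state machine on codes

Let `W = Lam * N > 0` (`Lam, N > 0`).

* `cod_div`, `cod_mod`: the code of `(w, s, z)` with `s ≤ S` and `z < W` is `e (w, s) * W + z`.
* `fcd_cod`: with `u = cod (w, s, z)`, `P w s`, `z < Lam / s * N` (so `z < W`, since
  `Lam / s ≤ Lam`): `u / W = e (w, s)` and `u % W = z`, so in the sum over `Q` only `Q = (w, s)`
  (`e` injective, `Finset.sum_eq_single`) contributes, and in the sum over `i` only the letter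
  `i = ix (opt ...)` (`Finset.sum_ite_eq`). The result is the code of `nxt`.
* `fcd_lt`: if some term is nonzero it is `ecd .. * W + nval` with `ecd .. < m` (`ecd < m`:
  `m > 0` as `e Q : Fin m`) and `nval < Lam / s' * N ≤ W` where `s' = nwt ..`: `0 < Lam / s'`
  because `s'` divides `Lam`, which holds because `1 ≤ s' ≤ S` (`Cert.bd` with `Cert.one` or
  `Cert.step` for the pair `P Q.1 Q.2`). At most one pair `(Q, i)` contributes. If all terms
  vanish the value is `0 < m * W`; for this `m > 0` is needed: hypothesis `hm`.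
* `nwt_bd`: `Cert.bd` with `Cert.one`/`Cert.step`.
-/

set_option autoImplicit false

namespace Pool.Agent.MTr

open Pool.Agent.Grz Pool.Agent.PTr Finset

variable {r q L S m : ℕ}

theorem nwt_bd {A : Fin q → Matrix (Fin r) (Fin r) ℤ}
    {g h : (Fin (L + 1) → Fin q) → Fin r → ℤ} {lam : (Fin (L + 1) → Fin q) → Fin q → ℤ}
    {P : (Fin (L + 1) → Fin q) → ℕ → Prop} (hC : Cert A L S g h lam P)
    {w : Fin (L + 1) → Fin q} {s : ℕ} (hP : P w s) (i : Fin q) :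
    P (shift w i) (nwt lam w i s) ∧ 1 ≤ nwt lam w i s ∧ nwt lam w i s ≤ S := by
  have h1 : P (shift w i) (nwt lam w i s) := by
    unfold nwt
    split_ifs with h0
    · exact hC.one _
    · exact hC.step w i s hP h0
  exact ⟨h1, hC.bd _ _ h1⟩

theorem nval_lt {c : Fin q → Fin r → ℤ} {N Lam : ℕ} (hN : 0 < N)
    (h : (Fin (L + 1) → Fin q) → Fin r → ℤ) (lam : (Fin (L + 1) → Fin q) → Fin q → ℤ)
    (w : Fin (L + 1) → Fin q) (i : Fin q) (s z : ℕ) (hs : 0 < Lam / nwt lam w i s) :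
    nval c N Lam h lam w i s z < Lam / nwt lam w i s * N := by
  have hpos : 0 < Lam / nwt lam w i s * N := Nat.mul_pos hs hN
  have hpos' : (0 : ℤ) < ((Lam / nwt lam w i s * N : ℕ) : ℤ) := by exact_mod_cast hpos
  unfold nval
  rw [Int.toNat_lt (Int.emod_nonneg _ hpos'.ne')]
  exact Int.emod_lt_of_pos _ hpos'

private theorem ecd_eq_DCode (e : QS q L S ≃ Fin m) (w : Fin (L + 1) → Fin q) {s : ℕ}
    (hs : s < S + 1) : ecd e w s = (e (w, ⟨s, hs⟩) : ℕ) := by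
  unfold ecd
  rw [dif_pos hs]

private theorem ecd_lt_DCode (hm : 0 < m) (e : QS q L S ≃ Fin m) (w : Fin (L + 1) → Fin q)
    (s : ℕ) : ecd e w s < m := by
  unfold ecd
  split_ifs with h
  · exact Fin.is_lt _
  · exact hm

theorem cod_div (e : QS q L S ≃ Fin m) {N Lam : ℕ} {w : Fin (L + 1) → Fin q} {s z : ℕ}
    (hs : s < S + 1) (hz : z < Lam * N) :
    cod e N Lam (w, s, z) / (Lam * N) = (e (w, ⟨s, hs⟩) : ℕ) := by
  change (ecd e w s * (Lam * N) + z) / (Lam * N) = _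
  rw [add_comm, Nat.add_mul_div_right _ _ (lt_of_le_of_lt (Nat.zero_le _) hz),
    Nat.div_eq_of_lt hz, zero_add, ecd_eq_DCode e w hs]

theorem cod_mod (e : QS q L S ≃ Fin m) {N Lam : ℕ} {w : Fin (L + 1) → Fin q} {s z : ℕ}
    (hz : z < Lam * N) : cod e N Lam (w, s, z) % (Lam * N) = z := by
  change (ecd e w s * (Lam * N) + z) % (Lam * N) = _
  rw [add_comm, Nat.add_mul_mod_self_right, Nat.mod_eq_of_lt hz]

private theorem fcd_eq_DCode (e : QS q L S ≃ Fin m) (P : (Fin (L + 1) → Fin q) → ℕ → Prop)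
    (A : Fin q → Matrix (Fin r) (Fin r) ℤ) (c : Fin q → Fin r → ℤ) (N Lam : ℕ)
    (g h : (Fin (L + 1) → Fin q) → Fin r → ℤ) (lam : (Fin (L + 1) → Fin q) → Fin q → ℤ)
    (ix : (Fin r → ℕ) → Fin q) (u : ℕ) (Q : QS q L S) (h1 : u / (Lam * N) = (e Q : ℕ))
    (h2 : P Q.1 Q.2) (h3 : u % (Lam * N) < Lam / (Q.2 : ℕ) * N) :
    fcd e P A c N Lam g h lam ix u =
      ecd e (shift Q.1 (ix (opt A c N g Q.1 ((Q.2 : ℕ) * (u % (Lam * N)) / Lam))))
          (nwt lam Q.1 (ix (opt A c N g Q.1 ((Q.2 : ℕ) * (u % (Lam * N)) / Lam))) Q.2) *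
          (Lam * N) +
        nval c N Lam h lam Q.1 (ix (opt A c N g Q.1 ((Q.2 : ℕ) * (u % (Lam * N)) / Lam))) Q.2
          (u % (Lam * N)) := by
  classical
  unfold fcd
  rw [Finset.sum_eq_single Q]
  · rw [if_pos ⟨h1, h2, h3⟩, Finset.sum_ite_eq, if_pos (Finset.mem_univ _)]
  · intro Q' _ hQ'
    rw [if_neg]
    rintro ⟨h4, -, -⟩
    exact hQ' (e.injective (Fin.ext (h4.symm.trans h1)))
  · intro h4
    exact absurd (Finset.mem_univ _) h4

theorem fcd_cod {A : Fin q → Matrix (Fin r) (Fin r) ℤ}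
    {g h : (Fin (L + 1) → Fin q) → Fin r → ℤ} {lam : (Fin (L + 1) → Fin q) → Fin q → ℤ}
    {P : (Fin (L + 1) → Fin q) → ℕ → Prop} (hC : Cert A L S g h lam P) (e : QS q L S ≃ Fin m)
    (c : Fin q → Fin r → ℤ) {N Lam : ℕ} (hN : 0 < N) (hLam : 0 < Lam)
    (ix : (Fin r → ℕ) → Fin q) {w : Fin (L + 1) → Fin q} {s z : ℕ} (hP : P w s)
    (hz : z < Lam / s * N) :
    fcd e P A c N Lam g h lam ix (cod e N Lam (w, s, z)) =
      cod e N Lam (nxt A c N Lam g h lam ix (w, s, z)) := by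
  have hs : s < S + 1 := Nat.lt_succ_of_le (hC.bd w s hP).2
  have hz' : z < Lam * N := hz.trans_le (Nat.mul_le_mul_right N (Nat.div_le_self Lam s))
  have hm' := cod_mod e (w := w) (s := s) hz'
  rw [fcd_eq_DCode e P A c N Lam g h lam ix (cod e N Lam (w, s, z)) (w, ⟨s, hs⟩)
    (cod_div e hs hz') hP (by rw [hm']; exact hz), hm']
  rfl

theorem fcd_lt {A : Fin q → Matrix (Fin r) (Fin r) ℤ}
    {g h : (Fin (L + 1) → Fin q) → Fin r → ℤ} {lam : (Fin (L + 1) → Fin q) → Fin q → ℤ}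
    {P : (Fin (L + 1) → Fin q) → ℕ → Prop} (hC : Cert A L S g h lam P) (hm : 0 < m)
    (e : QS q L S ≃ Fin m) (c : Fin q → Fin r → ℤ) {N Lam : ℕ} (hN : 0 < N) (hLam : 0 < Lam)
    (hdvd : ∀ s, 1 ≤ s → s ≤ S → s ∣ Lam) (ix : (Fin r → ℕ) → Fin q) (u : ℕ) :
    fcd e P A c N Lam g h lam ix u < m * (Lam * N) := by
  classical
  have hW : 0 < Lam * N := Nat.mul_pos hLam hN
  by_cases hQ : ∃ Q : QS q L S, u / (Lam * N) = (e Q : ℕ) ∧ P Q.1 Q.2 ∧
      u % (Lam * N) < Lam / (Q.2 : ℕ) * N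
  · obtain ⟨Q, h1, h2, h3⟩ := hQ
    rw [fcd_eq_DCode e P A c N Lam g h lam ix u Q h1 h2 h3]
    set i := ix (opt A c N g Q.1 ((Q.2 : ℕ) * (u % (Lam * N)) / Lam)) with hi
    obtain ⟨-, h4, h5⟩ := nwt_bd hC h2 i
    have h6 : 0 < Lam / nwt lam Q.1 i Q.2 :=
      Nat.div_pos (Nat.le_of_dvd hLam (hdvd _ h4 h5)) h4
    have h7 := nval_lt (c := c) hN h lam Q.1 i Q.2 (u % (Lam * N)) h6
    have h8 : Lam / nwt lam Q.1 i Q.2 * N ≤ Lam * N :=
      Nat.mul_le_mul_right N (Nat.div_le_self _ _)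
    have h9 := ecd_lt_DCode hm e (shift Q.1 i) (nwt lam Q.1 i Q.2)
    calc ecd e (shift Q.1 i) (nwt lam Q.1 i Q.2) * (Lam * N) +
          nval c N Lam h lam Q.1 i Q.2 (u % (Lam * N))
        < ecd e (shift Q.1 i) (nwt lam Q.1 i Q.2) * (Lam * N) + Lam * N :=
          Nat.add_lt_add_left (h7.trans_le h8) _
      _ = (ecd e (shift Q.1 i) (nwt lam Q.1 i Q.2) + 1) * (Lam * N) := by ring
      _ ≤ m * (Lam * N) := Nat.mul_le_mul_right _ h9
  · have h0 : fcd e P A c N Lam g h lam ix u = 0 := by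
      unfold fcd
      refine Finset.sum_eq_zero fun Q _ => if_neg fun h4 => hQ ⟨Q, h4⟩
    rw [h0]
    exact Nat.mul_pos hm hW

end Pool.Agent.MTr
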