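import Mathlib
import Pool.Agent.MTr.DDefs

/-!
# The letter of a point

Proofs. `first_unique`, `sum_first` (Univ.lean), `Fin.snoc_castSucc`, `Fin.snoc_last`,
`Fin.lastCases`. For `amap_eq_gmap`: if `First a b u i` then the sum in `amap` is
`lin (A i) u l + c i l` and `bix a b u = i.castSucc`; if there is no first box the sum is `0` and
`extA A (Fin.last k) = 0`, `extC c (Fin.last k) = 0`, so `gmap` is `0` too. For
`range_extA`: `Fin.lastCases` or `Fin.range_snoc`.
-/

set_option autoImplicit false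

namespace Pool.Agent.MTr

open Pool.Agent.Grz Pool.Agent.PTr Finset

variable {r k : ℕ}

private theorem bix_of_first {a b : Fin k → Fin r → ℕ} {u : Fin r → ℕ} {i : Fin k}
    (h : First a b u i) : bix a b u = i.castSucc := by
  classical
  have hex : ∃ i, First a b u i := ⟨i, h⟩
  unfold bix
  rw [dif_pos hex, first_unique hex.choose_spec h]

private theorem bix_of_not {a b : Fin k → Fin r → ℕ} {u : Fin r → ℕ}
    (h : ¬ ∃ i, First a b u i) : bix a b u = Fin.last k := by
  classical
  unfold bix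
  rw [dif_neg h]

private theorem castSucc_ne_last (i : Fin k) : i.castSucc ≠ Fin.last k :=
  (Fin.castSucc_lt_last i).ne

theorem bix_eq_iff (a b : Fin k → Fin r → ℕ) (u : Fin r → ℕ) (i : Fin k) :
    bix a b u = i.castSucc ↔ First a b u i := by
  constructor
  · intro h
    by_cases hex : ∃ j, First a b u j
    · obtain ⟨j, hj⟩ := hex
      rw [bix_of_first hj] at h
      rw [← Fin.castSucc_injective k h]
      exact hj
    · rw [bix_of_not hex] at h
      exact absurd h.symm (castSucc_ne_last i)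
  · exact bix_of_first

theorem bix_last_iff (a b : Fin k → Fin r → ℕ) (u : Fin r → ℕ) :
    bix a b u = Fin.last k ↔ ∀ i, ¬ First a b u i := by
  constructor
  · intro h i hi
    rw [bix_of_first hi] at h
    exact castSucc_ne_last i h
  · intro h
    exact bix_of_not fun ⟨i, hi⟩ => h i hi

/-- The letter depends only on the comparisons with the corners. -/
theorem bix_congr (a b : Fin k → Fin r → ℕ) {u u' : Fin r → ℕ}
    (ha : ∀ i l, a i l ≤ u l ↔ a i l ≤ u' l) (hb : ∀ i l, b i l ≤ u l ↔ b i l ≤ u' l) :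
    bix a b u = bix a b u' := by
  have h1 : ∀ i, InBox (a i) (b i) u ↔ InBox (a i) (b i) u' := by
    intro i
    unfold InBox
    refine forall_congr' fun l => ?_
    have h2 := hb i l
    rw [ha i l, ← not_le, ← not_le, h2]
  have h2 : ∀ i, First a b u i ↔ First a b u' i := by
    intro i
    unfold First
    rw [h1 i]
    refine and_congr_right fun _ => forall_congr' fun j => ?_
    rw [h1 j]
  by_cases hex : ∃ i, First a b u i
  · obtain ⟨i, hi⟩ := hex
    rw [bix_of_first hi, bix_of_first ((h2 i).1 hi)]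
  · rw [bix_of_not hex, bix_of_not fun ⟨i, hi⟩ => hex ⟨i, (h2 i).2 hi⟩]

theorem amap_eq_gmap (A : Fin k → Matrix (Fin r) (Fin r) ℤ) (N : ℕ) (a b c : Fin k → Fin r → ℕ) :
    amap A N a b c = gmap (extA A) (extC c) N (bix a b) := by
  funext u l
  unfold amap gmap
  by_cases hex : ∃ i, First a b u i
  · obtain ⟨i, hi⟩ := hex
    have h1 : extA A i.castSucc = A i :=
      Fin.snoc_castSucc (α := fun _ => Matrix (Fin r) (Fin r) ℤ) 0 A i
    have h2 : extC c i.castSucc = fun l => (c i l : ℤ) :=
      Fin.snoc_castSucc (α := fun _ => Fin r → ℤ) 0 (fun i l => (c i l : ℤ)) i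
    rw [sum_first hi, bix_of_first hi, h1, h2]
  · have h1 : extA A (Fin.last k) = 0 :=
      Fin.snoc_last (α := fun _ => Matrix (Fin r) (Fin r) ℤ) 0 A
    have h2 : extC c (Fin.last k) = 0 :=
      Fin.snoc_last (α := fun _ => Fin r → ℤ) 0 (fun i l => (c i l : ℤ))
    rw [Finset.sum_eq_zero fun i _ => if_neg fun hi => hex ⟨i, hi⟩, bix_of_not hex, h1, h2]
    have h3 : lin (0 : Matrix (Fin r) (Fin r) ℤ) u l = 0 := by
      unfold lin
      simp
    rw [h3, Pi.zero_apply, add_zero]

theorem range_extA (A : Fin k → Matrix (Fin r) (Fin r) ℤ) :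
    Set.range (extA A) = insert 0 (Set.range A) := by
  ext M
  constructor
  · rintro ⟨i, rfl⟩
    refine Fin.lastCases ?_ (fun j => ?_) i
    · left
      exact Fin.snoc_last (α := fun _ => Matrix (Fin r) (Fin r) ℤ) 0 A
    · right
      exact ⟨j, (Fin.snoc_castSucc (α := fun _ => Matrix (Fin r) (Fin r) ℤ) 0 A j).symm⟩
  · rintro (rfl | ⟨j, rfl⟩)
    · exact ⟨Fin.last k, Fin.snoc_last (α := fun _ => Matrix (Fin r) (Fin r) ℤ) 0 A⟩
    · exact ⟨j.castSucc, Fin.snoc_castSucc (α := fun _ => Matrix (Fin r) (Fin r) ℤ) 0 A j⟩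

end Pool.Agent.MTr
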