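import Mathlib
import Pool.Agent.MTr.DDefs

/-!
# Functions with boundedly many jumps

Proofs: unions and images of the finite sets of jumps.
* `Jmp.block`: the jumps of `f` on `[0, m * W)`: the multiples `e * W` with `e < m` (at most `m`) and
  the numbers `e * W + z` with `z` in the jump set of the block `e`: together `≤ m * (d + 1)`. For
  `u + 1 < m * W` not in this set: `u + 1` is not a multiple of `W`, so `u` and `u + 1` are in the same
  block `e = u / W`, `u = e * W + z`, `z + 1 < W`. (`W = 0` is trivial: there is no such `u`.)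
* `Jmp.ite_lt`: add the jump `t`.
* `Jmp.of_monotone`: the jump set is the set of the `u + 1 < M` with `f (u + 1) ≠ f u`; the sum over
  `u + 1 < M` of `f (u + 1) - f u ≥ 0` telescopes to `f (M - 1) - f 0 ≤ d`
  (`Finset.sum_range_sub`), and each jump contributes at least `1`, so there are at most `d` jumps.
  The antitone case: apply it to `-f`.
* `cutA_of_jmp`: `CutA` (Birk2.lean) asks for `cut : Fin (2 * d) → ℕ` such that for `u + 2 < M`,
  `u` different from all cuts, the values at `u, u + 1, u + 2` are `x, x + 1, x + 2` or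
  `x + 2, x + 1, x` or `x, x, x`. Take for the cuts `j - 1` and `j - 2` for the jumps `j`
  (enumerate the finite set of the jumps, of cardinality `≤ d`). If `u + 1` and `u + 2` are not
  jumps, `φ u = φ (u + 1) = φ (u + 2)` and `F` is affine on the three points with slope
  `σ ∈ {0, 1, -1}`.
-/

set_option autoImplicit false

namespace Pool.Agent.MTr

open Pool.Agent.Grz Pool.Agent.PTr Finset

variable {α β : Type} {d d' M : ℕ}

theorem Jmp.mono {f : ℕ → α} (h : Jmp d M f) (hd : d ≤ d') : Jmp d' M f := by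
  obtain ⟨c, hc, h⟩ := h
  exact ⟨c, hc.trans hd, h⟩

theorem Jmp.shorter {M' : ℕ} {f : ℕ → α} (h : Jmp d M f) (hM : M' ≤ M) : Jmp d M' f := by
  obtain ⟨c, hc, h⟩ := h
  exact ⟨c, hc, fun u hu => h u (by omega)⟩

theorem Jmp.congr {f g : ℕ → α} (h : Jmp d M f) (hfg : ∀ u, u < M → g u = f u) : Jmp d M g := by
  obtain ⟨c, hc, h⟩ := h
  refine ⟨c, hc, fun u hu hm => ?_⟩
  rw [hfg (u + 1) hu, hfg u (by omega), h u hu hm]

theorem Jmp.map {f : ℕ → α} (h : Jmp d M f) (g : α → β) : Jmp d M (fun u => g (f u)) := by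
  obtain ⟨c, hc, h⟩ := h
  exact ⟨c, hc, fun u hu hm => congrArg g (h u hu hm)⟩

theorem Jmp.factor {φ : ℕ → α} {f : ℕ → β} (h : Jmp d M φ)
    (hf : ∀ u, u + 1 < M → φ (u + 1) = φ u → f (u + 1) = f u) : Jmp d M f := by
  obtain ⟨c, hc, h⟩ := h
  exact ⟨c, hc, fun u hu hm => hf u hu (h u hu hm)⟩

theorem Jmp.prod {f : ℕ → α} {g : ℕ → β} (hf : Jmp d M f) (hg : Jmp d' M g) :
    Jmp (d + d') M (fun u => (f u, g u)) := by
  obtain ⟨c, hc, h⟩ := hf
  obtain ⟨c', hc', h'⟩ := hg
  refine ⟨c ∪ c', (card_union_le c c').trans (by omega), fun u hu hm => ?_⟩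
  rw [mem_union, not_or] at hm
  show (f (u + 1), g (u + 1)) = (f u, g u)
  rw [h u hu hm.1, h' u hu hm.2]

theorem Jmp.pi {ι : Type} [Fintype ι] {f : ι → ℕ → α} (hf : ∀ i, Jmp d M (f i)) :
    Jmp (Fintype.card ι * d) M (fun u i => f i u) := by
  choose c hc h using hf
  refine ⟨univ.biUnion c, card_biUnion_le_card_mul _ _ _ fun i _ => hc i, fun u hu hm => ?_⟩
  funext i
  refine h i u hu fun hi => hm ?_
  exact mem_biUnion.2 ⟨i, mem_univ i, hi⟩

theorem Jmp.ite_lt {f : ℕ → α} {t : ℕ} (h : Jmp d t f) (y : α) :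
    Jmp (d + 1) M (fun u => if u < t then f u else y) := by
  obtain ⟨c, hc, h⟩ := h
  refine ⟨insert t c, (card_insert_le t c).trans (by omega), fun u hu hm => ?_⟩
  rw [mem_insert, not_or] at hm
  show (if u + 1 < t then f (u + 1) else y) = if u < t then f u else y
  by_cases h1 : u + 1 < t
  · rw [if_pos h1, if_pos (by omega), h u h1 hm.2]
  · rw [if_neg h1, if_neg (by omega)]

theorem Jmp.block {f : ℕ → α} {m W : ℕ} (h : ∀ e, e < m → Jmp d W (fun z => f (e * W + z))) :
    Jmp (m * (d + 1)) (m * W) f := by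
  choose! c hc h using h
  refine ⟨(range m).biUnion fun e => insert (e * W) ((c e).image fun z => e * W + z), ?_, ?_⟩
  · have h1 := card_biUnion_le_card_mul (range m)
      (fun e => insert (e * W) ((c e).image fun z => e * W + z)) (d + 1) fun e he =>
        (card_insert_le _ _).trans
          (Nat.add_le_add_right (card_image_le.trans (hc e (mem_range.1 he))) 1)
    rwa [card_range] at h1
  · intro u hu hm
    have hW : 0 < W := by
      rcases Nat.eq_zero_or_pos W with h0 | h0
      · rw [h0, Nat.mul_zero] at hu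
        omega
      · exact h0
    have hdm := Nat.div_add_mod u W
    have hmod := Nat.mod_lt u hW
    obtain ⟨e, he⟩ : ∃ e, e = u / W := ⟨_, rfl⟩
    obtain ⟨z, hz⟩ : ∃ z, z = u % W := ⟨_, rfl⟩
    rw [← he, ← hz, Nat.mul_comm] at hdm
    rw [← hz] at hmod
    have hem : e < m := by
      rw [he]
      exact Nat.div_lt_of_lt_mul (by rw [Nat.mul_comm]; omega)
    have hm' : ∀ e' < m, u + 1 ≠ e' * W ∧ ∀ z' ∈ c e', u + 1 ≠ e' * W + z' := by
      intro e' he'
      refine ⟨fun h1 => hm ?_, fun z' hz' h1 => hm ?_⟩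
      · exact mem_biUnion.2 ⟨e', mem_range.2 he', mem_insert.2 (Or.inl h1)⟩
      · exact mem_biUnion.2 ⟨e', mem_range.2 he', mem_insert.2 (Or.inr
          (mem_image.2 ⟨z', hz', h1.symm⟩))⟩
    by_cases h1 : z + 1 < W
    · have h2 : z + 1 ∉ c e := fun h3 => (hm' e hem).2 (z + 1) h3 (by omega)
      have h3 := h e hem z h1 h2
      have h4 : u = e * W + z := hdm.symm
      have h5 : u + 1 = e * W + (z + 1) := by omega
      rw [h5, h4]
      exact h3
    · exfalso
      have h2 : u + 1 = (e + 1) * W := by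
        rw [Nat.add_mul, Nat.one_mul]
        omega
      have h3 : e + 1 < m := by
        rw [h2] at hu
        exact lt_of_mul_lt_mul_right hu (Nat.zero_le W)
      exact (hm' (e + 1) h3).1 h2

theorem Jmp.of_monotone {f : ℕ → ℤ} (hf : ∀ u, u + 1 < M → f u ≤ f (u + 1))
    (hd : ∀ u, u < M → f u - f 0 ≤ d) : Jmp d M f := by
  refine ⟨((range (M - 1)).filter fun u => f (u + 1) ≠ f u).image (fun u => u + 1), ?_, ?_⟩
  · refine card_image_le.trans ?_
    have h1 : ((((range (M - 1)).filter fun u => f (u + 1) ≠ f u).card : ℕ) : ℤ) ≤ d := by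
      calc ((((range (M - 1)).filter fun u => f (u + 1) ≠ f u).card : ℕ) : ℤ)
          = ∑ u ∈ (range (M - 1)).filter fun u => f (u + 1) ≠ f u, (1 : ℤ) := by
            rw [sum_const, nsmul_eq_mul, mul_one]
        _ ≤ ∑ u ∈ (range (M - 1)).filter fun u => f (u + 1) ≠ f u, (f (u + 1) - f u) := by
            refine sum_le_sum fun u hu => ?_
            rw [mem_filter, mem_range] at hu
            have h2 := hf u (by omega)
            have h3 := hu.2
            omega
        _ ≤ ∑ u ∈ range (M - 1), (f (u + 1) - f u) := by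
            refine sum_le_sum_of_subset_of_nonneg (filter_subset _ _) fun u hu _ => ?_
            rw [mem_range] at hu
            have h2 := hf u (by omega)
            omega
        _ = f (M - 1) - f 0 := sum_range_sub f (M - 1)
        _ ≤ d := by
            rcases Nat.eq_zero_or_pos M with h0 | h0
            · rw [h0]
              simp
            · exact hd (M - 1) (by omega)
    exact_mod_cast h1
  · intro u hu hm
    by_contra h1
    exact hm (mem_image.2 ⟨u, mem_filter.2 ⟨mem_range.2 (by omega), h1⟩, rfl⟩)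

theorem Jmp.of_antitone {f : ℕ → ℤ} (hf : ∀ u, u + 1 < M → f (u + 1) ≤ f u)
    (hd : ∀ u, u < M → f 0 - f u ≤ d) : Jmp d M f := by
  have h1 : Jmp d M fun u => -f u := by
    refine Jmp.of_monotone (fun u hu => ?_) fun u hu => ?_
    · have := hf u hu
      omega
    · have := hd u hu
      omega
  have h2 := h1.map fun x => -x
  simpa only [neg_neg] using h2

private theorem exists_enum {S : Finset ℕ} {k : ℕ} (h : S.card ≤ k) :
    ∃ cut : Fin k → ℕ, ∀ s ∈ S, ∃ j, cut j = s := by
  refine ⟨fun j => S.toList.getD j 0, fun s hs => ?_⟩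
  obtain ⟨i, hi, h1⟩ := List.mem_iff_getElem.1 (mem_toList.2 hs)
  have hik : i < k := by
    rw [length_toList] at hi
    omega
  refine ⟨⟨i, hik⟩, ?_⟩
  show S.toList.getD i 0 = s
  rw [← h1, List.getD_eq_getElem]

theorem cutA_of_jmp {φ : ℕ → α} {F : ℕ → ℕ} (σ κ : α → ℤ)
    (hσ : ∀ u, u < M → σ (φ u) = 0 ∨ σ (φ u) = 1 ∨ σ (φ u) = -1)
    (hF : ∀ u, u < M → (F u : ℤ) = σ (φ u) * (u : ℤ) + κ (φ u)) (h : Jmp d M φ) :
    CutA (2 * d) M F := by
  obtain ⟨c, hc, h⟩ := h
  have hS : (c.image (fun j => j - 1) ∪ c.image (fun j => j - 2)).card ≤ 2 * d := by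
    have h1 := card_union_le (c.image (fun j => j - 1)) (c.image (fun j => j - 2))
    have h2 : (c.image (fun j => j - 1)).card ≤ c.card := card_image_le
    have h3 : (c.image (fun j => j - 2)).card ≤ c.card := card_image_le
    omega
  obtain ⟨cut, hcut⟩ := exists_enum hS
  refine ⟨cut, fun u hu hne => ?_⟩
  have hu1 : u + 1 ∉ c := fun h1 => by
    obtain ⟨j, hj⟩ := hcut u (mem_union_left _ (mem_image.2 ⟨u + 1, h1, by omega⟩))
    exact hne j hj
  have hu2 : u + 1 + 1 ∉ c := fun h1 => by
    obtain ⟨j, hj⟩ := hcut u (mem_union_right _ (mem_image.2 ⟨u + 1 + 1, h1, by omega⟩))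
    exact hne j hj
  have e1 := h u (by omega) hu1
  have e2 := h (u + 1) (by omega) hu2
  have f0 := hF u (by omega)
  have f1 := hF (u + 1) (by omega)
  have f2 := hF (u + 2) hu
  have e3 : φ (u + 2) = φ u := e2.trans e1
  rw [e1] at f1
  rw [e3] at f2
  rcases hσ u (by omega) with h0 | h0 | h0 <;> rw [h0] at f0 f1 f2 <;> push_cast at f0 f1 f2
  · right; right
    constructor <;> omega
  · left
    constructor <;> omega
  · right; left
    constructor <;> omega

end Pool.Agent.MTr
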