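import Mathlib
import Pool.Agent.MTr.DIdx
import Pool.Agent.MTr.JBasic

/-!
# Jumps of the letters and of the quotients

Proofs.
* `jmp_div`: for `σ = 1` the function `z ↦ (z + K) / N'` is monotone (`Int.ediv_le_ediv`) and
  `(z + K) / N' - K / N' ≤ z / N' + 1 ≤ D + 1` for `z < M ≤ D * N'`; `Jmp.of_monotone`. For `σ = -1`
  antitone, the same bound, `Jmp.of_antitone`. For `σ = 0` constant.
* `le_emod_iff`: `y = N (y / N) + y % N` with `0 ≤ y % N < N`. For `t < N`,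
  `(y - t) / N = y / N + (y % N - t) / N` and `-N < y % N - t < N`, so the last quotient is `0` if
  `t ≤ y % N` and `-1` otherwise. For `t ≥ N` both sides are false.
* `jmp_le_emod`: let `ζ z = s * z / Lam` (natural division), monotone in `z`, and `ζ z < N` for
  `z < Lam / s * N` (`s * z < Lam * N` as `s * (Lam / s) = Lam`). The functions
  `z ↦ (γ * ζ z + C) / N` and `z ↦ (γ * ζ z + C - t) / N` are monotone or antitone (sign of `γ`)
  and vary by at most `|γ| + 1 ≤ G + 1`, so each has at most `G + 1` jumps; by `le_emod_iff` the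
  truth value is a function of the two (`Jmp.prod`, `Jmp.factor`).
* `jmp_bix`: the letter depends only on the truth values of `a i l ≤ pt l` and `b i l ≤ pt l`
  (`bix_congr`), `pt l = (..) .toNat` with a nonnegative argument (`Int.le_toNat`); use
  `jmp_le_emod`, `Jmp.pi` over `Fin k × Fin r`, `Jmp.prod`, `Jmp.factor`, `Jmp.mono`.
-/

set_option autoImplicit false

namespace Pool.Agent.MTr

open Pool.Agent.Grz Pool.Agent.PTr Finset

variable {r k : ℕ}

private theorem ediv_add_le {N : ℕ} (hN : 0 < N) {x y : ℤ} {G : ℕ} (h : x ≤ y + G * N) :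
    x / (N : ℤ) ≤ y / (N : ℤ) + G := by
  have hN' : (0 : ℤ) < N := by exact_mod_cast hN
  have h1 := Int.ediv_le_ediv hN' h
  rwa [Int.add_mul_ediv_right _ _ hN'.ne'] at h1

private theorem jmp_aux {M N G : ℕ} (hN : 0 < N) {ζ : ℕ → ℕ} (hmono : ∀ u, ζ u ≤ ζ (u + 1))
    {γ : ℤ} (hb : ∀ u, u < M → γ.natAbs * ζ u ≤ G * N) (K : ℤ) :
    Jmp (G + 1) M (fun z => (γ * ((ζ z : ℕ) : ℤ) + K) / (N : ℤ)) := by
  have hN' : (0 : ℤ) < N := by exact_mod_cast hN
  have h0 : (0 : ℤ) ≤ ζ 0 := Int.natCast_nonneg _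
  rcases le_total 0 γ with hγ | hγ
  · refine Jmp.of_monotone (fun u _ => ?_) fun u hu => ?_
    · refine Int.ediv_le_ediv hN' ?_
      have h1 : ((ζ u : ℕ) : ℤ) ≤ ((ζ (u + 1) : ℕ) : ℤ) := by exact_mod_cast hmono u
      nlinarith
    · have h1 : γ * ((ζ u : ℕ) : ℤ) ≤ G * N := by
        have h2 := hb u hu
        have h3 : ((γ.natAbs * ζ u : ℕ) : ℤ) ≤ ((G * N : ℕ) : ℤ) := by exact_mod_cast h2
        push_cast at h3
        rwa [abs_of_nonneg hγ] at h3
      have h4 : 0 ≤ γ * ((ζ 0 : ℕ) : ℤ) := mul_nonneg hγ h0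
      have h5 := ediv_add_le hN (x := γ * ((ζ u : ℕ) : ℤ) + K) (y := γ * ((ζ 0 : ℕ) : ℤ) + K)
        (G := G) (by linarith)
      push_cast
      linarith
  · refine Jmp.of_antitone (fun u _ => ?_) fun u hu => ?_
    · refine Int.ediv_le_ediv hN' ?_
      have h1 : ((ζ u : ℕ) : ℤ) ≤ ((ζ (u + 1) : ℕ) : ℤ) := by exact_mod_cast hmono u
      nlinarith
    · have h1 : -γ * ((ζ u : ℕ) : ℤ) ≤ G * N := by
        have h2 := hb u hu
        have h3 : ((γ.natAbs * ζ u : ℕ) : ℤ) ≤ ((G * N : ℕ) : ℤ) := by exact_mod_cast h2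
        push_cast at h3
        rwa [abs_of_nonpos hγ] at h3
      have h4 : 0 ≤ -γ * ((ζ 0 : ℕ) : ℤ) := mul_nonneg (by linarith) h0
      have h5 := ediv_add_le hN (x := γ * ((ζ 0 : ℕ) : ℤ) + K) (y := γ * ((ζ u : ℕ) : ℤ) + K)
        (G := G) (by linarith)
      push_cast
      linarith

theorem jmp_div {M N' D : ℕ} (h0 : 0 < N') (hD : M ≤ D * N') {σ : ℤ}
    (hσ : σ = 0 ∨ σ = 1 ∨ σ = -1) (K : ℤ) :
    Jmp (D + 1) M (fun z => (σ * (z : ℤ) + K) / (N' : ℤ)) := by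
  refine jmp_aux (ζ := fun z => z) h0 (fun u => Nat.le_succ u) (fun u hu => ?_) K
  have h1 : σ.natAbs ≤ 1 := by
    rcases hσ with h | h | h <;> rw [h] <;> decide
  calc σ.natAbs * u ≤ 1 * u := Nat.mul_le_mul_right u h1
    _ = u := one_mul u
    _ ≤ D * N' := by omega

theorem le_emod_iff {N : ℕ} (hN : 0 < N) (y : ℤ) (t : ℕ) :
    (t : ℤ) ≤ y % (N : ℤ) ↔ t < N ∧ (y - t) / (N : ℤ) = y / (N : ℤ) := by
  have hN' : (0 : ℤ) < N := by exact_mod_cast hN
  have h1 := Int.emod_nonneg y hN'.ne'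
  have h2 := Int.emod_lt_of_pos y hN'
  have h3 := Int.mul_ediv_add_emod y N
  constructor
  · intro h
    have h4 : (t : ℤ) < N := by omega
    refine ⟨by exact_mod_cast h4, ?_⟩
    have h5 : y - t = (y % (N : ℤ) - t) + (y / (N : ℤ)) * N := by linarith
    rw [h5, Int.add_mul_ediv_right _ _ hN'.ne', Int.ediv_eq_zero_of_lt (by omega) (by omega),
      zero_add]
  · rintro ⟨h4, h5⟩
    by_contra h6
    have h7 : y - t = (y % (N : ℤ) - t) + (y / (N : ℤ)) * N := by linarith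
    rw [h7, Int.add_mul_ediv_right _ _ hN'.ne'] at h5
    have h8 : (y % (N : ℤ) - t) / (N : ℤ) < 0 := Int.ediv_neg_of_neg_of_pos (by omega) hN'
    omega

theorem jmp_le_emod {N Lam s G : ℕ} (hN : 0 < N) (hLam : 0 < Lam) (hs : 0 < s) (hsL : s ∣ Lam)
    {γ : ℤ} (hG : γ.natAbs ≤ G) (C : ℤ) (t : ℕ) :
    Jmp (2 * (G + 1)) (Lam / s * N)
      (fun z => decide ((t : ℤ) ≤ (γ * ((s * z / Lam : ℕ) : ℤ) + C) % (N : ℤ))) := by
  have hmono : ∀ u, s * u / Lam ≤ s * (u + 1) / Lam := fun u =>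
    Nat.div_le_div_right (Nat.mul_le_mul_left s (Nat.le_succ u))
  have hb : ∀ u, u < Lam / s * N → γ.natAbs * (s * u / Lam) ≤ G * N := by
    intro u hu
    have h1 : s * u / Lam ≤ N := by
      have h2 : s * u ≤ Lam * N := by
        calc s * u ≤ s * (Lam / s * N) := Nat.mul_le_mul_left s hu.le
          _ = Lam * N := by rw [← mul_assoc, Nat.mul_div_cancel' hsL]
      calc s * u / Lam ≤ Lam * N / Lam := Nat.div_le_div_right h2
        _ = N := Nat.mul_div_cancel_left N hLam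
    exact Nat.mul_le_mul hG h1
  have j1 := jmp_aux (M := Lam / s * N) (ζ := fun u => s * u / Lam) hN hmono hb C
  have j2 := jmp_aux (M := Lam / s * N) (ζ := fun u => s * u / Lam) hN hmono hb (C - t)
  have j3 := j2.prod j1
  have j4 := j3.map fun x => decide (t < N ∧ x.1 = x.2)
  have h5 : G + 1 + (G + 1) = 2 * (G + 1) := by ring
  rw [h5] at j4
  refine j4.congr fun u _ => ?_
  refine decide_eq_decide.2 ?_
  rw [le_emod_iff hN]
  have h6 : γ * ((s * u / Lam : ℕ) : ℤ) + C - t = γ * ((s * u / Lam : ℕ) : ℤ) + (C - t) := by ring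
  rw [h6]

theorem jmp_bix {N Lam s G : ℕ} (hN : 0 < N) (hLam : 0 < Lam) (hs : 0 < s) (hsL : s ∣ Lam)
    (a b : Fin k → Fin r → ℕ) {γ : Fin r → ℤ} (hG : ∀ l, (γ l).natAbs ≤ G) (C : Fin r → ℤ) :
    Jmp (2 * (k * r) * (2 * (G + 1))) (Lam / s * N)
      (fun z => bix a b (fun l => ((γ l * ((s * z / Lam : ℕ) : ℤ) + C l) % (N : ℤ)).toNat)) := by
  have hN' : (N : ℤ) ≠ 0 := by exact_mod_cast hN.ne'
  have j1 := Jmp.pi (ι := Fin k × Fin r) (M := Lam / s * N) (d := 2 * (G + 1))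
    (f := fun il z => decide ((a il.1 il.2 : ℤ) ≤
      (γ il.2 * ((s * z / Lam : ℕ) : ℤ) + C il.2) % (N : ℤ)))
    fun il => jmp_le_emod hN hLam hs hsL (hG il.2) (C il.2) (a il.1 il.2)
  have j2 := Jmp.pi (ι := Fin k × Fin r) (M := Lam / s * N) (d := 2 * (G + 1))
    (f := fun il z => decide ((b il.1 il.2 : ℤ) ≤
      (γ il.2 * ((s * z / Lam : ℕ) : ℤ) + C il.2) % (N : ℤ)))
    fun il => jmp_le_emod hN hLam hs hsL (hG il.2) (C il.2) (b il.1 il.2)
  have j3 := j1.prod j2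
  have h5 : Fintype.card (Fin k × Fin r) * (2 * (G + 1)) +
      Fintype.card (Fin k × Fin r) * (2 * (G + 1)) = 2 * (k * r) * (2 * (G + 1)) := by
    rw [Fintype.card_prod, Fintype.card_fin, Fintype.card_fin]
    ring
  rw [h5] at j3
  refine j3.factor fun u _ h => ?_
  have h1 := congrFun (congrArg Prod.fst h)
  have h2 := congrFun (congrArg Prod.snd h)
  refine bix_congr a b (fun i l => ?_) fun i l => ?_
  · rw [Int.le_toNat (Int.emod_nonneg _ hN'), Int.le_toNat (Int.emod_nonneg _ hN')]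
    exact decide_eq_decide.1 (h1 (i, l))
  · rw [Int.le_toNat (Int.emod_nonneg _ hN'), Int.le_toNat (Int.emod_nonneg _ hN')]
    exact decide_eq_decide.1 (h2 (i, l))

end Pool.Agent.MTr
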