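import Mathlib
import Pool.Agent.MTr.JIdx
import Pool.Agent.MTr.DCode

/-!
# The map on codes is affine with slopes `-1, 0, 1` on boundedly many intervals

Let `W = Lam * N`. For a block `e0 < m` let `Q = (w, s) = e.symm e0`. On the block,
`u = e0 * W + z` with `z < W`, and only this `Q` contributes to the sum in `fcd`
(`fcdEqDCut`, `fcdZeroDCut`). The feature `ftDCut` of `u` is `none` if the term vanishes, and
otherwise the letter `i` and the quotients `(σ z + K) / N'` for all letters; the value is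
`σ z + K - N' * ((σ z + K) / N')` plus a constant for the letter `i` (`Int.emod_def`). The feature
has boundedly many jumps on each block (`jmp_bix`, `jmp_div`, `Jmp.ite_lt`), the bound does not
depend on `N, a, b, c`.
-/

set_option autoImplicit false

namespace Pool.Agent.MTr

open Pool.Agent.Grz Pool.Agent.PTr Finset

variable {r k L S m : ℕ}

private theorem fcdEqDCut (e : QS (k + 1) L S ≃ Fin m)
    (P : (Fin (L + 1) → Fin (k + 1)) → ℕ → Prop) (A : Fin (k + 1) → Matrix (Fin r) (Fin r) ℤ)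
    (c : Fin (k + 1) → Fin r → ℤ) (N Lam : ℕ)
    (g h : (Fin (L + 1) → Fin (k + 1)) → Fin r → ℤ)
    (lam : (Fin (L + 1) → Fin (k + 1)) → Fin (k + 1) → ℤ)
    (ix : (Fin r → ℕ) → Fin (k + 1)) (u : ℕ) (Q : QS (k + 1) L S)
    (h1 : u / (Lam * N) = (e Q : ℕ)) (h2 : P Q.1 Q.2)
    (h3 : u % (Lam * N) < Lam / (Q.2 : ℕ) * N) :
    fcd e P A c N Lam g h lam ix u =
      ecd e (shift Q.1 (ix (opt A c N g Q.1 ((Q.2 : ℕ) * (u % (Lam * N)) / Lam))))
          (nwt lam Q.1 (ix (opt A c N g Q.1 ((Q.2 : ℕ) * (u % (Lam * N)) / Lam))) Q.2) *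
          (Lam * N) +
        nval c N Lam h lam Q.1 (ix (opt A c N g Q.1 ((Q.2 : ℕ) * (u % (Lam * N)) / Lam))) Q.2
          (u % (Lam * N)) := by
  classical
  unfold fcd
  rw [Finset.sum_eq_single Q]
  · rw [if_pos ⟨h1, h2, h3⟩, Finset.sum_ite_eq, if_pos (Finset.mem_univ _)]
  · intro Q' _ hQ'
    rw [if_neg]
    rintro ⟨h4, -, -⟩
    exact hQ' (e.injective (Fin.ext (h4.symm.trans h1)))
  · intro h4
    exact absurd (Finset.mem_univ _) h4

private theorem fcdZeroDCut (e : QS (k + 1) L S ≃ Fin m)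
    (P : (Fin (L + 1) → Fin (k + 1)) → ℕ → Prop) (A : Fin (k + 1) → Matrix (Fin r) (Fin r) ℤ)
    (c : Fin (k + 1) → Fin r → ℤ) (N Lam : ℕ)
    (g h : (Fin (L + 1) → Fin (k + 1)) → Fin r → ℤ)
    (lam : (Fin (L + 1) → Fin (k + 1)) → Fin (k + 1) → ℤ)
    (ix : (Fin r → ℕ) → Fin (k + 1)) (u : ℕ) (Q : QS (k + 1) L S)
    (h1 : u / (Lam * N) = (e Q : ℕ))
    (h2 : ¬ (P Q.1 Q.2 ∧ u % (Lam * N) < Lam / (Q.2 : ℕ) * N)) :
    fcd e P A c N Lam g h lam ix u = 0 := by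
  classical
  unfold fcd
  refine Finset.sum_eq_zero fun Q' _ => if_neg ?_
  rintro ⟨h4, h5, h6⟩
  have h7 : Q' = Q := e.injective (Fin.ext (h4.symm.trans h1))
  subst h7
  exact h2 ⟨h5, h6⟩

private theorem jmpConstDCut {α : Type} (d M : ℕ) (y : α) : Jmp d M (fun _ => y) :=
  ⟨∅, by rw [card_empty]; exact Nat.zero_le _, fun _ _ _ => rfl⟩

/-- The pair with the given number. -/
private noncomputable def qnDCut (e : QS (k + 1) L S ≃ Fin m) (e0 : ℕ) : QS (k + 1) L S :=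
  if h : e0 < m then e.symm ⟨e0, h⟩ else (fun _ => 0, 0)

private theorem qnDCut_spec (e : QS (k + 1) L S ≃ Fin m) {e0 : ℕ} (h : e0 < m) :
    ((e (qnDCut e e0) : Fin m) : ℕ) = e0 := by
  unfold qnDCut
  rw [dif_pos h, Equiv.apply_symm_apply]

/-- The additive constant of the new coordinate. -/
private def kcDCut (c : Fin (k + 1) → Fin r → ℤ) (Lam : ℕ)
    (h : (Fin (L + 1) → Fin (k + 1)) → Fin r → ℤ)
    (lam : (Fin (L + 1) → Fin (k + 1)) → Fin (k + 1) → ℤ) (Q : QS (k + 1) L S)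
    (i : Fin (k + 1)) : ℤ :=
  ((Lam / nwt lam Q.1 i Q.2 : ℕ) : ℤ) * ∑ m, h (shift Q.1 i) m * c (Q.1 0) m

/-- The modulus of the new coordinate. -/
private def ncDCut (N Lam : ℕ) (lam : (Fin (L + 1) → Fin (k + 1)) → Fin (k + 1) → ℤ)
    (Q : QS (k + 1) L S) (i : Fin (k + 1)) : ℕ := Lam / nwt lam Q.1 i Q.2 * N

open Classical in
/-- The feature of a point of the block of `Q`. -/
private noncomputable def ftDCut (P : (Fin (L + 1) → Fin (k + 1)) → ℕ → Prop)
    (A : Fin (k + 1) → Matrix (Fin r) (Fin r) ℤ)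
    (c : Fin (k + 1) → Fin r → ℤ) (N Lam : ℕ)
    (g h : (Fin (L + 1) → Fin (k + 1)) → Fin r → ℤ)
    (lam : (Fin (L + 1) → Fin (k + 1)) → Fin (k + 1) → ℤ)
    (ix : (Fin r → ℕ) → Fin (k + 1)) (Q : QS (k + 1) L S) (z : ℕ) :
    Option (Fin (k + 1) × (Fin (k + 1) → ℤ)) :=
  if P Q.1 Q.2 ∧ z < Lam / (Q.2 : ℕ) * N then
    some (ix (opt A c N g Q.1 ((Q.2 : ℕ) * z / Lam)), fun i =>
      ((lam Q.1 i).sign * (z : ℤ) + kcDCut c Lam h lam Q i) / (ncDCut N Lam lam Q i : ℤ))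
  else none

/-- The slope read off from the feature. -/
private noncomputable def sgDCut (e : QS (k + 1) L S ≃ Fin m)
    (lam : (Fin (L + 1) → Fin (k + 1)) → Fin (k + 1) → ℤ)
    (y : ℕ × Option (Fin (k + 1) × (Fin (k + 1) → ℤ))) : ℤ :=
  match y.2 with
  | none => 0
  | some p => (lam (qnDCut e y.1).1 p.1).sign

/-- The constant read off from the feature. -/
private noncomputable def ctDCut (e : QS (k + 1) L S ≃ Fin m) (c : Fin (k + 1) → Fin r → ℤ)
    (N Lam : ℕ) (h : (Fin (L + 1) → Fin (k + 1)) → Fin r → ℤ)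
    (lam : (Fin (L + 1) → Fin (k + 1)) → Fin (k + 1) → ℤ)
    (y : ℕ × Option (Fin (k + 1) × (Fin (k + 1) → ℤ))) : ℤ :=
  match y.2 with
  | none => 0
  | some p =>
    (ecd e (shift (qnDCut e y.1).1 p.1) (nwt lam (qnDCut e y.1).1 p.1 (qnDCut e y.1).2) : ℤ) *
      ((Lam * N : ℕ) : ℤ) + kcDCut c Lam h lam (qnDCut e y.1) p.1 -
      (ncDCut N Lam lam (qnDCut e y.1) p.1 : ℤ) * p.2 p.1 -
      (lam (qnDCut e y.1).1 p.1).sign * ((y.1 * (Lam * N) : ℕ) : ℤ)

private theorem signDCut (x : ℤ) : x.sign = 0 ∨ x.sign = 1 ∨ x.sign = -1 := by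
  rcases lt_trichotomy x 0 with h | h | h
  · right; right
    exact Int.sign_eq_neg_one_of_neg h
  · left
    rw [h]
    rfl
  · right; left
    exact Int.sign_eq_one_of_pos h

private theorem nc_pos_DCut {A : Fin (k + 1) → Matrix (Fin r) (Fin r) ℤ}
    {g h : (Fin (L + 1) → Fin (k + 1)) → Fin r → ℤ}
    {lam : (Fin (L + 1) → Fin (k + 1)) → Fin (k + 1) → ℤ}
    {P : (Fin (L + 1) → Fin (k + 1)) → ℕ → Prop} (hC : Cert A L S g h lam P) {Lam : ℕ}
    (hLam : 0 < Lam) (hdvd : ∀ s, 1 ≤ s → s ≤ S → s ∣ Lam) {N : ℕ} (hN : 0 < N)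
    {Q : QS (k + 1) L S} (hP : P Q.1 Q.2) (i : Fin (k + 1)) :
    0 < ncDCut N Lam lam Q i ∧ Lam / (Q.2 : ℕ) * N ≤ S * ncDCut N Lam lam Q i := by
  obtain ⟨-, h4, h5⟩ := nwt_bd hC hP i
  have h6 : 0 < Lam / nwt lam Q.1 i Q.2 :=
    Nat.div_pos (Nat.le_of_dvd hLam (hdvd _ h4 h5)) h4
  refine ⟨Nat.mul_pos h6 hN, ?_⟩
  have h7 : Lam / nwt lam Q.1 i Q.2 * nwt lam Q.1 i Q.2 = Lam :=
    Nat.div_mul_cancel (hdvd _ h4 h5)
  unfold ncDCut
  calc Lam / (Q.2 : ℕ) * N ≤ Lam * N := Nat.mul_le_mul_right N (Nat.div_le_self _ _)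
    _ = nwt lam Q.1 i Q.2 * (Lam / nwt lam Q.1 i Q.2 * N) := by
        rw [← mul_assoc, mul_comm (nwt lam Q.1 i Q.2) (Lam / nwt lam Q.1 i Q.2), h7]
    _ ≤ S * (Lam / nwt lam Q.1 i Q.2 * N) := Nat.mul_le_mul_right _ h5

private theorem jmpFtDCut {A : Fin (k + 1) → Matrix (Fin r) (Fin r) ℤ}
    {g h : (Fin (L + 1) → Fin (k + 1)) → Fin r → ℤ}
    {lam : (Fin (L + 1) → Fin (k + 1)) → Fin (k + 1) → ℤ}
    {P : (Fin (L + 1) → Fin (k + 1)) → ℕ → Prop} (hC : Cert A L S g h lam P) {Lam : ℕ}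
    (hLam : 0 < Lam) (hdvd : ∀ s, 1 ≤ s → s ≤ S → s ∣ Lam) {G : ℕ}
    (hG : ∀ w l, (g w l).natAbs ≤ G) {N : ℕ} (a b : Fin k → Fin r → ℕ)
    (c : Fin (k + 1) → Fin r → ℤ) (hN : 0 < N) (Q : QS (k + 1) L S) (M : ℕ) :
    Jmp (2 * (k * r) * (2 * (G + 1)) + (k + 1) * (S + 1) + 1) M
      (ftDCut P A c N Lam g h lam (bix a b) Q) := by
  classical
  by_cases hP : P Q.1 Q.2
  · have hs := hC.bd _ _ hP
    have h1 : Jmp (2 * (k * r) * (2 * (G + 1))) (Lam / (Q.2 : ℕ) * N)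
        (fun z => bix a b (opt A c N g Q.1 ((Q.2 : ℕ) * z / Lam))) :=
      jmp_bix hN hLam hs.1 (hdvd _ hs.1 hs.2) a b (hG Q.1) (wcst A c (List.ofFn Q.1))
    have h2 : Jmp ((k + 1) * (S + 1)) (Lam / (Q.2 : ℕ) * N) (fun (z : ℕ) (i : Fin (k + 1)) =>
        ((lam Q.1 i).sign * (z : ℤ) + kcDCut c Lam h lam Q i) /
          (ncDCut N Lam lam Q i : ℤ)) := by
      have h3 := Jmp.pi (fun i : Fin (k + 1) =>
        jmp_div (nc_pos_DCut hC hLam hdvd hN hP i).1 (nc_pos_DCut hC hLam hdvd hN hP i).2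
          (signDCut (lam Q.1 i)) (kcDCut c Lam h lam Q i))
      rwa [Fintype.card_fin] at h3
    have h4 := (((h1.prod h2).map some).ite_lt (M := M) none)
    refine h4.congr fun u _ => ?_
    unfold ftDCut
    by_cases h5 : u < Lam / (Q.2 : ℕ) * N
    · rw [if_pos h5, if_pos ⟨hP, h5⟩]
    · rw [if_neg h5, if_neg fun h6 => h5 h6.2]
  · refine (jmpConstDCut _ M none).congr fun u _ => ?_
    unfold ftDCut
    rw [if_neg fun h6 => hP h6.1]

theorem cutA_fcd {A : Fin (k + 1) → Matrix (Fin r) (Fin r) ℤ}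
    {g h : (Fin (L + 1) → Fin (k + 1)) → Fin r → ℤ}
    {lam : (Fin (L + 1) → Fin (k + 1)) → Fin (k + 1) → ℤ}
    {P : (Fin (L + 1) → Fin (k + 1)) → ℕ → Prop} (hC : Cert A L S g h lam P)
    (e : QS (k + 1) L S ≃ Fin m) {Lam : ℕ} (hLam : 0 < Lam)
    (hdvd : ∀ s, 1 ≤ s → s ≤ S → s ∣ Lam) :
    ∃ cc, ∀ (N : ℕ) (a b : Fin k → Fin r → ℕ) (c : Fin (k + 1) → Fin r → ℤ), 0 < N →
      CutA cc (m * (Lam * N)) (fcd e P A c N Lam g h lam (bix a b)) := by
  classical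
  obtain ⟨G, hG⟩ : ∃ G : ℕ, ∀ w l, (g w l).natAbs ≤ G := by
    refine ⟨univ.sup fun w => univ.sup fun l => (g w l).natAbs, fun w l => ?_⟩
    exact (Finset.le_sup (f := fun l => (g w l).natAbs) (mem_univ l)).trans
      (Finset.le_sup (f := fun w => univ.sup fun l => (g w l).natAbs) (mem_univ w))
  refine ⟨2 * (m * ((2 * (k * r) * (2 * (G + 1)) + (k + 1) * (S + 1) + 1) + 1)),
    fun N a b c hN => ?_⟩
  have hW : 0 < Lam * N := Nat.mul_pos hLam hN
  have hdm : ∀ e0 z, z < Lam * N → (e0 * (Lam * N) + z) / (Lam * N) = e0 ∧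
      (e0 * (Lam * N) + z) % (Lam * N) = z := by
    intro e0 z hz
    constructor
    · rw [add_comm, Nat.add_mul_div_right _ _ hW, Nat.div_eq_of_lt hz, zero_add]
    · rw [add_comm, Nat.add_mul_mod_self_right, Nat.mod_eq_of_lt hz]
  refine cutA_of_jmp (φ := fun u => (u / (Lam * N), ftDCut P A c N Lam g h lam (bix a b)
    (qnDCut e (u / (Lam * N))) (u % (Lam * N)))) (sgDCut e lam) (ctDCut e c N Lam h lam)
    (fun u _ => ?_) (fun u hu => ?_) (Jmp.block fun e0 _ => ?_)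
  · unfold sgDCut
    split
    · exact Or.inl rfl
    · exact signDCut _
  · have he0 : u / (Lam * N) < m := Nat.div_lt_of_lt_mul (by rwa [mul_comm] at hu)
    have hQ := qnDCut_spec e he0
    by_cases hP : P (qnDCut e (u / (Lam * N))).1 (qnDCut e (u / (Lam * N))).2 ∧
        u % (Lam * N) < Lam / ((qnDCut e (u / (Lam * N))).2 : ℕ) * N
    · rw [fcdEqDCut e P A c N Lam g h lam (bix a b) u (qnDCut e (u / (Lam * N))) hQ.symm
        hP.1 hP.2]
      have hft : ftDCut P A c N Lam g h lam (bix a b) (qnDCut e (u / (Lam * N)))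
          (u % (Lam * N)) = some (bix a b (opt A c N g (qnDCut e (u / (Lam * N))).1
            (((qnDCut e (u / (Lam * N))).2 : ℕ) * (u % (Lam * N)) / Lam)), fun i =>
          ((lam (qnDCut e (u / (Lam * N))).1 i).sign * ((u % (Lam * N) : ℕ) : ℤ) +
            kcDCut c Lam h lam (qnDCut e (u / (Lam * N))) i) /
            (ncDCut N Lam lam (qnDCut e (u / (Lam * N))) i : ℤ)) := by
        unfold ftDCut
        rw [if_pos hP]
      show _ = sgDCut e lam (_, _) * (u : ℤ) + ctDCut e c N Lam h lam (_, _)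
      rw [hft]
      unfold sgDCut ctDCut
      simp only
      have hz : (u : ℤ) = ((u / (Lam * N) * (Lam * N) : ℕ) : ℤ) + ((u % (Lam * N) : ℕ) : ℤ) := by
        have := Nat.div_add_mod' u (Lam * N)
        exact_mod_cast this.symm
      generalize qnDCut e (u / (Lam * N)) = Q at *
      generalize u % (Lam * N) = z at *
      generalize u / (Lam * N) * (Lam * N) = y at *
      generalize bix a b (opt A c N g Q.1 ((Q.2 : ℕ) * z / Lam)) = i
      have hn := (nc_pos_DCut hC hLam hdvd hN hP.1 i).1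
      have hn' : (0 : ℤ) < (ncDCut N Lam lam Q i : ℤ) := by exact_mod_cast hn
      have hv : (nval c N Lam h lam Q.1 i Q.2 z : ℤ) =
          (lam Q.1 i).sign * (z : ℤ) + kcDCut c Lam h lam Q i -
            (ncDCut N Lam lam Q i : ℤ) * (((lam Q.1 i).sign * (z : ℤ) +
              kcDCut c Lam h lam Q i) / (ncDCut N Lam lam Q i : ℤ)) := by
        rw [← Int.emod_def]
        exact Int.toNat_of_nonneg (Int.emod_nonneg _ hn'.ne')
      rw [Nat.cast_add, Nat.cast_mul, hv, hz]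
      ring
    · rw [fcdZeroDCut e P A c N Lam g h lam (bix a b) u (qnDCut e (u / (Lam * N))) hQ.symm hP]
      have hft : ftDCut P A c N Lam g h lam (bix a b) (qnDCut e (u / (Lam * N)))
          (u % (Lam * N)) = none := by
        unfold ftDCut
        rw [if_neg hP]
      show _ = sgDCut e lam (_, _) * (u : ℤ) + ctDCut e c N Lam h lam (_, _)
      rw [hft]
      unfold sgDCut ctDCut
      simp
  · have h1 := (jmpFtDCut hC hLam hdvd hG a b c hN (qnDCut e e0) (Lam * N)).map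
      fun y => (e0, y)
    refine h1.congr fun z hz => ?_
    obtain ⟨h2, h3⟩ := hdm e0 z hz
    show (_, ftDCut P A c N Lam g h lam (bix a b) (qnDCut e ((e0 * (Lam * N) + z) / (Lam * N)))
      ((e0 * (Lam * N) + z) % (Lam * N))) = _
    rw [h2, h3]

end Pool.Agent.MTr
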