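import Mathlib
import Pool.Agent.PTr.Birk2

/-!
# Iterates of gentle maps are definable functions
-/

set_option autoImplicit false

namespace Pool.Agent.MTr

open Pool.Agent.Grz Pool.Agent.PTr Finset

theorem dfun_iter (c : ℕ) {n : ℕ} {N x t : (Fin n → ℕ) → ℕ} {T : ℕ → (Fin n → ℕ) → ℕ}
    (hN : DFun n N) (hx : DFun n x) (ht : DFun n t)
    (hT : DFun (n + 1) (fun v => T (v 0) (fun i => v i.succ)))
    (hxN : ∀ v, x v < N v) (hTN : ∀ v u, u < N v → T u v < N v)
    (hcut : ∀ v, CutA c (N v) (fun u => T u v)) :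
    DFun n (fun v => (fun u => T u v)^[t v] (x v)) := by
  have hlt : ∀ v j, (fun u => T u v)^[j] (x v) < N v := by
    intro v j
    induction j with
    | zero => exact hxN v
    | succ j ih =>
      rw [Function.iterate_succ_apply']
      exact hTN v _ ih
  refine DFun.ofGraph hN (fun v => (hlt v _).le) ?_
  have h := aff_delta0 c 0 (N := fun v : Fin (n + 1) → ℕ => N (fun i => v i.succ))
    (x := fun v => x (fun i => v i.succ))
    (y := fun v => v 0) (t := fun v => t (fun i => v i.succ)) (S := fun _ => 0)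
    (T := fun u v => T u (fun i => v i.succ)) (w := fun _ _ => 0)
    hN.weak hx.weak (DFun.proj 0) ht.weak (DFun.const 0)
    (DFun.app hT (DFun.proj 0) (fun i => DFun.proj _))
    (DFun.const 0)
    (fun v u hu => hTN _ u hu) (fun v => hcut _) (fun v => ⟨fun j => j.elim0, fun u _ _ => rfl⟩)
  refine h.of_iff fun v => ?_
  constructor
  · intro h
    refine ⟨hxN _, h.symm, ?_⟩
    simp [bsum]
  · rintro ⟨_, h, _⟩
    exact h.symm

end Pool.Agent.MTr
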