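import Mathlib
import Pool.Agent.MTr.DIdx
import Pool.Agent.MTr.ZF

/-!
# Definability of the state machine

Everything by the closure properties `ZF.add, ZF.sub, ZF.mul, ZF.sum, ZF.const, ZF.nat, ZF.toNat,
ZF.emod` (ZF.lean), `zf_lin`, `delta0_first`, `dfun_amap` (Univ.lean, as models), `DFun.add,
DFun.mul, DFun.const, DFun.ite`, `DFun.mod`, `DFun.div` and finite sums (`DFun.sum`, or as in
Univ.lean), `Delta0.and, Delta0.allOf, Delta0.exOf, Delta0.not, Delta0.eqFun, Delta0.ltFun`.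
* `zf_wcst`: induction on the list.
* `delta0_bix`: `Fin.lastCases` and `bix_eq_iff`, `bix_last_iff`.
* `dfun_gmap`: `gmap .. l = (∑ i, if bix .. = i then (lin (A i) u l + c i l) % N else 0).toNat`.
* `dfun_gmap_iter`: induction on the fixed number `j` of iterations.
* `dfun_fcd`: the definition is a finite sum of case distinctions; `P Q.1 Q.2` does not depend on `v`
  (case distinction); `zf_nval` with fixed `w, i, s`.
* `dfun_init`: the code of the initial state is
  `∑ w, if (∀ m, bix .. (T^[m] x) = w m) then ecd e w 1 * (Lam * N) + Lam * ((∑ m, h w m * x m) % N).toNat`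
  (`wd` at time `0`; `0 + m` and `m` iterations).
* `dfun_outp`: as `dfun_fcd`.
-/

set_option autoImplicit false

namespace Pool.Agent.MTr

open Pool.Agent.Grz Pool.Agent.PTr Finset

variable {r k q n L S m : ℕ}

open Classical in
/-- The point of a code. -/
noncomputable def outp {m : ℕ} (e : QS q L S ≃ Fin m)
    (A : Fin q → Matrix (Fin r) (Fin r) ℤ) (c : Fin q → Fin r → ℤ) (N Lam : ℕ)
    (g : (Fin (L + 1) → Fin q) → Fin r → ℤ) (u : ℕ) (l : Fin r) : ℕ :=
  ∑ Q : QS q L S, if u / (Lam * N) = (e Q : ℕ) then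
    opt A c N g Q.1 ((Q.2 : ℕ) * (u % (Lam * N)) / Lam) l else 0

private theorem ddfn_sum {α : Type} (s : Finset α) {f : α → (Fin n → ℕ) → ℕ}
    (hf : ∀ i, DFun n (f i)) : DFun n (fun v => ∑ i ∈ s, f i v) := by
  classical
  induction s using Finset.induction_on with
  | empty => simpa using (DFun.const 0 : DFun n (fun _ => 0))
  | insert a s ha ih =>
    have h := (hf a).add ih
    refine (?_ : (fun v => ∑ i ∈ insert a s, f i v) = fun v => f a v + ∑ i ∈ s, f i v) ▸ h
    funext v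
    rw [Finset.sum_insert ha]

private theorem ddfn_emod {f : (Fin n → ℕ) → ℤ} {N : (Fin n → ℕ) → ℕ} (hf : ZF n f)
    (hN : DFun n N) : DFun n (fun v => (f v % (N v : ℤ)).toNat) := by
  have h := DFun.ite (Delta0.eqFun hN (DFun.const 0)) hf.toNat (hf.emod hN)
  refine (?_ : (fun v => (f v % (N v : ℤ)).toNat) = fun v => if N v = 0 then (f v).toNat else
    if N v = 0 then 0 else (f v % (N v : ℤ)).toNat) ▸ h
  funext v
  by_cases h0 : N v = 0
  · rw [if_pos h0, h0, Nat.cast_zero, Int.emod_zero]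
  · rw [if_neg h0, if_neg h0]

private theorem ddfn_div {f g : (Fin n → ℕ) → ℕ} (hf : DFun n f) (hg : DFun n g) :
    DFun n (fun v => f v / g v) := by
  have h := DFun.ite (Delta0.eqFun hg (DFun.const 0)) (DFun.const 0)
    (hf.div (hg.sub (DFun.const 1)))
  refine (?_ : (fun v => f v / g v) = fun v => if g v = 0 then 0 else
    f v / (g v - 1 + 1)) ▸ h
  funext v
  by_cases h0 : g v = 0
  · rw [if_pos h0, h0, Nat.div_zero]
  · rw [if_neg h0, Nat.sub_add_cancel (Nat.pos_of_ne_zero h0)]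

private theorem ddfn_prop (p : Prop) : Delta0 n (fun _ => p) := by
  by_cases h : p
  · exact (Delta0.eqFun (DFun.const 0) (DFun.const 0)).of_iff fun v => by simp [h]
  · exact (Delta0.eqFun (DFun.const 0) (DFun.const 1)).of_iff fun v => by simp [h]

private theorem ddfn_sumite {α : Type} [Fintype α] [DecidableEq α] {f : (Fin n → ℕ) → α}
    {g : α → ℤ} (hf : ∀ i, Delta0 n (fun v => f v = i)) : ZF n (fun v => g (f v)) := by
  have h := ZF.sum (n := n) (Finset.univ : Finset α) (f := fun i v => if f v = i then g i else 0)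
    (fun i => ZF.ite (hf i) (ZF.const (g i)) (ZF.const 0))
  refine h.congr fun v => ?_
  rw [Finset.sum_ite_eq, if_pos (Finset.mem_univ _)]

theorem zf_wcst (A : Fin q → Matrix (Fin r) (Fin r) ℤ) {c : Fin q → Fin r → (Fin n → ℕ) → ℤ}
    (hc : ∀ i l, ZF n (c i l)) (w : List (Fin q)) (l : Fin r) :
    ZF n (fun v => wcst A (fun i l => c i l v) w l) := by
  induction w with
  | nil => exact (ZF.const 0).congr fun v => rfl
  | cons i w ih =>
    have h := (ZF.sum (n := n) (Finset.univ : Finset (Fin r))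
      (f := fun m v => wprod A w l m * c i m v)
      (fun m => (ZF.const (wprod A w l m)).mul (hc i m))).add ih
    exact h.congr fun v => rfl

theorem dfun_opt (A : Fin q → Matrix (Fin r) (Fin r) ℤ) {c : Fin q → Fin r → (Fin n → ℕ) → ℤ}
    {N : (Fin n → ℕ) → ℕ} (g : (Fin (L + 1) → Fin q) → Fin r → ℤ) (w : Fin (L + 1) → Fin q)
    {ζ : (Fin n → ℕ) → ℕ} (hN : DFun n N) (hc : ∀ i l, ZF n (c i l)) (hζ : DFun n ζ)
    (l : Fin r) : DFun n (fun v => opt A (fun i l => c i l v) (N v) g w (ζ v) l) :=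
  ddfn_emod (((ZF.const (g w l)).mul (ZF.nat hζ)).add (zf_wcst A hc (List.ofFn w) l)) hN

theorem dfun_nval {c : Fin q → Fin r → (Fin n → ℕ) → ℤ} {N : (Fin n → ℕ) → ℕ} (Lam : ℕ)
    (h : (Fin (L + 1) → Fin q) → Fin r → ℤ) (lam : (Fin (L + 1) → Fin q) → Fin q → ℤ)
    (w : Fin (L + 1) → Fin q) (i : Fin q) (s : ℕ) {z : (Fin n → ℕ) → ℕ} (hN : DFun n N)
    (hc : ∀ i l, ZF n (c i l)) (hz : DFun n z) :
    DFun n (fun v => nval (fun i l => c i l v) (N v) Lam h lam w i s (z v)) :=
  ddfn_emod (((ZF.const (lam w i).sign).mul (ZF.nat hz)).add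
    ((ZF.const (((Lam / nwt lam w i s : ℕ) : ℤ))).mul
      (ZF.sum _ fun m => (ZF.const (h (shift w i) m)).mul (hc (w 0) m))))
    ((DFun.const (Lam / nwt lam w i s)).mul hN)

theorem delta0_bix {a b : Fin k → Fin r → (Fin n → ℕ) → ℕ} {u : Fin r → (Fin n → ℕ) → ℕ}
    (ha : ∀ i l, DFun n (a i l)) (hb : ∀ i l, DFun n (b i l)) (hu : ∀ l, DFun n (u l))
    (i : Fin (k + 1)) : Delta0 n (fun v =>
      bix (fun i l => a i l v) (fun i l => b i l v) (fun l => u l v) = i) := by
  induction i using Fin.lastCases with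
  | last =>
    exact (Delta0.allOf fun i => (delta0_first ha hb hu i).not).of_iff fun v =>
      bix_last_iff _ _ _
  | cast i => exact (delta0_first ha hb hu i).of_iff fun v => bix_eq_iff _ _ _ _

theorem dfun_gmap (A : Fin (k + 1) → Matrix (Fin r) (Fin r) ℤ)
    {c : Fin (k + 1) → Fin r → (Fin n → ℕ) → ℤ} {N : (Fin n → ℕ) → ℕ}
    {a b : Fin k → Fin r → (Fin n → ℕ) → ℕ} {u : Fin r → (Fin n → ℕ) → ℕ} (hN : DFun n N)
    (ha : ∀ i l, DFun n (a i l)) (hb : ∀ i l, DFun n (b i l)) (hc : ∀ i l, ZF n (c i l))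
    (hu : ∀ l, DFun n (u l)) (l : Fin r) : DFun n (fun v => gmap A (fun i l => c i l v) (N v)
      (bix (fun i l => a i l v) (fun i l => b i l v)) (fun l => u l v) l) := by
  refine ddfn_emod (f := fun v => lin (A (bix (fun i l => a i l v) (fun i l => b i l v)
    (fun l => u l v))) (fun l => u l v) l + c (bix (fun i l => a i l v) (fun i l => b i l v)
      (fun l => u l v)) l v) ?_ hN
  have h := ZF.sum (n := n) (Finset.univ : Finset (Fin (k + 1)))
    (f := fun i v => if bix (fun i l => a i l v) (fun i l => b i l v) (fun l => u l v) = i then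
      lin (A i) (fun l => u l v) l + c i l v else 0)
    (fun i => ZF.ite (delta0_bix ha hb hu i) ((zf_lin (A i) hu l).add (hc i l)) (ZF.const 0))
  refine h.congr fun v => ?_
  rw [Finset.sum_ite_eq, if_pos (Finset.mem_univ _)]

theorem dfun_gmap_iter (A : Fin (k + 1) → Matrix (Fin r) (Fin r) ℤ)
    {c : Fin (k + 1) → Fin r → (Fin n → ℕ) → ℤ} {N : (Fin n → ℕ) → ℕ}
    {a b : Fin k → Fin r → (Fin n → ℕ) → ℕ} {x : Fin r → (Fin n → ℕ) → ℕ} (hN : DFun n N)
    (ha : ∀ i l, DFun n (a i l)) (hb : ∀ i l, DFun n (b i l)) (hc : ∀ i l, ZF n (c i l))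
    (hx : ∀ l, DFun n (x l)) (j : ℕ) (l : Fin r) :
    DFun n (fun v => (gmap A (fun i l => c i l v) (N v)
      (bix (fun i l => a i l v) (fun i l => b i l v)))^[j] (fun l => x l v) l) := by
  induction j generalizing l with
  | zero => exact hx l
  | succ j ih =>
    have h := dfun_gmap A hN ha hb hc (fun l => ih l) l
    simp only [Function.iterate_succ_apply']
    exact h

theorem dfun_fcd (e : QS (k + 1) L S ≃ Fin m) (P : (Fin (L + 1) → Fin (k + 1)) → ℕ → Prop)
    (A : Fin (k + 1) → Matrix (Fin r) (Fin r) ℤ)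
    {c : Fin (k + 1) → Fin r → (Fin n → ℕ) → ℤ} {N : (Fin n → ℕ) → ℕ}
    {a b : Fin k → Fin r → (Fin n → ℕ) → ℕ} (Lam : ℕ)
    (g h : (Fin (L + 1) → Fin (k + 1)) → Fin r → ℤ)
    (lam : (Fin (L + 1) → Fin (k + 1)) → Fin (k + 1) → ℤ) {u : (Fin n → ℕ) → ℕ} (hN : DFun n N)
    (ha : ∀ i l, DFun n (a i l)) (hb : ∀ i l, DFun n (b i l)) (hc : ∀ i l, ZF n (c i l))
    (hu : DFun n u) : DFun n (fun v => fcd e P A (fun i l => c i l v) (N v) Lam g h lam
      (bix (fun i l => a i l v) (fun i l => b i l v)) (u v)) := by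
  classical
  have hW : DFun n (fun v => Lam * N v) := (DFun.const Lam).mul hN
  have hz : DFun n (fun v => u v % (Lam * N v)) := DFun.modAny hu hW
  unfold fcd
  refine ddfn_sum _ fun Q => ?_
  refine DFun.ite ?_ ?_ (DFun.const 0)
  · refine (Delta0.eqFun (ddfn_div hu hW) (DFun.const _)).and ((ddfn_prop _).and ?_)
    exact Delta0.ltFun hz ((DFun.const _).mul hN)
  · refine ddfn_sum _ fun i => ?_
    refine DFun.ite ?_ ?_ (DFun.const 0)
    · exact delta0_bix ha hb (fun l => dfun_opt A g Q.1 hN hc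
        (ddfn_div ((DFun.const (Q.2 : ℕ)).mul hz) (DFun.const Lam)) l) i
    · exact ((DFun.const _).mul hW).add (dfun_nval Lam h lam Q.1 i Q.2 hN hc hz)

theorem dfun_init (e : QS (k + 1) L S ≃ Fin m) (A : Fin (k + 1) → Matrix (Fin r) (Fin r) ℤ)
    {c : Fin (k + 1) → Fin r → (Fin n → ℕ) → ℤ} {N : (Fin n → ℕ) → ℕ}
    {a b : Fin k → Fin r → (Fin n → ℕ) → ℕ} (Lam : ℕ)
    (h : (Fin (L + 1) → Fin (k + 1)) → Fin r → ℤ) {x : Fin r → (Fin n → ℕ) → ℕ} (hN : DFun n N)
    (ha : ∀ i l, DFun n (a i l)) (hb : ∀ i l, DFun n (b i l)) (hc : ∀ i l, ZF n (c i l))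
    (hx : ∀ l, DFun n (x l)) : DFun n (fun v => cod e (N v) Lam
      (wd (gmap A (fun i l => c i l v) (N v) (bix (fun i l => a i l v) (fun i l => b i l v)))
        (bix (fun i l => a i l v) (fun i l => b i l v)) L (fun l => x l v) 0, 1,
      Lam * zc (gmap A (fun i l => c i l v) (N v) (bix (fun i l => a i l v) (fun i l => b i l v)))
        (bix (fun i l => a i l v) (fun i l => b i l v)) L h (N v) (fun l => x l v) 0)) := by
  classical
  have hw : ∀ w : Fin (L + 1) → Fin (k + 1), Delta0 n (fun v =>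
      wd (gmap A (fun i l => c i l v) (N v) (bix (fun i l => a i l v) (fun i l => b i l v)))
        (bix (fun i l => a i l v) (fun i l => b i l v)) L (fun l => x l v) 0 = w) := by
    intro w
    refine (Delta0.allOf fun m : Fin (L + 1) => delta0_bix ha hb
      (fun l => dfun_gmap_iter A hN ha hb hc hx (0 + (m : ℕ)) l) (w m)).of_iff fun v => ?_
    rw [funext_iff]
    rfl
  have h1 : DFun n (fun v => ecd e (wd (gmap A (fun i l => c i l v) (N v)
      (bix (fun i l => a i l v) (fun i l => b i l v)))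
        (bix (fun i l => a i l v) (fun i l => b i l v)) L (fun l => x l v) 0) 1) := by
    have h2 := (ddfn_sumite (g := fun w => (ecd e w 1 : ℤ)) hw).toNat
    simpa using h2
  have h3 : DFun n (fun v => zc (gmap A (fun i l => c i l v) (N v)
      (bix (fun i l => a i l v) (fun i l => b i l v)))
        (bix (fun i l => a i l v) (fun i l => b i l v)) L h (N v) (fun l => x l v) 0) := by
    refine ddfn_emod ?_ hN
    refine ZF.sum _ fun m => ?_
    refine ZF.mul ?_ ?_
    · exact ddfn_sumite (g := fun w => h w m) hw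
    · exact ZF.nat (hx m)
  exact (h1.mul ((DFun.const Lam).mul hN)).add ((DFun.const Lam).mul h3)

theorem dfun_outp (e : QS q L S ≃ Fin m) (A : Fin q → Matrix (Fin r) (Fin r) ℤ)
    {c : Fin q → Fin r → (Fin n → ℕ) → ℤ} {N : (Fin n → ℕ) → ℕ} (Lam : ℕ)
    (g : (Fin (L + 1) → Fin q) → Fin r → ℤ) {u : (Fin n → ℕ) → ℕ} (hN : DFun n N)
    (hc : ∀ i l, ZF n (c i l)) (hu : DFun n u) (l : Fin r) :
    DFun n (fun v => outp e A (fun i l => c i l v) (N v) Lam g (u v) l) := by
  classical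
  have hW : DFun n (fun v => Lam * N v) := (DFun.const Lam).mul hN
  have hz : DFun n (fun v => u v % (Lam * N v)) := DFun.modAny hu hW
  unfold outp
  refine ddfn_sum _ fun Q => ?_
  refine DFun.ite (Delta0.eqFun (ddfn_div hu hW) (DFun.const _)) ?_ (DFun.const 0)
  exact dfun_opt A g Q.1 hN hc
    (ddfn_div ((DFun.const (Q.2 : ℕ)).mul hz) (DFun.const Lam)) l

end Pool.Agent.MTr
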