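import Mathlib
import Pool.Agent.MTr.DDefs

/-!
# Orbits of tame families in one coordinate

Let `T = gmap A c N ix`, `u_j = T^[j] x`, `i_j = ix u_j`.

`orb_word`: induction on `n` (for all `j`): `List.ofFn_succ`: the list of the letters
`i_j, ..., i_(j+n)` is `i_j :: (the list of i_(j+1), ..., i_(j+n))`; `u_(j+1) l ≡ (A i_j u_j) l +
c i_j l` modulo `N` for all `l` (`N > 0`: `Int.emod_emod_of_dvd`, `Int.toNat_of_nonneg`), and
`wprod A (i :: l) = wprod A l * A i`,
`wcst A c (i :: l) j = (wprod A l).mulVec (c i) j + wcst A c l j`.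
Alternatively induction at the other end.

`orb_opt`: `orb_word` with `n = L + 1` and `Cert.fac`:
`∑ m, g w l * h w m * u_j m ≡ g w l * zc j` modulo `N`. Both sides are in `[0, N)`.

`wd_succ`: `Fin.lastCases`/`Fin.snoc`: the letter `m < L` of `wd (j + 1)` is `i_(j+1+m)`, the letter
`m + 1` of `wd j`, and the last letter is `i_(j+1+L)`.

`zc_succ`: `u_(j+1) m ≡ (A i_j u_j) m + c i_j m`, `i_j = wd j 0`, and
`∑ m, h w' m * (A i_j u_j) m = ∑ m, (Matrix.vecMul (h w') (A i_j)) m * u_j m`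
` = lam * ∑ m, h w m * u_j m`
(`Cert.slope`), with `w' = wd (j + 1) = shift w i`.
-/

set_option autoImplicit false

namespace Pool.Agent.MTr

open Pool.Agent.Grz Pool.Agent.PTr Finset

variable {r q L S : ℕ}

private theorem gmap_cast_DOrb (A : Fin q → Matrix (Fin r) (Fin r) ℤ) (c : Fin q → Fin r → ℤ)
    {N : ℕ} (hN : 0 < N) (ix : (Fin r → ℕ) → Fin q) (u : Fin r → ℕ) (l : Fin r) :
    ((gmap A c N ix u l : ℕ) : ℤ) = (lin (A (ix u)) u l + c (ix u) l) % (N : ℤ) := by
  unfold gmap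
  exact Int.toNat_of_nonneg (Int.emod_nonneg _ (by exact_mod_cast hN.ne'))

private theorem step_DOrb (A : Fin q → Matrix (Fin r) (Fin r) ℤ) (c : Fin q → Fin r → ℤ)
    {N : ℕ} (hN : 0 < N) (ix : (Fin r → ℕ) → Fin q) (x : Fin r → ℕ) (j : ℕ) (l : Fin r) :
    (((gmap A c N ix)^[j + 1] x l : ℕ) : ℤ) ≡
      (∑ m, A (ix ((gmap A c N ix)^[j] x)) l m * (((gmap A c N ix)^[j] x m : ℕ) : ℤ)) +
      c (ix ((gmap A c N ix)^[j] x)) l [ZMOD (N : ℤ)] := by
  rw [Function.iterate_succ_apply', gmap_cast_DOrb A c hN]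
  exact Int.mod_modEq _ _

private theorem modEq_of_eq_DOrb {a b n : ℤ} (h : a = b) : a ≡ b [ZMOD n] :=
  h ▸ Int.ModEq.refl a

private theorem sum_modEq_DOrb {N : ℤ} (s : Finset (Fin r)) (f g : Fin r → ℤ)
    (h : ∀ m, f m ≡ g m [ZMOD N]) : ∑ m ∈ s, f m ≡ ∑ m ∈ s, g m [ZMOD N] := by
  classical
  induction s using Finset.induction_on with
  | empty => simp
  | insert a s ha ih =>
    rw [Finset.sum_insert ha, Finset.sum_insert ha]
    exact (h a).add ih

theorem orb_word (A : Fin q → Matrix (Fin r) (Fin r) ℤ) (c : Fin q → Fin r → ℤ) {N : ℕ}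
    (hN : 0 < N) (ix : (Fin r → ℕ) → Fin q) (x : Fin r → ℕ) (n j : ℕ) (l : Fin r) :
    ((((gmap A c N ix)^[j + n] x l : ℕ) : ℤ)) ≡
      (∑ m, wprod A (List.ofFn fun m : Fin n => ix ((gmap A c N ix)^[j + (m : ℕ)] x)) l m *
        (((gmap A c N ix)^[j] x m : ℕ) : ℤ)) +
      wcst A c (List.ofFn fun m : Fin n => ix ((gmap A c N ix)^[j + (m : ℕ)] x)) l
      [ZMOD (N : ℤ)] := by
  induction n generalizing j with
  | zero =>
    simp only [List.ofFn_zero, wprod, wcst, Pi.zero_apply, add_zero]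
    rw [Finset.sum_eq_single l]
    · simp
    · intro m _ hm
      rw [Matrix.one_apply_ne (Ne.symm hm), zero_mul]
    · intro hl
      exact absurd (Finset.mem_univ l) hl
  | succ n ih =>
    have h1 := ih (j + 1)
    have e1 : j + 1 + n = j + (n + 1) := by omega
    rw [e1] at h1
    refine h1.trans ?_
    rw [List.ofFn_succ]
    have e2 : (fun m : Fin n => ix ((gmap A c N ix)^[j + 1 + (m : ℕ)] x)) =
        fun m : Fin n => ix ((gmap A c N ix)^[j + ((m.succ : Fin (n + 1)) : ℕ)] x) := by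
      funext m
      rw [Fin.val_succ, Nat.add_assoc, Nat.add_comm 1 (m : ℕ)]
    rw [e2]
    generalize (List.ofFn fun m : Fin n =>
      ix ((gmap A c N ix)^[j + ((m.succ : Fin (n + 1)) : ℕ)] x)) = W
    simp only [wprod, wcst, Fin.val_zero, Nat.add_zero]
    have h2 : ∑ m, wprod A W l m * (((gmap A c N ix)^[j + 1] x m : ℕ) : ℤ) ≡
        ∑ m, wprod A W l m * ((∑ p, A (ix ((gmap A c N ix)^[j] x)) m p *
          (((gmap A c N ix)^[j] x p : ℕ) : ℤ)) + c (ix ((gmap A c N ix)^[j] x)) m)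
        [ZMOD (N : ℤ)] :=
      sum_modEq_DOrb _ _ _ fun m => (step_DOrb A c hN ix x j m).mul_left _
    refine (h2.add_right _).trans (modEq_of_eq_DOrb ?_)
    rw [← add_assoc]
    congr 1
    simp only [mul_add, Finset.sum_add_distrib, Matrix.mulVec, dotProduct, Matrix.mul_apply,
      Finset.mul_sum, Finset.sum_mul]
    congr 1
    rw [Finset.sum_comm]
    refine Finset.sum_congr rfl fun p _ => Finset.sum_congr rfl fun m _ => ?_
    ring

theorem wd_succ (T : (Fin r → ℕ) → Fin r → ℕ) (ix : (Fin r → ℕ) → Fin q) (x : Fin r → ℕ)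
    (j : ℕ) : wd T ix L x (j + 1) = shift (wd T ix L x j) (ix (T^[j + (L + 1)] x)) := by
  funext m
  unfold shift
  refine Fin.lastCases ?_ (fun p => ?_) m
  · rw [Fin.snoc_last]
    unfold wd
    rw [Fin.val_last, show j + 1 + L = j + (L + 1) from by omega]
  · rw [Fin.snoc_castSucc]
    unfold Fin.tail wd
    rw [Fin.val_castSucc, Fin.val_succ, show j + 1 + (p : ℕ) = j + ((p : ℕ) + 1) from by omega]

theorem orb_opt {A : Fin q → Matrix (Fin r) (Fin r) ℤ}
    {g h : (Fin (L + 1) → Fin q) → Fin r → ℤ} {lam : (Fin (L + 1) → Fin q) → Fin q → ℤ}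
    {P : (Fin (L + 1) → Fin q) → ℕ → Prop} (hC : Cert A L S g h lam P) (c : Fin q → Fin r → ℤ)
    {N : ℕ} (hN : 0 < N) (ix : (Fin r → ℕ) → Fin q) (x : Fin r → ℕ) (j : ℕ) :
    (gmap A c N ix)^[j + (L + 1)] x = opt A c N g (wd (gmap A c N ix) ix L x j)
      (zc (gmap A c N ix) ix L h N x j) := by
  funext l
  have hN' : (N : ℤ) ≠ 0 := by exact_mod_cast hN.ne'
  have h1 := orb_word A c hN ix x (L + 1) j l
  have h2 : (List.ofFn fun m : Fin (L + 1) => ix ((gmap A c N ix)^[j + (m : ℕ)] x)) =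
      List.ofFn (wd (gmap A c N ix) ix L x j) := rfl
  rw [h2] at h1
  simp only [hC.fac] at h1
  have hz : (zc (gmap A c N ix) ix L h N x j : ℤ) =
      (∑ m, h (wd (gmap A c N ix) ix L x j) m * (((gmap A c N ix)^[j] x m : ℕ) : ℤ)) %
        (N : ℤ) := by
    unfold zc
    exact Int.toNat_of_nonneg (Int.emod_nonneg _ hN')
  have h3 : (∑ m, g (wd (gmap A c N ix) ix L x j) l * h (wd (gmap A c N ix) ix L x j) m *
      (((gmap A c N ix)^[j] x m : ℕ) : ℤ)) ≡
      g (wd (gmap A c N ix) ix L x j) l * (zc (gmap A c N ix) ix L h N x j : ℤ)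
      [ZMOD (N : ℤ)] := by
    rw [hz]
    have e : (∑ m, g (wd (gmap A c N ix) ix L x j) l * h (wd (gmap A c N ix) ix L x j) m *
        (((gmap A c N ix)^[j] x m : ℕ) : ℤ)) = g (wd (gmap A c N ix) ix L x j) l *
        ∑ m, h (wd (gmap A c N ix) ix L x j) m * (((gmap A c N ix)^[j] x m : ℕ) : ℤ) := by
      rw [Finset.mul_sum]
      exact Finset.sum_congr rfl fun m _ => by ring
    rw [e]
    exact ((Int.mod_modEq _ _).symm).mul_left _
  have h4 := h1.trans (h3.add_right _)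
  have h5 : (((gmap A c N ix)^[j + (L + 1)] x l : ℕ) : ℤ) =
      (opt A c N g (wd (gmap A c N ix) ix L x j) (zc (gmap A c N ix) ix L h N x j) l : ℤ) := by
    unfold opt
    rw [Int.toNat_of_nonneg (Int.emod_nonneg _ hN')]
    rw [← h4.eq]
    rw [show j + (L + 1) = (j + L) + 1 from by omega, Function.iterate_succ_apply',
      gmap_cast_DOrb A c hN, Int.emod_emod_of_dvd _ (dvd_refl _)]
  exact_mod_cast h5

theorem zc_succ {A : Fin q → Matrix (Fin r) (Fin r) ℤ}
    {g h : (Fin (L + 1) → Fin q) → Fin r → ℤ} {lam : (Fin (L + 1) → Fin q) → Fin q → ℤ}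
    {P : (Fin (L + 1) → Fin q) → ℕ → Prop} (hC : Cert A L S g h lam P) (c : Fin q → Fin r → ℤ)
    {N : ℕ} (hN : 0 < N) (ix : (Fin r → ℕ) → Fin q) (x : Fin r → ℕ) (j : ℕ) :
    (zc (gmap A c N ix) ix L h N x (j + 1) : ℤ) =
      (lam (wd (gmap A c N ix) ix L x j) (ix ((gmap A c N ix)^[j + (L + 1)] x)) *
          (zc (gmap A c N ix) ix L h N x j : ℤ) +
        ∑ m, h (wd (gmap A c N ix) ix L x (j + 1)) m *
          c (wd (gmap A c N ix) ix L x j 0) m) % (N : ℤ) := by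
  have hN' : (N : ℤ) ≠ 0 := by exact_mod_cast hN.ne'
  have hz : ∀ t, (zc (gmap A c N ix) ix L h N x t : ℤ) =
      (∑ m, h (wd (gmap A c N ix) ix L x t) m * (((gmap A c N ix)^[t] x m : ℕ) : ℤ)) %
        (N : ℤ) := by
    intro t
    unfold zc
    exact Int.toNat_of_nonneg (Int.emod_nonneg _ hN')
  rw [hz (j + 1), hz j]
  have hw0 : ix ((gmap A c N ix)^[j] x) = wd (gmap A c N ix) ix L x j 0 := by
    unfold wd
    simp
  have h1 : (∑ m, h (wd (gmap A c N ix) ix L x (j + 1)) m *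
      (((gmap A c N ix)^[j + 1] x m : ℕ) : ℤ)) ≡
      ∑ m, h (wd (gmap A c N ix) ix L x (j + 1)) m *
        ((∑ p, A (wd (gmap A c N ix) ix L x j 0) m p *
          (((gmap A c N ix)^[j] x p : ℕ) : ℤ)) + c (wd (gmap A c N ix) ix L x j 0) m)
      [ZMOD (N : ℤ)] := by
    refine sum_modEq_DOrb _ _ _ fun m => ?_
    have := (step_DOrb A c hN ix x j m).mul_left (h (wd (gmap A c N ix) ix L x (j + 1)) m)
    rw [hw0] at this
    exact this
  have h2 : (∑ m, h (wd (gmap A c N ix) ix L x (j + 1)) m *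
        ((∑ p, A (wd (gmap A c N ix) ix L x j 0) m p *
          (((gmap A c N ix)^[j] x p : ℕ) : ℤ)) + c (wd (gmap A c N ix) ix L x j 0) m)) =
      lam (wd (gmap A c N ix) ix L x j) (ix ((gmap A c N ix)^[j + (L + 1)] x)) *
        (∑ m, h (wd (gmap A c N ix) ix L x j) m * (((gmap A c N ix)^[j] x m : ℕ) : ℤ)) +
      ∑ m, h (wd (gmap A c N ix) ix L x (j + 1)) m *
        c (wd (gmap A c N ix) ix L x j 0) m := by
    simp only [mul_add, Finset.sum_add_distrib]
    congr 1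
    have hs := hC.slope (wd (gmap A c N ix) ix L x j) (ix ((gmap A c N ix)^[j + (L + 1)] x))
    rw [← wd_succ (gmap A c N ix) ix x j] at hs
    rw [Finset.mul_sum]
    simp only [Finset.mul_sum]
    rw [Finset.sum_comm]
    refine Finset.sum_congr rfl fun p _ => ?_
    have hp := congrFun hs p
    simp only [Matrix.vecMul, dotProduct, Pi.smul_apply, smul_eq_mul] at hp
    rw [← mul_assoc, ← hp, Finset.sum_mul]
    exact Finset.sum_congr rfl fun m _ => by ring
  rw [h2] at h1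
  have h3 := h1.trans (((Int.mod_modEq (∑ m, h (wd (gmap A c N ix) ix L x j) m *
    (((gmap A c N ix)^[j] x m : ℕ) : ℤ)) (N : ℤ)).symm.mul_left
      (lam (wd (gmap A c N ix) ix L x j) (ix ((gmap A c N ix)^[j + (L + 1)] x)))).add_right _)
  exact h3

end Pool.Agent.MTr
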