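import Mathlib
import Pool.Agent.MTr.DOrb

/-!
# The state machine follows the orbit

Proof of `nxt_inv`. Induction on `j`. `j = 0`: `s = 1`, `Lam / 1 = Lam`, `Cert.one`. Step: let `w, s` be
the word and the weight at time `j`, `ζ = zc j < N`, `z = Lam / s * ζ`. As `1 ≤ s ≤ S` (`Cert.bd`),
`s ∣ Lam`, so `s * z / Lam = ζ`, and `ix (opt w (s * z / Lam)) = ix (T^[j + (L + 1)] x) =: i`
(`orb_opt`). The new word is `wd (j + 1)` (`wd_succ`), the new weight `s' = nwt lam w i s` satisfies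
`P w' s'` (`Cert.one` if `lam w i = 0`, `Cert.step` otherwise). New value: let `γ` be the sum
`∑ m, h w' m * c (w 0) m` and `λ = lam w i`. If `λ ≠ 0`, `Lam / s = Lam / s' * |λ|` (as `s' = s |λ|`
divides `Lam`), so `sign λ * z = Lam / s' * (λ * ζ)` (`Int.sign_mul_natAbs`); if `λ = 0` both are `0`.
So the new value is `(Lam / s' * (λ ζ + γ)) % (Lam / s' * N) = Lam / s' * ((λ ζ + γ) % N)`
(`Int.mul_emod_mul_of_pos`), and `(λ ζ + γ) % N = zc (j + 1)` by `zc_succ`.
-/

set_option autoImplicit false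

namespace Pool.Agent.MTr

open Pool.Agent.Grz Pool.Agent.PTr Finset

variable {r q L S : ℕ}

theorem zc_lt {N : ℕ} (hN : 0 < N) (T : (Fin r → ℕ) → Fin r → ℕ) (ix : (Fin r → ℕ) → Fin q)
    (h : (Fin (L + 1) → Fin q) → Fin r → ℤ) (x : Fin r → ℕ) (j : ℕ) :
    zc T ix L h N x j < N := by
  unfold zc
  have h1 : (0 : ℤ) < (N : ℤ) := by exact_mod_cast hN
  have h2 := Int.emod_nonneg (∑ m, h (wd T ix L x j) m * ((T^[j] x m : ℕ) : ℤ)) h1.ne'
  have h3 := Int.emod_lt_of_pos (∑ m, h (wd T ix L x j) m * ((T^[j] x m : ℕ) : ℤ)) h1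
  omega

theorem nxt_inv {A : Fin q → Matrix (Fin r) (Fin r) ℤ}
    {g h : (Fin (L + 1) → Fin q) → Fin r → ℤ} {lam : (Fin (L + 1) → Fin q) → Fin q → ℤ}
    {P : (Fin (L + 1) → Fin q) → ℕ → Prop} (hC : Cert A L S g h lam P) (c : Fin q → Fin r → ℤ)
    {N Lam : ℕ} (hN : 0 < N) (hLam : 0 < Lam) (hdvd : ∀ s, 1 ≤ s → s ≤ S → s ∣ Lam)
    (ix : (Fin r → ℕ) → Fin q) (x : Fin r → ℕ) (j : ℕ) :
    ∃ s, P (wd (gmap A c N ix) ix L x j) s ∧
      (nxt A c N Lam g h lam ix)^[j] (wd (gmap A c N ix) ix L x 0, 1,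
        Lam * zc (gmap A c N ix) ix L h N x 0) =
      (wd (gmap A c N ix) ix L x j, s, Lam / s * zc (gmap A c N ix) ix L h N x j) := by
  induction j with
  | zero =>
    refine ⟨1, hC.one _, ?_⟩
    rw [Nat.div_one]
    rfl
  | succ j ih =>
    obtain ⟨s, hP, hs⟩ := ih
    rw [Function.iterate_succ_apply', hs]
    obtain ⟨hb1, hb2⟩ := hC.bd _ _ hP
    have hsd := hdvd s hb1 hb2
    have hz : s * (Lam / s * zc (gmap A c N ix) ix L h N x j) / Lam =
        zc (gmap A c N ix) ix L h N x j := by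
      rw [← mul_assoc, Nat.mul_div_cancel' hsd, Nat.mul_div_cancel_left _ hLam]
    have ho := orb_opt hC c hN ix x j
    have hw := wd_succ (L := L) (gmap A c N ix) ix x j
    have hzs := zc_succ hC c hN ix x j
    obtain ⟨i, hi⟩ : ∃ i, i = ix ((gmap A c N ix)^[j + (L + 1)] x) := ⟨_, rfl⟩
    rw [← hi] at hw hzs
    rw [ho] at hi
    unfold nxt
    simp only
    rw [hz, ← hi]
    obtain ⟨w, hwe⟩ : ∃ w, w = wd (gmap A c N ix) ix L x j := ⟨_, rfl⟩
    obtain ⟨ζ, hζ⟩ : ∃ ζ, ζ = zc (gmap A c N ix) ix L h N x j := ⟨_, rfl⟩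
    rw [← hwe] at hP hw hzs ⊢
    rw [← hζ] at hzs ⊢
    rw [hw] at hzs ⊢
    have hP' : P (shift w i) (nwt lam w i s) := by
      unfold nwt
      split_ifs with h0
      · exact hC.one _
      · exact hC.step w i s hP h0
    obtain ⟨hb3, hb4⟩ := hC.bd _ _ hP'
    obtain ⟨d', hd'⟩ : ∃ d', d' = Lam / nwt lam w i s := ⟨_, rfl⟩
    have hsd' := hdvd _ hb3 hb4
    have hd'0 : 0 < d' := by
      rw [hd']
      exact Nat.div_pos (Nat.le_of_dvd hLam hsd') hb3
    refine ⟨nwt lam w i s, hP', ?_⟩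
    have hval : nval c N Lam h lam w i s (Lam / s * ζ) =
        Lam / nwt lam w i s * zc (gmap A c N ix) ix L h N x (j + 1) := by
      unfold nval
      rw [← hd']
      have hsg : (lam w i).sign * ((Lam / s * ζ : ℕ) : ℤ) = (d' : ℤ) * (lam w i * (ζ : ℤ)) := by
        by_cases h0 : lam w i = 0
        · rw [h0]
          simp
        · have e1 : nwt lam w i s = s * (lam w i).natAbs := by
            unfold nwt
            rw [if_neg h0]
          have e2 : Lam = s * ((lam w i).natAbs * d') := by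
            rw [← mul_assoc, ← e1, hd']
            exact (Nat.mul_div_cancel' hsd').symm
          have e3 : Lam / s = (lam w i).natAbs * d' := by
            rw [e2, Nat.mul_div_cancel_left _ hb1]
          rw [e3]
          have e4 := Int.sign_mul_natAbs (lam w i)
          push_cast
          push_cast at e4
          calc (lam w i).sign * (|lam w i| * (d' : ℤ) * (ζ : ℤ)) =
                ((lam w i).sign * |lam w i|) * ((d' : ℤ) * (ζ : ℤ)) := by ring
            _ = lam w i * ((d' : ℤ) * (ζ : ℤ)) := by rw [e4]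
            _ = _ := by ring
      rw [hsg, ← mul_add, Nat.cast_mul, Int.mul_emod_mul_of_pos _ _ (by exact_mod_cast hd'0),
        ← hzs, ← Nat.cast_mul, Int.toNat_natCast]
    rw [hval]

end Pool.Agent.MTr
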