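import Mathlib
import Pool.Agent.MTr.DInv
import Pool.Agent.MTr.DCode
import Pool.Agent.MTr.DDfn

/-!
# The map on codes computes the orbit

Let `T = gmap A c N ix` and let `s0 = (wd 0, 1, Lam * zc 0)` be the initial state.
* `init_lt`: `ecd e w 1 < m` (`m > 0` because there is a pair of a word and a weight:
  `(wd .. 0, 0) : QS q L S`, so `Fin m` is nonempty) and `Lam * zc 0 < Lam * N` (`zc_lt`).
* `fcd_iter`: induction on `j`; by `nxt_inv` the `j`-th state is
  `(wd j, s, Lam / s * zc j)` with `P (wd j) s`, so `1 ≤ s ≤ S`, `0 < Lam / s`, and the value is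
  `< Lam / s * N` (`zc_lt`); `fcd_cod`.
* `outp_iter`: by `fcd_iter` and `nxt_inv` the argument of `outp` is
  `cod e N Lam (w, s, z)` with `w = wd j`, `z = Lam / s * zc j < Lam * N`; `cod_div`, `cod_mod`: only
  `Q = (w, s)` contributes to the sum, and `s * z / Lam = zc j`; then `orb_opt`.
-/

set_option autoImplicit false

namespace Pool.Agent.MTr

open Pool.Agent.Grz Pool.Agent.PTr Finset

variable {r q L S m : ℕ}

theorem init_lt (e : QS q L S ≃ Fin m) (T : (Fin r → ℕ) → Fin r → ℕ)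
    (ix : (Fin r → ℕ) → Fin q) (h : (Fin (L + 1) → Fin q) → Fin r → ℤ) {N Lam : ℕ}
    (hN : 0 < N) (hLam : 0 < Lam) (x : Fin r → ℕ) :
    cod e N Lam (wd T ix L x 0, 1, Lam * zc T ix L h N x 0) < m * (Lam * N) := by
  have hpos : 0 < m := (Nat.zero_le _).trans_lt (e (wd T ix L x 0, 0)).2
  have h1 : ecd e (wd T ix L x 0) 1 < m := by
    unfold ecd
    split_ifs with h
    · exact (e _).2
    · exact hpos
  have h2 : Lam * zc T ix L h N x 0 < Lam * N :=
    Nat.mul_lt_mul_of_pos_left (zc_lt hN T ix h x 0) hLam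
  have h3 := Nat.mul_le_mul_right (Lam * N) (Nat.succ_le_of_lt h1)
  rw [Nat.succ_mul] at h3
  unfold cod
  exact (Nat.add_lt_add_left h2 _).trans_le h3

theorem fcd_iter {A : Fin q → Matrix (Fin r) (Fin r) ℤ}
    {g h : (Fin (L + 1) → Fin q) → Fin r → ℤ} {lam : (Fin (L + 1) → Fin q) → Fin q → ℤ}
    {P : (Fin (L + 1) → Fin q) → ℕ → Prop} (hC : Cert A L S g h lam P) (e : QS q L S ≃ Fin m)
    (c : Fin q → Fin r → ℤ) {N Lam : ℕ} (hN : 0 < N) (hLam : 0 < Lam)
    (hdvd : ∀ s, 1 ≤ s → s ≤ S → s ∣ Lam) (ix : (Fin r → ℕ) → Fin q) (x : Fin r → ℕ) (j : ℕ) :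
    (fcd e P A c N Lam g h lam ix)^[j] (cod e N Lam (wd (gmap A c N ix) ix L x 0, 1,
      Lam * zc (gmap A c N ix) ix L h N x 0)) =
    cod e N Lam ((nxt A c N Lam g h lam ix)^[j] (wd (gmap A c N ix) ix L x 0, 1,
      Lam * zc (gmap A c N ix) ix L h N x 0)) := by
  induction j with
  | zero => rfl
  | succ j ih =>
    rw [Function.iterate_succ_apply', Function.iterate_succ_apply', ih]
    obtain ⟨s, hP, hs⟩ := nxt_inv hC c hN hLam hdvd ix x j
    rw [hs]
    refine fcd_cod hC e c hN hLam ix hP ?_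
    obtain ⟨h1, h2⟩ := hC.bd _ _ hP
    have h3 : 0 < Lam / s := Nat.div_pos (Nat.le_of_dvd hLam (hdvd s h1 h2)) h1
    exact Nat.mul_lt_mul_of_pos_left (zc_lt hN _ _ _ _ _) h3

theorem outp_iter {A : Fin q → Matrix (Fin r) (Fin r) ℤ}
    {g h : (Fin (L + 1) → Fin q) → Fin r → ℤ} {lam : (Fin (L + 1) → Fin q) → Fin q → ℤ}
    {P : (Fin (L + 1) → Fin q) → ℕ → Prop} (hC : Cert A L S g h lam P) (e : QS q L S ≃ Fin m)
    (c : Fin q → Fin r → ℤ) {N Lam : ℕ} (hN : 0 < N) (hLam : 0 < Lam)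
    (hdvd : ∀ s, 1 ≤ s → s ≤ S → s ∣ Lam) (ix : (Fin r → ℕ) → Fin q) (x : Fin r → ℕ) (j : ℕ) :
    outp e A c N Lam g ((fcd e P A c N Lam g h lam ix)^[j]
      (cod e N Lam (wd (gmap A c N ix) ix L x 0, 1,
        Lam * zc (gmap A c N ix) ix L h N x 0))) = (gmap A c N ix)^[j + (L + 1)] x := by
  obtain ⟨s, hP, hs⟩ := nxt_inv hC c hN hLam hdvd ix x j
  rw [fcd_iter hC e c hN hLam hdvd ix x j, hs, orb_opt hC c hN ix x j]
  obtain ⟨h1, h2⟩ := hC.bd _ _ hP
  have h0 := hdvd s h1 h2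
  have h3 : 0 < Lam / s := Nat.div_pos (Nat.le_of_dvd hLam h0) h1
  have h4 : zc (gmap A c N ix) ix L h N x j < N := zc_lt hN _ _ _ _ _
  have h5 : Lam / s * zc (gmap A c N ix) ix L h N x j < Lam * N :=
    (Nat.mul_le_mul_right _ (Nat.div_le_self _ _)).trans_lt (Nat.mul_lt_mul_of_pos_left h4 hLam)
  have h6 : s * (Lam / s * zc (gmap A c N ix) ix L h N x j) / Lam =
      zc (gmap A c N ix) ix L h N x j := by
    rw [← mul_assoc, Nat.mul_div_cancel' h0, Nat.mul_div_cancel_left _ hLam]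
  have h7 : s < S + 1 := by omega
  funext l
  unfold outp
  rw [cod_mod e h5, cod_div e h7 h5, Finset.sum_eq_single (wd (gmap A c N ix) ix L x j, ⟨s, h7⟩)]
  · rw [if_pos rfl]
    show opt A c N g (wd (gmap A c N ix) ix L x j)
      (s * (Lam / s * zc (gmap A c N ix) ix L h N x j) / Lam) l = _
    rw [h6]
  · intro Q _ hQ
    refine if_neg fun h => hQ ?_
    exact (e.injective (Fin.ext h)).symm
  · intro h
    exact absurd (Finset.mem_univ _) h

end Pool.Agent.MTr
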