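import Mathlib

/-!
# Paths in a finite graph whose closed paths have weight one in absolute value

Proof of `pth_bound`. Let `m ≥ 1` bound all `|wt v i|`. Claim: for every finite set `T` of vertices,
every path (from `u` to `v`) all of whose vertices are in `T` has `|s| ≤ m ^ T.card`. By induction
on the cardinality of `T`: take a path from `u` to `v` in `T` and cut it at the LAST visit of `u`:
the first part is a closed path at `u`, with `|weight| = 1`; the second part is either empty or
starts with one edge (weight `≤ m`) to some `u'` followed by a path from `u'` to `v` which does not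
visit `u` any more, so its vertices are in `T \ {u}`: weight `≤ m ^ (T.card - 1)`. With `T` all
vertices: `S = m ^ card V`. (Any other proof is fine: e.g. strong induction on the length of the
list of letters `l`; if the length is at least the number of vertices, some vertex is visited twice,
by the pigeonhole principle, and the closed part between the two visits can be removed without
changing `|s|`; the paths of bounded length have bounded weight. It may be convenient to prove first
the composition `Pth u v l s → Pth v w l' s' → Pth u w (l ++ l') (s * s')` and the decomposition of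
a path at an intermediate position.) -/

set_option autoImplicit false

namespace Pool.Agent.MTr

/-- Paths with nonzero weights: `Pth next wt u v l s` means that the letters `l` lead from `u` to
`v` and that `s` is the product of the weights. -/
inductive Pth {V I : Type} (next : V → I → V) (wt : V → I → ℤ) (u : V) :
    V → List I → ℤ → Prop
  | nil : Pth next wt u u [] 1
  | snoc {v : V} {l : List I} {s : ℤ} (i : I) : Pth next wt u v l s → wt v i ≠ 0 →
      Pth next wt u (next v i) (l ++ [i]) (s * wt v i)

private theorem chain_EPth {V I : Type} {next : V → I → V} {wt : V → I → ℤ} {n : ℕ}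
    {x : ℕ → V} {e : ℕ → I}
    (hx : ∀ l < n, x (l + 1) = next (x l) (e l) ∧ wt (x l) (e l) ≠ 0) {j k : ℕ}
    (hjk : j ≤ k) (hk : k ≤ n) :
    ∃ w, Pth next wt (x j) (x k) w (∏ l ∈ Finset.Ico j k, wt (x l) (e l)) := by
  induction k, hjk using Nat.le_induction with
  | base => exact ⟨[], by rw [Finset.Ico_self, Finset.prod_empty]; exact Pth.nil⟩
  | succ k hjk ih =>
    obtain ⟨w, hw⟩ := ih (by omega)
    obtain ⟨h1, h2⟩ := hx k (by omega)
    rw [Finset.prod_Ico_succ_top hjk, h1]
    exact ⟨_, Pth.snoc (e k) hw h2⟩

private theorem simple_EPth {V I : Type} [hI : Nonempty I] {next : V → I → V} {wt : V → I → ℤ}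
    (hcl : ∀ v l s, Pth next wt v v l s → s.natAbs = 1) {u v : V} {l : List I} {s : ℤ}
    (h : Pth next wt u v l s) : ∃ (n : ℕ) (x : ℕ → V) (e : ℕ → I), x 0 = u ∧ x n = v ∧
      (∀ l < n, x (l + 1) = next (x l) (e l) ∧ wt (x l) (e l) ≠ 0) ∧
      (∀ a ≤ n, ∀ b ≤ n, x a = x b → a = b) ∧
      s.natAbs = ∏ l ∈ Finset.range n, (wt (x l) (e l)).natAbs := by
  induction h with
  | nil =>
    obtain ⟨i⟩ := hI
    exact ⟨0, fun _ => u, fun _ => i, rfl, rfl, by simp, by
      intro a ha b hb _
      omega, by simp⟩
  | @snoc v l s i hp hi ih =>
    obtain ⟨n, x, e, h0, hn, hx, hinj, hs⟩ := ih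
    by_cases hj : ∃ j ≤ n, x j = next v i
    · obtain ⟨j, hj, hj2⟩ := hj
      refine ⟨j, x, e, h0, hj2, fun l hl => hx l (by omega),
        fun a ha b hb => hinj a (by omega) b (by omega), ?_⟩
      obtain ⟨w, hw⟩ := chain_EPth hx hj le_rfl
      rw [hn] at hw
      have h1 := Pth.snoc i hw hi
      rw [← hj2] at h1
      have h2 := hcl _ _ _ h1
      rw [Int.natAbs_mul] at h2 ⊢
      have h3 : ∏ l ∈ Finset.range n, (wt (x l) (e l)).natAbs =
          (∏ l ∈ Finset.range j, (wt (x l) (e l)).natAbs) *
            (∏ l ∈ Finset.Ico j n, wt (x l) (e l)).natAbs := by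
        rw [← Finset.prod_range_mul_prod_Ico _ hj]
        congr 1
        exact (map_prod Int.natAbsHom _ _).symm
      rw [hs, h3, mul_assoc, h2, mul_one]
    · push Not at hj
      refine ⟨n + 1, Function.update x (n + 1) (next v i), Function.update e n i, ?_, ?_, ?_, ?_,
        ?_⟩
      · rw [Function.update_of_ne (by omega), h0]
      · rw [Function.update_self]
      · intro l hl
        rcases Nat.lt_succ_iff_lt_or_eq.1 hl with h | h
        · rw [Function.update_of_ne (by omega), Function.update_of_ne (by omega),
            Function.update_of_ne (by omega)]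
          exact hx l h
        · subst h
          rw [Function.update_self, Function.update_self, Function.update_of_ne (by omega), hn]
          exact ⟨rfl, hi⟩
      · intro a ha b hb hab
        by_cases ha' : a = n + 1
        · by_cases hb' : b = n + 1
          · rw [ha', hb']
          · rw [ha', Function.update_self, Function.update_of_ne hb'] at hab
            exact absurd hab.symm (hj b (by omega))
        · by_cases hb' : b = n + 1
          · rw [hb', Function.update_self, Function.update_of_ne ha'] at hab
            exact absurd hab (hj a (by omega))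
          · rw [Function.update_of_ne ha', Function.update_of_ne hb'] at hab
            exact hinj a (by omega) b (by omega) hab
      · rw [Finset.prod_range_succ, Function.update_self, Function.update_of_ne (by omega), hn,
          Int.natAbs_mul, hs]
        congr 1
        refine Finset.prod_congr rfl fun l hl => ?_
        have hl' := Finset.mem_range.1 hl
        rw [Function.update_of_ne (by omega), Function.update_of_ne (by omega)]

theorem pth_bound {V I : Type} [Finite V] [Finite I] (next : V → I → V) (wt : V → I → ℤ)
    (hcl : ∀ v l s, Pth next wt v v l s → s.natAbs = 1) :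
    ∃ S : ℕ, ∀ u v l s, Pth next wt u v l s → s.natAbs ≤ S := by
  rcases isEmpty_or_nonempty I with hI | hI
  · refine ⟨1, fun u v l s h => ?_⟩
    cases h with
    | nil => exact le_rfl
    | snoc i _ _ => exact isEmptyElim i
  obtain ⟨M, hM⟩ := (Set.finite_range fun p : V × I => (wt p.1 p.2).natAbs).bddAbove
  have hM' : ∀ v i, (wt v i).natAbs ≤ M + 1 := fun v i =>
    (hM ⟨(v, i), rfl⟩).trans (Nat.le_succ M)
  refine ⟨(M + 1) ^ Nat.card V, fun u v l s h => ?_⟩
  obtain ⟨n, x, e, h0, hn, hx, hinj, hs⟩ := simple_EPth hcl h
  have h1 : n + 1 ≤ Nat.card V := by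
    have h2 : Function.Injective fun a : Fin (n + 1) => x a := fun a b hab =>
      Fin.ext (hinj a (by omega) b (by omega) hab)
    have h3 := Nat.card_le_card_of_injective _ h2
    rwa [Nat.card_fin] at h3
  rw [hs]
  calc ∏ l ∈ Finset.range n, (wt (x l) (e l)).natAbs ≤ ∏ l ∈ Finset.range n, (M + 1) :=
        Finset.prod_le_prod' fun l _ => hM' _ _
    _ = (M + 1) ^ n := by rw [Finset.prod_const, Finset.card_range]
    _ ≤ _ := Nat.pow_le_pow_right (Nat.succ_pos M) (by omega)

end Pool.Agent.MTr
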