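import Mathlib
import Pool.Agent.MTr.Defs

/-!
# Integral matrices with vanishing minors: factorization with a primitive left factor

Proof of `exists_factor`. If `M = 0` take `g = b` the unit vector of index `⟨0, hr⟩`, `h = 0`.
Otherwise let `M i0 j0 ≠ 0`, `d > 0` the gcd of the column `j0` (`Finset.gcd`, or iterate Bezout),
`M i j0 = d * g i`, and `b` with `∑ b i * M i j0 = d`, so `∑ b i * g i = 1` (`d ≠ 0`). Put
`h j = ∑ i, b i * M i j`. Then `d * (M i j) = ∑ k, b k * M k j0 * M i j = ∑ k, b k * M k j * M i j0`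
(by `hM`: `M k j0 * M i j = M k j * M i j0`) `= h j * M i j0 = d * (g i * h j)`; cancel `d`.

Proof of `exists_lam`. Let `η = Matrix.vecMul h' B` and `u = A.mulVec g`. The hypothesis
`A * M = M' * B` reads `u i * h j = g' i * η j`. Let `b'` be the Bezout vector of `g'` and
`t = ∑ i, b' i * u i`; then `η j = ∑ i, b' i * g' i * η j = t * h j`. If `h = 0` then `η = 0` and
`lam = 0` works. Otherwise take `lam = t`: for `j` with `h j ≠ 0`:
`u i * h j = g' i * η j = g' i * t * h j`, so `u i = t * g' i`, for all `i`.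
-/

set_option autoImplicit false

namespace Pool.Agent.MTr

open Finset

variable {r : ℕ}

theorem exists_factor (hr : 0 < r) (M : Matrix (Fin r) (Fin r) ℤ)
    (hM : ∀ i j k m, M i k * M j m = M i m * M j k) :
    ∃ g h b : Fin r → ℤ, (∀ i j, M i j = g i * h j) ∧ ∑ i, b i * g i = 1 := by
  classical
  by_cases h0 : ∀ i j, M i j = 0
  · refine ⟨Pi.single ⟨0, hr⟩ 1, 0, Pi.single ⟨0, hr⟩ 1, fun i j => ?_, ?_⟩
    · rw [h0, Pi.zero_apply, mul_zero]
    · rw [Finset.sum_eq_single (⟨0, hr⟩ : Fin r)]
      · rw [Pi.single_eq_same, one_mul]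
      · intro b _ hb
        rw [Pi.single_apply, if_neg hb, zero_mul]
      · intro hb
        exact absurd (Finset.mem_univ _) hb
  · push Not at h0
    obtain ⟨i0, j0, h0⟩ := h0
    let I : Ideal ℤ := Ideal.span (Set.range fun i => M i j0)
    let d : ℤ := Submodule.IsPrincipal.generator I
    have hd : d ∈ I := Submodule.IsPrincipal.generator_mem I
    obtain ⟨b, hb⟩ := (Ideal.mem_span_range_iff_exists_fun).1 hd
    have hdiv : ∀ i, d ∣ M i j0 := fun i =>
      (Submodule.IsPrincipal.mem_iff_generator_dvd I).1 (Ideal.subset_span ⟨i, rfl⟩)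
    choose g hg using hdiv
    have hd0 : d ≠ 0 := by
      intro h1
      rw [hg i0, h1, zero_mul] at h0
      exact h0 rfl
    refine ⟨g, fun j => ∑ i, b i * M i j, b, fun i j => ?_, ?_⟩
    · apply mul_left_cancel₀ hd0
      have e1 : d * M i j = ∑ k, b k * M k j * M i j0 := by
        rw [← hb, Finset.sum_mul]
        refine Finset.sum_congr rfl fun k _ => ?_
        have := hM k i j0 j
        show b k * M k j0 * M i j = _
        rw [mul_assoc, this, mul_assoc]
      rw [e1, ← Finset.sum_mul, hg i]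
      ring
    · apply mul_left_cancel₀ hd0
      rw [mul_one, Finset.mul_sum]
      refine Eq.trans ?_ hb
      refine Finset.sum_congr rfl fun i _ => ?_
      show d * (b i * g i) = b i * M i j0
      rw [hg i]
      ring

theorem exists_lam {A B M M' : Matrix (Fin r) (Fin r) ℤ} {g h g' h' b' : Fin r → ℤ}
    (hM : ∀ i j, M i j = g i * h j) (hM' : ∀ i j, M' i j = g' i * h' j)
    (hb' : ∑ i, b' i * g' i = 1) (hAB : A * M = M' * B) :
    ∃ lam : ℤ, Matrix.vecMul h' B = lam • h ∧ (lam ≠ 0 → A.mulVec g = lam • g') := by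
  have h1 : ∀ i j, A.mulVec g i * h j = g' i * Matrix.vecMul h' B j := by
    intro i j
    have h2 := congrFun (congrFun hAB i) j
    rw [Matrix.mul_apply, Matrix.mul_apply] at h2
    simp only [hM, hM'] at h2
    unfold Matrix.mulVec Matrix.vecMul dotProduct
    rw [Finset.sum_mul, Finset.mul_sum]
    calc ∑ k, A i k * g k * h j = ∑ k, A i k * (g k * h j) :=
          Finset.sum_congr rfl fun k _ => mul_assoc _ _ _
      _ = ∑ k, g' i * h' k * B k j := h2
      _ = ∑ k, g' i * (h' k * B k j) := Finset.sum_congr rfl fun k _ => mul_assoc _ _ _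
  have h3 : ∀ j, Matrix.vecMul h' B j = (∑ i, b' i * A.mulVec g i) * h j := by
    intro j
    calc Matrix.vecMul h' B j = (∑ i, b' i * g' i) * Matrix.vecMul h' B j := by
          rw [hb', one_mul]
      _ = ∑ i, b' i * (A.mulVec g i * h j) := by
          rw [Finset.sum_mul]
          refine Finset.sum_congr rfl fun i _ => ?_
          rw [h1, mul_assoc]
      _ = (∑ i, b' i * A.mulVec g i) * h j := by
          rw [Finset.sum_mul]
          exact Finset.sum_congr rfl fun i _ => (mul_assoc _ _ _).symm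
  by_cases hh : ∀ j, h j = 0
  · refine ⟨0, ?_, fun h => absurd rfl h⟩
    funext j
    rw [h3, hh, mul_zero, zero_smul, Pi.zero_apply]
  · push Not at hh
    obtain ⟨j, hj⟩ := hh
    refine ⟨∑ i, b' i * A.mulVec g i, ?_, fun _ => ?_⟩
    · funext j
      rw [h3, Pi.smul_apply, smul_eq_mul]
    · funext i
      apply mul_right_cancel₀ hj
      rw [h1, h3, Pi.smul_apply, smul_eq_mul]
      ring

end Pool.Agent.MTr
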