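import Mathlib

/-!
# Long products in an algebra of nilpotent matrices vanish

Proof. Let `A` be a space of nilpotent matrices closed under multiplication, `V = n → ℚ`.

1. Let `W` be a nonzero subspace of `V` with `A W ⊆ W`. Then the span of `A W` is different from
   `W`.
   Otherwise: among the linear forms `φ ≠ 0` on `W` choose one with the dimension of
   `φ A = {φ ∘ a : a ∈ A}` (a subspace of the dual of `W`) minimal. If `φ A ≠ 0`, take `a` with
   `ψ = φ ∘ a ≠ 0`; `ψ A ⊆ φ A` since `a A ⊆ A`, so `ψ A = φ A` by minimality, and `ψ ∈ φ A = ψ A`,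
   so `ψ = ψ ∘ b` with `b ∈ A`, so `ψ = ψ ∘ b ^ k` for all `k`, but `b` is nilpotent, so `ψ = 0`,
   contradiction. So `φ A = 0`: `φ` vanishes on `A W`, and `A W ≠ W` as `φ ≠ 0`.
2. Let `W_0 = V` and `W_(k+1)` the span of `A W_k`; these are decreasing, `A W_k ⊆ W_k`, and
   `dim W_(k+1) < dim W_k` when `W_k ≠ 0`, so `W_d = 0` for `d` the size of the matrices. The
   product of `d` elements of `A` maps `V` into `W_d = 0`.

(Alternatively Engel's theorem of Mathlib for the Lie algebra `A`.)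
-/

set_option autoImplicit false

namespace Pool.Agent.MTr

private theorem prod_mem_pow {n : Type} [Fintype n] [DecidableEq n]
    {A : Submodule ℚ (Matrix n n ℚ)} {l : List (Matrix n n ℚ)} (hl : ∀ a ∈ l, a ∈ A) :
    l.prod ∈ A ^ l.length := by
  induction l with
  | nil =>
    rw [List.prod_nil, List.length_nil, pow_zero]
    exact Submodule.one_le.1 le_rfl
  | cons a l ih =>
    rw [List.prod_cons, List.length_cons, pow_succ']
    exact Submodule.mul_mem_mul (hl a (by simp)) (ih fun b hb => hl b (by simp [hb]))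

private theorem eq_bot_of_idem {n : Type} [Fintype n] [DecidableEq n]
    {B : Submodule ℚ (Matrix n n ℚ)} (hB : B * B = B) (hnil : ∀ a ∈ B, IsNilpotent a) :
    B = ⊥ := by
  by_contra hne
  have hwf : WellFounded ((· < ·) : Submodule ℚ (Matrix n n ℚ) → _ → Prop) :=
    wellFounded_lt
  obtain ⟨I, ⟨hI0, hIB⟩, hmin⟩ := hwf.has_min
    {I : Submodule ℚ (Matrix n n ℚ) | I ≠ ⊥ ∧ I * B = I} ⟨B, hne, hB⟩
  have hx : ∃ x ∈ I, Submodule.span ℚ {x} * B ≠ ⊥ := by
    by_contra hcon
    push Not at hcon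
    apply hI0
    rw [← hIB, eq_bot_iff]
    refine Submodule.mul_le.2 fun x hx b hb => ?_
    rw [← hcon x hx]
    exact Submodule.mul_mem_mul (Submodule.mem_span_singleton_self x) hb
  obtain ⟨x, hxI, hxB⟩ := hx
  have hJI : Submodule.span ℚ {x} * B ≤ I := by
    rw [← hIB]
    refine mul_le_mul_left ?_ B
    simpa [Submodule.span_singleton_le_iff_mem] using hxI
  have hJ : Submodule.span ℚ {x} * B = I := by
    by_contra hJne
    exact hmin _ ⟨hxB, by rw [mul_assoc, hB]⟩ (lt_of_le_of_ne hJI hJne)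
  have hxJ : x ∈ Submodule.span ℚ {x} * B := by rw [hJ]; exact hxI
  obtain ⟨b, hb, hxb⟩ := Submodule.mem_span_singleton_mul.1 hxJ
  obtain ⟨k, hk⟩ := hnil b hb
  have hxk : ∀ j, x * b ^ j = x := by
    intro j
    induction j with
    | zero => simp
    | succ j ih => rw [pow_succ, ← mul_assoc, ih, hxb]
  have hx0 : x = 0 := by rw [← hxk k, hk, mul_zero]
  apply hxB
  rw [hx0]
  simp

theorem exists_prod_zero {n : Type} [Fintype n] [DecidableEq n]
    (A : Submodule ℚ (Matrix n n ℚ)) (hmul : ∀ a ∈ A, ∀ b ∈ A, a * b ∈ A)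
    (hnil : ∀ a ∈ A, IsNilpotent a) :
    ∃ d, ∀ l : List (Matrix n n ℚ), (∀ a ∈ l, a ∈ A) → l.length = d → l.prod = 0 := by
  have hAA : A * A ≤ A := Submodule.mul_le.2 hmul
  let f : ℕ →o (Submodule ℚ (Matrix n n ℚ))ᵒᵈ :=
    ⟨fun k => OrderDual.toDual (A ^ (k + 1)), monotone_nat_of_le_succ fun k => by
      change A ^ (k + 1 + 1) ≤ A ^ (k + 1)
      rw [pow_succ A (k + 1)]
      calc A ^ (k + 1) * A = A ^ k * (A * A) := by rw [pow_succ, mul_assoc]
        _ ≤ A ^ k * A := mul_le_mul_right hAA _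
        _ = A ^ (k + 1) := (pow_succ _ _).symm⟩
  obtain ⟨m, hm⟩ := IsArtinian.monotone_stabilizes f
  have hpow : A ^ (m + 1) * A ^ (m + 1) = A ^ (m + 1) := by
    rw [← pow_add]
    have := hm (m + 1 + m) (by omega)
    exact (congrArg OrderDual.ofDual this).symm
  have hle : A ^ (m + 1) ≤ A := by
    have h : ∀ k, A ^ (k + 1) ≤ A := by
      intro k
      induction k with
      | zero => simp
      | succ k ih =>
        rw [pow_succ]
        exact (mul_le_mul_left ih A).trans hAA
    exact h m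
  have hbot : A ^ (m + 1) = ⊥ := eq_bot_of_idem hpow fun a ha => hnil a (hle ha)
  refine ⟨m + 1, fun l hl hlen => ?_⟩
  have h := prod_mem_pow hl
  rw [hlen, hbot] at h
  simpa using h

end Pool.Agent.MTr
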