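import Mathlib

/-!
# A rational matrix all of whose powers have trace zero is nilpotent

Proof. Pass to `ℂ` (or to the algebraic closure of `ℚ`): let `A` be the image of `M`. Let
`z_1, ..., z_t` be the different nonzero roots of the characteristic polynomial of `A`, with
multiplicities `m_i ≥ 1`. The trace of `A ^ k` is `∑ i, m_i * z_i ^ k`
(`Matrix.trace_eq_sum_roots_charpoly` and the roots of the characteristic polynomial of a power, see
`Mathlib/LinearAlgebra/Matrix/Charpoly/Eigs.lean`; or triangularize). So
`∑ i, m_i * z_i ^ k = 0` for `k = 1, ..., t`; the Vandermonde determinant of the `z_i` is nonzero,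
so `m_i * z_i = 0`, contradiction if `t ≥ 1`. So `t = 0`, the characteristic polynomial of `A` is
`X ^ n`, so is that of `M`, and `M ^ n = 0` by Cayley-Hamilton.

Another proof, by strong induction on the size: if `det M ≠ 0`, Cayley-Hamilton
`∑_{k ≥ 1} c_k M ^ k + c_0 = 0` with `c_0 = ± det M ≠ 0` gives, taking traces, `c_0 * n = 0`: so the
determinant is `0` (if the size is positive); then restrict to the quotient by the kernel. Any
proof is fine.
-/

set_option autoImplicit false

namespace Pool.Agent.MTr

open Polynomial in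
private theorem trace_aeval_mul_X {n : Type} [Fintype n] [DecidableEq n] (M : Matrix n n ℚ)
    (h : ∀ k, 1 ≤ k → (M ^ k).trace = 0) (w : ℚ[X]) : (aeval M (w * X)).trace = 0 := by
  induction w using Polynomial.induction_on' with
  | add p q hp hq => rw [add_mul, map_add, Matrix.trace_add, hp, hq, add_zero]
  | monomial k c =>
    rw [monomial_mul_X, aeval_monomial, ← Algebra.smul_def, Matrix.trace_smul,
      h (k + 1) (Nat.succ_le_succ (Nat.zero_le k)), smul_zero]

open Polynomial in
theorem isNilpotent_of_trace_pow {n : Type} [Fintype n] [DecidableEq n] (M : Matrix n n ℚ)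
    (h : ∀ k, 1 ≤ k → (M ^ k).trace = 0) : IsNilpotent M := by
  have hp : M.charpoly ≠ 0 := (Matrix.charpoly_monic M).ne_zero
  obtain ⟨q, hq, hq'⟩ := exists_eq_pow_rootMultiplicity_mul_and_not_dvd M.charpoly hp 0
  generalize rootMultiplicity 0 M.charpoly = a at hq
  rw [C_0, sub_zero] at hq hq'
  have hco : IsCoprime (X ^ (a + 1) : ℚ[X]) q :=
    ((irreducible_X.coprime_iff_not_dvd).2 hq').pow_left
  obtain ⟨u, v, huv⟩ := hco
  have h0 : aeval M (X ^ a * q) = 0 := by
    rw [← hq]
    exact Matrix.aeval_self_charpoly M
  set e : Matrix n n ℚ := aeval M (u * X ^ (a + 1)) with he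
  set f : Matrix n n ℚ := aeval M (v * q) with hf
  have hef : e + f = 1 := by
    rw [he, hf, ← map_add, huv, map_one]
  have hef' : e * f = 0 := by
    have h1 : u * X ^ (a + 1) * (v * q) = u * v * X * (X ^ a * q) := by ring
    rw [he, hf, ← map_mul, h1, map_mul, h0, mul_zero]
  have hee : e * e = e := by
    have h1 : e * (e + f) = e * e := by rw [mul_add, hef', add_zero]
    rw [← h1, hef, mul_one]
  have htr : e.trace = 0 := by
    have h1 : u * X ^ (a + 1) = (u * X ^ a) * X := by ring
    rw [he, h1]
    exact trace_aeval_mul_X M h _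
  have he0 : e = 0 := by
    have h1 : IsIdempotentElem (Matrix.toLin' e) := by
      have h2 : Matrix.toLin' (e * e) = Matrix.toLin' e * Matrix.toLin' e :=
        Matrix.toLin'_mul e e
      rw [hee] at h2
      exact h2.symm
    have h2 : Matrix.toLin' e = 0 := by
      refine LinearMap.IsIdempotentElem.eq_zero_of_trace_eq_zero h1 ?_
      rw [Matrix.trace_toLin'_eq, htr]
    exact (LinearEquiv.map_eq_zero_iff _).1 h2
  have hf1 : f = 1 := by
    rw [he0, zero_add] at hef
    exact hef
  refine ⟨a, ?_⟩
  have h1 : M ^ a * f = 0 := by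
    have h2 : X ^ a * (v * q) = v * (X ^ a * q) := by ring
    have h3 : M ^ a = aeval M (X ^ a : ℚ[X]) := by rw [map_pow, aeval_X]
    rw [h3, hf, ← map_mul, h2, map_mul, h0, mul_zero]
  rwa [hf1, mul_one] at h1

end Pool.Agent.MTr
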