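import Mathlib
import Pool.Agent.MTr.Defs

/-!
# Traces of tame matrices; second compounds

Proofs.

* `trace_sq_of_tame`. If `r = 0` both sides are `0`. Let `r ≥ 1`; the trace is minus the coefficient
  of `X ^ (r - 1)` of the characteristic polynomial (`Matrix.trace_eq_neg_charpoly_coeff`).
  If `M.charpoly = X ^ r` then `M ^ r = 0` (Cayley-Hamilton, `Matrix.aeval_self_charpoly`), so
  `M * M` is nilpotent, `1 - M * M` and `-1 - M * M` are units, so `1` and `-1` are not roots of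
  `(M * M).charpoly`, so `(M * M).charpoly = X ^ r`; both traces are `0`.
  If `M.charpoly = X ^ (r - 1) * (X - 1)` or `X ^ (r - 1) * (X + 1)` then `M.trace = 1` or `-1`, and
  `det (M - 1) = 0` or `det (M + 1) = 0`, so `det (M * M - 1) = det (M - 1) * det (M + 1) = 0`, so
  `1` is a root of `(M * M).charpoly`, which is therefore `X ^ (r - 1) * (X - 1)`; the trace of
  `M * M` is `1`.
* `cmp_mul`: expand both sides: the sum over `(a, b)` of
  `(s i a * s j b - s i b * s j a) * (t a k * t b l - t a l * t b k)` is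
  `2 * ((s * t) i k * (s * t) j l - (s * t) i l * (s * t) j k)`
  (`Fintype.sum_prod_type`, `Finset.sum_mul_sum`, exchange the names `a, b` in two of the terms).
* `trace_cmp`: the sum over `(i, j)` of `s i i * s j j - s i j * s j i`.
-/

set_option autoImplicit false

namespace Pool.Agent.MTr

open Finset

variable {r : ℕ}

private theorem KTrace_nil {M : Matrix (Fin r) (Fin r) ℤ} (h : M.charpoly = Polynomial.X ^ r) :
    IsNilpotent M := by
  refine ⟨r, ?_⟩
  have h1 := Matrix.aeval_self_charpoly M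
  rw [h, map_pow, Polynomial.aeval_X] at h1
  exact h1

private theorem KTrace_zero {M : Matrix (Fin r) (Fin r) ℤ} (h : IsNilpotent M) : M.trace = 0 :=
  (Matrix.isNilpotent_trace_of_isNilpotent h).eq_zero

private theorem KTrace_one {M : Matrix (Fin r) (Fin r) ℤ} (hr : 0 < r)
    (h : M.charpoly = Polynomial.X ^ (r - 1) * (Polynomial.X - 1)) : M.trace = 1 := by
  have : Nonempty (Fin r) := ⟨⟨0, hr⟩⟩
  rw [Matrix.trace_eq_neg_charpoly_coeff, h, Fintype.card_fin, mul_sub, mul_one, ← pow_succ,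
    Polynomial.coeff_sub, Polynomial.coeff_X_pow, Polynomial.coeff_X_pow]
  rw [if_neg (by omega), if_pos rfl]
  norm_num

private theorem KTrace_neg {M : Matrix (Fin r) (Fin r) ℤ} (hr : 0 < r)
    (h : M.charpoly = Polynomial.X ^ (r - 1) * (Polynomial.X + 1)) : M.trace = -1 := by
  have : Nonempty (Fin r) := ⟨⟨0, hr⟩⟩
  rw [Matrix.trace_eq_neg_charpoly_coeff, h, Fintype.card_fin, mul_add, mul_one, ← pow_succ,
    Polynomial.coeff_add, Polynomial.coeff_X_pow, Polynomial.coeff_X_pow]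
  rw [if_neg (by omega), if_pos rfl]
  norm_num

private theorem KTrace_eval (M : Matrix (Fin r) (Fin r) ℤ) :
    (M.charpoly).eval 1 = (1 - M).det := by
  rw [Matrix.eval_charpoly, map_one]

private theorem KTrace_eval' (M : Matrix (Fin r) (Fin r) ℤ) :
    (M.charpoly).eval (-1) = (-1 - M).det := by
  rw [Matrix.eval_charpoly, map_neg, map_one]

/-- the last step: the square has the characteristic polynomial `X ^ (r - 1) * (X - 1)` -/
private theorem KTrace_last {M : Matrix (Fin r) (Fin r) ℤ} (hr : 0 < r) (ht : M.trace ^ 2 = 1)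
    (hd : (1 - M * M).det = 0) (h2 : TamePoly r (M * M).charpoly) :
    M.trace ^ 2 = (M * M).trace := by
  rcases h2 with h | h | h
  · exfalso
    obtain ⟨n, hn⟩ := KTrace_nil h
    have h3 : IsNilpotent M := ⟨2 * n, by rw [pow_mul, pow_two, hn]⟩
    rw [KTrace_zero h3] at ht
    norm_num at ht
  · rw [ht, KTrace_one hr h]
  · exfalso
    have h3 := KTrace_eval (M * M)
    rw [hd, h] at h3
    simp at h3

theorem trace_sq_of_tame {M : Matrix (Fin r) (Fin r) ℤ} (h1 : TamePoly r M.charpoly)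
    (h2 : TamePoly r (M * M).charpoly) : M.trace ^ 2 = (M * M).trace := by
  rcases Nat.eq_zero_or_pos r with hr | hr
  · subst hr
    rw [Matrix.trace_eq_zero_of_isEmpty, Matrix.trace_eq_zero_of_isEmpty]
    norm_num
  rcases h1 with h | h | h
  · have h3 := KTrace_nil h
    have h4 : IsNilpotent (M * M) := by
      obtain ⟨n, hn⟩ := h3
      exact ⟨n, by rw [← pow_two, ← pow_mul, mul_comm, pow_mul, hn, zero_pow two_ne_zero]⟩
    rw [KTrace_zero h3, KTrace_zero h4]
    norm_num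
  · refine KTrace_last hr (by rw [KTrace_one hr h]; norm_num) ?_ h2
    have h3 : (1 - M).det = 0 := by
      rw [← KTrace_eval, h]
      simp
    have h4 : 1 - M * M = (1 - M) * (1 + M) := by noncomm_ring
    rw [h4, Matrix.det_mul, h3, zero_mul]
  · refine KTrace_last hr (by rw [KTrace_neg hr h]; norm_num) ?_ h2
    have h3 : (-1 - M).det = 0 := by
      rw [← KTrace_eval', h]
      simp
    have h4 : 1 - M * M = (-1 - M) * (M - 1) := by noncomm_ring
    rw [h4, Matrix.det_mul, h3, zero_mul]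

/-- The second compound of a matrix, with rational entries. -/
def cmp (s : Matrix (Fin r) (Fin r) ℤ) : Matrix (Fin r × Fin r) (Fin r × Fin r) ℚ := fun p q =>
  (s p.1 q.1 : ℚ) * (s p.2 q.2 : ℚ) - (s p.1 q.2 : ℚ) * (s p.2 q.1 : ℚ)

theorem cmp_mul (s t : Matrix (Fin r) (Fin r) ℤ) : cmp s * cmp t = (2 : ℚ) • cmp (s * t) := by
  have hc : ∀ i k, (((s * t) i k : ℤ) : ℚ) = ∑ a, (s i a : ℚ) * (t a k : ℚ) := by
    intro i k
    rw [Matrix.mul_apply]
    push_cast
    rfl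
  ext ⟨i, j⟩ ⟨k, l⟩
  rw [Matrix.mul_apply, Fintype.sum_prod_type, Matrix.smul_apply, smul_eq_mul]
  show ∑ a, ∑ b, ((s i a : ℚ) * (s j b : ℚ) - (s i b : ℚ) * (s j a : ℚ)) *
      ((t a k : ℚ) * (t b l : ℚ) - (t a l : ℚ) * (t b k : ℚ)) =
    2 * ((((s * t) i k : ℤ) : ℚ) * (((s * t) j l : ℤ) : ℚ) -
      (((s * t) i l : ℤ) : ℚ) * (((s * t) j k : ℤ) : ℚ))
  rw [hc, hc, hc, hc, Finset.sum_mul_sum, Finset.sum_mul_sum]
  have h1 : (∑ a, ∑ b, ((s i a : ℚ) * (t a k : ℚ)) * ((s j b : ℚ) * (t b l : ℚ))) =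
      ∑ a, ∑ b, ((s i b : ℚ) * (t b k : ℚ)) * ((s j a : ℚ) * (t a l : ℚ)) :=
    Finset.sum_comm
  have h2 : (∑ a, ∑ b, ((s i a : ℚ) * (t a l : ℚ)) * ((s j b : ℚ) * (t b k : ℚ))) =
      ∑ a, ∑ b, ((s i b : ℚ) * (t b l : ℚ)) * ((s j a : ℚ) * (t a k : ℚ)) :=
    Finset.sum_comm
  have h3 : ∑ a, ∑ b, ((s i a : ℚ) * (s j b : ℚ) - (s i b : ℚ) * (s j a : ℚ)) *
      ((t a k : ℚ) * (t b l : ℚ) - (t a l : ℚ) * (t b k : ℚ)) =
      (∑ a, ∑ b, ((s i a : ℚ) * (t a k : ℚ)) * ((s j b : ℚ) * (t b l : ℚ))) +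
      (∑ a, ∑ b, ((s i b : ℚ) * (t b k : ℚ)) * ((s j a : ℚ) * (t a l : ℚ))) -
      (∑ a, ∑ b, ((s i a : ℚ) * (t a l : ℚ)) * ((s j b : ℚ) * (t b k : ℚ))) -
      (∑ a, ∑ b, ((s i b : ℚ) * (t b l : ℚ)) * ((s j a : ℚ) * (t a k : ℚ))) := by
    simp only [← Finset.sum_add_distrib, ← Finset.sum_sub_distrib]
    refine Finset.sum_congr rfl fun a _ => Finset.sum_congr rfl fun b _ => ?_
    ring
  rw [h3, ← h1, ← h2]
  ring

theorem trace_cmp (s : Matrix (Fin r) (Fin r) ℤ) :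
    (cmp s).trace = ((s.trace ^ 2 - (s * s).trace : ℤ) : ℚ) := by
  have h1 : (cmp s).trace = ∑ i, ∑ j, ((s i i : ℚ) * (s j j : ℚ) - (s i j : ℚ) * (s j i : ℚ)) := by
    show ∑ p : Fin r × Fin r, cmp s p p = _
    rw [Fintype.sum_prod_type]
    rfl
  have h2 : ((s.trace : ℤ) : ℚ) = ∑ i, (s i i : ℚ) := by
    show ((∑ i, s i i : ℤ) : ℚ) = _
    push_cast
    rfl
  have h3 : (((s * s).trace : ℤ) : ℚ) = ∑ i, ∑ j, (s i j : ℚ) * (s j i : ℚ) := by
    show ((∑ i, (s * s) i i : ℤ) : ℚ) = _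
    simp only [Matrix.mul_apply]
    push_cast
    rfl
  push_cast
  rw [h1, h2, h3, pow_two, Finset.sum_mul_sum]
  simp only [Finset.sum_sub_distrib]

end Pool.Agent.MTr
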