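import Mathlib
import Pool.Agent.MTr.KTrace
import Pool.Agent.MTr.KNil
import Pool.Agent.MTr.KEngel

/-!
# Long products of tame matrices have rank at most one

Proof of `minors_zero`. Let `T` be the closure of `S` under multiplication and `A` the rational span
of `cmp '' T`.

* `A` is closed under multiplication: `cmp s * cmp t = 2 cmp (s * t)` (`cmp_mul`) and
  `Submodule.span_induction` twice.
* every element of `A` has trace `0`: the trace is linear and `trace_cmp`, `trace_sq_of_tame` give
  `(cmp s).trace = 0` for `s ∈ T` (as `s` and `s * s` are in `T`, both are tame).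
* so for `a ∈ A` and `k ≥ 1`, `a ^ k ∈ A` has trace `0`, and `a` is nilpotent
  (`isNilpotent_of_trace_pow`).
* let `d` be as in `exists_prod_zero` for `A`. Let `l` be a list of length `d + 1` of elements of `S`.
  By induction on `l`, for nonempty `l`: `(l.map cmp).prod = 2 ^ (l.length - 1) * cmp l.prod` and
  `l.prod ∈ T`. The product of `l.map cmp` is `0` (its tail has length `d` and all elements are in
  `A`), so `cmp l.prod = 0`, which is the statement for `L = d`.
-/

set_option autoImplicit false

namespace Pool.Agent.MTr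

open Finset

variable {r : ℕ}

private theorem prod_cmp {S : Set (Matrix (Fin r) (Fin r) ℤ)}
    (l : List (Matrix (Fin r) (Fin r) ℤ)) : ∀ a, a ∈ S → (∀ b ∈ l, b ∈ S) →
      ((a :: l).map cmp).prod = (2 : ℚ) ^ l.length • cmp (a :: l).prod ∧
        (a :: l).prod ∈ Subsemigroup.closure S := by
  induction l with
  | nil =>
    intro a ha _
    refine ⟨by simp, ?_⟩
    simpa using Subsemigroup.subset_closure ha
  | cons b l ih =>
    intro a ha hl
    obtain ⟨h1, h2⟩ := ih b (hl b (by simp)) fun c hc => hl c (by simp [hc])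
    have ha' : a ∈ Subsemigroup.closure S := Subsemigroup.subset_closure ha
    constructor
    · rw [List.map_cons, List.prod_cons, h1, Algebra.mul_smul_comm, cmp_mul, smul_smul,
        List.length_cons, pow_succ, ← List.prod_cons]
    · rw [List.prod_cons]
      exact Subsemigroup.mul_mem _ ha' h2

theorem minors_zero {S : Set (Matrix (Fin r) (Fin r) ℤ)} (h : TameSet S) :
    ∃ L, ∀ l : List (Matrix (Fin r) (Fin r) ℤ), (∀ a ∈ l, a ∈ S) → l.length = L + 1 →
      ∀ i j k m, l.prod i k * l.prod j m = l.prod i m * l.prod j k := by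
  set T := Subsemigroup.closure S with hT
  set A : Submodule ℚ (Matrix (Fin r × Fin r) (Fin r × Fin r) ℚ) :=
    Submodule.span ℚ (cmp '' (T : Set (Matrix (Fin r) (Fin r) ℤ))) with hA
  have hsub : ∀ s ∈ T, cmp s ∈ A := fun s hs => Submodule.subset_span ⟨s, hs, rfl⟩
  have hAA : A * A ≤ A := by
    rw [hA, Submodule.span_mul_span, Submodule.span_le]
    rintro x hx
    obtain ⟨y, ⟨s, hs, rfl⟩, z, ⟨t, ht, rfl⟩, rfl⟩ := Set.mem_mul.1 hx
    change cmp s * cmp t ∈ A
    rw [cmp_mul]
    exact A.smul_mem _ (hsub _ (T.mul_mem hs ht))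
  have hmul : ∀ a ∈ A, ∀ b ∈ A, a * b ∈ A := fun a ha b hb =>
    hAA (Submodule.mul_mem_mul ha hb)
  have htr : ∀ a ∈ A, a.trace = 0 := by
    have h1 : A ≤ LinearMap.ker (Matrix.traceLinearMap (Fin r × Fin r) ℚ ℚ) := by
      rw [hA, Submodule.span_le]
      rintro x ⟨s, hs, rfl⟩
      have h2 := trace_sq_of_tame (h s hs) (h (s * s) (T.mul_mem hs hs))
      rw [SetLike.mem_coe, LinearMap.mem_ker, Matrix.traceLinearMap_apply, trace_cmp, h2]
      simp
    intro a ha
    exact LinearMap.mem_ker.1 (h1 ha)
  have hpow : ∀ a ∈ A, ∀ k, 1 ≤ k → a ^ k ∈ A := by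
    intro a ha k hk
    induction k, hk using Nat.le_induction with
    | base => simpa using ha
    | succ k hk ih =>
      rw [pow_succ]
      exact hmul _ ih _ ha
  have hnil : ∀ a ∈ A, IsNilpotent a := fun a ha =>
    isNilpotent_of_trace_pow a fun k hk => htr _ (hpow a ha k hk)
  obtain ⟨d, hd⟩ := exists_prod_zero A hmul hnil
  refine ⟨d, fun l hl hlen i j k m => ?_⟩
  cases l with
  | nil => simp at hlen
  | cons a l =>
    have hl' : l.length = d := by simpa using hlen
    have h1 := (prod_cmp l a (hl a (by simp)) fun b hb => hl b (by simp [hb])).1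
    have h2 : (l.map cmp).prod = 0 := by
      refine hd _ ?_ (by simpa using hl')
      intro x hx
      obtain ⟨s, hs, rfl⟩ := List.mem_map.1 hx
      exact hsub s (Subsemigroup.subset_closure (hl s (by simp [hs])))
    rw [List.map_cons, List.prod_cons, h2, mul_zero] at h1
    have h3 : cmp (a :: l).prod = 0 := by
      rcases smul_eq_zero.1 h1.symm with h4 | h4
      · exact absurd h4 (pow_ne_zero _ two_ne_zero)
      · exact h4
    have h4 := congrFun (congrFun h3 (i, j)) (k, m)
    simp only [cmp, Matrix.zero_apply] at h4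
    have h5 : ((a :: l).prod i k : ℚ) * ((a :: l).prod j m : ℚ) =
        ((a :: l).prod i m : ℚ) * ((a :: l).prod j k : ℚ) := sub_eq_zero.1 h4
    exact_mod_cast h5

end Pool.Agent.MTr
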