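import Mathlib
import Pool.Agent.MTr.EDefs
import Pool.Agent.MTr.EPth
import Pool.Agent.MTr.KMain
import Pool.Agent.MTr.KFac

/-!
# Tame families have certificates

Proof of `exists_cert`. Take `L` from `minors_zero h`. For a word `w` of length `L + 1` the matrix
`wprod A (List.ofFn w)` is the product of the list `(List.ofFn w).reverse.map A` (`wprod_eq`) of
length `L + 1`, so its minors vanish; `exists_factor` gives `g w, h w, b w` (choose).

For `w` and a letter `i` let `w' = shift w i`. With the list `List.ofFn w ++ [i] = w 0 ::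
List.ofFn w'` (both are the list of the letters `w 0, ..., w L, i`) and `wprod_append`:
`A i * wprod A (List.ofFn w) = wprod A (List.ofFn w') * A (w 0)`. `exists_lam` gives `lam w i` with
`Matrix.vecMul (h w') (A (w 0)) = lam w i • h w` and `lam w i ≠ 0 → (A i).mulVec (g w) = lam w i •
g w'` (choose).

Weights: `P w s := ∃ u l t, Pth shift lam u w l t ∧ s = t.natAbs`.
* `one`: `Pth.nil`; `step`: `Pth.snoc` and `Int.natAbs_mul`.
* If `Pth shift lam u v l s` then `s ≠ 0` and `(wprod A l).mulVec (g u) = s • g v` (induction;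
  `wprod A (l ++ [i]) = A i * wprod A l`).
* Closed paths have `s.natAbs = 1`: if `l = []` then `s = 1`. Otherwise `M = wprod A l` is in the
  subsemigroup generated by the range of `A` and `M.mulVec (g v) = s • g v`, `g v ≠ 0` (Bezout), so
  `s` is a root of `M.charpoly` (`det (s - M) = 0`, `Matrix.eval_charpoly`,
  `Matrix.exists_mulVec_eq_zero_iff`), which is `X ^ r` or `X ^ (r-1) * (X ∓ 1)`; as `s ≠ 0`,
  `s = 1` or `s = -1`.
* `pth_bound` gives `S`, and `bd` follows (`1 ≤ s` as `t ≠ 0`).
-/

set_option autoImplicit false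

namespace Pool.Agent.MTr

open Finset

variable {r q : ℕ}

private theorem ecert_ofFn {L : ℕ} (w : Fin (L + 1) → Fin q) (i : Fin q) :
    List.ofFn w ++ [i] = w 0 :: List.ofFn (shift w i) := by
  rw [List.ofFn_succ, List.cons_append]
  congr 1
  unfold shift
  rw [List.ofFn_succ' (Fin.snoc (Fin.tail w) i), List.concat_eq_append]
  congr 1
  · congr 1
    funext j
    rw [Fin.snoc_castSucc]
    rfl
  · rw [Fin.snoc_last]

private theorem ecert_single (A : Fin q → Matrix (Fin r) (Fin r) ℤ) (i : Fin q) :
    wprod A [i] = A i := by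
  show 1 * A i = A i
  rw [Matrix.one_mul]

private theorem ecert_mem (A : Fin q → Matrix (Fin r) (Fin r) ℤ) (l : List (Fin q))
    (hl : l ≠ []) : wprod A l ∈ Subsemigroup.closure (Set.range A) := by
  induction l with
  | nil => exact absurd rfl hl
  | cons i l ih =>
    have h1 : A i ∈ Subsemigroup.closure (Set.range A) :=
      Subsemigroup.subset_closure ⟨i, rfl⟩
    by_cases h2 : l = []
    · subst h2
      rw [ecert_single]
      exact h1
    · exact Subsemigroup.mul_mem _ (ih h2) h1

private theorem ecert_root {M : Matrix (Fin r) (Fin r) ℤ} (hM : TamePoly r M.charpoly)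
    {g : Fin r → ℤ} (hg : g ≠ 0) {s : ℤ} (hs : s ≠ 0) (h : M.mulVec g = s • g) :
    s.natAbs = 1 := by
  have h1 : M.charpoly.eval s = 0 := by
    rw [Matrix.eval_charpoly]
    apply Matrix.exists_mulVec_eq_zero_iff.1
    refine ⟨g, hg, ?_⟩
    rw [Matrix.sub_mulVec, h, Matrix.scalar_apply, sub_eq_zero]
    funext j
    rw [Matrix.mulVec_diagonal, Pi.smul_apply, smul_eq_mul]
  rcases hM with h2 | h2 | h2
  · rw [h2, Polynomial.eval_pow, Polynomial.eval_X] at h1
    exact absurd (eq_zero_of_pow_eq_zero h1) hs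
  · rw [h2, Polynomial.eval_mul, Polynomial.eval_pow, Polynomial.eval_sub, Polynomial.eval_X,
      Polynomial.eval_one] at h1
    rcases mul_eq_zero.1 h1 with h3 | h3
    · exact absurd (eq_zero_of_pow_eq_zero h3) hs
    · omega
  · rw [h2, Polynomial.eval_mul, Polynomial.eval_pow, Polynomial.eval_add, Polynomial.eval_X,
      Polynomial.eval_one] at h1
    rcases mul_eq_zero.1 h1 with h3 | h3
    · exact absurd (eq_zero_of_pow_eq_zero h3) hs
    · omega

private theorem ecert_nil {V I : Type} {next : V → I → V} {wt : V → I → ℤ} {u v : V}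
    {l : List I} {s : ℤ} (h : Pth next wt u v l s) : l = [] → s = 1 := by
  induction h with
  | nil => exact fun _ => rfl
  | snoc i _ _ _ => exact fun h => absurd h (by simp)

theorem exists_cert (hr : 0 < r) (A : Fin q → Matrix (Fin r) (Fin r) ℤ)
    (h : TameSet (Set.range A)) :
    ∃ (L S : ℕ) (g h : (Fin (L + 1) → Fin q) → Fin r → ℤ)
      (lam : (Fin (L + 1) → Fin q) → Fin q → ℤ) (P : (Fin (L + 1) → Fin q) → ℕ → Prop),
      Cert A L S g h lam P := by
  classical
  obtain ⟨L, hL⟩ := minors_zero h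
  have hmin : ∀ (w : Fin (L + 1) → Fin q) (i j k m : Fin r),
      wprod A (List.ofFn w) i k * wprod A (List.ofFn w) j m =
        wprod A (List.ofFn w) i m * wprod A (List.ofFn w) j k := by
    intro w i j k m
    rw [wprod_eq]
    apply hL
    · intro a ha
      obtain ⟨x, _, rfl⟩ := List.mem_map.1 ha
      exact ⟨x, rfl⟩
    · rw [List.length_map, List.length_reverse, List.length_ofFn]
  choose g hh b hfac hbez using fun w => exists_factor hr (wprod A (List.ofFn w)) (hmin w)
  have hAB : ∀ (w : Fin (L + 1) → Fin q) (i : Fin q),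
      A i * wprod A (List.ofFn w) = wprod A (List.ofFn (shift w i)) * A (w 0) := by
    intro w i
    have h1 := wprod_append A (List.ofFn w) [i]
    rw [ecert_ofFn, ecert_single] at h1
    exact h1.symm
  choose lam hlam1 hlam2 using fun w i => exists_lam (A := A i) (B := A (w 0)) (hfac w)
    (hfac (shift w i)) (hbez (shift w i)) (hAB w i)
  have hinv : ∀ u v l s, Pth shift lam u v l s →
      s ≠ 0 ∧ (wprod A l).mulVec (g u) = s • g v := by
    intro u v l s hp
    induction hp with
    | nil =>
      refine ⟨one_ne_zero, ?_⟩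
      show (1 : Matrix (Fin r) (Fin r) ℤ).mulVec (g u) = _
      rw [Matrix.one_mulVec, one_smul]
    | snoc i _ hne ih =>
      refine ⟨mul_ne_zero ih.1 hne, ?_⟩
      rw [wprod_append, ecert_single, ← Matrix.mulVec_mulVec, ih.2, Matrix.mulVec_smul,
        hlam2 _ _ hne, smul_smul]
  have hg0 : ∀ v, g v ≠ 0 := by
    intro v hv
    have h1 := hbez v
    rw [hv] at h1
    simp at h1
  have hcl : ∀ v l s, Pth shift lam v v l s → s.natAbs = 1 := by
    intro v l s hp
    by_cases hl : l = []
    · rw [ecert_nil hp hl]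
      rfl
    · obtain ⟨h1, h2⟩ := hinv v v l s hp
      exact ecert_root (h _ (ecert_mem A l hl)) (hg0 v) h1 h2
  obtain ⟨S, hS⟩ := pth_bound (V := Fin (L + 1) → Fin q) (I := Fin q) shift lam hcl
  refine ⟨L, S, g, hh, lam, fun w s => ∃ u l t, Pth shift lam u w l t ∧ s = t.natAbs,
    hfac, hlam1, ?_, ?_, ?_⟩
  · exact fun w => ⟨w, [], 1, Pth.nil, rfl⟩
  · rintro w i s ⟨u, l, t, hp, rfl⟩ hne
    exact ⟨u, l ++ [i], t * lam w i, Pth.snoc i hp hne, (Int.natAbs_mul _ _).symm⟩
  · rintro w s ⟨u, l, t, hp, rfl⟩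
    refine ⟨?_, hS u w l t hp⟩
    have := (hinv u w l t hp).1
    omega

end Pool.Agent.MTr
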