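import Mathlib
import Pool.Agent.MTr.Defs

/-!
# Tame sets: adding the zero matrix

Proof. Every element of the subsemigroup generated by `insert 0 S` is `0` or in the subsemigroup
generated by `S` (`Subsemigroup.closure_induction`). The characteristic polynomial of `0` is
`X ^ r` (`Matrix.charpoly_zero`).
-/

set_option autoImplicit false

namespace Pool.Agent.MTr

open Finset

variable {r : ℕ}

theorem TameSet.insert_zero {S : Set (Matrix (Fin r) (Fin r) ℤ)} (h : TameSet S) :
    TameSet (insert 0 S) := by
  intro M hM
  have key : M = 0 ∨ M ∈ Subsemigroup.closure S := by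
    induction hM using Subsemigroup.closure_induction with
    | mem x hx =>
      rcases hx with hx | hx
      · exact Or.inl hx
      · exact Or.inr (Subsemigroup.subset_closure hx)
    | mul x y _ _ hx hy =>
      rcases hx with hx | hx
      · left
        rw [hx, zero_mul]
      · rcases hy with hy | hy
        · left
          rw [hy, mul_zero]
        · exact Or.inr (mul_mem hx hy)
  rcases key with hM0 | hM'
  · left
    rw [hM0, Matrix.charpoly_zero, Fintype.card_fin]
  · exact h M hM'

theorem TameSet.mono {S T : Set (Matrix (Fin r) (Fin r) ℤ)} (h : TameSet T) (hST : S ⊆ T) :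
    TameSet S :=
  fun M hM => h M (Subsemigroup.closure_mono hST hM)

end Pool.Agent.MTr
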