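import Mathlib
import Pool.Agent.MTr.DSim
import Pool.Agent.MTr.DCut
import Pool.Agent.MTr.DIter
import Pool.Agent.MTr.ECert
import Pool.Agent.MTr.ETame

/-!
# Iterates of tame families are definable by bounded formulas

Proof of `amap_delta0`. `range_extA`, `TameSet.insert_zero`: the matrices `extA A` are tame;
`exists_cert` gives `L, S, g, h, lam, P`. Let `Lam = S.factorial`, `m = Fintype.card (QS (k+1) L S)`
(`m > 0`), `e = Fintype.equivFin _`. Let `N1 v = if N v = 0 then 1 else N v` (`DFun.ite`), and, with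
`N1` in place of `N`, `F v = fcd ..`, `z0 v` the initial code, `W v = m * (Lam * N1 v)`. By `dfun_iter`
(with `cc` from `cutA_fcd`; `fcd_lt`, `init_lt`, `dfun_fcd` with `n + 1` variables: `DFun.weak`,
`ZF.weak`, `dfun_init`) the function `Y v = (F v)^[t v - (L + 1)] (z0 v)` is in `DFun`. Then the
predicate is equivalent to: `0 < N v` and (there is `j ≤ L` with `t v = j` and
`T^[j] x l = y l` for all `l` (`dfun_gmap_iter`)) or (`L + 1 ≤ t v` and `outp e .. (Y v) l = y l` for
all `l` (`dfun_outp`)); `amap_eq_gmap`, `outp_iter` with `j = t v - (L + 1)`. The functions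
`extC (c v) i l` are in `ZF`: `Fin.lastCases`.
-/

set_option autoImplicit false

namespace Pool.Agent.MTr

open Pool.Agent.Grz Pool.Agent.PTr Finset

variable {r k : ℕ}

private theorem zf_extC_DMn {n : ℕ} {c : Fin k → Fin r → (Fin n → ℕ) → ℕ}
    (hc : ∀ i l, DFun n (c i l)) (i : Fin (k + 1)) (l : Fin r) :
    ZF n (fun v => extC (fun i l => c i l v) i l) := by
  refine Fin.lastCases ?_ (fun i => ?_) i
  · refine (ZF.const 0).congr fun v => ?_
    unfold extC
    rw [Fin.snoc_last]
    rfl
  · refine (ZF.nat (hc i l)).congr fun v => ?_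
    unfold extC
    rw [Fin.snoc_castSucc]

private theorem pos_DMn (hr : 0 < r) (A : Fin k → Matrix (Fin r) (Fin r) ℤ)
    (hA : TameSet (Set.range A)) {n : ℕ} {N t : (Fin n → ℕ) → ℕ}
    {a b c : Fin k → Fin r → (Fin n → ℕ) → ℕ} {x y : Fin r → (Fin n → ℕ) → ℕ} (hN : DFun n N)
    (ht : DFun n t) (ha : ∀ i l, DFun n (a i l)) (hb : ∀ i l, DFun n (b i l))
    (hc : ∀ i l, DFun n (c i l)) (hx : ∀ l, DFun n (x l)) (hy : ∀ l, DFun n (y l))
    (hpos : ∀ v, 0 < N v) :
    Delta0 n (fun v =>
      (amap A (N v) (fun i l => a i l v) (fun i l => b i l v) (fun i l => c i l v))^[t v]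
        (fun l => x l v) = fun l => y l v) := by
  have hT : TameSet (Set.range (extA A)) := by
    rw [range_extA]
    exact hA.insert_zero
  obtain ⟨L, S, g, h, lam, P, hC⟩ := exists_cert hr (extA A) hT
  obtain ⟨Lam, hLam, hdvd⟩ : ∃ Lam : ℕ, 0 < Lam ∧ ∀ s, 1 ≤ s → s ≤ S → s ∣ Lam :=
    ⟨S.factorial, Nat.factorial_pos _, fun s h1 h2 => Nat.dvd_factorial h1 h2⟩
  obtain ⟨m, ⟨e⟩⟩ : ∃ m : ℕ, Nonempty (QS (k + 1) L S ≃ Fin m) :=
    ⟨_, ⟨Fintype.equivFin _⟩⟩
  have hm : 0 < m := (Nat.zero_le _).trans_lt (e (fun _ => Fin.last k, 0)).2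
  obtain ⟨cc, hcc⟩ := cutA_fcd hC e hLam hdvd
  have hz : ∀ i l, ZF n (fun v => extC (fun i l => c i l v) i l) := zf_extC_DMn hc
  have hY : DFun n (fun v => (fun u => fcd e P (extA A) (fun i l => extC (fun i l => c i l v) i l)
      (N v) Lam g h lam (bix (fun i l => a i l v) (fun i l => b i l v)) u)^[t v - (L + 1)]
      (cod e (N v) Lam (wd (gmap (extA A) (fun i l => extC (fun i l => c i l v) i l) (N v)
        (bix (fun i l => a i l v) (fun i l => b i l v)))
        (bix (fun i l => a i l v) (fun i l => b i l v)) L (fun l => x l v) 0, 1,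
        Lam * zc (gmap (extA A) (fun i l => extC (fun i l => c i l v) i l) (N v)
          (bix (fun i l => a i l v) (fun i l => b i l v)))
          (bix (fun i l => a i l v) (fun i l => b i l v)) L h (N v) (fun l => x l v) 0))) := by
    refine dfun_iter cc (N := fun v => m * (Lam * N v)) (t := fun v => t v - (L + 1))
      (T := fun u v => fcd e P (extA A) (fun i l => extC (fun i l => c i l v) i l)
        (N v) Lam g h lam (bix (fun i l => a i l v) (fun i l => b i l v)) u)
      ((DFun.const m).mul ((DFun.const Lam).mul hN)) ?_ (ht.sub (DFun.const _)) ?_ ?_ ?_ ?_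
    · exact dfun_init e (extA A) (c := fun i l v => extC (fun i l => c i l v) i l) Lam h hN ha hb
        hz hx
    · exact dfun_fcd e P (extA A)
        (c := fun i l w => extC (fun i l => c i l (fun j => w j.succ)) i l)
        (N := fun w => N (fun j => w j.succ)) (a := fun i l w => a i l (fun j => w j.succ))
        (b := fun i l w => b i l (fun j => w j.succ)) Lam g h lam (u := fun w => w 0)
        hN.weak (fun i l => (ha i l).weak) (fun i l => (hb i l).weak)
        (fun i l => (hz i l).weak) (DFun.proj 0)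
    · intro v
      exact init_lt e _ _ h (hpos v) hLam _
    · intro v u _
      exact fcd_lt hC hm e _ (hpos v) hLam hdvd _ u
    · intro v
      exact hcc (N v) _ _ _ (hpos v)
  have hout := fun l => dfun_outp e (extA A) (c := fun i l v => extC (fun i l => c i l v) i l)
    Lam g hN hz hY l
  have hA1 := Delta0.exOf (α := Fin (L + 1)) fun j => (Delta0.eqFun ht (DFun.const (j : ℕ))).and
    (Delta0.allOf fun l => Delta0.eqFun (dfun_gmap_iter (extA A)
      (c := fun i l v => extC (fun i l => c i l v) i l) hN ha hb hz hx (j : ℕ) l) (hy l))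
  have hA2 := (Delta0.leFun (DFun.const (L + 1)) ht).and
    (Delta0.allOf fun l => Delta0.eqFun (hout l) (hy l))
  refine (hA1.or hA2).of_iff fun v => ?_
  have hout2 := outp_iter hC e (fun i l => extC (fun i l => c i l v) i l) (hpos v) hLam hdvd
    (bix (fun i l => a i l v) (fun i l => b i l v)) (fun l => x l v) (t v - (L + 1))
  have hmap : amap A (N v) (fun i l => a i l v) (fun i l => b i l v) (fun i l => c i l v) =
      gmap (extA A) (fun i l => extC (fun i l => c i l v) i l) (N v)
        (bix (fun i l => a i l v) (fun i l => b i l v)) := amap_eq_gmap A (N v) _ _ _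
  rw [hmap]
  symm
  constructor
  · rintro (⟨j, hj, hl⟩ | ⟨hle, hl⟩)
    · rw [hj]
      exact funext hl
    · have h1 : t v - (L + 1) + (L + 1) = t v := Nat.sub_add_cancel hle
      rw [h1] at hout2
      rw [← hout2]
      exact funext hl
  · intro heq
    by_cases hle : L + 1 ≤ t v
    · right
      refine ⟨hle, fun l => ?_⟩
      have h1 : t v - (L + 1) + (L + 1) = t v := Nat.sub_add_cancel hle
      rw [h1, heq] at hout2
      exact congrFun hout2 l
    · left
      refine ⟨⟨t v, by omega⟩, rfl, fun l => ?_⟩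
      exact congrFun heq l

/-- **Tame families.** -/
theorem amap_delta0 (hr : 0 < r) (A : Fin k → Matrix (Fin r) (Fin r) ℤ)
    (hA : TameSet (Set.range A)) {n : ℕ} {N t : (Fin n → ℕ) → ℕ}
    {a b c : Fin k → Fin r → (Fin n → ℕ) → ℕ} {x y : Fin r → (Fin n → ℕ) → ℕ} (hN : DFun n N)
    (ht : DFun n t) (ha : ∀ i l, DFun n (a i l)) (hb : ∀ i l, DFun n (b i l))
    (hc : ∀ i l, DFun n (c i l)) (hx : ∀ l, DFun n (x l)) (hy : ∀ l, DFun n (y l)) :
    Delta0 n (fun v => 0 < N v ∧
      (amap A (N v) (fun i l => a i l v) (fun i l => b i l v) (fun i l => c i l v))^[t v]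
        (fun l => x l v) = fun l => y l v) := by
  have hN1 : DFun n (fun v => if N v = 0 then 1 else N v) :=
    DFun.ite (Delta0.eqFun hN (DFun.const 0)) (DFun.const 1) hN
  have h1 := pos_DMn hr A hA hN1 ht ha hb hc hx hy (fun v => by split_ifs <;> omega)
  refine ((Delta0.ltFun (DFun.const 0) hN).and h1).of_iff fun v => ?_
  refine and_congr_right fun h0 => ?_
  rw [if_neg h0.ne']

end Pool.Agent.MTr
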