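import Mathlib
import Pool.Agent.MTr.Defs

/-!
# Kronecker: eigenvalues of modulus `≤ 1` are `0` or roots of unity

Proof of `exists_pow_roots`. Let `z ≠ 0` be a complex root of the characteristic polynomial `χ`
(monic, integral) of `B`. All roots of `χ` have modulus `≤ 1`, so the conjugates of `z` (roots of
`minpoly ℚ z`, which divides `χ`) have modulus `≤ 1`, and `z` is an algebraic integer:
`NumberField.Embeddings.pow_eq_one_of_norm_le_one` (in the number field `ℚ⟮z⟯`), or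
`Polynomial.pow_eq_one_of_mahlerMeasure_eq_one`. So `z ^ n_z = 1` for some `n_z > 0`. Take for `m`
the product of the `n_z` over the finitely many nonzero roots (`χ.roots.toFinset`).
-/

set_option autoImplicit false

namespace Pool.Agent.MTr

open Finset

variable {r : ℕ}

private theorem one_GKron {p : Polynomial ℤ} (hp : p.Monic)
    (h : ∀ z : ℂ, p.eval₂ (Int.castRingHom ℂ) z = 0 → ‖z‖ ≤ 1) {z : ℂ}
    (hz : p.eval₂ (Int.castRingHom ℂ) z = 0) (hz0 : z ≠ 0) : ∃ n : ℕ, 0 < n ∧ z ^ n = 1 := by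
  have hzi : IsIntegral ℤ z := ⟨p, hp, hz⟩
  have hzq : IsIntegral ℚ z := hzi.tower_top
  have hfd : FiniteDimensional ℚ (IntermediateField.adjoin ℚ {z}) :=
    IntermediateField.adjoin.finiteDimensional hzq
  have hnf : NumberField (IntermediateField.adjoin ℚ {z}) :=
    { to_charZero := inferInstance, to_finiteDimensional := hfd }
  set y : IntermediateField.adjoin ℚ {z} := IntermediateField.AdjoinSimple.gen ℚ z with hy
  have hyz : (algebraMap (IntermediateField.adjoin ℚ {z}) ℂ) y = z :=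
    IntermediateField.AdjoinSimple.algebraMap_gen ℚ z
  have hev : ∀ φ : IntermediateField.adjoin ℚ {z} →+* ℂ,
      p.eval₂ (Int.castRingHom ℂ) (φ y)
        = φ (p.eval₂ (Int.castRingHom (IntermediateField.adjoin ℚ {z})) y) := by
    intro φ
    rw [Polynomial.hom_eval₂]
    congr 1
    exact RingHom.ext_int _ _
  have hy0 : p.eval₂ (Int.castRingHom (IntermediateField.adjoin ℚ {z})) y = 0 := by
    have h1 := hev (algebraMap (IntermediateField.adjoin ℚ {z}) ℂ)
    rw [hyz, hz] at h1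
    exact (map_eq_zero _).1 h1.symm
  have hyne : y ≠ 0 := by
    intro h1
    rw [h1, map_zero] at hyz
    exact hz0 hyz.symm
  have hyi : IsIntegral ℤ y := ⟨p, hp, hy0⟩
  obtain ⟨n, hn, h1⟩ := NumberField.Embeddings.pow_eq_one_of_norm_le_one
    (IntermediateField.adjoin ℚ {z}) ℂ hyne hyi fun φ => h _ (by rw [hev, hy0, map_zero])
  refine ⟨n, hn, ?_⟩
  rw [← hyz, ← map_pow, h1, map_one]

/-- **Kronecker.** -/
theorem exists_pow_roots (B : Matrix (Fin r) (Fin r) ℤ)
    (h : ∀ z : ℂ, ((B.map (Int.castRingHom ℂ)).charpoly).IsRoot z → ‖z‖ ≤ 1) :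
    ∃ m, 1 ≤ m ∧ ∀ z : ℂ, ((B.map (Int.castRingHom ℂ)).charpoly).IsRoot z → z = 0 ∨ z ^ m = 1 := by
  classical
  have hroot : ∀ z : ℂ, ((B.map (Int.castRingHom ℂ)).charpoly).IsRoot z ↔
      B.charpoly.eval₂ (Int.castRingHom ℂ) z = 0 := by
    intro z
    have h1 : (B.map (Int.castRingHom ℂ)).charpoly = B.charpoly.map (Int.castRingHom ℂ) :=
      Matrix.charpoly_map B (Int.castRingHom ℂ)
    rw [h1, Polynomial.IsRoot.def, Polynomial.eval_map]
  have h2 : ∀ z : ℂ, ∃ n : ℕ, 0 < n ∧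
      (B.charpoly.eval₂ (Int.castRingHom ℂ) z = 0 → z ≠ 0 → z ^ n = 1) := by
    intro z
    by_cases hz : B.charpoly.eval₂ (Int.castRingHom ℂ) z = 0 ∧ z ≠ 0
    · obtain ⟨n, hn, h3⟩ := one_GKron (Matrix.charpoly_monic B)
        (fun w hw => h w ((hroot w).2 hw)) hz.1 hz.2
      exact ⟨n, hn, fun _ _ => h3⟩
    · exact ⟨1, one_pos, fun h3 h4 => (hz ⟨h3, h4⟩).elim⟩
  choose n hn hn' using h2
  have hne : (B.map (Int.castRingHom ℂ)).charpoly ≠ 0 := (Matrix.charpoly_monic _).ne_zero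
  refine ⟨∏ z ∈ ((B.map (Int.castRingHom ℂ)).charpoly).roots.toFinset, n z,
    Nat.one_le_iff_ne_zero.2 (Finset.prod_pos fun z _ => hn z).ne', fun z hz => ?_⟩
  by_cases hz0 : z = 0
  · exact Or.inl hz0
  · right
    have h3 : z ∈ ((B.map (Int.castRingHom ℂ)).charpoly).roots.toFinset := by
      rw [Multiset.mem_toFinset, Polynomial.mem_roots hne]
      exact hz
    obtain ⟨c, hc⟩ := Finset.dvd_prod_of_mem n h3
    rw [hc, pow_mul, hn' z ((hroot z).1 hz) hz0, one_pow]

end Pool.Agent.MTr
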