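import Mathlib
import Pool.Agent.MTr.Defs

/-!
# An eigenvalue of modulus `> 1` gives exponential growth

Let `K = ℚ(z)` and let `v` be an eigenvector of `B` over `K` for `z`. Its coordinatewise trace is a
rational vector, the sum of the conjugate eigenvectors `σ v`, which are linearly independent. So
the norm of `B ^ n w` is comparable with `ρ ^ n`, where `ρ > 1` is the largest modulus of a
conjugate of `z`.
-/

set_option autoImplicit false

namespace Pool.Agent.MTr

open Finset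

variable {r : ℕ}

/-- the norm as a real number -/
private theorem gr_nrm (w : Fin r → ℤ) : ((nrm w : ℕ) : ℝ) = ‖(fun l => ((w l : ℤ) : ℂ))‖ := by
  apply le_antisymm
  · by_cases hr : (univ : Finset (Fin r)).Nonempty
    · obtain ⟨l, -, hl⟩ := Finset.exists_mem_eq_sup univ hr (fun l => (w l).natAbs)
      unfold nrm
      rw [hl]
      refine le_trans ?_ (norm_le_pi_norm (fun l => ((w l : ℤ) : ℂ)) l)
      rw [Complex.norm_intCast, Nat.cast_natAbs, Int.cast_abs]
    · unfold nrm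
      rw [Finset.not_nonempty_iff_eq_empty.1 hr]
      simp
  · rw [pi_norm_le_iff_of_nonneg (Nat.cast_nonneg _)]
    intro l
    rw [Complex.norm_intCast]
    have h1 : (w l).natAbs ≤ nrm w := Finset.le_sup (f := fun l => (w l).natAbs) (mem_univ l)
    have h2 : (((w l).natAbs : ℕ) : ℝ) ≤ nrm w := by exact_mod_cast h1
    rwa [Nat.cast_natAbs, Int.cast_abs] at h2

private theorem gr_map (B : Matrix (Fin r) (Fin r) ℤ) (w : Fin r → ℤ) :
    (fun l => ((B.mulVec w l : ℤ) : ℂ)) =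
      (B.map (Int.castRingHom ℂ)).mulVec (fun l => ((w l : ℤ) : ℂ)) := by
  funext l
  simp [Matrix.mulVec, dotProduct]

private theorem gr_core {K : Type} [Field K] [Algebra ℚ K] [FiniteDimensional ℚ K]
    (B : Matrix (Fin r) (Fin r) ℤ) (x : K) (hx : ∀ σ τ : K →ₐ[ℚ] ℂ, σ x = τ x → σ = τ)
    (v : Fin r → K) (hv : v ≠ 0) (hBv : (B.map (Int.castRingHom K)).mulVec v = x • v)
    (τ : K →ₐ[ℚ] ℂ) (hτ : 1 < ‖τ x‖) : ∃ m, 1 ≤ m ∧ Growth (B ^ m) := by
  classical
  set A : Matrix (Fin r) (Fin r) ℂ := B.map (Int.castRingHom ℂ) with hA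
  -- the conjugate eigenvectors
  set u : (K →ₐ[ℚ] ℂ) → Fin r → ℂ := fun σ l => σ (v l) with hu
  have hAu : ∀ σ, A.mulVec (u σ) = σ x • u σ := by
    intro σ
    funext l
    have h1 := congrArg σ (congrFun hBv l)
    simp only [Matrix.mulVec, dotProduct, Matrix.map_apply, Pi.smul_apply, smul_eq_mul, map_mul,
      map_sum] at h1
    simp only [Matrix.mulVec, dotProduct, hA, Matrix.map_apply, Pi.smul_apply, smul_eq_mul, hu]
    rw [← h1]
    apply Finset.sum_congr rfl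
    intro i _
    congr 1
    simp
  have hu0 : ∀ σ, u σ ≠ 0 := by
    intro σ h0
    apply hv
    funext l
    have h2 := congrFun h0 l
    have h3 : σ (v l) = 0 := h2
    exact (map_eq_zero σ).1 h3
  have hli : LinearIndependent ℂ u := by
    refine Module.End.eigenvectors_linearIndependent' (Matrix.toLin' A) (fun σ => σ x)
      (fun σ τ h => hx σ τ h) u ?_
    intro σ
    rw [Module.End.hasEigenvector_iff, Module.End.mem_eigenspace_iff, Matrix.toLin'_apply]
    exact ⟨hAu σ, hu0 σ⟩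
  -- the map Ψ
  set Ψ : ((K →ₐ[ℚ] ℂ) → ℂ) →ₗ[ℂ] (Fin r → ℂ) := Fintype.linearCombination ℂ u with hΨ
  have hΨa : ∀ a, Ψ a = ∑ σ, a σ • u σ := fun a => by
    rw [hΨ, Fintype.linearCombination_apply]
  have hΨi : Function.Injective Ψ := by
    rw [injective_iff_map_eq_zero]
    intro a ha
    rw [hΨa] at ha
    funext σ
    exact Fintype.linearIndependent_iff.1 hli a ha σ
  obtain ⟨Kc, hKc, hanti⟩ := (LinearMap.injective_iff_antilipschitz Ψ).1 hΨi
  have hlow : ∀ a, ‖a‖ ≤ Kc * ‖Ψ a‖ := by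
    intro a
    have h2 := hanti.le_mul_dist a 0
    rwa [map_zero, dist_zero_right, dist_zero_right] at h2
  have hup : ∀ a, ‖Ψ a‖ ≤ (1 + ∑ σ, ‖u σ‖) * ‖a‖ := by
    intro a
    rw [hΨa]
    calc ‖∑ σ, a σ • u σ‖ ≤ ∑ σ, ‖a σ • u σ‖ := norm_sum_le _ _
      _ ≤ ∑ σ, ‖u σ‖ * ‖a‖ := by
        apply Finset.sum_le_sum
        intro σ _
        rw [norm_smul, mul_comm]
        exact mul_le_mul_of_nonneg_left (norm_le_pi_norm a σ) (norm_nonneg _)
      _ = (∑ σ, ‖u σ‖) * ‖a‖ := by rw [Finset.sum_mul]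
      _ ≤ (1 + ∑ σ, ‖u σ‖) * ‖a‖ := by
        apply mul_le_mul_of_nonneg_right _ (norm_nonneg _)
        linarith
  set C : ℝ := 1 + ∑ σ, ‖u σ‖ with hC
  have hCpos : 0 < C := by
    have : 0 ≤ ∑ σ, ‖u σ‖ := Finset.sum_nonneg fun σ _ => norm_nonneg _
    rw [hC]
    linarith
  have hKpos : (0 : ℝ) < Kc := by exact_mod_cast hKc
  -- the integral vector
  set w0 : Fin r → ℚ := fun l => Algebra.trace ℚ K (v l) with hw0
  set D : ℕ := ∏ l, (w0 l).den with hD
  have hDpos : 0 < D := Finset.prod_pos fun l _ => (w0 l).den_pos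
  have hint : ∀ l, ∃ n : ℤ, (n : ℚ) = D * w0 l := by
    intro l
    obtain ⟨k, hk⟩ : (w0 l).den ∣ D := Finset.dvd_prod_of_mem _ (mem_univ l)
    refine ⟨k * (w0 l).num, ?_⟩
    rw [hk]
    push_cast
    have h2 : (w0 l) * (w0 l).den = (w0 l).num := Rat.mul_den_eq_num _
    rw [← h2]
    ring
  choose w hw using hint
  have hwC : (fun l => ((w l : ℤ) : ℂ)) = Ψ (fun _ => (D : ℂ)) := by
    funext l
    rw [hΨa, Finset.sum_apply]
    have h2 : ((w l : ℤ) : ℂ) = (((w l : ℤ) : ℚ) : ℂ) := by push_cast; rfl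
    rw [h2, hw l]
    have h3 := trace_eq_sum_embeddings (K := ℚ) (L := K) ℂ (x := v l)
    push_cast
    have h4 : ((w0 l : ℚ) : ℂ) = ∑ σ : K →ₐ[ℚ] ℂ, σ (v l) := by
      rw [← h3]
      rfl
    rw [h4, Finset.mul_sum]
    rfl
  have hpow : ∀ n : ℕ, (fun l => (((B ^ n).mulVec w l : ℤ) : ℂ)) =
      Ψ (fun σ => σ x ^ n * (D : ℂ)) := by
    intro n
    induction n with
    | zero =>
      simp only [pow_zero, Matrix.one_mulVec, one_mul]
      exact hwC
    | succ n ih =>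
      rw [pow_succ', ← Matrix.mulVec_mulVec, gr_map, ih, hΨa, hΨa, Matrix.mulVec_sum]
      apply Finset.sum_congr rfl
      intro σ _
      rw [Matrix.mulVec_smul, hAu, smul_smul]
      congr 1
      ring
  obtain ⟨σ₀, hσ₀⟩ : ∃ σ₀ : K →ₐ[ℚ] ℂ, ∀ σ : K →ₐ[ℚ] ℂ, ‖σ x‖ ≤ ‖σ₀ x‖ := by
    have : Nonempty (K →ₐ[ℚ] ℂ) := ⟨τ⟩
    exact Finite.exists_max (fun σ : K →ₐ[ℚ] ℂ => ‖σ x‖)
  set ρ : ℝ := ‖σ₀ x‖ with hρ
  have hρ1 : 1 < ρ := hτ.trans_le (hσ₀ τ)
  have hDr : (0 : ℝ) < D := by exact_mod_cast hDpos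
  have hnorm : ∀ n : ℕ, ‖(fun σ : K →ₐ[ℚ] ℂ => σ x ^ n * (D : ℂ))‖ = ρ ^ n * D := by
    intro n
    apply le_antisymm
    · rw [pi_norm_le_iff_of_nonneg (by positivity)]
      intro σ
      rw [norm_mul, norm_pow, Complex.norm_natCast]
      exact mul_le_mul_of_nonneg_right (pow_le_pow_left₀ (norm_nonneg _) (hσ₀ σ) n) hDr.le
    · have h2 := norm_le_pi_norm (fun σ : K →ₐ[ℚ] ℂ => σ x ^ n * (D : ℂ)) σ₀
      rwa [norm_mul, norm_pow, Complex.norm_natCast] at h2
  have hL : ∀ n : ℕ, ρ ^ n * D ≤ Kc * (nrm ((B ^ n).mulVec w) : ℝ) := by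
    intro n
    rw [gr_nrm, hpow, ← hnorm]
    exact hlow _
  have hU : ∀ n : ℕ, (nrm ((B ^ n).mulVec w) : ℝ) ≤ C * (ρ ^ n * D) := by
    intro n
    rw [gr_nrm, hpow, ← hnorm]
    exact hup _
  obtain ⟨m, hm⟩ := pow_unbounded_of_one_lt (8 * C * Kc) hρ1
  have hm' : 8 * C * Kc < ρ ^ (m + 1) := hm.trans_le
    (pow_le_pow_right₀ hρ1.le (Nat.le_succ m))
  refine ⟨m + 1, Nat.succ_le_succ (Nat.zero_le m), w, ?_, ?_⟩
  · intro h0
    have h2 := hL 0
    rw [h0] at h2
    have h3 : nrm ((B ^ 0).mulVec (0 : Fin r → ℤ)) = 0 := by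
      rw [Matrix.mulVec_zero]
      unfold nrm
      simp
    rw [h3] at h2
    simp at h2
    omega
  · intro j
    rw [← pow_mul, ← pow_mul]
    have h2 := hU ((m + 1) * j)
    have h3 := hL ((m + 1) * (j + 1))
    have h4 : ρ ^ ((m + 1) * (j + 1)) = ρ ^ (m + 1) * ρ ^ ((m + 1) * j) := by
      rw [← pow_add]
      congr 1
      ring
    have h5 : (8 : ℝ) * nrm ((B ^ ((m + 1) * j)).mulVec w) ≤
        nrm ((B ^ ((m + 1) * (j + 1))).mulVec w) := by
      have h6 : 0 < ρ ^ ((m + 1) * j) * D := by positivity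
      have h7 : Kc * (8 * (nrm ((B ^ ((m + 1) * j)).mulVec w) : ℝ)) ≤
          Kc * (nrm ((B ^ ((m + 1) * (j + 1))).mulVec w) : ℝ) := by
        refine le_trans ?_ h3
        rw [h4]
        calc Kc * (8 * (nrm ((B ^ ((m + 1) * j)).mulVec w) : ℝ))
            ≤ Kc * (8 * (C * (ρ ^ ((m + 1) * j) * D))) := by
              apply mul_le_mul_of_nonneg_left _ hKpos.le
              linarith
          _ = (8 * C * Kc) * (ρ ^ ((m + 1) * j) * D) := by ring
          _ ≤ ρ ^ (m + 1) * (ρ ^ ((m + 1) * j) * D) :=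
              mul_le_mul_of_nonneg_right hm'.le h6.le
          _ = ρ ^ (m + 1) * ρ ^ ((m + 1) * j) * D := by ring
      exact le_of_mul_le_mul_left h7 hKpos
    exact_mod_cast h5

/-- **An eigenvalue of modulus `> 1` gives growth for a power.** -/
theorem growth_of_root (B : Matrix (Fin r) (Fin r) ℤ) (z : ℂ)
    (hz : ((B.map (Int.castRingHom ℂ)).charpoly).IsRoot z) (h1 : 1 < ‖z‖) :
    ∃ m, 1 ≤ m ∧ Growth (B ^ m) := by
  have hz' : Polynomial.eval₂ (Int.castRingHom ℂ) z B.charpoly = 0 := by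
    rw [Matrix.charpoly_map, Polynomial.IsRoot, Polynomial.eval_map] at hz
    exact hz
  have hintZ : IsIntegral ℤ z := ⟨B.charpoly, Matrix.charpoly_monic B, by simpa using hz'⟩
  have hint : IsIntegral ℚ z := hintZ.tower_top
  have : FiniteDimensional ℚ (IntermediateField.adjoin ℚ {z}) :=
    IntermediateField.adjoin.finiteDimensional hint
  set K := IntermediateField.adjoin ℚ {z} with hK
  set x : K := IntermediateField.AdjoinSimple.gen ℚ z with hx
  have hxz : ((x : K) : ℂ) = z := IntermediateField.AdjoinSimple.coe_gen ℚ z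
  -- the eigenvector over K
  have hroot : (B.map (Int.castRingHom K)).charpoly.IsRoot x := by
    rw [Matrix.charpoly_map, Polynomial.IsRoot, Polynomial.eval_map]
    apply (algebraMap K ℂ).injective
    rw [map_zero, Polynomial.hom_eval₂]
    have h2 : (algebraMap K ℂ).comp (Int.castRingHom K) = Int.castRingHom ℂ :=
      RingHom.ext_int _ _
    rw [h2]
    have h3 : (algebraMap K ℂ) x = z := hxz
    rw [h3]
    exact hz'
  have hdet : (Matrix.scalar (Fin r) x - B.map (Int.castRingHom K)).det = 0 := by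
    rw [← Matrix.eval_charpoly]
    exact hroot
  obtain ⟨v, hv, hv2⟩ := Matrix.exists_mulVec_eq_zero_iff.2 hdet
  refine gr_core B x ?_ v hv ?_ K.val ?_
  · intro σ τ h
    refine IntermediateField.algHom_ext_of_eq_adjoin ℚ hK ?_
    intro y hy
    have hyz : y = z := hy
    subst hyz
    exact h
  · rw [Matrix.sub_mulVec, sub_eq_zero] at hv2
    rw [← hv2]
    simp [Matrix.scalar_apply]
  · have : K.val x = z := hxz
    rw [this]
    exact h1

end Pool.Agent.MTr
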