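import Mathlib
import Pool.Agent.MTr.Defs

/-!
# From complex vectors to an integral shear

Proof of `shear_of_vectors`. Write `N = (C - 1) ^ 2` (an integral matrix).

1. The rational kernel of `N` contains two independent vectors. Otherwise there is `w : Fin r → ℚ`
   such that every rational `u` with `N u = 0` is a multiple of `w`. For every `ℚ`-linear
   `φ : ℂ → ℚ` and `i = 1, 2` the vector `φ ∘ v_i` is rational and killed by `N`, so it is a multiple
   of `w`; hence `φ (v_i a) * w b = φ (v_i b) * w a` for all `a, b`, for all `φ`, hence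
   `v_i a * w b = v_i b * w a` in `ℂ` (the `φ` separate the points of the `ℚ`-vector space `ℂ`). If
   `w = 0` then `φ ∘ v_i = 0` for all `φ` and `v_i = 0`; if `w b ≠ 0` then
   `v_i = (v_i b / w b) w`. In both cases `v₁, v₂` are dependent over `ℂ`: contradiction.
   (Or: `Module.finrank` of the kernel is `r` minus the rank, which does not change under field
   extensions.)
2. Clearing denominators: independent integral `u₁, u₂` with `N u_i = 0`.
3. Let `x_i = (C - 1) u_i` (integral); `(C - 1) x_i = 0`, i.e. `C x_i = x_i`. If `x₁ = x₂ = 0`: take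
   `f₁ = u₁`, `f₂ = u₂`, `κ = 0`. Otherwise some `x_i ≠ 0`: take `f₂ = u_i`, `f₁ = x_i`, `κ = 1`:
   `C f₂ = f₂ + x_i = f₂ + f₁`, `C f₁ = f₁`; independent: `α f₁ + β f₂ = 0` gives, applying `C - 1`,
   `β f₁ = 0`, so `β = 0`, then `α = 0`.
-/

set_option autoImplicit false

namespace Pool.Agent.MTr

open Finset

variable {r : ℕ}

/-- Clearing denominators. -/
private lemma clear_den (u : Fin r → ℚ) :
    ∃ d : ℤ, d ≠ 0 ∧ ∃ w : Fin r → ℤ, ∀ l, (w l : ℚ) = (d : ℚ) * u l := by
  have hne : (∏ l : Fin r, (u l).den) ≠ 0 := Finset.prod_ne_zero_iff.2 fun l _ => (u l).den_nz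
  refine ⟨((∏ l : Fin r, (u l).den : ℕ) : ℤ), by exact_mod_cast hne, ?_⟩
  have h : ∀ l, ∃ w : ℤ, (w : ℚ) = (((∏ l : Fin r, (u l).den : ℕ) : ℤ) : ℚ) * u l := by
    intro l
    obtain ⟨e, he⟩ := Finset.dvd_prod_of_mem (fun l : Fin r => (u l).den) (Finset.mem_univ l)
    refine ⟨(u l).num * (e : ℤ), ?_⟩
    have h1 : u l * ((u l).den : ℚ) = ((u l).num : ℚ) := Rat.mul_den_eq_num (u l)
    have h2 : (((∏ l : Fin r, (u l).den : ℕ) : ℤ) : ℚ) = ((u l).den : ℚ) * (e : ℚ) := by
      rw [he]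
      push_cast
      ring
    rw [h2]
    push_cast
    rw [← h1]
    ring
  choose w hw using h
  exact ⟨w, hw⟩

/-- The square of `C - 1` commutes with the cast. -/
private lemma map_sq (C : Matrix (Fin r) (Fin r) ℤ) :
    ((C.map (Int.castRingHom ℂ)) - 1) ^ 2 = ((C - 1) ^ 2).map (Int.castRingHom ℂ) := by
  have h := map_pow (Int.castRingHom ℂ).mapMatrix (C - 1) 2
  rw [map_sub, map_one] at h
  exact h.symm

/-- The components of a complex kernel vector are rational kernel vectors. -/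
private lemma dual_mem {N : Matrix (Fin r) (Fin r) ℤ} {v : Fin r → ℂ}
    (hv : (N.map (Int.castRingHom ℂ)).mulVec v = 0) (φ : Module.Dual ℚ ℂ) :
    (N.map (Int.castRingHom ℚ)).mulVec (fun l => φ (v l)) = 0 := by
  funext a
  have h := congrFun hv a
  simp only [Matrix.mulVec, dotProduct, Matrix.map_apply, Pi.zero_apply, eq_intCast] at h ⊢
  have h2 : φ (∑ x, (N a x : ℂ) * v x) = 0 := by rw [h, map_zero]
  rw [map_sum] at h2
  rw [← h2]
  refine Finset.sum_congr rfl fun b _ => ?_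
  have h3 : (N a b : ℂ) * v b = (N a b : ℤ) • v b := by rw [zsmul_eq_mul]
  rw [h3, map_zsmul, zsmul_eq_mul]

/-- There are two independent integral kernel vectors. -/
private lemma two_int {N : Matrix (Fin r) (Fin r) ℤ} {v₁ v₂ : Fin r → ℂ}
    (hv : LinearIndependent ℂ ![v₁, v₂]) (h₁ : (N.map (Int.castRingHom ℂ)).mulVec v₁ = 0)
    (h₂ : (N.map (Int.castRingHom ℂ)).mulVec v₂ = 0) :
    ∃ u₁ u₂ : Fin r → ℤ, LinearIndependent ℤ ![u₁, u₂] ∧ N.mulVec u₁ = 0 ∧ N.mulVec u₂ = 0 := by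
  classical
  set K : Submodule ℚ (Fin r → ℚ) := LinearMap.ker (N.map (Int.castRingHom ℚ)).mulVecLin with hK
  have hmem : ∀ {v : Fin r → ℂ}, (N.map (Int.castRingHom ℂ)).mulVec v = 0 →
      ∀ φ : Module.Dual ℚ ℂ, (fun l => φ (v l)) ∈ K := by
    intro v hv φ
    rw [hK, LinearMap.mem_ker, Matrix.mulVecLin_apply]
    exact dual_mem hv φ
  have hrank : 1 < Module.finrank ℚ K := by
    by_contra hcon
    obtain ⟨w, hw⟩ := finrank_le_one_iff.1 (not_lt.1 hcon)
    have key : ∀ {v : Fin r → ℂ}, (N.map (Int.castRingHom ℂ)).mulVec v = 0 →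
        ∀ a b, v a * ((w : Fin r → ℚ) b : ℂ) = v b * ((w : Fin r → ℚ) a : ℂ) := by
      intro v hv a b
      have hz : v a * ((w : Fin r → ℚ) b : ℂ) - v b * ((w : Fin r → ℚ) a : ℂ) = 0 := by
        rw [← Module.forall_dual_apply_eq_zero_iff ℚ]
        intro φ
        obtain ⟨c, hc⟩ := hw ⟨_, hmem hv φ⟩
        have hc2 : ∀ l, c * (w : Fin r → ℚ) l = φ (v l) := by
          intro l
          have := congrArg (fun z : K => (z : Fin r → ℚ) l) hc
          simpa using this
        have e1 : v a * ((w : Fin r → ℚ) b : ℂ) = ((w : Fin r → ℚ) b) • v a := by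
          rw [Algebra.smul_def, mul_comm]
          rfl
        have e2 : v b * ((w : Fin r → ℚ) a : ℂ) = ((w : Fin r → ℚ) a) • v b := by
          rw [Algebra.smul_def, mul_comm]
          rfl
        rw [map_sub, e1, e2, map_smul, map_smul, ← hc2, ← hc2, smul_eq_mul, smul_eq_mul]
        ring
      exact sub_eq_zero.1 hz
    rw [LinearIndependent.pair_iff] at hv
    by_cases hw0 : ∃ b, (w : Fin r → ℚ) b ≠ 0
    · obtain ⟨b, hb⟩ := hw0
      have hb' : ((w : Fin r → ℚ) b : ℂ) ≠ 0 := by exact_mod_cast hb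
      have hdep : v₂ b • v₁ + (-(v₁ b)) • v₂ = 0 := by
        funext a
        have k1 := key h₁ a b
        have k2 := key h₂ a b
        simp only [Pi.add_apply, Pi.smul_apply, smul_eq_mul, Pi.zero_apply]
        apply mul_right_cancel₀ hb'
        linear_combination v₂ b * k1 - v₁ b * k2
      obtain ⟨q1, q2⟩ := hv _ _ hdep
      have q3 : v₁ b = 0 := neg_eq_zero.1 q2
      have z1 : v₁ = 0 := by
        funext a
        have k1 := key h₁ a b
        rw [q3, zero_mul] at k1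
        exact (mul_eq_zero.1 k1).resolve_right hb'
      have := (hv 1 0 (by rw [z1]; simp)).1
      exact one_ne_zero this
    · push Not at hw0
      have z1 : v₁ = 0 := by
        funext a
        show v₁ a = 0
        rw [← Module.forall_dual_apply_eq_zero_iff ℚ]
        intro φ
        obtain ⟨c, hc⟩ := hw ⟨_, hmem h₁ φ⟩
        have := congrArg (fun z : K => (z : Fin r → ℚ) a) hc
        simp only [Submodule.coe_smul, Pi.smul_apply, smul_eq_mul, hw0 a, mul_zero] at this
        exact this.symm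
      have := (hv 1 0 (by rw [z1]; simp)).1
      exact one_ne_zero this
  have hex : ∃ x : K, x ≠ 0 := by
    have : Nontrivial K := Module.nontrivial_of_finrank_pos (R := ℚ) (by omega)
    exact exists_ne 0
  obtain ⟨x, hx⟩ := hex
  obtain ⟨y, hxy⟩ := exists_linearIndependent_pair_of_one_lt_finrank hrank hx
  rw [LinearIndependent.pair_iff] at hxy
  obtain ⟨d₁, hd₁, w₁, hw₁⟩ := clear_den (x : Fin r → ℚ)
  obtain ⟨d₂, hd₂, w₂, hw₂⟩ := clear_den (y : Fin r → ℚ)
  have hker : ∀ (z : K) (d : ℤ) (w : Fin r → ℤ),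
      (∀ l, (w l : ℚ) = (d : ℚ) * (z : Fin r → ℚ) l) → N.mulVec w = 0 := by
    intro z d w hzw
    have hz : (N.map (Int.castRingHom ℚ)).mulVec (z : Fin r → ℚ) = 0 := by
      have hm : (z : Fin r → ℚ) ∈ LinearMap.ker (N.map (Int.castRingHom ℚ)).mulVecLin := z.2
      rwa [LinearMap.mem_ker, Matrix.mulVecLin_apply] at hm
    funext a
    have h := congrFun hz a
    simp only [Matrix.mulVec, dotProduct, Matrix.map_apply, Pi.zero_apply, eq_intCast] at h ⊢
    have h2 : ((∑ b, N a b * w b : ℤ) : ℚ) = 0 := by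
      push_cast
      have h3 : ∀ b, (N a b : ℚ) * (w b : ℚ) = (d : ℚ) * ((N a b : ℚ) * (z : Fin r → ℚ) b) := by
        intro b
        rw [hzw b]
        ring
      rw [Finset.sum_congr rfl fun b _ => h3 b, ← Finset.mul_sum, h, mul_zero]
    exact_mod_cast h2
  refine ⟨w₁, w₂, ?_, hker x d₁ w₁ hw₁, hker y d₂ w₂ hw₂⟩
  rw [LinearIndependent.pair_iff]
  intro s t hst
  have hq : ((s : ℚ) * (d₁ : ℚ)) • x + ((t : ℚ) * (d₂ : ℚ)) • y = 0 := by
    apply Subtype.ext
    funext l
    have h := congrFun hst l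
    simp only [Pi.add_apply, Pi.smul_apply, smul_eq_mul, Pi.zero_apply] at h
    have h2 : ((s * w₁ l + t * w₂ l : ℤ) : ℚ) = 0 := by rw [h]; rfl
    push_cast at h2
    rw [hw₁ l, hw₂ l] at h2
    simp only [Submodule.coe_add, Submodule.coe_smul, Pi.add_apply, Pi.smul_apply, smul_eq_mul,
      Submodule.coe_zero, Pi.zero_apply]
    linarith
  obtain ⟨q1, q2⟩ := hxy _ _ hq
  have hd₁' : (d₁ : ℚ) ≠ 0 := by exact_mod_cast hd₁
  have hd₂' : (d₂ : ℚ) ≠ 0 := by exact_mod_cast hd₂
  have s1 : (s : ℚ) = 0 := (mul_eq_zero.1 q1).resolve_right hd₁'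
  have t1 : (t : ℚ) = 0 := (mul_eq_zero.1 q2).resolve_right hd₂'
  exact ⟨by exact_mod_cast s1, by exact_mod_cast t1⟩

/-- **An integral shear.** -/
theorem shear_of_vectors (C : Matrix (Fin r) (Fin r) ℤ) {v₁ v₂ : Fin r → ℂ}
    (hv : LinearIndependent ℂ ![v₁, v₂])
    (h₁ : (((C.map (Int.castRingHom ℂ)) - 1) ^ 2).mulVec v₁ = 0)
    (h₂ : (((C.map (Int.castRingHom ℂ)) - 1) ^ 2).mulVec v₂ = 0) : Shear C := by
  rw [map_sq] at h₁ h₂
  obtain ⟨u₁, u₂, hu, k₁, k₂⟩ := two_int hv h₁ h₂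
  have hC : ∀ f : Fin r → ℤ, C.mulVec f = f + (C - 1).mulVec f := by
    intro f
    rw [Matrix.sub_mulVec, Matrix.one_mulVec]
    abel
  have main : ∀ u : Fin r → ℤ, ((C - 1) ^ 2).mulVec u = 0 → (C - 1).mulVec u ≠ 0 → Shear C := by
    intro u hu0 hx
    have hx2 : (C - 1).mulVec ((C - 1).mulVec u) = 0 := by
      rw [Matrix.mulVec_mulVec, ← pow_two]
      exact hu0
    refine ⟨(C - 1).mulVec u, u, 1, ?_, ?_, ?_⟩
    · rw [LinearIndependent.pair_iff]
      intro s t hst
      have h1 := congrArg (fun f => (C - 1).mulVec f) hst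
      simp only [Matrix.mulVec_add, Matrix.mulVec_smul, hx2, smul_zero, zero_add,
        Matrix.mulVec_zero] at h1
      have ht : t = 0 := (smul_eq_zero.1 h1).resolve_right hx
      rw [ht, zero_smul, add_zero] at hst
      exact ⟨(smul_eq_zero.1 hst).resolve_right hx, ht⟩
    · rw [hC, hx2, add_zero]
    · rw [hC, one_smul]
  by_cases e1 : (C - 1).mulVec u₁ = 0
  · by_cases e2 : (C - 1).mulVec u₂ = 0
    · refine ⟨u₁, u₂, 0, hu, ?_, ?_⟩
      · rw [hC, e1, add_zero]
      · rw [hC, e2, zero_smul]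
    · exact main u₂ k₂ e2
  · exact main u₁ k₁ e1

end Pool.Agent.MTr
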