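import Mathlib
import Pool.Agent.MTr.Defs

/-!
# Two vectors killed by `(B ^ m - 1) ^ 2`

Proof of `exists_two_vectors`. Let `A = B.map (Int.castRingHom ℂ)`, `χ = A.charpoly` (it is the
image of `B.charpoly`, monic of degree `r`, and it splits over `ℂ`).

Case 1: `χ` has two different nonzero roots `z₁, z₂`. Take eigenvectors `v₁, v₂`; they are
independent, `A ^ m v_i = z_i ^ m v_i = v_i`, so `(A ^ m - 1) v_i = 0`.

Case 2: `χ` has exactly one nonzero root `z`, of multiplicity `e`, so `χ = X^(r-e) (X - z)^e`.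
If `e = 1` then the coefficient of `X^(r-1)` of `χ` is `-z`, an integer, and `z ^ m = 1` gives
`z = 1` or `z = -1`, so `B.charpoly = X^(r-1)(X ∓ 1)`: excluded by `h` (compare over `ℂ`; the map
`ℤ[X] → ℂ[X]` is injective). So `e ≥ 2`. The generalized eigenspace of `A` for `z` has dimension
`e ≥ 2` (`LinearMap.finrank_maxGenEigenspace_eq`), hence `ker (A - z) ^ 2` has dimension `≥ 2`: if
it had dimension `≤ 1`, then `ker (A - z) ≠ 0` would give `ker (A - z) = ker (A - z) ^ 2`, so all
the kernels of the powers would be equal to it, and the generalized eigenspace would have dimension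
`1`. Take independent `v₁, v₂` in `ker (A - z) ^ 2`. As `X - z` divides `X ^ m - 1` we have
`(X - z) ^ 2 ∣ (X ^ m - 1) ^ 2` and `(A ^ m - 1) ^ 2 v_i = 0`.

Case 3: no nonzero root: `χ = X ^ r`, excluded by `h`.
-/

set_option autoImplicit false

namespace Pool.Agent.MTr

open Finset

variable {r : ℕ}

private lemma key_GTwo (A : Matrix (Fin r) (Fin r) ℂ) {m : ℕ} {z : ℂ} (hz : z ^ m = 1)
    {v : Fin r → ℂ} (hv : v ∈ Module.End.genEigenspace (Matrix.toLin' A) z (2 : ℕ)) :
    ((A ^ m - 1) ^ 2).mulVec v = 0 := by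
  obtain ⟨q, hq⟩ : (Polynomial.X - Polynomial.C z) ∣ (Polynomial.X ^ m - 1 : Polynomial ℂ) := by
    rw [Polynomial.dvd_iff_isRoot]
    simp [Polynomial.IsRoot, hz]
  have h1 : (A ^ m - 1) ^ 2 =
      Polynomial.aeval A (q ^ 2) * (A - algebraMap ℂ (Matrix (Fin r) (Fin r) ℂ) z) ^ 2 := by
    have h2 := congrArg (Polynomial.aeval A) hq
    rw [map_sub, map_pow, Polynomial.aeval_X, map_one] at h2
    have h3 : (A - algebraMap ℂ (Matrix (Fin r) (Fin r) ℂ) z) =
        Polynomial.aeval A (Polynomial.X - Polynomial.C z) := by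
      rw [map_sub, Polynomial.aeval_X, Polynomial.aeval_C]
    rw [h2, h3, ← map_pow, ← map_pow, ← map_mul]
    congr 1
    ring
  rw [Module.End.mem_genEigenspace_nat, LinearMap.mem_ker] at hv
  have h4 : ((A - algebraMap ℂ (Matrix (Fin r) (Fin r) ℂ) z) ^ 2).mulVec v = 0 := by
    have h5 : Matrix.toLinAlgEquiv' ((A - algebraMap ℂ (Matrix (Fin r) (Fin r) ℂ) z) ^ 2) =
        (Matrix.toLin' A - z • (1 : Module.End ℂ (Fin r → ℂ))) ^ 2 := by
      rw [map_pow, map_sub, AlgEquiv.commutes, Algebra.algebraMap_eq_smul_one]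
      rfl
    rw [← h5] at hv
    exact hv
  rw [h1, ← Matrix.mulVec_mulVec, h4, Matrix.mulVec_zero]

private lemma pair_GTwo {E : Submodule ℂ (Fin r → ℂ)} (hE : 1 < Module.finrank ℂ E) :
    ∃ v₁ ∈ E, ∃ v₂ ∈ E, LinearIndependent ℂ ![v₁, v₂] := by
  obtain ⟨x, hx⟩ := Module.finrank_pos_iff_exists_ne_zero.1 (zero_lt_one.trans hE)
  obtain ⟨y, hy⟩ := exists_linearIndependent_pair_of_one_lt_finrank hE hx
  refine ⟨x, x.2, y, y.2, ?_⟩
  have h1 := hy.map' E.subtype (Submodule.ker_subtype E)
  have h2 : ![(x : Fin r → ℂ), (y : Fin r → ℂ)] = E.subtype ∘ ![x, y] := by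
    funext i
    fin_cases i <;> rfl
  rw [h2]
  exact h1

private lemma mult_GTwo (φ : Module.End ℂ (Fin r → ℂ)) {z : ℂ} (hz : φ.charpoly.IsRoot z)
    (h : Module.finrank ℂ (φ.genEigenspace z (2 : ℕ)) ≤ 1) : φ.charpoly.roots.count z = 1 := by
  have hev : φ.HasEigenvalue z := (Module.End.hasEigenvalue_iff_isRoot_charpoly φ z).2 hz
  obtain ⟨v, hv⟩ := hev.exists_hasEigenvector
  have k1 : LinearMap.ker ((φ - z • (1 : Module.End ℂ (Fin r → ℂ))) ^ 1) =
      LinearMap.ker ((φ - z • (1 : Module.End ℂ (Fin r → ℂ))) ^ 2) := by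
    have hle : LinearMap.ker ((φ - z • (1 : Module.End ℂ (Fin r → ℂ))) ^ 1) ≤
        LinearMap.ker ((φ - z • (1 : Module.End ℂ (Fin r → ℂ))) ^ 2) := by
      intro x hx
      rw [LinearMap.mem_ker, pow_one] at hx
      rw [LinearMap.mem_ker, pow_two, Module.End.mul_apply, hx, map_zero]
    refine Submodule.eq_of_le_of_finrank_le hle ?_
    have h2 : Module.finrank ℂ
        (LinearMap.ker ((φ - z • (1 : Module.End ℂ (Fin r → ℂ))) ^ 2)) ≤ 1 := by
      have e : φ.genEigenspace z (2 : ℕ) =
          LinearMap.ker ((φ - z • (1 : Module.End ℂ (Fin r → ℂ))) ^ 2) := by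
        ext x
        exact Module.End.mem_genEigenspace_nat
      rw [← e]
      exact h
    refine h2.trans ?_
    have h3 : 0 < Module.finrank ℂ
        (LinearMap.ker ((φ - z • (1 : Module.End ℂ (Fin r → ℂ))) ^ 1)) := by
      rw [Module.finrank_pos_iff_exists_ne_zero]
      refine ⟨⟨v, ?_⟩, ?_⟩
      · rw [LinearMap.mem_ker, pow_one, LinearMap.sub_apply, LinearMap.smul_apply,
          Module.End.one_apply, hv.apply_eq_smul, sub_self]
      · intro h0
        exact hv.2 (congrArg Subtype.val h0)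
    exact h3
  have hall : ∀ x, x ∈ φ.maxGenEigenspace z ↔ x ∈ φ.eigenspace z := by
    intro x
    constructor
    · intro hx
      rw [Module.End.mem_maxGenEigenspace] at hx
      obtain ⟨k, hk⟩ := hx
      have h4 := Module.End.ker_pow_constant k1 k
      have h5 : x ∈ LinearMap.ker ((φ - z • (1 : Module.End ℂ (Fin r → ℂ))) ^ (1 + k)) := by
        rw [LinearMap.mem_ker, pow_add, Module.End.mul_apply, hk, map_zero]
      rw [← h4, LinearMap.mem_ker, pow_one] at h5
      rw [Module.End.mem_eigenspace_iff]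
      rw [LinearMap.sub_apply, LinearMap.smul_apply, Module.End.one_apply, sub_eq_zero] at h5
      exact h5
    · intro hx
      exact Module.End.eigenspace_le_maxGenEigenspace hx
  have heq : φ.maxGenEigenspace z = φ.eigenspace z := by
    ext x
    exact hall x
  have h6 := LinearMap.finrank_maxGenEigenspace_eq φ z
  rw [Polynomial.count_roots, ← h6]
  apply le_antisymm
  · rw [heq]
    have h7 : φ.eigenspace z ≤ φ.genEigenspace z (2 : ℕ) :=
      Module.End.eigenspace_le_genEigenspace (by norm_num)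
    exact (Submodule.finrank_mono h7).trans h
  · have h8 : 0 < Module.finrank ℂ (φ.maxGenEigenspace z) := by
      rw [Module.finrank_pos_iff_exists_ne_zero]
      refine ⟨⟨v, (hall v).2 hv.1⟩, ?_⟩
      intro h0
      exact hv.2 (congrArg Subtype.val h0)
    exact h8

/-- **Two independent vectors.** -/
theorem exists_two_vectors (B : Matrix (Fin r) (Fin r) ℤ) (h : ¬ TamePoly r B.charpoly) {m : ℕ}
    (hm : 1 ≤ m)
    (hz : ∀ z : ℂ, ((B.map (Int.castRingHom ℂ)).charpoly).IsRoot z → z = 0 ∨ z ^ m = 1) :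
    ∃ v₁ v₂ : Fin r → ℂ, LinearIndependent ℂ ![v₁, v₂] ∧
      ((((B.map (Int.castRingHom ℂ)) ^ m - 1) ^ 2).mulVec v₁ = 0) ∧
      ((((B.map (Int.castRingHom ℂ)) ^ m - 1) ^ 2).mulVec v₂ = 0) := by
  classical
  set A : Matrix (Fin r) (Fin r) ℂ := B.map (Int.castRingHom ℂ) with hA
  have hχ : B.charpoly.map (Int.castRingHom ℂ) = A.charpoly := (Matrix.charpoly_map B _).symm
  have hφ : (Matrix.toLin' A).charpoly = A.charpoly := Matrix.charpoly_toLin' A
  have hinj : Function.Injective (Polynomial.map (Int.castRingHom ℂ)) :=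
    Polynomial.map_injective _ Int.cast_injective
  by_cases h2 : ∃ z : ℂ, A.charpoly.IsRoot z ∧ z ≠ 0 ∧
      1 < Module.finrank ℂ (Module.End.genEigenspace (Matrix.toLin' A) z (2 : ℕ))
  · obtain ⟨z, hz1, hz0, hE⟩ := h2
    obtain ⟨v₁, hv₁, v₂, hv₂, hli⟩ := pair_GTwo hE
    have hzm := (hz z hz1).resolve_left hz0
    exact ⟨v₁, v₂, hli, key_GTwo A hzm hv₁, key_GTwo A hzm hv₂⟩
  push Not at h2
  by_cases h3 : ∃ z₁ z₂ : ℂ, A.charpoly.IsRoot z₁ ∧ A.charpoly.IsRoot z₂ ∧ z₁ ≠ 0 ∧ z₂ ≠ 0 ∧
      z₁ ≠ z₂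
  · obtain ⟨z₁, z₂, hr1, hr2, h01, h02, hne⟩ := h3
    have e1 : Module.End.HasEigenvalue (Matrix.toLin' A) z₁ :=
      (Module.End.hasEigenvalue_iff_isRoot_charpoly _ _).2 (by rw [hφ]; exact hr1)
    have e2 : Module.End.HasEigenvalue (Matrix.toLin' A) z₂ :=
      (Module.End.hasEigenvalue_iff_isRoot_charpoly _ _).2 (by rw [hφ]; exact hr2)
    obtain ⟨v₁, hv₁⟩ := e1.exists_hasEigenvector
    obtain ⟨v₂, hv₂⟩ := e2.exists_hasEigenvector
    refine ⟨v₁, v₂, ?_, ?_, ?_⟩
    · refine Module.End.eigenvectors_linearIndependent' (Matrix.toLin' A) ![z₁, z₂] ?_ ![v₁, v₂] ?_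
      · intro i j hij
        fin_cases i <;> fin_cases j
        · rfl
        · exact absurd hij hne
        · exact absurd hij.symm hne
        · rfl
      · intro i
        fin_cases i
        · exact hv₁
        · exact hv₂
    · exact key_GTwo A ((hz z₁ hr1).resolve_left h01)
        (Module.End.eigenspace_le_genEigenspace (by norm_num) hv₁.1)
    · exact key_GTwo A ((hz z₂ hr2).resolve_left h02)
        (Module.End.eigenspace_le_genEigenspace (by norm_num) hv₂.1)
  push Not at h3
  exfalso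
  apply h
  have hsplit : A.charpoly.Splits := IsAlgClosed.splits _
  have hmonic : A.charpoly.Monic := Matrix.charpoly_monic A
  have hprod : A.charpoly = (A.charpoly.roots.map fun a => Polynomial.X - Polynomial.C a).prod := by
    conv_lhs => rw [hsplit.eq_prod_roots]
    rw [hmonic.leadingCoeff, Polynomial.C_1, one_mul]
  have hcard : A.charpoly.roots.card = r := by
    rw [← hsplit.natDegree_eq_card_roots, Matrix.charpoly_natDegree_eq_dim, Fintype.card_fin]
  have hmem : ∀ z, z ∈ A.charpoly.roots ↔ A.charpoly.IsRoot z := fun z =>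
    Polynomial.mem_roots hmonic.ne_zero
  by_cases h4 : ∃ z, A.charpoly.IsRoot z ∧ z ≠ 0
  · obtain ⟨z, hzr, hz0⟩ := h4
    have hcount : A.charpoly.roots.count z = 1 := by
      have := mult_GTwo (Matrix.toLin' A) (z := z) (by rw [hφ]; exact hzr) (h2 z hzr hz0)
      rwa [hφ] at this
    have hzmem : z ∈ A.charpoly.roots := (hmem z).2 hzr
    have herase : A.charpoly.roots.erase z = Multiset.replicate (r - 1) 0 := by
      rw [Multiset.eq_replicate]
      refine ⟨?_, ?_⟩
      · rw [Multiset.card_erase_of_mem hzmem, hcard]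
        rfl
      · intro b hb
        by_contra hb0
        have hbr : A.charpoly.IsRoot b := (hmem b).1 (Multiset.mem_of_mem_erase hb)
        have hbz : b = z := by
          by_contra hne
          exact absurd (h3 b z hbr hzr hb0 hz0) hne
        rw [hbz] at hb
        have h5 : 0 < (A.charpoly.roots.erase z).count z := Multiset.count_pos.2 hb
        rw [Multiset.count_erase_self, hcount] at h5
        exact absurd h5 (lt_irrefl 0)
    have hroots : A.charpoly.roots = z ::ₘ Multiset.replicate (r - 1) 0 := by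
      rw [← herase, Multiset.cons_erase hzmem]
    have hform : A.charpoly = Polynomial.X ^ (r - 1) * (Polynomial.X - Polynomial.C z) := by
      rw [hprod, hroots, Multiset.map_cons, Multiset.prod_cons, Multiset.map_replicate,
        Multiset.prod_replicate, Polynomial.C_0, sub_zero, mul_comm]
    have htr : z = ((B.trace : ℤ) : ℂ) := by
      have h6 := Matrix.trace_eq_sum_roots_charpoly A
      rw [hroots, Multiset.sum_cons, Multiset.sum_replicate, smul_zero, add_zero] at h6
      rw [← h6, hA]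
      simp [Matrix.trace, Matrix.diag]
    have hpow : (B.trace : ℤ) ^ m = 1 := by
      have h7 := (hz z hzr).resolve_left hz0
      rw [htr] at h7
      exact_mod_cast h7
    have hunit : IsUnit (B.trace : ℤ) := by
      have h8 : IsUnit ((B.trace : ℤ) ^ m) := by
        rw [hpow]
        exact isUnit_one
      exact (isUnit_pow_iff (by omega)).1 h8
    rcases Int.isUnit_iff.1 hunit with h9 | h9
    · right
      left
      apply hinj
      rw [hχ, hform, htr, h9]
      simp
    · right
      right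
      apply hinj
      rw [hχ, hform, htr, h9]
      simp
  · push Not at h4
    left
    apply hinj
    have hroots : A.charpoly.roots = Multiset.replicate r 0 := by
      rw [Multiset.eq_replicate]
      exact ⟨hcard, fun b hb => h4 b ((hmem b).1 hb)⟩
    rw [hχ, hprod, hroots, Multiset.map_replicate, Multiset.prod_replicate]
    simp

end Pool.Agent.MTr
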