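import Mathlib
import Pool.Agent.MTr.GRoot
import Pool.Agent.MTr.GKron
import Pool.Agent.MTr.GTwo
import Pool.Agent.MTr.GShear

/-!
# Growth or shear
-/

set_option autoImplicit false

namespace Pool.Agent.MTr

open Finset

variable {r : ℕ}

/-- **The dichotomy for one matrix.** -/
theorem growth_or_shear (B : Matrix (Fin r) (Fin r) ℤ) (h : ¬ TamePoly r B.charpoly) :
    ∃ m, 1 ≤ m ∧ (Growth (B ^ m) ∨ Shear (B ^ m)) := by
  by_cases h1 : ∃ z : ℂ, ((B.map (Int.castRingHom ℂ)).charpoly).IsRoot z ∧ 1 < ‖z‖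
  · obtain ⟨z, hz, hz1⟩ := h1
    obtain ⟨m, hm, hG⟩ := growth_of_root B z hz hz1
    exact ⟨m, hm, Or.inl hG⟩
  · push Not at h1
    obtain ⟨m, hm, hz⟩ := exists_pow_roots B h1
    obtain ⟨v₁, v₂, hv, h₁, h₂⟩ := exists_two_vectors B h hm hz
    have e : ((B ^ m).map (Int.castRingHom ℂ)) = (B.map (Int.castRingHom ℂ)) ^ m := by
      have := map_pow ((Int.castRingHom ℂ).mapMatrix (m := Fin r)) B m
      simpa using this
    exact ⟨m, hm, Or.inr (shear_of_vectors (B ^ m) hv (by rw [e]; exact h₁) (by rw [e]; exact h₂))⟩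

end Pool.Agent.MTr
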