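import Mathlib
import Pool.Agent.MTr.Univ
import Pool.Agent.PTr.ClkSim

/-!
# Queue automata as exact maps with an expanding linear part

A word with the digits `0`, `1` is the vector `∑ d j • B ^ j w`.
-/

set_option autoImplicit false

namespace Pool.Agent.MTr

open Pool.Agent.Grz Pool.Agent.PTr Finset

variable {r : ℕ}

/-! ### The maximum norm -/

theorem natAbs_le_nrm (x : Fin r → ℤ) (l : Fin r) : (x l).natAbs ≤ nrm x :=
  Finset.le_sup (f := fun l => (x l).natAbs) (Finset.mem_univ l)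

theorem abs_le_nrm (x : Fin r → ℤ) (l : Fin r) : |x l| ≤ (nrm x : ℤ) := by
  have := natAbs_le_nrm x l
  rw [Int.abs_eq_natAbs]
  exact_mod_cast this

theorem nrm_le {x : Fin r → ℤ} {c : ℕ} (h : ∀ l, |x l| ≤ (c : ℤ)) : nrm x ≤ c := by
  refine Finset.sup_le fun l _ => ?_
  have := h l
  rw [Int.abs_eq_natAbs] at this
  exact_mod_cast this

theorem nrm_add (x y : Fin r → ℤ) : nrm (x + y) ≤ nrm x + nrm y := by
  refine nrm_le fun l => ?_
  have h1 := abs_le_nrm x l
  have h2 := abs_le_nrm y l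
  have h3 := abs_add_le (x l) (y l)
  push_cast
  show |x l + y l| ≤ _
  linarith

theorem nrm_sub (x y : Fin r → ℤ) : nrm (x - y) ≤ nrm x + nrm y := by
  refine nrm_le fun l => ?_
  have h1 := abs_le_nrm x l
  have h2 := abs_le_nrm y l
  have h3 := abs_sub (x l) (y l)
  push_cast
  show |x l - y l| ≤ _
  linarith

theorem nrm_smul_nat (a : ℕ) (x : Fin r → ℤ) : nrm ((a : ℤ) • x) ≤ a * nrm x := by
  refine nrm_le fun l => ?_
  have h1 := abs_le_nrm x l
  show |(a : ℤ) * x l| ≤ _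
  rw [abs_mul]
  push_cast
  rw [abs_of_nonneg (show (0 : ℤ) ≤ (a : ℤ) by omega)]
  exact mul_le_mul_of_nonneg_left h1 (by omega)

theorem exists_nrm {x : Fin r → ℤ} (h : 0 < nrm x) : ∃ l, |x l| = (nrm x : ℤ) := by
  have hne : (univ : Finset (Fin r)).Nonempty := by
    by_contra hc
    rw [Finset.not_nonempty_iff_eq_empty] at hc
    unfold nrm at h
    rw [hc] at h
    simp at h
  obtain ⟨l, -, hl⟩ := Finset.exists_mem_eq_sup univ hne (fun l => (x l).natAbs)
  refine ⟨l, ?_⟩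
  unfold nrm
  rw [hl, Int.abs_eq_natAbs]

theorem nrm_pos {x : Fin r → ℤ} (h : x ≠ 0) : 0 < nrm x := by
  rw [Nat.pos_iff_ne_zero]
  intro h0
  apply h
  funext l
  have := natAbs_le_nrm x l
  show x l = 0
  omega

/-! ### Words as vectors -/

variable (B : Matrix (Fin r) (Fin r) ℤ) (w : Fin r → ℤ)

/-- The vector `B ^ j w`. -/
def VV (j : ℕ) : Fin r → ℤ := (B ^ j).mulVec w

/-- The vector of a word, most significant digit first. -/
def vval : List ℕ → Fin r → ℤ
  | [] => 0
  | a :: l => (a : ℤ) • VV B w l.length + vval l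

theorem VV_zero : VV B w 0 = w := by unfold VV; simp

theorem VV_succ (j : ℕ) : VV B w (j + 1) = B.mulVec (VV B w j) := by
  unfold VV
  rw [pow_succ', Matrix.mulVec_mulVec]

theorem VV_add (i j : ℕ) : VV B w (i + j) = (B ^ i).mulVec (VV B w j) := by
  unfold VV
  rw [pow_add, Matrix.mulVec_mulVec]

theorem vval_append (l m : List ℕ) :
    vval B w (l ++ m) = (B ^ m.length).mulVec (vval B w l) + vval B w m := by
  induction l with
  | nil => simp [vval]
  | cons a l ih =>
    rw [List.cons_append, vval, vval, ih, List.length_append, Nat.add_comm l.length, VV_add,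
      Matrix.mulVec_add, Matrix.mulVec_smul]
    abel

theorem vval_snoc (l : List ℕ) (a : ℕ) :
    vval B w (l ++ [a]) = B.mulVec (vval B w l) + (a : ℤ) • w := by
  rw [vval_append, List.length_singleton, pow_one, vval, vval, List.length_nil, VV_zero, add_zero]

variable {B w}

theorem VV_pos (hw : w ≠ 0) (hB : ∀ j, 8 * nrm (VV B w j) ≤ nrm (VV B w (j + 1))) (j : ℕ) :
    0 < nrm (VV B w j) := by
  induction j with
  | zero => rw [VV_zero]; exact nrm_pos hw
  | succ j ih => have := hB j; omega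

theorem vval_le (hB : ∀ j, 8 * nrm (VV B w j) ≤ nrm (VV B w (j + 1))) : ∀ l : List ℕ,
    (∀ b ∈ l, b < 2) → 7 * nrm (vval B w l) ≤ nrm (VV B w l.length)
  | [], _ => by
    have : nrm (vval B w []) = 0 := by
      rw [vval]
      exact Nat.le_zero.1 (nrm_le fun l => by simp)
    rw [this]; omega
  | a :: l, h => by
    have h1 := vval_le hB l fun b hb => h b (List.mem_cons_of_mem _ hb)
    have h2 := h a List.mem_cons_self
    have h3 := hB l.length
    have h4 := nrm_add ((a : ℤ) • VV B w l.length) (vval B w l)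
    have h5 := nrm_smul_nat a (VV B w l.length)
    have h6 : a * nrm (VV B w l.length) ≤ 1 * nrm (VV B w l.length) :=
      Nat.mul_le_mul_right _ (by omega)
    rw [vval, List.length_cons]
    omega

theorem vval_inj (hw : w ≠ 0) (hB : ∀ j, 8 * nrm (VV B w j) ≤ nrm (VV B w (j + 1))) :
    ∀ l m : List ℕ, l.length = m.length → (∀ b ∈ l, b < 2) → (∀ b ∈ m, b < 2) →
      vval B w l = vval B w m → l = m
  | [], [], _, _, _, _ => rfl
  | [], b :: m, h, _, _, _ => by simp at h
  | a :: l, [], h, _, _, _ => by simp at h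
  | a :: l, b :: m, h, hl, hm, he => by
    have hlen : l.length = m.length := by simpa using h
    have h1 := vval_le hB l fun c hc => hl c (List.mem_cons_of_mem _ hc)
    have h2 := vval_le hB m fun c hc => hm c (List.mem_cons_of_mem _ hc)
    have ha := hl a List.mem_cons_self
    have hb := hm b List.mem_cons_self
    have hp := VV_pos hw hB l.length
    rw [vval, vval, ← hlen] at he
    rw [← hlen] at h2
    have hab : a = b := by
      by_contra hne
      obtain ⟨j, hj⟩ := exists_nrm hp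
      have h3 := congrFun he j
      have h4 : (a : ℤ) * VV B w l.length j + vval B w l j =
        (b : ℤ) * VV B w l.length j + vval B w m j := h3
      have h5 := abs_le_nrm (vval B w l) j
      have h6 := abs_le_nrm (vval B w m) j
      rw [abs_le] at h5 h6
      have h7 : (a = 0 ∧ b = 1) ∨ (a = 1 ∧ b = 0) := by omega
      have h8 : |VV B w l.length j| ≤ (nrm (vval B w l) + nrm (vval B w m) : ℕ) := by
        rw [abs_le]
        rcases h7 with ⟨rfl, rfl⟩ | ⟨rfl, rfl⟩
        · push_cast at h4 ⊢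
          constructor <;> linarith [h5.1, h5.2, h6.1, h6.2]
        · push_cast at h4 ⊢
          constructor <;> linarith [h5.1, h5.2, h6.1, h6.2]
      rw [hj] at h8
      omega
    subst hab
    rw [vval_inj hw hB l m hlen (fun c hc => hl c (List.mem_cons_of_mem _ hc))
      (fun c hc => hm c (List.mem_cons_of_mem _ hc)) (add_left_cancel he)]

/-! ### The map -/

/-- the offset of a state -/
def off (V : Fin r → ℤ) (q : ℕ) : ℤ := 4 * (nrm V : ℤ) + (q : ℤ) * (8 * (nrm V : ℤ))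

/-- the centre of a box -/
def qctr (V : Fin r → ℤ) (e : ℕ) (l : Fin r) : ℤ := off V (e / 2) + ((e % 2 : ℕ) : ℤ) * V l

/-- lower corner -/
def qlo (V : Fin r → ℤ) (e : ℕ) (l : Fin r) : ℕ := (qctr V e l - ((nrm V / 7 : ℕ) : ℤ)).toNat

/-- upper corner -/
def qhi (V : Fin r → ℤ) (e : ℕ) (l : Fin r) : ℕ := (qctr V e l + ((nrm V / 7 : ℕ) : ℤ) + 1).toNat

/-- the translation -/
def qtr (B : Matrix (Fin r) (Fin r) ℤ) (w : Fin r → ℤ) (δ : ℕ → ℕ → ℕ × ℕ) (V : Fin r → ℤ)
    (e : ℕ) (l : Fin r) : ℤ :=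
  off V (δ (e / 2) (e % 2)).1 - (∑ m, B l m * off V (e / 2)) -
    ((e % 2 : ℕ) : ℤ) * (∑ m, B l m * V m) + ((δ (e / 2) (e % 2)).2 : ℤ) * w l

/-- the map -/
def qbm (B : Matrix (Fin r) (Fin r) ℤ) (w : Fin r → ℤ) (Q : ℕ) (δ : ℕ → ℕ → ℕ × ℕ)
    (V : Fin r → ℤ) : (Fin r → ℕ) → Fin r → ℕ :=
  bmap B (fun e : Fin (Q * 2) => qlo V e) (fun e : Fin (Q * 2) => qhi V e)
    (fun (e : Fin (Q * 2)) l => (qtr B w δ V e l).toNat)
    (fun (e : Fin (Q * 2)) l => (- qtr B w δ V e l).toNat)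

/-- the point of a configuration -/
def cpt (B : Matrix (Fin r) (Fin r) ℤ) (w V : Fin r → ℤ) (q : ℕ) (l : List ℕ) : Fin r → ℕ :=
  fun j => (off V q + vval B w l j).toNat

/-- a bound for all points -/
def qR (V : Fin r → ℤ) (Q : ℕ) : ℕ := (Q + 1) * (8 * nrm V)

variable {Q n : ℕ} {δ : ℕ → ℕ → ℕ × ℕ}

theorem vval_le' (hB : ∀ j, 8 * nrm (VV B w j) ≤ nrm (VV B w (j + 1))) {l : List ℕ}
    (hl : ∀ b ∈ l, b < 2) (hn : l.length = n + 1) : nrm (vval B w l) ≤ 2 * nrm (VV B w n) := by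
  cases l with
  | nil => simp at hn
  | cons a l =>
    have hn' : l.length = n := by simpa using hn
    have h1 := vval_le hB l fun c hc => hl c (List.mem_cons_of_mem _ hc)
    have ha := hl a List.mem_cons_self
    have h4 := nrm_add ((a : ℤ) • VV B w l.length) (vval B w l)
    have h5 := nrm_smul_nat a (VV B w l.length)
    have h6 : a * nrm (VV B w l.length) ≤ 1 * nrm (VV B w l.length) :=
      Nat.mul_le_mul_right _ (by omega)
    rw [vval]
    rw [hn'] at h1 h4 h5 h6 ⊢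
    omega

theorem cpt_cast (hB : ∀ j, 8 * nrm (VV B w j) ≤ nrm (VV B w (j + 1))) {l : List ℕ}
    (hl : ∀ b ∈ l, b < 2) (hn : l.length = n + 1) (q : ℕ) (j : Fin r) :
    ((cpt B w (VV B w n) q l j : ℕ) : ℤ) = off (VV B w n) q + vval B w l j := by
  unfold cpt
  rw [Int.toNat_of_nonneg]
  have h1 := vval_le' hB hl hn
  have h2 := abs_le_nrm (vval B w l) j
  rw [abs_le] at h2
  unfold off
  have h3 : (0 : ℤ) ≤ (q : ℤ) * (8 * (nrm (VV B w n) : ℤ)) := by positivity
  zify at h1
  linarith [h2.1]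

theorem cpt_lt (hw : w ≠ 0) (hB : ∀ j, 8 * nrm (VV B w j) ≤ nrm (VV B w (j + 1))) {l : List ℕ}
    (hl : ∀ b ∈ l, b < 2) (hn : l.length = n + 1) {q : ℕ} (hq : q < Q) (j : Fin r) :
    cpt B w (VV B w n) q l j < qR (VV B w n) Q := by
  have h0 := cpt_cast hB hl hn q j
  have h1 := vval_le' hB hl hn
  have h2 := abs_le_nrm (vval B w l) j
  rw [abs_le] at h2
  have h3 := VV_pos hw hB n
  unfold off at h0
  unfold qR
  have h4 : (q + 1) * (8 * nrm (VV B w n)) ≤ Q * (8 * nrm (VV B w n)) :=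
    Nat.mul_le_mul_right _ hq
  zify at h1 h3 h4 ⊢
  push_cast
  linarith [h2.2]

theorem cpt_inj (hw : w ≠ 0) (hB : ∀ j, 8 * nrm (VV B w j) ≤ nrm (VV B w (j + 1)))
    {l l' : List ℕ} (hl : ∀ b ∈ l, b < 2) (hn : l.length = n + 1) (hl' : ∀ b ∈ l', b < 2)
    (hn' : l'.length = n + 1) {q q' : ℕ} (hr : 0 < r)
    (h : cpt B w (VV B w n) q l = cpt B w (VV B w n) q' l') : q = q' ∧ l = l' := by
  have hp := VV_pos hw hB n
  have hq : q = q' := by
    have h0 := cpt_cast hB hl hn q ⟨0, hr⟩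
    have h0' := cpt_cast hB hl' hn' q' ⟨0, hr⟩
    rw [h] at h0
    rw [h0] at h0'
    have h1 := vval_le' hB hl hn
    have h2 := abs_le_nrm (vval B w l) ⟨0, hr⟩
    have h1' := vval_le' hB hl' hn'
    have h2' := abs_le_nrm (vval B w l') ⟨0, hr⟩
    rw [abs_le] at h2 h2'
    unfold off at h0'
    zify at h1 h1' hp
    rcases lt_trichotomy q q' with h3 | h3 | h3
    · exfalso
      have h4 : ((q : ℤ) + 1) * (8 * (nrm (VV B w n) : ℤ)) ≤ q' * (8 * (nrm (VV B w n) : ℤ)) :=
        mul_le_mul_of_nonneg_right (by omega) (by positivity)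
      linarith [h2.1, h2.2, h2'.1, h2'.2]
    · exact h3
    · exfalso
      have h4 : ((q' : ℤ) + 1) * (8 * (nrm (VV B w n) : ℤ)) ≤ q * (8 * (nrm (VV B w n) : ℤ)) :=
        mul_le_mul_of_nonneg_right (by omega) (by positivity)
      linarith [h2.1, h2.2, h2'.1, h2'.2]
  subst hq
  refine ⟨rfl, vval_inj hw hB l l' (by rw [hn, hn']) hl hl' ?_⟩
  funext j
  have h0 := cpt_cast hB hl hn q j
  have h0' := cpt_cast hB hl' hn' q j
  rw [h] at h0
  rw [h0] at h0'
  linarith

theorem qfirst (hw : w ≠ 0) (hB : ∀ j, 8 * nrm (VV B w j) ≤ nrm (VV B w (j + 1))) {a : ℕ}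
    {l : List ℕ} (ha : a < 2) (hl : ∀ b ∈ l, b < 2) (hn : l.length = n) {q : ℕ} (hr : 0 < r)
    (hq : q * 2 + a < Q * 2) :
    First (fun e : Fin (Q * 2) => qlo (VV B w n) e) (fun e : Fin (Q * 2) => qhi (VV B w n) e)
      (cpt B w (VV B w n) q (a :: l)) ⟨q * 2 + a, hq⟩ := by
  have hl' : ∀ b ∈ a :: l, b < 2 := by
    intro b hb
    rcases List.mem_cons.1 hb with h | h
    · rw [h]; exact ha
    · exact hl b h
  have hc := cpt_cast hB hl' (n := n) (by simp [hn]) q
  have h1 := vval_le hB l hl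
  rw [hn] at h1
  have hp := VV_pos hw hB n
  have hν : nrm (vval B w l) ≤ nrm (VV B w n) / 7 := by omega
  have hlow : ∀ j, |vval B w l j| ≤ ((nrm (VV B w n) / 7 : ℕ) : ℤ) := fun j =>
    (abs_le_nrm _ j).trans (by exact_mod_cast hν)
  have hval : ∀ j, ((cpt B w (VV B w n) q (a :: l) j : ℕ) : ℤ) =
      off (VV B w n) q + (a : ℤ) * VV B w n j + vval B w l j := by
    intro j
    rw [hc j, vval, hn]
    show _ + ((a : ℤ) * VV B w n j + vval B w l j) = _
    ring
  have hd : (q * 2 + a) / 2 = q := by omega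
  have hm : (q * 2 + a) % 2 = a := by omega
  constructor
  · intro j
    have h2 := hval j
    have h3 := hlow j
    rw [abs_le] at h3
    unfold qlo qhi qctr
    simp only [hd, hm]
    omega
  · intro f hf hb
    have hf' : (f : ℕ) < q * 2 + a := hf
    have key : ∀ j, |((cpt B w (VV B w n) q (a :: l) j : ℕ) : ℤ) - qctr (VV B w n) f j| ≤
        ((nrm (VV B w n) / 7 : ℕ) : ℤ) := by
      intro j
      have h4 : qlo (VV B w n) f j ≤ cpt B w (VV B w n) q (a :: l) j ∧
        cpt B w (VV B w n) q (a :: l) j < qhi (VV B w n) f j := hb j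
      unfold qlo qhi at h4
      rw [abs_le]
      constructor <;> omega
    by_cases hqf : (f : ℕ) / 2 = q
    · have hfm : (f : ℕ) % 2 = 0 ∧ a = 1 := by omega
      obtain ⟨j, hj⟩ := exists_nrm hp
      have h4 := key j
      have h5 := hlow j
      have h6 := hval j
      unfold qctr at h4
      rw [hqf, hfm.1] at h4
      rw [h6, hfm.2] at h4
      rw [abs_le] at h4 h5
      push_cast at h4 h5
      have h7 : |VV B w n j| ≤ ((2 * (nrm (VV B w n) / 7) : ℕ) : ℤ) := by
        rw [abs_le]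
        push_cast
        constructor <;> linarith [h4.1, h4.2, h5.1, h5.2]
      rw [hj] at h7
      omega
    · have hlt : (f : ℕ) / 2 < q := by omega
      have h4 := key ⟨0, hr⟩
      have h5 := hlow ⟨0, hr⟩
      have h6 := hval ⟨0, hr⟩
      have h7 := abs_le_nrm (VV B w n) ⟨0, hr⟩
      unfold qctr off at h4
      rw [h6] at h4
      unfold off at h4
      rw [abs_le] at h4 h5 h7
      have h8 : (((f : ℕ) / 2 : ℕ) : ℤ) + 1 ≤ q := by omega
      have h9 := mul_le_mul_of_nonneg_right h8 (show (0 : ℤ) ≤ 8 * (nrm (VV B w n) : ℤ) by positivity)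
      have ha' : (a : ℤ) = 0 ∨ (a : ℤ) = 1 := by omega
      have hfm : (((f : ℕ) % 2 : ℕ) : ℤ) = 0 ∨ (((f : ℕ) % 2 : ℕ) : ℤ) = 1 := by omega
      have h10 : ((nrm (VV B w n) / 7 : ℕ) : ℤ) ≤ (nrm (VV B w n) : ℤ) := by omega
      have h11 : (0 : ℤ) < (nrm (VV B w n) : ℤ) := by exact_mod_cast hp
      rcases ha' with h12 | h12 <;> rcases hfm with h13 | h13 <;> rw [h12, h13] at h4 <;>
        linarith [h4.1, h4.2, h5.1, h5.2, h7.1, h7.2]

theorem qstep (hw : w ≠ 0) (hB : ∀ j, 8 * nrm (VV B w j) ≤ nrm (VV B w (j + 1))) {a : ℕ}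
    {l : List ℕ} (ha : a < 2) (hl : ∀ b ∈ l, b < 2) (hn : l.length = n) {q : ℕ} (hr : 0 < r)
    (hq : q * 2 + a < Q * 2) (hδ : (δ q a).2 < 2) :
    (∃ i, First (fun e : Fin (Q * 2) => qlo (VV B w n) e) (fun e : Fin (Q * 2) => qhi (VV B w n) e)
      (cpt B w (VV B w n) q (a :: l)) i ∧ ∀ j,
      0 ≤ lin B (cpt B w (VV B w n) q (a :: l)) j + ((qtr B w δ (VV B w n) i j).toNat : ℤ) -
        ((- qtr B w δ (VV B w n) i j).toNat : ℤ)) ∧
    qbm B w Q δ (VV B w n) (cpt B w (VV B w n) q (a :: l)) =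
      cpt B w (VV B w n) (δ q a).1 (l ++ [(δ q a).2]) := by
  have hf := qfirst hw hB ha hl hn hr hq
  have hl' : ∀ b ∈ a :: l, b < 2 := by
    intro b hb
    rcases List.mem_cons.1 hb with h | h
    · rw [h]; exact ha
    · exact hl b h
  have hl'' : ∀ b ∈ l ++ [(δ q a).2], b < 2 := by
    intro b hb
    rcases List.mem_append.1 hb with h | h
    · exact hl b h
    · rw [List.mem_singleton] at h
      rw [h]; exact hδ
  have hc := cpt_cast hB hl' (n := n) (by simp [hn]) q
  have hc' := cpt_cast hB hl'' (n := n) (by simp [hn]) (δ q a).1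
  have hd : (q * 2 + a) / 2 = q := by omega
  have hm : (q * 2 + a) % 2 = a := by omega
  have hval : ∀ j, lin B (cpt B w (VV B w n) q (a :: l)) j +
      ((qtr B w δ (VV B w n) (q * 2 + a) j).toNat : ℤ) -
        ((- qtr B w δ (VV B w n) (q * 2 + a) j).toNat : ℤ) =
      ((cpt B w (VV B w n) (δ q a).1 (l ++ [(δ q a).2]) j : ℕ) : ℤ) := by
    intro j
    have e1 : ∀ z : ℤ, (z.toNat : ℤ) - ((-z).toNat : ℤ) = z := fun z => by omega
    rw [add_sub_assoc, e1, hc' j, vval_snoc]
    unfold lin qtr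
    simp only [hd, hm]
    have e2 : ∑ m, B j m * ((cpt B w (VV B w n) q (a :: l) m : ℕ) : ℤ) =
        (∑ m, B j m * off (VV B w n) q) + (a : ℤ) * (∑ m, B j m * VV B w n m) +
          ∑ m, B j m * vval B w l m := by
      rw [Finset.mul_sum, ← Finset.sum_add_distrib, ← Finset.sum_add_distrib]
      refine Finset.sum_congr rfl fun m _ => ?_
      rw [hc m, vval, hn]
      show B j m * (_ + ((a : ℤ) * VV B w n m + vval B w l m)) = _
      ring
    rw [e2]
    show _ = _ + ((∑ m, B j m * vval B w l m) + ((δ q a).2 : ℤ) * w j)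
    ring
  refine ⟨⟨_, hf, fun j => ?_⟩, ?_⟩
  · have := hval j
    show 0 ≤ lin B (cpt B w (VV B w n) q (a :: l)) j +
      ((qtr B w δ (VV B w n) (q * 2 + a) j).toNat : ℤ) -
        ((- qtr B w δ (VV B w n) (q * 2 + a) j).toNat : ℤ)
    rw [this]
    exact Int.natCast_nonneg _
  · funext j
    unfold qbm bmap
    rw [sum_first hf]
    have := hval j
    show (lin B (cpt B w (VV B w n) q (a :: l)) j +
      ((qtr B w δ (VV B w n) (q * 2 + a) j).toNat : ℤ) -
        ((- qtr B w δ (VV B w n) (q * 2 + a) j).toNat : ℤ)).toNat = _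
    rw [this, Int.toNat_natCast]

end Pool.Agent.MTr
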