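import Mathlib
import Pool.Agent.MTr.QVec

/-!
# Orbits of queue automata: words, numbers and vectors
-/

set_option autoImplicit false

namespace Pool.Agent.MTr

open Pool.Agent.Grz Pool.Agent.PTr Finset Function Relation

variable {r : ℕ}

/-- one step of a queue automaton with numbers as states -/
def wst (δ : ℕ → ℕ → ℕ × ℕ) : ℕ × List ℕ → ℕ × List ℕ
  | (q, []) => (q, [])
  | (q, a :: l) => ((δ q a).1, l ++ [(δ q a).2])

variable {St : Type} {s Q : ℕ} {δ : St → ℕ → St × ℕ} {ok : St → Prop} {code : St → ℕ}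
  {δN : ℕ → ℕ → ℕ × ℕ}

theorem wst_inv (h : Coded s Q δ ok code δN) {n : ℕ} {q : St} (hq : ok q) {l : List ℕ}
    (hl : ∀ b ∈ l, b < s) (hn : l.length = n + 1) (t : ℕ) : ∃ q' l', ok q' ∧
      (∀ b ∈ l', b < s) ∧ l'.length = n + 1 ∧ (wst δN)^[t] (code q, l) = (code q', l') := by
  induction t with
  | zero => exact ⟨q, l, hq, hl, hn, rfl⟩
  | succ t ih =>
    obtain ⟨q', l', h1, h2, h3, h4⟩ := ih
    rw [iterate_succ_apply', h4]
    cases l' with
    | nil => simp at h3
    | cons a l' =>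
      have ha := h2 a List.mem_cons_self
      have hl' : ∀ b ∈ l', b < s := fun b hb => h2 b (List.mem_cons_of_mem _ hb)
      obtain ⟨h5, h6⟩ := h.okδ q' a h1 ha
      refine ⟨(δ q' a).1, l' ++ [(δ q' a).2], h5, ?_, ?_, ?_⟩
      · intro b hb
        rcases List.mem_append.1 hb with h | h
        · exact hl' b h
        · rw [List.mem_singleton] at h
          rw [h]; exact h6
      · rw [List.length_append, List.length_singleton]
        simpa using h3
      · show ((δN (code q') a).1, l' ++ [(δN (code q') a).2]) = _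
        rw [h.eq q' a h1 ha]

theorem num_iter (h : Coded s Q δ ok code δN) {n : ℕ} {q : St} (hq : ok q) {l : List ℕ}
    (hl : ∀ b ∈ l, b < s) (hn : l.length = n + 1) (t : ℕ) :
    (qmap s Q δN (s ^ n))^[t] (num s (code q) l) =
      num s ((wst δN)^[t] (code q, l)).1 ((wst δN)^[t] (code q, l)).2 := by
  induction t with
  | zero => rfl
  | succ t ih =>
    rw [iterate_succ_apply', iterate_succ_apply', ih]
    obtain ⟨q', l', h1, h2, h3, h4⟩ := wst_inv h hq hl hn t
    rw [h4]
    cases l' with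
    | nil => simp at h3
    | cons a l' =>
      have ha := h2 a List.mem_cons_self
      have hl' : ∀ b ∈ l', b < s := fun b hb => h2 b (List.mem_cons_of_mem _ hb)
      have h5 := h.step h1 ha hl'
      have h6 : l'.length = n := by simpa using h3
      rw [h6] at h5
      show qmap s Q δN (s ^ n) (num s (code q') (a :: l')) =
        num s (δN (code q') a).1 (l' ++ [(δN (code q') a).2])
      rw [h5, h.eq q' a h1 ha]

theorem num_inj' {q q' : ℕ} {l l' : List ℕ} (hlen : l.length = l'.length) (hs : 0 < s)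
    (hl : ∀ b ∈ l, b < s) (hl' : ∀ b ∈ l', b < s) (h : num s q l = num s q' l') :
    q = q' ∧ l = l' := by
  have h0 := num_inj hlen hl hl' h
  refine ⟨?_, h0⟩
  subst h0
  have h1 : q * s ^ l.length + wval s l = q' * s ^ l.length + wval s l := congrFun h 0
  exact Nat.eq_of_mul_eq_mul_right (Nat.pow_pos hs) (Nat.add_right_cancel h1)

theorem num_hits (h : Coded s Q δ ok code δN) {n : ℕ} {q : St} (hq : ok q) {l : List ℕ}
    (hl : ∀ b ∈ l, b < s) (hn : l.length = n + 1) {q1 : St} {l1 : List ℕ}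
    (hl1 : ∀ b ∈ l1, b < s) (hn1 : l1.length = n + 1) :
    (∃ t, (qmap s Q δN (s ^ n))^[t] (num s (code q) l) = num s (code q1) l1) ↔
      ∃ t, (wst δN)^[t] (code q, l) = (code q1, l1) := by
  refine exists_congr fun t => ?_
  rw [num_iter h hq hl hn]
  obtain ⟨q', l', -, h2, h3, h4⟩ := wst_inv h hq hl hn t
  rw [h4]
  constructor
  · intro e
    obtain ⟨e1, e2⟩ := num_inj' (h3.trans hn1.symm) h.pos h2 hl1 e
    exact Prod.ext e1 e2
  · intro e
    rw [e]

/-! ### Vectors -/

variable {B : Matrix (Fin r) (Fin r) ℤ} {w : Fin r → ℤ}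

theorem vec_iter (h : Coded 2 Q δ ok code δN) (hw : w ≠ 0)
    (hB : ∀ j, 8 * nrm (VV B w j) ≤ nrm (VV B w (j + 1))) (hr : 0 < r) {n : ℕ} {q : St}
    (hq : ok q) {l : List ℕ} (hl : ∀ b ∈ l, b < 2) (hn : l.length = n + 1) (t : ℕ) :
    (qbm B w Q δN (VV B w n))^[t] (cpt B w (VV B w n) (code q) l) =
      cpt B w (VV B w n) ((wst δN)^[t] (code q, l)).1 ((wst δN)^[t] (code q, l)).2 := by
  induction t with
  | zero => rfl
  | succ t ih =>
    rw [iterate_succ_apply', iterate_succ_apply', ih]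
    obtain ⟨q', l', h1, h2, h3, h4⟩ := wst_inv h hq hl hn t
    rw [h4]
    cases l' with
    | nil => simp at h3
    | cons a l' =>
      have ha := h2 a List.mem_cons_self
      have hl' : ∀ b ∈ l', b < 2 := fun b hb => h2 b (List.mem_cons_of_mem _ hb)
      have h6 : l'.length = n := by simpa using h3
      have h7 := h.lt q' h1
      have h8 := (h.okδ q' a h1 ha).2
      exact (qstep hw hB ha hl' h6 hr (by omega) (by rw [h.eq q' a h1 ha]; exact h8)).2

theorem vec_good (h : Coded 2 Q δ ok code δN) (hw : w ≠ 0)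
    (hB : ∀ j, 8 * nrm (VV B w j) ≤ nrm (VV B w (j + 1))) (hr : 0 < r) {n : ℕ} {q : St}
    (hq : ok q) {l : List ℕ} (hl : ∀ b ∈ l, b < 2) (hn : l.length = n + 1) :
    Good B (qR (VV B w n) Q) (fun e : Fin (Q * 2) => qlo (VV B w n) e)
      (fun e : Fin (Q * 2) => qhi (VV B w n) e)
      (fun (e : Fin (Q * 2)) j => (qtr B w δN (VV B w n) e j).toNat)
      (fun (e : Fin (Q * 2)) j => (- qtr B w δN (VV B w n) e j).toNat)
      (cpt B w (VV B w n) (code q) l) := by
  intro t
  have h0 := vec_iter h hw hB hr hq hl hn t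
  unfold qbm at h0
  rw [h0]
  obtain ⟨q', l', h1, h2, h3, h4⟩ := wst_inv h hq hl hn t
  rw [h4]
  refine ⟨fun j => cpt_lt hw hB h2 h3 (h.lt q' h1) j, ?_⟩
  cases l' with
  | nil => simp at h3
  | cons a l' =>
    have ha := h2 a List.mem_cons_self
    have hl' : ∀ b ∈ l', b < 2 := fun b hb => h2 b (List.mem_cons_of_mem _ hb)
    have h6 : l'.length = n := by simpa using h3
    have h7 := h.lt q' h1
    have h8 := (h.okδ q' a h1 ha).2
    exact (qstep (δ := δN) hw hB ha hl' h6 hr (by omega)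
      (by rw [h.eq q' a h1 ha]; exact h8)).1

theorem vec_hits (h : Coded 2 Q δ ok code δN) (hw : w ≠ 0)
    (hB : ∀ j, 8 * nrm (VV B w j) ≤ nrm (VV B w (j + 1))) (hr : 0 < r) {n : ℕ} {q : St}
    (hq : ok q) {l : List ℕ} (hl : ∀ b ∈ l, b < 2) (hn : l.length = n + 1) {q1 : St}
    {l1 : List ℕ} (hl1 : ∀ b ∈ l1, b < 2) (hn1 : l1.length = n + 1) :
    (∃ t, (qbm B w Q δN (VV B w n))^[t] (cpt B w (VV B w n) (code q) l) =
      cpt B w (VV B w n) (code q1) l1) ↔ ∃ t, (wst δN)^[t] (code q, l) = (code q1, l1) := by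
  refine exists_congr fun t => ?_
  rw [vec_iter h hw hB hr hq hl hn]
  obtain ⟨q', l', -, h2, h3, h4⟩ := wst_inv h hq hl hn t
  rw [h4]
  constructor
  · intro e
    obtain ⟨e1, e2⟩ := cpt_inj hw hB h2 h3 hl1 hn1 hr e
    exact Prod.ext e1 e2
  · intro e
    rw [e]

/-- The vector orbit of the start meets the clean halting configuration if and only if the program
stops with zero registers. -/
theorem qv_orbit {P : List Instr} {K : ℕ} (hw : w ≠ 0)
    (hB : ∀ j, 8 * nrm (VV B w j) ≤ nrm (VV B w (j + 1))) (hr : 0 < r) {M L n : ℕ}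
    (hM : M ≤ 2 ^ L) (hK : 0 < K) (hn : (K + 1) * (L + 1) = n + 1)
    (hP : ∀ i ∈ P, i.ok K P.length) {h : ℕ} (hh : P[h]? = some (.nop h)) {σ σ' : ℕ → ℕ}
    (hσ : ∀ i, i < K → σ i < M) (hex : ReflTransGen (PStep M P) (0, σ) (h, σ')) :
    (∃ t, (qbm B w (P.length * (K + 1) * 2) (dltN P K 2) (VV B w n))^[t]
      (cpt B w (VV B w n) (codest K (0, 0, 1)) (tape K 2 L σ)) =
      cpt B w (VV B w n) (codest K (h, 0, 1)) (tape K 2 L (fun _ => 0))) ↔
        ∀ i, i < K → σ' i = 0 := by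
  have hlen : ∀ τ, (tape K 2 L τ).length = n + 1 := fun τ => by rw [length_tape, hn]
  have hlt : h < P.length := (List.getElem?_eq_some_iff.1 hh).1
  rw [← clk_orbit le_rfl hM hK hn hP hh hσ hex]
  have hc := coded (P := P) (K := K) (s := 2) le_rfl hP
  rw [vec_hits hc hw hB hr (q := (0, 0, 1)) ⟨by omega, Nat.zero_le _, le_rfl⟩
    (tape_lt le_rfl L σ) (hlen _) (tape_lt le_rfl L _) (hlen _)]
  unfold pmapK
  rw [num_hits hc (q := (0, 0, 1)) ⟨by omega, Nat.zero_le _, le_rfl⟩
    (tape_lt le_rfl L σ) (hlen _) (tape_lt le_rfl L _) (hlen _)]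

end Pool.Agent.MTr
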