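import Mathlib
import Pool.Agent.MTr.QIter
import Pool.Agent.PTr.ClkMain

/-!
# The start vector of a queue automaton is reached by a linear machine
-/

set_option autoImplicit false

namespace Pool.Agent.MTr

open Pool.Agent.Grz Pool.Agent.PTr Finset Function Relation

/-! ### Doubling -/

section dbl

variable {κ : Type} [Fintype κ]

/-- the doubled matrix -/
def dblm (E : κ → κ → ℤ) : κ × Fin 2 → κ × Fin 2 → ℕ := fun a b =>
  if a.2 = b.2 then (E a.1 b.1).toNat else (-(E a.1 b.1)).toNat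

/-- the value of a doubled vector -/
def dval (x : κ × Fin 2 → ℕ) (k : κ) : ℤ := (x (k, 0) : ℤ) - (x (k, 1) : ℤ)

/-- a doubled vector with a given value -/
def dlift (z : κ → ℤ) : κ × Fin 2 → ℕ := fun a =>
  if a.2 = 0 then (z a.1).toNat else (-(z a.1)).toNat

theorem dval_dlift (z : κ → ℤ) : dval (dlift z) = z := by
  funext k
  unfold dval dlift
  simp only [if_pos, if_neg (show (1 : Fin 2) ≠ 0 by decide)]
  omega

theorem dval_lin (E : κ → κ → ℤ) {x y : κ × Fin 2 → ℕ} (h : Lin (dblm E) (fun _ _ => 0) x y)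
    (k : κ) : dval y k = ∑ l, E k l * dval x l := by
  have h0 := h (k, 0)
  have h1 := h (k, 1)
  simp only [Nat.zero_mul, Finset.sum_const_zero, Nat.add_zero] at h0 h1
  unfold dval
  rw [h0, h1, Fintype.sum_prod_type, Fintype.sum_prod_type]
  push_cast
  rw [← Finset.sum_sub_distrib]
  refine Finset.sum_congr rfl fun l _ => ?_
  rw [Fin.sum_univ_two, Fin.sum_univ_two]
  unfold dblm
  simp only [if_pos, if_neg (show (1 : Fin 2) ≠ 0 by decide),
    if_neg (show (0 : Fin 2) ≠ 1 by decide)]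
  have e : ∀ z : ℤ, z = (z.toNat : ℤ) - ((-z).toNat : ℤ) := fun z => by omega
  conv_rhs => rw [e (E k l)]
  ring

theorem lin_exists (E : κ → κ → ℤ) (x : κ × Fin 2 → ℕ) :
    ∃ y, Lin (dblm E) (fun _ _ => 0) x y :=
  ⟨fun a => ∑ b, dblm E a b * x b, fun a => by simp⟩

end dbl

variable {r K : ℕ} {B : Matrix (Fin r) (Fin r) ℤ} {w : Fin r → ℤ}

theorem vval_map_range (row : ℕ → ℕ) : ∀ (m a : ℕ), vval B w ((List.range' a m).map row) =
    ∑ i ∈ range m, ((row (a + i) : ℕ) : ℤ) • VV B w (m - 1 - i) := by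
  intro m
  induction m with
  | zero => intro a; simp [vval]
  | succ m ih =>
    intro a
    rw [List.range'_succ, List.map_cons, vval, List.length_map, List.length_range', ih,
      Finset.sum_range_succ', Nat.add_zero, add_comm]
    congr 1
    refine Finset.sum_congr rfl fun i hi => ?_
    rw [Finset.mem_range] at hi
    have e1 : a + 1 + i = a + (i + 1) := by omega
    have e2 : m - 1 - i = m + 1 - 1 - (i + 1) := by omega
    rw [e1, e2]

theorem vval_blk (row : ℕ → ℕ) (tag : ℕ) : vval B w (blk K row tag) =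
    (∑ i ∈ range K, ((row i : ℕ) : ℤ) • VV B w (K - i)) + (tag : ℤ) • w := by
  unfold blk
  rw [vval_snoc, vval_map_range, Matrix.mulVec_sum]
  congr 1
  refine Finset.sum_congr rfl fun i hi => ?_
  rw [Finset.mem_range] at hi
  rw [Matrix.mulVec_smul, ← VV_succ, Nat.zero_add]
  have : K - 1 - i + 1 = K - i := by omega
  rw [this]

/-- the matrix of a block -/
def qP (B : Matrix (Fin r) (Fin r) ℤ) (K : ℕ) (d : Fin K → Fin 2) : Matrix (Fin r) (Fin r) ℤ :=
  ∑ i : Fin K, ((d i : ℕ) : ℤ) • B ^ (K - i + 1)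

theorem qP_mulVec (d : Fin K → Fin 2) (p : ℕ) :
    (qP B K d).mulVec (VV B w p) = (B ^ (p + 1)).mulVec (vval B w (blk K (Clk.ext d) 0)) := by
  rw [vval_blk]
  unfold qP
  rw [Matrix.sum_mulVec, Nat.cast_zero, zero_smul, add_zero, Matrix.mulVec_sum,
    ← Fin.sum_univ_eq_sum_range (fun i => (B ^ (p + 1)).mulVec
      (((Clk.ext d i : ℕ) : ℤ) • VV B w (K - i)))]
  refine Finset.sum_congr rfl fun i _ => ?_
  rw [Matrix.smul_mulVec, Matrix.mulVec_smul, ← VV_add, ← VV_add]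
  unfold Clk.ext
  rw [dif_pos i.2]
  congr 2
  ring

/-- the matrices of the linear machine -/
def qE (B : Matrix (Fin r) (Fin r) ℤ) (K : ℕ) (d : Fin K → Fin 2) :
    (Fin r ⊕ Fin r ⊕ Fin 2 ⊕ Fin K) → (Fin r ⊕ Fin r ⊕ Fin 2 ⊕ Fin K) → ℤ
  | .inl i, .inl j => if i = j then 1 else 0
  | .inl i, .inr (.inl j) => qP B K d i j
  | .inr (.inl i), .inr (.inl j) => (B ^ (K + 1)) i j
  | .inr (.inr (.inl 0)), .inr (.inr (.inl 0)) => 2 ^ (K + 1)
  | .inr (.inr (.inl 1)), .inr (.inr (.inl 1)) => 1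
  | .inr (.inr (.inr i)), .inr (.inr (.inr j)) => if i = j then 2 else 0
  | .inr (.inr (.inr i)), .inr (.inr (.inl 1)) => (d i : ℕ)
  | _, _ => 0

/-- the states of the linear machine -/
def qst (Z V : Fin r → ℤ) (p : ℤ) (σ : ℕ → ℕ) : (Fin r ⊕ Fin r ⊕ Fin 2 ⊕ Fin K) → ℤ
  | .inl i => Z i
  | .inr (.inl i) => V i
  | .inr (.inr (.inl 0)) => p
  | .inr (.inr (.inl 1)) => 1
  | .inr (.inr (.inr i)) => σ i

theorem qst_congr {Z V : Fin r → ℤ} {p : ℤ} {σ τ : ℕ → ℕ} (h : ∀ i, i < K → σ i = τ i) :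
    (qst Z V p σ : (Fin r ⊕ Fin r ⊕ Fin 2 ⊕ Fin K) → ℤ) = qst Z V p τ := by
  funext k
  match k with
  | .inl i => rfl
  | .inr (.inl i) => rfl
  | .inr (.inr (.inl 0)) => rfl
  | .inr (.inr (.inl 1)) => rfl
  | .inr (.inr (.inr i)) => exact congrArg _ (h i i.2)

theorem qE_qst (d : Fin K → Fin 2) (Z V : Fin r → ℤ) (p : ℤ) (σ : ℕ → ℕ)
    (k : Fin r ⊕ Fin r ⊕ Fin 2 ⊕ Fin K) :
    (∑ l, qE B K d k l * qst Z V p σ l) = qst (Z + (qP B K d).mulVec V)
      ((B ^ (K + 1)).mulVec V) (2 ^ (K + 1) * p) (fun i => 2 * σ i + Clk.ext d i) k := by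
  rw [Fintype.sum_sum_type, Fintype.sum_sum_type, Fintype.sum_sum_type, Fin.sum_univ_two]
  match k with
  | .inl i =>
    simp only [qE, qst, zero_mul, add_zero, Finset.sum_const_zero, ite_mul, one_mul]
    rw [Finset.sum_ite_eq, if_pos (Finset.mem_univ _)]
    rfl
  | .inr (.inl i) =>
    simp only [qE, qst, zero_mul, add_zero, zero_add, Finset.sum_const_zero]
    rfl
  | .inr (.inr (.inl 0)) =>
    simp only [qE, qst, zero_mul, add_zero, zero_add, Finset.sum_const_zero]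
  | .inr (.inr (.inl 1)) =>
    simp only [qE, qst, zero_mul, add_zero, zero_add, Finset.sum_const_zero, one_mul]
  | .inr (.inr (.inr i)) =>
    simp only [qE, qst, zero_mul, add_zero, zero_add, Finset.sum_const_zero, mul_one, ite_mul]
    rw [Finset.sum_ite_eq, if_pos (Finset.mem_univ _)]
    unfold Clk.ext
    rw [dif_pos i.2]
    push_cast
    ring

/-- the start of the linear machine -/
def qs0 (B : Matrix (Fin r) (Fin r) ℤ) (w : Fin r → ℤ) (K : ℕ) :
    (Fin r ⊕ Fin r ⊕ Fin 2 ⊕ Fin K) × Fin 2 → ℕ :=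
  dlift (qst w (VV B w K) (2 ^ (K + 1)) (fun _ => 0))

theorem vval_tape_zero (L : ℕ) : vval B w (tape K 2 L (fun _ => 0)) = w := by
  induction L with
  | zero =>
    rw [tape, vval_blk]
    simp
  | succ L ih =>
    rw [tape, vval_append]
    simp only [Nat.zero_mod, Nat.zero_div]
    rw [ih, vval_blk]
    simp

/-- what is known about the states reached in `L` steps -/
def QInv (B : Matrix (Fin r) (Fin r) ℤ) (w : Fin r → ℤ) (K L : ℕ)
    (x : (Fin r ⊕ Fin r ⊕ Fin 2 ⊕ Fin K) × Fin 2 → ℕ) (σ : ℕ → ℕ) : Prop :=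
  dval x = qst (vval B w (tape K 2 L σ)) (VV B w (K + (K + 1) * L)) (2 ^ ((K + 1) * (L + 1))) σ

theorem qinv_zero : QInv B w K 0 (qs0 B w K) (fun _ => 0) := by
  unfold QInv qs0
  rw [dval_dlift, vval_tape_zero]
  congr 1
  ring

theorem qinv_step {L : ℕ} {x y : (Fin r ⊕ Fin r ⊕ Fin 2 ⊕ Fin K) × Fin 2 → ℕ} {σ : ℕ → ℕ}
    (hx : QInv B w K L x σ) {d : Fin K → Fin 2}
    (h : Lin (dblm (qE B K d)) (fun _ _ => 0) x y) :
    QInv B w K (L + 1) y (fun i => 2 * σ i + Clk.ext d i) := by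
  have hd : ∀ i, Clk.ext d i < 2 := by
    intro i
    unfold Clk.ext
    split_ifs with h
    · exact (d _).2
    · omega
  have e1 : (fun i => (2 * σ i + Clk.ext d i) % 2) = Clk.ext d := by
    funext i
    have := hd i
    omega
  have e2 : (fun i => (2 * σ i + Clk.ext d i) / 2) = σ := by
    funext i
    have := hd i
    omega
  unfold QInv
  funext k
  rw [dval_lin _ h k, hx, qE_qst, tape, e1, e2, vval_append, length_tape, qP_mulVec]
  congr 1
  · rw [add_comm]
    congr 3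
    ring
  · rw [← VV_add]
    congr 1
    ring
  · rw [← pow_add]
    congr 1
    ring

theorem qrun_sound {G : (Fin K → Fin 2) → ((Fin r ⊕ Fin r ⊕ Fin 2 ⊕ Fin K) × Fin 2 → ℕ) → Prop}
    {L : ℕ} {x : (Fin r ⊕ Fin r ⊕ Fin 2 ⊕ Fin K) × Fin 2 → ℕ}
    (h : Run (fun d : Fin K → Fin 2 => dblm (qE B K d)) (fun _ _ _ => 0) G L (qs0 B w K) x) :
    ∃ σ : ℕ → ℕ, (∀ i, i < K → σ i < 2 ^ L) ∧ QInv B w K L x σ := by
  generalize hs0 : qs0 B w K = s0 at h
  induction h with
  | refl =>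
    subst hs0
    exact ⟨fun _ => 0, fun _ _ => by simp, qinv_zero⟩
  | @step L _ t u d _ _ hlin ih =>
    obtain ⟨σ, h1, h2⟩ := ih hs0
    refine ⟨_, fun i hi => ?_, qinv_step h2 hlin⟩
    have h3 := h1 i hi
    have h4 : Clk.ext d i < 2 := by
      unfold Clk.ext
      rw [dif_pos hi]
      exact (d _).2
    rw [pow_succ]
    omega

theorem qrun_complete (L : ℕ) : ∀ σ : ℕ → ℕ, (∀ i, i < K → σ i < 2 ^ L) → ∃ x,
    Run (fun d : Fin K → Fin 2 => dblm (qE B K d)) (fun _ _ _ => 0) (fun _ _ => True) L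
      (qs0 B w K) x ∧ QInv B w K L x σ := by
  induction L with
  | zero =>
    intro σ h
    refine ⟨_, Run.refl _, ?_⟩
    have h0 := qinv_zero (B := B) (w := w) (K := K)
    unfold QInv at h0 ⊢
    rw [h0, tape_congr (s := 2) 0 (σ := σ) (τ := fun _ => 0) (fun i hi => by simpa using h i hi)]
    exact qst_congr fun i hi => (show σ i = 0 by simpa using h i hi).symm
  | succ L ih =>
    intro σ h
    have h1 : ∀ i, i < K → σ i / 2 < 2 ^ L := by
      intro i hi
      have := h i hi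
      rw [pow_succ] at this
      omega
    obtain ⟨x, hx, hxi⟩ := ih _ h1
    let d : Fin K → Fin 2 := fun i => ⟨σ i % 2, Nat.mod_lt _ (by omega)⟩
    obtain ⟨y, hy⟩ := lin_exists (qE B K d) x
    refine ⟨y, Run.step d hx trivial hy, ?_⟩
    have h2 := qinv_step hxi hy
    have e : ∀ i, i < K → 2 * (σ i / 2) + Clk.ext d i = σ i := by
      intro i hi
      unfold Clk.ext
      rw [dif_pos hi]
      show 2 * (σ i / 2) + σ i % 2 = σ i
      omega
    unfold QInv at h2 ⊢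
    rw [h2, tape_congr (s := 2) (L + 1) e]
    exact qst_congr e

end Pool.Agent.MTr
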