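import Mathlib
import Pool.Agent.MTr.QRun

/-!
# Hardness for expanding linear parts
-/

set_option autoImplicit false

namespace Pool.Agent.MTr

open Pool.Agent.Grz Pool.Agent.GAvg Pool.Agent.PTr Finset Function Relation

variable {r : ℕ}

theorem dfun_max {n : ℕ} {f g : (Fin n → ℕ) → ℕ} (hf : DFun n f) (hg : DFun n g) :
    DFun n (fun v => max (f v) (g v)) := by
  have h := hf.add (hg.sub hf)
  refine (?_ : (fun v => max (f v) (g v)) = fun v => f v + (g v - f v)) ▸ h
  funext v
  omega

theorem dfun_sup {n : ℕ} {α : Type} (s : Finset α) {f : α → (Fin n → ℕ) → ℕ}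
    (hf : ∀ a, DFun n (f a)) : DFun n (fun v => s.sup fun a => f a v) := by
  classical
  induction s using Finset.induction_on with
  | empty => simpa using DFun.const (n := n) 0
  | insert a s ha ih =>
    have := dfun_max (hf a) ih
    refine (?_ : (fun v => (insert a s).sup fun a => f a v) = _) ▸ this
    funext v
    rw [Finset.sup_insert]

theorem dfun_nrm {n : ℕ} {V : Fin r → (Fin n → ℕ) → ℤ} (hV : ∀ l, ZF n (V l)) :
    DFun n (fun v => nrm (fun l => V l v)) :=
  dfun_sup _ fun l => (hV l).natAbs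

theorem zf_off {n : ℕ} {V : Fin r → (Fin n → ℕ) → ℤ} (hV : ∀ l, ZF n (V l)) (q : ℕ) :
    ZF n (fun v => off (fun l => V l v) q) :=
  ((ZF.const 4).mul (ZF.nat (dfun_nrm hV))).add
    ((ZF.const _).mul ((ZF.const 8).mul (ZF.nat (dfun_nrm hV))))

theorem zf_qctr {n : ℕ} {V : Fin r → (Fin n → ℕ) → ℤ} (hV : ∀ l, ZF n (V l)) (e : ℕ)
    (l : Fin r) : ZF n (fun v => qctr (fun l => V l v) e l) :=
  (zf_off hV _).add ((ZF.const _).mul (hV l))

theorem dfun_qlo {n : ℕ} {V : Fin r → (Fin n → ℕ) → ℤ} (hV : ∀ l, ZF n (V l)) (e : ℕ)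
    (l : Fin r) : DFun n (fun v => qlo (fun l => V l v) e l) :=
  ((zf_qctr hV e l).sub (ZF.nat (DFun.divPos (dfun_nrm hV) (DFun.const 7)
    fun _ => by norm_num))).toNat

theorem dfun_qhi {n : ℕ} {V : Fin r → (Fin n → ℕ) → ℤ} (hV : ∀ l, ZF n (V l)) (e : ℕ)
    (l : Fin r) : DFun n (fun v => qhi (fun l => V l v) e l) :=
  (((zf_qctr hV e l).add (ZF.nat (DFun.divPos (dfun_nrm hV) (DFun.const 7)
    fun _ => by norm_num))).add (ZF.const 1)).toNat

theorem zf_qtr {n : ℕ} (B : Matrix (Fin r) (Fin r) ℤ) (w : Fin r → ℤ) (δ : ℕ → ℕ → ℕ × ℕ)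
    {V : Fin r → (Fin n → ℕ) → ℤ} (hV : ∀ l, ZF n (V l)) (e : ℕ) (l : Fin r) :
    ZF n (fun v => qtr B w δ (fun l => V l v) e l) :=
  (((zf_off hV _).sub (ZF.sum _ fun m => (ZF.const _).mul (zf_off hV _))).sub
    ((ZF.const _).mul (ZF.sum _ fun m => (ZF.const _).mul (hV m)))).add
    ((ZF.const _).mul (ZF.const _))

/-- **Hardness for expanding linear parts.** -/
theorem hard_growth {B : Matrix (Fin r) (Fin r) ℤ} (hr : 0 < r) (hG : Growth B) {n : ℕ}
    {R : (Fin n → ℕ) → Prop} (hR : E2Star n R) : ∃ k, OrbB B k → Delta0 n R := by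
  obtain ⟨w, hw, hB⟩ := hG
  obtain ⟨f, hf, hfR⟩ := hR
  obtain ⟨Qp, K, c, hnK, hcK, hc⟩ := main_cmd hf
  obtain ⟨P, h, hh, hPpos, hP, hflat⟩ := flat_prog c K hcK
  have hK : 0 < K := by omega
  have hlt : h < P.length := (List.getElem?_eq_some_iff.1 hh).1
  set M : (Fin n → ℕ) → ℕ := fun v => MvPolynomial.eval v Qp + 1 with hM
  set Qs : ℕ := P.length * (K + 1) * 2 with hQs
  refine ⟨Qs * 2, fun H => ?_⟩
  set x0 : ℕ := codest K (0, 0, 1) with hx0
  set y0 : ℕ := codest K (h, 0, 1) with hy0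
  have hMD : DFun n M := (DFun.ofPoly Qp).add (DFun.const 1)
  let κ := (Fin r ⊕ Fin r ⊕ Fin 2 ⊕ Fin K) × Fin 2
  let e : κ ≃ Fin (Fintype.card κ) := Fintype.equivFin κ
  -- the orbit part
  have hval : ∀ (k : Fin r ⊕ Fin r ⊕ Fin 2 ⊕ Fin K) {m : ℕ}
      (z : Fin (Fintype.card κ) → (Fin m → ℕ) → ℕ), (∀ j, DFun m (z j)) →
      ZF m (fun u => dval (fun a : κ => z (e a) u) k) := fun k m z hz =>
    (ZF.nat (hz _)).sub (ZF.nat (hz _))
  have hV : ∀ i, ZF (Fintype.card κ) (fun u => dval (fun a : κ => u (e a)) (.inr (.inl i))) :=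
    fun i => hval _ (fun j u => u j) (fun j => DFun.proj j)
  have hZ : ∀ i, ZF (Fintype.card κ) (fun u => dval (fun a : κ => u (e a)) (.inl i)) :=
    fun i => hval _ (fun j u => u j) (fun j => DFun.proj j)
  obtain ⟨Qr, hQr, hQr'⟩ := H (Fintype.card κ)
    (fun u => qR (fun i => dval (fun a : κ => u (e a)) (.inr (.inl i))) Qs)
    (fun (i : Fin (Qs * 2)) l u => qlo (fun i => dval (fun a : κ => u (e a)) (.inr (.inl i))) i l)
    (fun (i : Fin (Qs * 2)) l u => qhi (fun i => dval (fun a : κ => u (e a)) (.inr (.inl i))) i l)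
    (fun (i : Fin (Qs * 2)) l u => (qtr B w (dltN P K 2)
      (fun i => dval (fun a : κ => u (e a)) (.inr (.inl i))) i l).toNat)
    (fun (i : Fin (Qs * 2)) l u => (-(qtr B w (dltN P K 2)
      (fun i => dval (fun a : κ => u (e a)) (.inr (.inl i))) i l)).toNat)
    (fun l u => (off (fun i => dval (fun a : κ => u (e a)) (.inr (.inl i))) x0 +
      dval (fun a : κ => u (e a)) (.inl l)).toNat)
    (fun l u => (off (fun i => dval (fun a : κ => u (e a)) (.inr (.inl i))) y0 + w l).toNat)
    ((DFun.const _).mul ((DFun.const 8).mul (dfun_nrm hV)))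
    (fun i l => dfun_qlo hV i l) (fun i l => dfun_qhi hV i l)
    (fun i l => (zf_qtr B w _ hV i l).toNat) (fun i l => (zf_qtr B w _ hV i l).neg.toNat)
    (fun l => ((zf_off hV _).add (hZ l)).toNat) (fun l => ((zf_off hV _).add (ZF.const _)).toNat)
  set c0 : ℕ := 1 + ∑ d : Fin K → Fin 2, ∑ k, ∑ l, dblm (qE B K d) k l with hc0
  set Pb : (Fin n → ℕ) → ℕ := fun v =>
    (2 * (M v + 1)) ^ (c0 * 1) * ∑ k, qs0 B w K k with hPb
  have hPbD : DFun n Pb :=
    (DFun.powConst ((DFun.const 2).mul (hMD.add (DFun.const 1))) _).mul (DFun.const _)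
  have h2 := Delta0.bexVec (D := Fintype.card κ) hPbD (P := fun z v =>
    (∃ L, L ≤ 1 * (lg (M v) + 1) ∧
      Run (fun d : Fin K → Fin 2 => dblm (qE B K d)) (fun _ _ _ => 0) (fun _ _ => True) L
        (qs0 B w K) (fun a => z (e a))) ∧
    (((2 * M v) ^ (K + 1) : ℕ) : ℤ) ≤ dval (fun a : κ => z (e a)) (.inr (.inr (.inl 0))) ∧
    (∀ i : Fin K, dval (fun a : κ => z (e a)) (.inr (.inr (.inr i))) = (regs v i : ℤ)) ∧ Qr z) (by
      intro m z v hz hv
      refine Delta0.and ?_ (Delta0.and ?_ (Delta0.and ?_ ?_))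
      · exact run_delta0 (fun d : Fin K → Fin 2 => dblm (qE B K d)) (fun _ _ _ => 0)
          (fun _ _ => True)
          (fun _ m g _ => (Delta0.eqFun (DFun.const 0) (DFun.const 0)).of_iff fun v => by simp) 1
          (n := m) (w := fun u => M (fun i => v i u)) (hMD.comp hv)
          (s := fun k _ => qs0 B w K k) (t := fun a u => z (e a) u) (fun k => DFun.const _)
          (fun a => hz _)
      · exact ZF.le (ZF.nat (DFun.powConst ((DFun.const 2).mul (hMD.comp hv)) _))
          (hval _ z hz)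
      · refine Delta0.allOf fun i => ZF.eq (hval _ z hz) (ZF.nat ?_)
        unfold regs
        by_cases hi : (i : ℕ) < n
        · simp only [dif_pos hi]
          exact hv _
        · simp only [dif_neg hi]
          exact DFun.const 0
      · exact hQr.subst hz)
  refine h2.of_iff fun v => ?_
  obtain ⟨hreg, σ', hex, hn', hz⟩ := hc (M v) v (by simp only [hM]; omega)
  have hsteps := hflat (M v) (regs v) σ' hex
  have hM1 : 1 ≤ M v := by simp only [hM]; omega
  have hRiff : R v ↔ ∀ i, i < K → σ' i = 0 := by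
    constructor
    · intro hv i hi
      by_cases hin : i = n
      · subst hin
        rw [hn']
        exact (hfR v).1 hv
      · exact hz i hi hin
    · intro h0
      by_contra hv
      have h3 := (hfR v).2 hv
      rw [← hn', h0 n hnK] at h3
      exact absurd h3 (by norm_num)
  -- the translation of the orbit part
  have htr : ∀ (L : ℕ) (x : κ → ℕ), M v ≤ 2 ^ L → QInv B w K L x (regs v) →
      (Qr (fun j => x (e.symm j)) ↔ R v) := by
    intro L x hML hx
    have hxe : (fun a : κ => (fun j => x (e.symm j)) (e a)) = x := by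
      funext a
      show x (e.symm (e a)) = x a
      rw [Equiv.symm_apply_apply]
    have hVx : (fun i => dval (fun a : κ => (fun j => x (e.symm j)) (e a)) (.inr (.inl i))) =
        VV B w (K + (K + 1) * L) := by
      rw [hxe]
      funext i
      exact congrFun hx (.inr (.inl i))
    have hZx : ∀ i, dval (fun a : κ => (fun j => x (e.symm j)) (e a)) (.inl i) =
        vval B w (tape K 2 L (regs v)) i := by
      rw [hxe]
      intro i
      exact congrFun hx (.inl i)
    have hn1 : (K + 1) * (L + 1) = (K + (K + 1) * L) + 1 := by ring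
    have hlen : ∀ τ, (tape K 2 L τ).length = (K + (K + 1) * L) + 1 := fun τ => by
      rw [length_tape, hn1]
    have hcd := coded (P := P) (K := K) (s := 2) le_rfl hP
    have hgood := vec_good hcd hw hB hr (q := (0, 0, 1)) ⟨by omega, Nat.zero_le _, le_rfl⟩
      (tape_lt le_rfl L (regs v)) (hlen _)
    have horb := qv_orbit hw hB hr hML hK hn1 hP hh (fun i _ => hreg i) hsteps
    have hy : cpt B w (VV B w (K + (K + 1) * L)) (codest K (h, 0, 1)) (tape K 2 L fun _ => 0) =
        fun l => (off (VV B w (K + (K + 1) * L)) y0 + w l).toNat := by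
      funext l
      unfold cpt
      rw [vval_tape_zero]
    have h3 := hQr' (fun j => x (e.symm j)) (by
      simp only [hVx, hZx]
      exact hgood)
    rw [h3, hRiff, ← horb, hy]
    simp only [hVx, hZx]
    exact Iff.rfl
  constructor
  · intro hv
    have hLM : M v ≤ 2 ^ (lg (M v) + 1) := (lt_two_pow_lg (M v)).le
    set L := lg (M v) + 1 with hL
    have hσ : ∀ i, i < K → regs v i < 2 ^ L := fun i _ => lt_of_lt_of_le (hreg i) hLM
    obtain ⟨x, hrun, hinv⟩ := qrun_complete (B := B) (w := w) L (regs v) hσ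
    refine ⟨fun j => x (e.symm j), fun j => ?_, ⟨L, by omega, ?_⟩, ?_, ?_, ?_⟩
    · obtain ⟨p, hp0, hpL, hp⟩ := (run_iff_path _ _ _ _ _ _).1 hrun
      have h3 := path_sum_le (A := fun d : Fin K → Fin 2 => dblm (qE B K d))
        (B := fun _ _ _ => 0) (p := p) (L := L) (fun j hj => by
          obtain ⟨i, -, hi⟩ := hp j hj
          exact ⟨i, hi⟩) L le_rfl
      rw [hp0, hpL] at h3
      have h4 : x (e.symm j) ≤ ∑ k, x k :=
        Finset.single_le_sum (fun _ _ => Nat.zero_le _) (Finset.mem_univ _)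
      refine h4.trans (h3.trans (Nat.mul_le_mul_right _ ?_))
      exact pow_le_poly c0 1 (M v) L (by omega)
    · have : (fun a : κ => (fun j => x (e.symm j)) (e a)) = x := by
        funext a
        show x (e.symm (e a)) = x a
        rw [Equiv.symm_apply_apply]
      rw [this]
      exact hrun
    · have h3 : dval (fun a : κ => (fun j => x (e.symm j)) (e a)) (.inr (.inr (.inl 0))) =
          2 ^ ((K + 1) * (L + 1)) := by
        have : (fun a : κ => (fun j => x (e.symm j)) (e a)) = x := by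
          funext a
          show x (e.symm (e a)) = x a
          rw [Equiv.symm_apply_apply]
        rw [this]
        exact congrFun hinv (.inr (.inr (.inl 0)))
      rw [h3]
      have h4 : (2 * M v) ^ (K + 1) ≤ 2 ^ ((K + 1) * (L + 1)) := by
        calc (2 * M v) ^ (K + 1) ≤ (2 * 2 ^ L) ^ (K + 1) :=
              Nat.pow_le_pow_left (Nat.mul_le_mul_left _ hLM) _
          _ = 2 ^ ((K + 1) * (L + 1)) := by rw [← pow_succ', ← pow_mul]; congr 1; ring
      exact_mod_cast h4
    · intro i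
      have : (fun a : κ => (fun j => x (e.symm j)) (e a)) = x := by
        funext a
        show x (e.symm (e a)) = x a
        rw [Equiv.symm_apply_apply]
      rw [this]
      exact congrFun hinv (.inr (.inr (.inr i)))
    · exact (htr L x hLM hinv).2 hv
  · rintro ⟨z, -, ⟨L, -, hrun⟩, hp, hreg', hq⟩
    obtain ⟨σ, hσ, hinv⟩ := qrun_sound hrun
    have eσ : ∀ i, i < K → σ i = regs v i := by
      intro i hi
      have h3 := hreg' ⟨i, hi⟩
      rw [hinv] at h3
      have h4 : ((σ i : ℕ) : ℤ) = (regs v i : ℤ) := h3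
      exact_mod_cast h4
    have hinv' : QInv B w K L (fun a => z (e a)) (regs v) := by
      unfold QInv at hinv ⊢
      rw [hinv, tape_congr (s := 2) L eσ]
      exact qst_congr eσ
    have hML : M v ≤ 2 ^ L := by
      rw [hinv] at hp
      have h3 : ((2 * M v) ^ (K + 1) : ℕ) ≤ 2 ^ ((K + 1) * (L + 1)) := by
        have h4 : ((((2 * M v) ^ (K + 1) : ℕ)) : ℤ) ≤ 2 ^ ((K + 1) * (L + 1)) := hp
        exact_mod_cast h4
      have h4 : (2 * M v) ^ (K + 1) ≤ (2 ^ (L + 1)) ^ (K + 1) := by
        refine h3.trans (le_of_eq ?_)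
        rw [← pow_mul]; congr 1; ring
      have h5 : 2 * M v ≤ 2 ^ (L + 1) := (Nat.pow_le_pow_iff_left (by omega)).1 h4
      rw [pow_succ'] at h5
      exact Nat.le_of_mul_le_mul_left h5 (by omega)
    have h6 := (htr L (fun a => z (e a)) hML hinv').1
    have h7 : (fun j => (fun a => z (e a)) (e.symm j)) = z := by
      funext j
      show z (e (e.symm j)) = z j
      rw [Equiv.apply_symm_apply]
    rw [h7] at h6
    exact h6 hq

end Pool.Agent.MTr
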