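import Mathlib
import Pool.Agent.MTr.Univ

/-!
# The phase lemma

A product of `m` matrices of `S` is realised by `m` steps of a map with linear parts in `S`.
-/

set_option autoImplicit false

namespace Pool.Agent.MTr

open Pool.Agent.Grz Pool.Agent.PTr Finset

variable {r k n : ℕ}

/-- The products `As (j - 1) ⋯ As 0`. -/
def pprod (As : ℕ → Matrix (Fin r) (Fin r) ℤ) : ℕ → Matrix (Fin r) (Fin r) ℤ
  | 0 => 1
  | j + 1 => As j * pprod As j

theorem lin_mul (A P : Matrix (Fin r) (Fin r) ℤ) (u : Fin r → ℕ) (l : Fin r) :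
    lin (A * P) u l = ∑ m, A l m * lin P u m := by
  unfold lin
  simp only [Matrix.mul_apply, Finset.sum_mul, Finset.mul_sum]
  rw [Finset.sum_comm]
  refine Finset.sum_congr rfl fun i _ => Finset.sum_congr rfl fun j _ => ?_
  ring

theorem lin_one (u : Fin r → ℕ) (l : Fin r) : lin 1 u l = u l := by
  unfold lin
  rw [Finset.sum_eq_single l]
  · simp
  · intro j _ hj
    rw [Matrix.one_apply_ne hj.symm, zero_mul]
  · intro h
    exact absurd (Finset.mem_univ _) h

/-- A bound for the entries of the products. -/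
def bet (As : ℕ → Matrix (Fin r) (Fin r) ℤ) (m : ℕ) : ℕ :=
  1 + ∑ j ∈ range (m + 1), ∑ l, ∑ l', (pprod As j l l').natAbs

theorem lin_pprod_le {As : ℕ → Matrix (Fin r) (Fin r) ℤ} {m j : ℕ} (hj : j ≤ m) {R : ℕ}
    {u : Fin r → ℕ} (hu : ∀ l, u l < R) (l : Fin r) :
    |lin (pprod As j) u l| ≤ (bet As m * R : ℕ) := by
  unfold lin
  have h1 : |∑ m', pprod As j l m' * (u m' : ℤ)| ≤
      ((∑ m', (pprod As j l m').natAbs : ℕ) : ℤ) * (R : ℤ) := by
    refine (Finset.abs_sum_le_sum_abs _ _).trans ?_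
    push_cast
    rw [Finset.sum_mul]
    refine Finset.sum_le_sum fun m' _ => ?_
    rw [abs_mul, abs_of_nonneg (show (0 : ℤ) ≤ (u m' : ℤ) by omega)]
    have := hu m'
    exact mul_le_mul_of_nonneg_left (by omega) (abs_nonneg _)
  refine h1.trans ?_
  have h2 : ∑ m', (pprod As j l m').natAbs ≤ bet As m := by
    unfold bet
    have h3 : ∑ l, ∑ l', (pprod As j l l').natAbs ≤
        ∑ j ∈ range (m + 1), ∑ l, ∑ l', (pprod As j l l').natAbs :=
      Finset.single_le_sum (f := fun j => ∑ l, ∑ l', (pprod As j l l').natAbs)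
        (fun _ _ => Nat.zero_le _) (Finset.mem_range.2 (by omega))
    have h4 : ∑ l', (pprod As j l l').natAbs ≤ ∑ l, ∑ l', (pprod As j l l').natAbs :=
      Finset.single_le_sum (f := fun l => ∑ l', (pprod As j l l').natAbs)
        (fun _ _ => Nat.zero_le _) (Finset.mem_univ l)
    omega
  rw [← Nat.cast_mul]
  exact Nat.cast_le.2 (Nat.mul_le_mul_right R h2)

/-- the side of the cubes -/
def sid (β R : ℕ) : ℕ := 2 * (β * R) + R + 2

/-- the centre of the cube `e` in phase `j` -/
def cen (β R e j : ℕ) : ℕ := if j = 0 then 0 else (1 + e) * sid β R + β * R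

/-- the modulus -/
def mdl (β R k m : ℕ) : ℕ := (k * m + 3) * sid β R

/-- the lower corners -/
def phA (m β R : ℕ) (a : Fin k → Fin r → ℕ) (e : Fin (k * m)) (l : Fin r) : ℕ :=
  if (e : ℕ) % m = 0 then a e.divNat l
  else (1 + (e : ℕ)) * sid β R

/-- the upper corners -/
def phB (m β R : ℕ) (b : Fin k → Fin r → ℕ) (e : Fin (k * m)) (l : Fin r) : ℕ :=
  if (e : ℕ) % m = 0 then
    min (b e.divNat l) R
  else (2 + (e : ℕ)) * sid β R

/-- the translations -/
def phZ (As : ℕ → Matrix (Fin r) (Fin r) ℤ) (m β R : ℕ) (p q : Fin k → Fin r → ℕ)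
    (e : Fin (k * m)) (l : Fin r) : ℤ :=
  (if (e : ℕ) % m + 1 < m then (cen β R (e + 1) (e % m + 1) : ℤ) else
    (p e.divNat l : ℤ) -
      (q e.divNat l : ℤ)) -
  lin (As (e % m)) (fun _ => cen β R e (e % m)) l

/-- the translations modulo `mdl` -/
def phC (As : ℕ → Matrix (Fin r) (Fin r) ℤ) (m β R : ℕ) (p q : Fin k → Fin r → ℕ)
    (e : Fin (k * m)) (l : Fin r) : ℕ :=
  (phZ As m β R p q e l % (mdl β R k m : ℤ)).toNat

/-- the map -/
def phT (As : ℕ → Matrix (Fin r) (Fin r) ℤ) (m R : ℕ) (a b p q : Fin k → Fin r → ℕ) :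
    (Fin r → ℕ) → Fin r → ℕ :=
  amap (fun e : Fin (k * m) => As (e % m)) (mdl (bet As m) R k m) (phA m (bet As m) R a)
    (phB m (bet As m) R b) (phC As m (bet As m) R p q)

section core

variable {As : ℕ → Matrix (Fin r) (Fin r) ℤ} {m R : ℕ} {a b p q : Fin k → Fin r → ℕ}

theorem sid_pos (β R : ℕ) : 0 < sid β R := by unfold sid; omega

theorem mdl_pos (β R k m : ℕ) : 0 < mdl β R k m := Nat.mul_pos (by omega) (sid_pos _ _)

theorem phT_eq {u : Fin r → ℕ} {e : Fin (k * m)}
    (he : First (phA m (bet As m) R a) (phB m (bet As m) R b) u e) {l : Fin r} {z : ℤ}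
    (hz : z = lin (As (e % m)) u l + phZ As m (bet As m) R p q e l) (h0 : 0 ≤ z)
    (h1 : z < (mdl (bet As m) R k m : ℤ)) : ((phT As m R a b p q u l : ℕ) : ℤ) = z := by
  unfold phT amap
  rw [sum_first he]
  have h2 := Int.emod_nonneg (phZ As m (bet As m) R p q e l)
    (show (mdl (bet As m) R k m : ℤ) ≠ 0 from by
      have := mdl_pos (bet As m) R k m; omega)
  have h3 : (lin (As (e % m)) u l + ((phC As m (bet As m) R p q e l : ℕ) : ℤ)) %
      (mdl (bet As m) R k m : ℤ) = z := by
    unfold phC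
    rw [Int.toNat_of_nonneg h2, Int.add_emod, Int.emod_emod_of_dvd _ (dvd_refl _), ← Int.add_emod,
      ← hz, Int.emod_eq_of_lt h0 h1]
  rw [h3, Int.toNat_of_nonneg h0]

theorem first_zero (hm : 1 ≤ m) (hr : 0 < r) {u : Fin r → ℕ} (hu : ∀ l, u l < R) {i : Fin k}
    (hi : First a b u i) (β : ℕ) (he : (i : ℕ) * m < k * m) :
    First (phA m β R a) (phB m β R b) u ⟨i * m, he⟩ := by
  have hbox : ∀ e : Fin (k * m), InBox (phA m β R a e) (phB m β R b e) u ↔
      ((e : ℕ) % m = 0 ∧ InBox (a e.divNat)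
        (b e.divNat) u) := by
    intro e
    unfold InBox phA phB
    by_cases h : (e : ℕ) % m = 0
    · simp only [h, if_true, true_and]
      refine forall_congr' fun l => ?_
      have := hu l
      constructor
      · rintro ⟨h1, h2⟩; exact ⟨h1, lt_of_lt_of_le h2 (min_le_left _ _)⟩
      · rintro ⟨h1, h2⟩; exact ⟨h1, lt_min h2 this⟩
    · simp only [h, if_false, false_and, iff_false]
      intro h'
      have h1 := (h' ⟨0, hr⟩).1
      have h2 := hu ⟨0, hr⟩
      have h3 : sid β R ≤ (1 + (e : ℕ)) * sid β R := Nat.le_mul_of_pos_left _ (by omega)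
      unfold sid at h1 h3
      omega
  have hdiv : (i : ℕ) * m / m = i := Nat.mul_div_cancel _ (by omega)
  refine ⟨(hbox _).2 ⟨Nat.mul_mod_left _ _, ?_⟩, fun e he' hb => ?_⟩
  · have : (⟨(i : ℕ) * m, he⟩ : Fin (k * m)).divNat = i := Fin.ext hdiv
    simp only [this]
    exact hi.1
  · obtain ⟨h1, h2⟩ := (hbox e).1 hb
    refine hi.2 _ ?_ h2
    rw [Fin.lt_def]
    have h3 : (e : ℕ) < i * m := he'
    exact (Nat.div_lt_iff_lt_mul (by omega)).2 h3

theorem first_pos (hm : 1 ≤ m) (hr : 0 < r) {u : Fin r → ℕ} {β : ℕ} {e : Fin (k * m)}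
    (he : (e : ℕ) % m ≠ 0)
    (hu : ∀ l, (1 + (e : ℕ)) * sid β R ≤ u l ∧ u l < (2 + (e : ℕ)) * sid β R) :
    First (phA m β R a) (phB m β R b) u e := by
  constructor
  · intro l
    unfold phA phB
    rw [if_neg he, if_neg he]
    exact hu l
  · intro f hf hb
    have h1 := hb ⟨0, hr⟩
    have h2 := hu ⟨0, hr⟩
    have hf' : (f : ℕ) < e := hf
    unfold phA phB at h1
    by_cases h : (f : ℕ) % m = 0
    · rw [if_pos h, if_pos h] at h1
      have h3 := lt_of_lt_of_le h1.2 (min_le_right _ _)
      have h4 : sid β R ≤ (1 + (e : ℕ)) * sid β R := Nat.le_mul_of_pos_left _ (by omega)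
      unfold sid at h2 h4
      omega
    · rw [if_neg h, if_neg h] at h1
      have h4 : (2 + (f : ℕ)) * sid β R ≤ (1 + (e : ℕ)) * sid β R :=
        Nat.mul_le_mul_right _ (by omega)
      omega

/-- one step of the phase machine -/
theorem phT_step (hm : 1 ≤ m) (hr : 0 < r) {u0 : Fin r → ℕ} (hu0 : ∀ l, u0 l < R) {i : Fin k}
    (hi : First a b u0 i) {j : ℕ} (hj : j < m) {u : Fin r → ℕ}
    (hu : ∀ l, (u l : ℤ) = cen (bet As m) R (i * m + j) j + lin (pprod As j) u0 l) :
    (j + 1 < m → ∀ l, (phT As m R a b p q u l : ℤ) =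
      cen (bet As m) R (i * m + (j + 1)) (j + 1) + lin (pprod As (j + 1)) u0 l) ∧
    (j + 1 = m → (∀ l, 0 ≤ lin (pprod As m) u0 l + (p i l : ℤ) - (q i l : ℤ)) →
      (∀ l, lin (pprod As m) u0 l + (p i l : ℤ) - (q i l : ℤ) < R) →
      ∀ l, (phT As m R a b p q u l : ℤ) = lin (pprod As m) u0 l + (p i l : ℤ) - (q i l : ℤ)) := by
  have hlt : (i : ℕ) * m + j < k * m := by
    calc (i : ℕ) * m + j < i * m + m := by omega
      _ = (i + 1) * m := by ring
      _ ≤ k * m := Nat.mul_le_mul_right _ i.2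
  set e : Fin (k * m) := ⟨i * m + j, hlt⟩ with he
  have hemod : (e : ℕ) % m = j := by
    show ((i : ℕ) * m + j) % m = j
    rw [mul_comm, Nat.mul_add_mod, Nat.mod_eq_of_lt hj]
  have hediv : (e : ℕ) / m = i := by
    show ((i : ℕ) * m + j) / m = i
    rw [mul_comm, Nat.mul_add_div (by omega), Nat.div_eq_of_lt hj, add_zero]
  have hF : First (phA m (bet As m) R a) (phB m (bet As m) R b) u e := by
    by_cases h0 : j = 0
    · subst h0
      have hu' : u = u0 := by
        funext l
        have := hu l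
        simp only [cen, if_pos, pprod, lin_one] at this
        omega
      rw [hu']
      exact first_zero hm hr hu0 hi _ hlt
    · refine first_pos hm hr (by rw [hemod]; exact h0) fun l => ?_
      have h1 := hu l
      have h2 := lin_pprod_le (As := As) hj.le hu0 l
      rw [abs_le] at h2
      unfold cen at h1
      rw [if_neg h0] at h1
      show (1 + ((i : ℕ) * m + j)) * sid (bet As m) R ≤ u l ∧
        u l < (2 + ((i : ℕ) * m + j)) * sid (bet As m) R
      have h3 : (2 + ((i : ℕ) * m + j)) * sid (bet As m) R =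
        (1 + ((i : ℕ) * m + j)) * sid (bet As m) R + sid (bet As m) R := by ring
      have h4 : 2 * (bet As m * R) + 2 ≤ sid (bet As m) R := by unfold sid; omega
      rw [h3]
      push_cast at h1 h2
      constructor
      · zify; push_cast; linarith [h2.1]
      · zify
        have h5 : (2 * ((bet As m : ℤ) * (R : ℤ)) + 2) ≤ (sid (bet As m) R : ℤ) := by exact_mod_cast h4
        push_cast
        linarith [h2.2]
  have hsum : ∀ l, lin (As (e % m)) u l = lin (As (e % m)) (fun _ => cen (bet As m) R e (e % m)) l +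
      lin (pprod As (j + 1)) u0 l := by
    intro l
    have h1 : pprod As (j + 1) = As j * pprod As j := rfl
    rw [h1, lin_mul, hemod]
    unfold lin
    rw [← Finset.sum_add_distrib]
    refine Finset.sum_congr rfl fun x _ => ?_
    rw [hu x]
    show As j l x * ((cen (bet As m) R (i * m + j) j : ℤ) + lin (pprod As j) u0 x) = _
    unfold lin
    ring
  have hR : R ≤ mdl (bet As m) R k m := by
    unfold mdl
    calc R ≤ sid (bet As m) R := by unfold sid; omega
      _ ≤ _ := Nat.le_mul_of_pos_left _ (by omega)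
  constructor
  · intro h1 l
    refine phT_eq hF (z := cen (bet As m) R (i * m + (j + 1)) (j + 1) +
      lin (pprod As (j + 1)) u0 l) ?_ ?_ ?_
    · unfold phZ
      rw [hsum, hemod, if_pos h1]
      show _ = _ + ((cen (bet As m) R (i * m + j + 1) (j + 1) : ℤ) - _)
      rw [add_assoc]
      ring_nf
    · have h2 := lin_pprod_le (As := As) h1.le hu0 l
      rw [abs_le] at h2
      unfold cen
      rw [if_neg (Nat.succ_ne_zero j)]
      push_cast at h2 ⊢
      have h3 : (0 : ℤ) ≤ (1 + ((i : ℤ) * m + (j + 1))) * (sid (bet As m) R : ℤ) := by positivity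
      linarith [h2.1]
    · have h2 := lin_pprod_le (As := As) h1.le hu0 l
      rw [abs_le] at h2
      unfold cen mdl
      rw [if_neg (Nat.succ_ne_zero j)]
      have h4 : 2 * (bet As m * R) + 2 ≤ sid (bet As m) R := by unfold sid; omega
      have h5 : (1 + ((i : ℕ) * m + (j + 1)) + 1) * sid (bet As m) R ≤
        (k * m + 3) * sid (bet As m) R := Nat.mul_le_mul_right _ (by omega)
      zify at h4 h5
      push_cast at h2 ⊢
      have h6 : (0 : ℤ) ≤ (bet As m : ℤ) * (R : ℤ) := by positivity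
      linarith [h2.2]
  · intro h1 hn hR' l
    refine phT_eq hF (z := lin (pprod As m) u0 l + (p i l : ℤ) - (q i l : ℤ)) ?_ (hn l) ?_
    · unfold phZ
      rw [hsum, hemod, if_neg (by omega), h1]
      have : e.divNat = i := Fin.ext hediv
      simp only [this]
      ring
    · have := hR' l
      have h3 : (R : ℤ) ≤ (mdl (bet As m) R k m : ℤ) := by exact_mod_cast hR
      linarith

theorem bmap_eq {B : Matrix (Fin r) (Fin r) ℤ} {u : Fin r → ℕ} {i : Fin k} (hi : First a b u i)
    (h0 : ∀ l, 0 ≤ lin B u l + (p i l : ℤ) - (q i l : ℤ)) (l : Fin r) :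
    (bmap B a b p q u l : ℤ) = lin B u l + (p i l : ℤ) - (q i l : ℤ) := by
  unfold bmap
  rw [sum_first hi, Int.toNat_of_nonneg (h0 l)]

/-- the intermediate points -/
theorem phT_iter (hm : 1 ≤ m) (hr : 0 < r) {u0 : Fin r → ℕ} (hu0 : ∀ l, u0 l < R) {i : Fin k}
    (hi : First a b u0 i) : ∀ j, j < m → ∀ l, (((phT As m R a b p q)^[j] u0 l : ℕ) : ℤ) =
      cen (bet As m) R (i * m + j) j + lin (pprod As j) u0 l := by
  intro j
  induction j with
  | zero =>
    intro _ l
    simp only [Function.iterate_zero, id, cen, if_pos, pprod, lin_one]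
    simp
  | succ j ih =>
    intro hj l
    rw [Function.iterate_succ_apply']
    exact (phT_step (p := p) (q := q) hm hr hu0 hi (j := j) (by omega) (ih (by omega))).1 hj l

theorem phT_full (hm : 1 ≤ m) (hr : 0 < r) {u0 : Fin r → ℕ} (hu0 : ∀ l, u0 l < R) {i : Fin k}
    (hi : First a b u0 i) (h0 : ∀ l, 0 ≤ lin (pprod As m) u0 l + (p i l : ℤ) - (q i l : ℤ))
    (h1 : ∀ l, bmap (pprod As m) a b p q u0 l < R) :
    (phT As m R a b p q)^[m] u0 = bmap (pprod As m) a b p q u0 := by
  obtain ⟨m', rfl⟩ : ∃ m', m = m' + 1 := ⟨m - 1, by omega⟩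
  funext l
  rw [Function.iterate_succ_apply']
  have h2 := (phT_step (p := p) (q := q) hm hr hu0 hi (j := m') (by omega)
    (phT_iter (As := As) (p := p) (q := q) hm hr hu0 hi m' (by omega))).2 rfl h0 (fun l => by
      rw [← bmap_eq hi h0 l]
      exact_mod_cast h1 l) l
  have h3 := bmap_eq hi h0 l
  exact_mod_cast h2.trans h3.symm

theorem phT_pow (hm : 1 ≤ m) (hr : 0 < r) {x : Fin r → ℕ}
    (hx : Good (pprod As m) R a b p q x) (t : ℕ) :
    (phT As m R a b p q)^[m * t] x = (bmap (pprod As m) a b p q)^[t] x := by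
  induction t with
  | zero => rfl
  | succ t ih =>
    rw [Nat.mul_succ, Nat.add_comm, Function.iterate_add_apply, ih, Function.iterate_succ_apply']
    obtain ⟨h1, i, hi, h0⟩ := hx t
    refine phT_full hm hr h1 hi h0 fun l => ?_
    rw [← Function.iterate_succ_apply' (bmap (pprod As m) a b p q)]
    exact (hx (t + 1)).1 l

theorem phT_hits (hm : 1 ≤ m) (hr : 0 < r) {x y : Fin r → ℕ}
    (hx : Good (pprod As m) R a b p q x) :
    ((∀ l, y l < R) ∧ ∃ t, (phT As m R a b p q)^[t] x = y) ↔
      ∃ t, (bmap (pprod As m) a b p q)^[t] x = y := by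
  constructor
  · rintro ⟨hy, t, ht⟩
    have h1 : t = m * (t / m) + t % m := (Nat.div_add_mod t m).symm
    have h2 : t % m < m := Nat.mod_lt _ (by omega)
    rw [h1, Nat.add_comm, Function.iterate_add_apply, phT_pow hm hr hx] at ht
    by_cases h0 : t % m = 0
    · rw [h0] at ht
      exact ⟨t / m, ht⟩
    · exfalso
      obtain ⟨h3, i, hi, -⟩ := hx (t / m)
      have h4 := phT_iter (As := As) (p := p) (q := q) hm hr h3 hi (t % m) h2 ⟨0, hr⟩
      rw [ht] at h4
      have h5 := hy ⟨0, hr⟩
      have h6 := lin_pprod_le (As := As) h2.le h3 ⟨0, hr⟩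
      rw [abs_le] at h6
      unfold cen at h4
      rw [if_neg h0] at h4
      have h7 : sid (bet As m) R ≤ (1 + ((i : ℕ) * m + t % m)) * sid (bet As m) R :=
        Nat.le_mul_of_pos_left _ (by omega)
      have h8 : R < sid (bet As m) R := by unfold sid; omega
      have h9 : ((1 + ((i : ℕ) * m + t % m)) * sid (bet As m) R : ℕ) ≤ y ⟨0, hr⟩ := by
        zify
        push_cast at h4 h6 ⊢
        linarith [h6.1]
      omega
  · rintro ⟨t, ht⟩
    refine ⟨fun l => ?_, m * t, ?_⟩
    · rw [← ht]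
      exact (hx t).1 l
    · rw [phT_pow hm hr hx, ht]

end core

/-- **Phase lemma.** -/
theorem orbB_of_orbA {S : Set (Matrix (Fin r) (Fin r) ℤ)} {As : ℕ → Matrix (Fin r) (Fin r) ℤ}
    {m : ℕ} (hr : 0 < r) (hm : 1 ≤ m) (hAs : ∀ j, j < m → As j ∈ S) (H : OrbA S (k * m)) :
    OrbB (pprod As m) k := by
  intro n R a b p q x y hR ha hb hp hq hx hy
  have hsid : DFun n (fun v => sid (bet As m) (R v)) :=
    (((DFun.const 2).mul ((DFun.const _).mul hR)).add hR).add (DFun.const 2)
  have hmdl : DFun n (fun v => mdl (bet As m) (R v) k m) := (DFun.const _).mul hsid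
  have hcen : ∀ e j, DFun n (fun v => cen (bet As m) (R v) e j) := by
    intro e j
    unfold cen
    by_cases h : j = 0
    · simp only [if_pos h]; exact DFun.const 0
    · simp only [if_neg h]
      exact ((DFun.const _).mul hsid).add ((DFun.const _).mul hR)
  have hA : ∀ (e : Fin (k * m)) l, DFun n (fun v => phA m (bet As m) (R v) (fun i l => a i l v) e l) := by
    intro e l
    unfold phA
    by_cases h : (e : ℕ) % m = 0
    · simp only [if_pos h]; exact ha _ _
    · simp only [if_neg h]; exact (DFun.const _).mul hsid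
  have hB : ∀ (e : Fin (k * m)) l, DFun n (fun v => phB m (bet As m) (R v) (fun i l => b i l v) e l) := by
    intro e l
    unfold phB
    by_cases h : (e : ℕ) % m = 0
    · simp only [if_pos h]; exact DFun.min (hb _ _) hR
    · simp only [if_neg h]; exact (DFun.const _).mul hsid
  have hZ : ∀ (e : Fin (k * m)) l, ZF n (fun v => phZ As m (bet As m) (R v) (fun i l => p i l v)
      (fun i l => q i l v) e l) := by
    intro e l
    unfold phZ
    refine ZF.sub ?_ (zf_lin _ (fun _ => hcen _ _) l)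
    by_cases h : (e : ℕ) % m + 1 < m
    · simp only [if_pos h]; exact ZF.nat (hcen _ _)
    · simp only [if_neg h]; exact (ZF.nat (hp _ _)).sub (ZF.nat (hq _ _))
  have hC : ∀ (e : Fin (k * m)) l, DFun n (fun v => phC As m (bet As m) (R v) (fun i l => p i l v)
      (fun i l => q i l v) e l) := by
    intro e l
    have h1 := (hZ e l).emod hmdl
    refine (?_ : (fun v => phC As m (bet As m) (R v) (fun i l => p i l v)
      (fun i l => q i l v) e l) = _) ▸ h1
    funext v
    rw [if_neg (mdl_pos _ _ _ _).ne']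
    rfl
  have h1 := H (fun e => As (e % m)) (fun e => hAs _ (Nat.mod_lt _ (by omega))) n
    (fun v => mdl (bet As m) (R v) k m)
    (fun e l v => phA m (bet As m) (R v) (fun i l => a i l v) e l)
    (fun e l v => phB m (bet As m) (R v) (fun i l => b i l v) e l)
    (fun e l v => phC As m (bet As m) (R v) (fun i l => p i l v) (fun i l => q i l v) e l)
    x y hmdl hA hB hC hx hy
  refine ⟨_, (Delta0.allOf fun l => Delta0.ltFun (hy l) hR).and h1, fun v hv => ?_⟩
  rw [← phT_hits hm hr hv]
  refine and_congr_right fun _ => ?_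
  exact ⟨fun h => h.2, fun h => ⟨mdl_pos _ _ _ _, h⟩⟩

/-- Elements of the semigroup generated by `S` are products. -/
theorem exists_pprod {S : Set (Matrix (Fin r) (Fin r) ℤ)} {M : Matrix (Fin r) (Fin r) ℤ}
    (hM : M ∈ Subsemigroup.closure S) :
    ∃ (As : ℕ → Matrix (Fin r) (Fin r) ℤ) (m : ℕ), 1 ≤ m ∧ (∀ j, j < m → As j ∈ S) ∧
      pprod As m = M := by
  induction hM using Subsemigroup.closure_induction with
  | mem x hx =>
    refine ⟨fun _ => x, 1, le_rfl, fun _ _ => hx, ?_⟩
    simp [pprod]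
  | mul x y _ _ hx hy =>
    obtain ⟨As, m, hm, hAs, rfl⟩ := hx
    obtain ⟨As', m', hm', hAs', rfl⟩ := hy
    have key : ∀ j, pprod (fun i => if i < m' then As' i else As (i - m')) (m' + j) =
        pprod As j * pprod As' m' := by
      intro j
      induction j with
      | zero =>
        have : ∀ i, i ≤ m' → pprod (fun i => if i < m' then As' i else As (i - m')) i =
            pprod As' i := by
          intro i
          induction i with
          | zero => intro _; rfl
          | succ i ih =>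
            intro hi
            rw [pprod, pprod, ih (by omega), if_pos (by omega)]
        rw [Nat.add_zero, this m' le_rfl, pprod, one_mul]
      | succ j ih =>
        rw [← Nat.add_assoc, pprod, ih, pprod, if_neg (by omega), Nat.add_sub_cancel_left,
          mul_assoc]
    refine ⟨fun i => if i < m' then As' i else As (i - m'), m' + m, by omega, fun j hj => ?_,
      key m⟩
    dsimp only
    split_ifs with h
    · exact hAs' j h
    · exact hAs _ (by omega)

end Pool.Agent.MTr
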