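import Mathlib
import Pool.Agent.MTr.Univ
import Pool.Agent.MTr.Phase
import Pool.Agent.PTr.TMap

/-!
# The walk machine of a shear: definitions
-/

set_option autoImplicit false

namespace Pool.Agent.MTr

open Pool.Agent.Grz Pool.Agent.PTr Finset

variable {r k : ℕ}

/-- Normalized data of a shear. -/
structure ShData (B : Matrix (Fin r) (Fin r) ℤ) where
  (f₁ f₂ : Fin r → ℤ) (κ : ℕ) (l₁ l₂ : Fin r)
  h1 : B.mulVec f₁ = f₁
  h2 : B.mulVec f₂ = f₂ + (κ : ℤ) • f₁
  hp : 0 < f₁ l₁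
  h0 : f₂ l₁ = 0
  hq : f₂ l₂ ≠ 0

/-- The state machine: the first component walks modulo `L` with the speed `g u`; each time it is `0`
or `L` the map `S` is applied. -/
def phi (L : ℕ) (g : (Fin 2 → ℕ) → ℕ) (S : (Fin 2 → ℕ) → Fin 2 → ℕ) (s : ℕ × (Fin 2 → ℕ)) :
    ℕ × (Fin 2 → ℕ) :=
  if s.1 = 0 ∨ s.1 = L then (g s.2, S s.2)
  else if L < s.1 then (s.1 - L + g s.2, s.2) else (s.1 + g s.2, s.2)

/-- The cells of a piecewise translation of a square with `k` boxes: a set of boxes, and two bits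
which say in which coordinates the value is reduced modulo the side. -/
abbrev Cell (k : ℕ) : Type := Finset (Fin k) × (Fin 2 → Bool)

/-- The translation of a cell, reduced. -/
def cS (M : ℕ) (c : Fin k → Fin 2 → ℕ) (I : Finset (Fin k)) (l : Fin 2) : ℕ :=
  (∑ i ∈ I, c i l) % M

/-- The lower corner of a cell. -/
def clo (M : ℕ) (a c : Fin k → Fin 2 → ℕ) (x : Cell k) (l : Fin 2) : ℕ :=
  max (x.1.sup fun i => a i l) (if x.2 l = true then M - cS M c x.1 l else 0)

/-- The upper corner of a cell. -/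
def chi (M : ℕ) (b c : Fin k → Fin 2 → ℕ) (x : Cell k) (l : Fin 2) : ℕ :=
  min (M - x.1.sup fun i => M - b i l) (if x.2 l = true then M else M - cS M c x.1 l)

/-- The set of the boxes containing a point. -/
def cI (a b : Fin k → Fin 2 → ℕ) (u : Fin 2 → ℕ) : Finset (Fin k) :=
  univ.filter fun i => ∀ l, a i l ≤ u l ∧ u l < b i l

/-- The cell of a point. -/
def ccell (M : ℕ) (a b c : Fin k → Fin 2 → ℕ) (u : Fin 2 → ℕ) : Cell k :=
  (cI a b u, fun l => decide (M - cS M c (cI a b u) l ≤ u l))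

namespace ShData

variable {B : Matrix (Fin r) (Fin r) ℤ} (d : ShData B)

/-- The stretching constant. -/
def C : ℕ := 2 * (d.f₁ d.l₂).natAbs + 1

/-- The increasing or decreasing copy of the second coordinate, between `1` and `M`. -/
def th (M ζ : ℕ) : ℕ := if 0 < d.f₂ d.l₂ then ζ + 1 else M - ζ

/-- `f₂ l₂ * th M ζ = |f₂ l₂| * ζ + th0 M` for `ζ ≤ M`. -/
def th0 (M : ℕ) : ℤ := if 0 < d.f₂ d.l₂ then d.f₂ d.l₂ else d.f₂ d.l₂ * M

/-- The speed of the walk. -/
def g (M : ℕ) (u : Fin 2 → ℕ) : ℕ := d.κ * d.C * d.th M (u 1)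

/-- The point of a state, as an integral vector. -/
def zpt (M H : ℕ) (s : ℕ × (Fin 2 → ℕ)) (l : Fin r) : ℤ :=
  H + ((M * s.1 + s.2 0 : ℕ) : ℤ) * d.f₁ l + ((d.C * M * d.th M (s.2 1) : ℕ) : ℤ) * d.f₂ l

/-- The point of a state. -/
def pt (M H : ℕ) (s : ℕ × (Fin 2 → ℕ)) (l : Fin r) : ℕ := (d.zpt M H s l).toNat

/-- The corners of the boxes in the two windows. -/
def wcor (M L H : ℕ) (w : Bool) (t : Fin 2 → ℕ) (dflt : ℤ) (l : Fin r) : ℤ :=
  if l = d.l₁ then H + (if w = true then d.f₁ d.l₁ * (L * M) else 0) + d.f₁ d.l₁ * t 0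
  else if l = d.l₂ then H + (if w = true then d.f₁ d.l₂ * (L * M) else 0) +
    d.C * M * (|d.f₂ d.l₂| * t 1 + d.th0 M) - |d.f₁ d.l₂| * M
  else dflt

end ShData

/-- The branches: for each of the two windows the cells, and two more branches. -/
abbrev Brn (k : ℕ) : Type := (Bool × Cell k) ⊕ Bool

/-- The rank of a branch: cells with more boxes come first. -/
def brk {k : ℕ} : Brn k → ℕ
  | .inl x => k - x.2.1.card
  | .inr _ => 0

/-- The branch of a state. -/
def brn (M L : ℕ) (a b c : Fin k → Fin 2 → ℕ) (s : ℕ × (Fin 2 → ℕ)) : Brn k :=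
  if s.1 = 0 then .inl (false, ccell M a b c s.2)
  else if s.1 = L then .inl (true, ccell M a b c s.2)
  else if L < s.1 then .inr true else .inr false

namespace ShData

variable {B : Matrix (Fin r) (Fin r) ℤ} (d : ShData B)

/-- The lower corner of the box of a branch. -/
def wlo (M L H : ℕ) (a c : Fin k → Fin 2 → ℕ) : Brn k → Fin r → ℕ
  | .inl x => fun l => (d.wcor M L H x.1 (clo M a c x.2) 0 l).toNat
  | .inr true => fun l => if l = d.l₁ then (H + d.f₁ d.l₁ * (M * (L + 1))).toNat else 0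
  | .inr false => fun l => if l = d.l₁ then (H + d.f₁ d.l₁ * M).toNat else 0

/-- The upper corner of the box of a branch. -/
def whi (M L H R : ℕ) (b c : Fin k → Fin 2 → ℕ) : Brn k → Fin r → ℕ
  | .inl x => fun l => (d.wcor M L H x.1 (chi M b c x.2) R l).toNat
  | .inr true => fun _ => R
  | .inr false => fun l => if l = d.l₁ then (H + d.f₁ d.l₁ * (M * L)).toNat else R

/-- The translation of a branch. -/
def wtr (M L H : ℕ) (c : Fin k → Fin 2 → ℕ) : Brn k → Fin r → ℤ
  | .inl x => fun l => (H - ∑ m, B l m * H) +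
      ((cS M c x.2.1 0 : ℤ) - (if x.2.2 0 = true then (M : ℤ) else 0) -
        (if x.1 = true then (L * M : ℤ) else 0)) * d.f₁ l +
      (d.C * M * (d.f₂ d.l₂).sign *
        ((cS M c x.2.1 1 : ℤ) - (if x.2.2 1 = true then (M : ℤ) else 0))) * d.f₂ l
  | .inr true => fun l => (H - ∑ m, B l m * H) - L * M * d.f₁ l
  | .inr false => fun l => H - ∑ m, B l m * H

/-- The size conditions. -/
structure Fits (M L H R : ℕ) : Prop where
  hM : 0 < M
  hL : d.κ * d.C * M < L
  hH : ∀ l, M * (2 * L + 1) * (d.f₁ l).natAbs + d.C * M * (M + 1) * (d.f₂ l).natAbs ≤ H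
  hR : 2 * H < R

/-- The valid states. -/
def Val (M L : ℕ) (s : ℕ × (Fin 2 → ℕ)) : Prop :=
  s.1 ≤ L + d.κ * d.C * M ∧ ∀ l, s.2 l < M

end ShData

/-- An enumeration with nondecreasing ranks. -/
theorem exists_enum {α : Type} [Fintype α] (rk : α → ℕ) :
    ∃ e : Fin (Fintype.card α) ≃ α, ∀ i j, i < j → rk (e i) ≤ rk (e j) := by
  classical
  let e0 := (Fintype.equivFin α).symm
  let σ := Tuple.sort (fun i => rk (e0 i))
  refine ⟨σ.trans e0, fun i j hij => ?_⟩
  exact Tuple.monotone_sort (fun i => rk (e0 i)) hij.le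

end Pool.Agent.MTr
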