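import Mathlib
import Pool.Agent.MTr.WDefs

/-!
# The cells of a piecewise translation of a square

Here `tmap 1 M a b c u j = (1 * u j + ∑ i, if (u in the box i) then c i j else 0) % M`.

Proofs. Let `I = cI a b u` be the set of the boxes containing `u`.
* `mem_cell`: if `u` is in the box with corners `clo M a c x`, `chi M b c x` then every `i ∈ x.1` has
  `a i l ≤ u l` (`Finset.sup_le_iff`) and `u l < b i l` (`u l < M - sup (M - b i l)` gives
  `M - b i l < M - u l`), so `x.1 ⊆ I`.
* the cell of `u` contains `u` when all `u l < M`: `sup (a i l) ≤ u l`;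
  `u l < M - sup (M - b i l)`, because `M - b i l < M - u l` for all `i ∈ I` and `0 < M - u l`
  (`Finset.sup_lt_iff`); the bits by definition.
* if `x.1 = I` then the bits of `x` are those of `u`: `M - cS ≤ u l` if the bit is `true` and
  `u l < M - cS` if it is `false`. So if `x ≠ ccell M a b c u` then `x.1 ⊂ I`, and the cardinality is
  smaller.
* value: the sum over the boxes containing `u` is `∑ i ∈ I, c i l` (`Finset.sum_filter`),
  `(u l + sum) % M = (u l + cS) % M`, which is `u l + cS` if `u l < M - cS` and `u l + cS - M`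
  otherwise (`cS < M`, `u l < M`).
-/

set_option autoImplicit false

namespace Pool.Agent.MTr

open Pool.Agent.Grz Pool.Agent.PTr Finset

variable {k : ℕ}

theorem chi_le (M : ℕ) (b c : Fin k → Fin 2 → ℕ) (x : Cell k) (l : Fin 2) : chi M b c x l ≤ M :=
  (min_le_left _ _).trans (Nat.sub_le _ _)

theorem ccell_mem {M : ℕ} (a b c : Fin k → Fin 2 → ℕ) {u : Fin 2 → ℕ} (hu : ∀ l, u l < M) :
    InBox (clo M a c (ccell M a b c u)) (chi M b c (ccell M a b c u)) u := by
  intro l
  have hul := hu l
  have hI : ∀ i ∈ cI a b u, a i l ≤ u l ∧ u l < b i l := fun i hi =>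
    (Finset.mem_filter.1 hi).2 l
  have h1 : (cI a b u).sup (fun i => a i l) ≤ u l := Finset.sup_le fun i hi => (hI i hi).1
  have h2 : (cI a b u).sup (fun i => M - b i l) < M - u l := by
    rw [Finset.sup_lt_iff (by rw [Nat.bot_eq_zero]; omega)]
    intro i hi
    have := (hI i hi).2
    omega
  constructor
  · refine max_le h1 ?_
    show (if decide (M - cS M c (cI a b u) l ≤ u l) = true then M - cS M c (cI a b u) l else 0) ≤
      u l
    split_ifs with h
    · exact of_decide_eq_true h
    · exact Nat.zero_le _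
  · refine lt_min ?_ ?_
    · show u l < M - (cI a b u).sup fun i => M - b i l
      omega
    · show u l < (if decide (M - cS M c (cI a b u) l ≤ u l) = true then M
        else M - cS M c (cI a b u) l)
      split_ifs with h
      · exact hul
      · rw [decide_eq_true_eq] at h
        omega

theorem ccell_lt {M : ℕ} (a b c : Fin k → Fin 2 → ℕ) {u : Fin 2 → ℕ} (hu : ∀ l, u l < M)
    {x : Cell k} (hx : InBox (clo M a c x) (chi M b c x) u) (hne : x ≠ ccell M a b c u) :
    x.1.card < (ccell M a b c u).1.card := by
  have hsub : x.1 ⊆ cI a b u := by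
    intro i hi
    refine Finset.mem_filter.2 ⟨Finset.mem_univ _, fun l => ?_⟩
    have h1 := (max_le_iff.1 (hx l).1).1
    have h2 := (lt_min_iff.1 (hx l).2).1
    have h3 : a i l ≤ x.1.sup fun i => a i l := Finset.le_sup (f := fun i => a i l) hi
    have h4 : M - b i l ≤ x.1.sup fun i => M - b i l := Finset.le_sup (f := fun i => M - b i l) hi
    omega
  rcases eq_or_ssubset_of_subset hsub with h | h
  · exfalso
    apply hne
    refine Prod.ext h (funext fun l => ?_)
    have h1 := (max_le_iff.1 (hx l).1).2
    have h2 := (lt_min_iff.1 (hx l).2).2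
    rw [h] at h1 h2
    show x.2 l = decide (M - cS M c (cI a b u) l ≤ u l)
    by_cases hb : x.2 l = true
    · rw [if_pos hb] at h1
      rw [hb]
      exact (decide_eq_true h1).symm
    · rw [if_neg hb] at h2
      rw [Bool.eq_false_iff.2 hb]
      exact (decide_eq_false (by omega)).symm
  · exact Finset.card_lt_card h

theorem tmap_ccell {M : ℕ} (a b c : Fin k → Fin 2 → ℕ) {u : Fin 2 → ℕ} (hu : ∀ l, u l < M)
    (l : Fin 2) : (tmap 1 M a b c u l : ℤ) = (u l : ℤ) + (cS M c (ccell M a b c u).1 l : ℤ) -
      (if (ccell M a b c u).2 l = true then (M : ℤ) else 0) := by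
  have hul := hu l
  have hM : 0 < M := by omega
  have h1 : tmap 1 M a b c u l = (u l + ∑ i ∈ cI a b u, c i l) % M := by
    unfold tmap cI
    rw [one_mul, Finset.sum_filter]
  have hs : cS M c (cI a b u) l < M := Nat.mod_lt _ hM
  have h2 : (u l + ∑ i ∈ cI a b u, c i l) % M = (u l + cS M c (cI a b u) l) % M := by
    unfold cS
    rw [Nat.add_mod_mod]
  show (tmap 1 M a b c u l : ℤ) = (u l : ℤ) + (cS M c (cI a b u) l : ℤ) -
      (if decide (M - cS M c (cI a b u) l ≤ u l) = true then (M : ℤ) else 0)
  rw [h1, h2]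
  split_ifs with h
  · rw [decide_eq_true_eq] at h
    have h3 : (u l + cS M c (cI a b u) l) % M = u l + cS M c (cI a b u) l - M := by
      rw [Nat.mod_eq_sub_mod (by omega)]
      exact Nat.mod_eq_of_lt (by omega)
    rw [h3]
    omega
  · rw [decide_eq_true_eq] at h
    rw [Nat.mod_eq_of_lt (by omega)]
    omega

end Pool.Agent.MTr
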