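import Mathlib
import Pool.Agent.MTr.WDefs

/-!
# The points of the states

All statements are elementary (unfold the definitions; `nlinarith`, `positivity` and case
distinctions on `0 < d.f₂ d.l₂`).

* `zpt_bounds`: a valid state has `M * s.1 + s.2 0 ≤ M * (2 * L) + M` (as `s.1 ≤ 2 L` by `Fits.hL`)
  and `th M (s.2 1) ≤ M`, so the absolute value of `zpt - H` is at most the left side of `Fits.hH`
  (use `|x * f| ≤ x * |f|`), hence `0 ≤ zpt ≤ 2 H < R`.
* `pt_inj`: the points are nonnegative, so `zpt` is equal; in the coordinate `l₁` (`f₂ l₁ = 0`,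
  `f₁ l₁ > 0`): `M * s.1 + s.2 0 = M * s'.1 + s'.2 0` with `s.2 0, s'.2 0 < M`, so `s.1 = s'.1` and
  `s.2 0 = s'.2 0` (`Nat.div`/`Nat.mod`, or `nlinarith`); then in the coordinate `l₂`
  (`f₂ l₂ ≠ 0`, `d.C * M > 0`): `th M (s.2 1) = th M (s'.2 1)`, so `s.2 1 = s'.2 1`.
-/

set_option autoImplicit false

namespace Pool.Agent.MTr

open Finset

variable {r : ℕ}

namespace ShData

variable {B : Matrix (Fin r) (Fin r) ℤ} (d : ShData B) {M L H R : ℕ}

theorem l_ne : d.l₁ ≠ d.l₂ := by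
  intro h
  apply d.hq
  rw [← h]
  exact d.h0

theorem th_mul {ζ : ℕ} (h : ζ ≤ M) :
    d.f₂ d.l₂ * (d.th M ζ : ℤ) = |d.f₂ d.l₂| * ζ + d.th0 M := by
  unfold th th0
  by_cases hp : 0 < d.f₂ d.l₂
  · rw [if_pos hp, if_pos hp, abs_of_pos hp]
    push_cast
    ring
  · rw [if_neg hp, if_neg hp, abs_of_nonpos (not_lt.mp hp), Nat.cast_sub h]
    ring

theorem th_pos {ζ : ℕ} (h : ζ < M) : 0 < d.th M ζ := by
  unfold th
  split_ifs <;> omega

theorem th_le {ζ : ℕ} (h : ζ < M) : d.th M ζ ≤ M := by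
  unfold th
  split_ifs <;> omega

theorem th_sub {ζ ζ' : ℕ} (h : ζ < M) (h' : ζ' < M) :
    (d.th M ζ' : ℤ) = (d.th M ζ : ℤ) + (d.f₂ d.l₂).sign * ((ζ' : ℤ) - (ζ : ℤ)) := by
  unfold th
  by_cases hp : 0 < d.f₂ d.l₂
  · rw [if_pos hp, if_pos hp, Int.sign_eq_one_of_pos hp]
    push_cast
    ring
  · have hn : d.f₂ d.l₂ < 0 := lt_of_le_of_ne (not_lt.mp hp) d.hq
    rw [if_neg hp, if_neg hp, Int.sign_eq_neg_one_of_neg hn, Nat.cast_sub h.le,
      Nat.cast_sub h'.le]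
    ring

theorem g_le {u : Fin 2 → ℕ} (h : ∀ l, u l < M) : d.g M u ≤ d.κ * d.C * M := by
  unfold g
  exact Nat.mul_le_mul_left _ (d.th_le (h 1))

private theorem C_pos_WPt : 0 < d.C := by
  unfold C
  omega

theorem g_dich : (∀ u : Fin 2 → ℕ, (∀ l, u l < M) → d.g M u = 0) ∨
    ∀ u : Fin 2 → ℕ, (∀ l, u l < M) → 0 < d.g M u := by
  rcases Nat.eq_zero_or_pos d.κ with hk | hk
  · left
    intro u _
    unfold g
    rw [hk]
    simp
  · right
    intro u hu
    unfold g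
    exact Nat.mul_pos (Nat.mul_pos hk d.C_pos_WPt) (d.th_pos (hu 1))

private theorem abs_mul_le_WPt {x N : ℕ} (f : ℤ) (h : x ≤ N) :
    |(x : ℤ) * f| ≤ ((N * f.natAbs : ℕ) : ℤ) := by
  rw [abs_mul, Nat.abs_cast, Nat.cast_mul, Int.natCast_natAbs]
  exact mul_le_mul_of_nonneg_right (by exact_mod_cast h) (abs_nonneg _)

theorem zpt_bounds (hF : d.Fits M L H R) {s : ℕ × (Fin 2 → ℕ)} (hs : d.Val M L s) (l : Fin r) :
    0 ≤ d.zpt M H s l ∧ d.zpt M H s l < R := by
  have h1 : M * s.1 + s.2 0 ≤ M * (2 * L + 1) := by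
    have h2 : s.1 ≤ 2 * L := by
      have := hs.1
      have := hF.hL
      omega
    have h3 := Nat.mul_le_mul_left M h2
    have h4 := hs.2 0
    have h5 : M * (2 * L + 1) = M * (2 * L) + M := by ring
    omega
  have h2 : d.C * M * d.th M (s.2 1) ≤ d.C * M * (M + 1) :=
    Nat.mul_le_mul_left _ ((d.th_le (hs.2 1)).trans (Nat.le_succ M))
  have a1 := abs_le.mp (abs_mul_le_WPt (d.f₁ l) h1)
  have a2 := abs_le.mp (abs_mul_le_WPt (d.f₂ l) h2)
  have h3 : ((M * (2 * L + 1) * (d.f₁ l).natAbs : ℕ) : ℤ) +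
      ((d.C * M * (M + 1) * (d.f₂ l).natAbs : ℕ) : ℤ) ≤ (H : ℤ) := by
    exact_mod_cast hF.hH l
  have h4 : 2 * (H : ℤ) < (R : ℤ) := by exact_mod_cast hF.hR
  unfold zpt
  constructor
  · linarith [a1.1, a2.1]
  · linarith [a1.2, a2.2]

theorem pt_inj (hF : d.Fits M L H R) {s s' : ℕ × (Fin 2 → ℕ)} (hs : d.Val M L s)
    (hs' : d.Val M L s') (h : d.pt M H s = d.pt M H s') : s = s' := by
  have hz : ∀ l, d.zpt M H s l = d.zpt M H s' l := by
    intro l
    have h1 := congrFun h l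
    unfold pt at h1
    have h2 := (d.zpt_bounds hF hs l).1
    have h3 := (d.zpt_bounds hF hs' l).1
    have h4 := congrArg (fun n : ℕ => (n : ℤ)) h1
    simp only [Int.toNat_of_nonneg h2, Int.toNat_of_nonneg h3] at h4
    exact h4
  have e1 : M * s.1 + s.2 0 = M * s'.1 + s'.2 0 := by
    have h1 := hz d.l₁
    unfold zpt at h1
    rw [d.h0, mul_zero, mul_zero, add_zero, add_zero] at h1
    have h2 := add_left_cancel h1
    have h3 := mul_right_cancel₀ d.hp.ne' h2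
    exact_mod_cast h3
  have hM := hF.hM
  have e2 : s.1 = s'.1 := by
    have h1 : (M * s.1 + s.2 0) / M = s.1 := by
      rw [Nat.mul_add_div hM, Nat.div_eq_of_lt (hs.2 0), add_zero]
    have h2 : (M * s'.1 + s'.2 0) / M = s'.1 := by
      rw [Nat.mul_add_div hM, Nat.div_eq_of_lt (hs'.2 0), add_zero]
    rw [← h1, ← h2, e1]
  have e3 : s.2 0 = s'.2 0 := by
    rw [e2] at e1
    exact Nat.add_left_cancel e1
  have e4 : d.th M (s.2 1) = d.th M (s'.2 1) := by
    have h1 := hz d.l₂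
    unfold zpt at h1
    rw [e1] at h1
    have h2 := add_left_cancel h1
    have h3 := mul_right_cancel₀ d.hq h2
    have h4 : d.C * M * d.th M (s.2 1) = d.C * M * d.th M (s'.2 1) := by exact_mod_cast h3
    exact Nat.eq_of_mul_eq_mul_left (Nat.mul_pos d.C_pos_WPt hM) h4
  have e5 : s.2 1 = s'.2 1 := by
    have h1 := hs.2 1
    have h2 := hs'.2 1
    unfold th at e4
    split_ifs at e4 <;> omega
  refine Prod.ext e2 (funext fun l => ?_)
  fin_cases l
  · exact e3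
  · exact e5

end ShData

end Pool.Agent.MTr
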