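import Mathlib
import Pool.Agent.MTr.WPt
import Pool.Agent.MTr.WCell

/-!
# The branch of a state

Let `p = f₁ l₁ > 0`, `p' = f₁ l₂`, `q = f₂ l₂ ≠ 0`. The point of the state `(X, u)` has the
coordinates `H + p (M X + u 0)` at `l₁` and
`H + p' (M X + u 0) + C M (|q| * u 1 + th0)` at `l₂` (`th_mul`); all coordinates are in `[0, R)`
(`zpt_bounds`, so `pt` is `zpt`; compare with `Int.toNat_le`, `Int.lt_toNat`).

Proofs of `branch_mem` and `branch_lt`.
* Coordinate `l₁` decides the window. If `X = 0` the point is in `[H, H + p M)`, if `X = L` in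
  `[H + p L M, H + p (L M + M))`, if `0 < X < L` in `[H + p M, H + p L M)`, if `L < X` it is
  `≥ H + p M (L + 1)`. The box of the branch `inl (false, x)` is in `[H, H + p M)` at `l₁`
  (`chi_le`), of `inl (true, x)` in `[H + p L M, H + p (L M + M))`, of `inr false` it is
  `[H + p M, H + p L M)` and of `inr true` it is `[H + p M (L + 1), R)`. These four intervals are
  disjoint (`L > 0`). So a box containing the point of `s` belongs to a branch of the same kind.
* In the windows: at `l₁`, `clo x 0 ≤ u 0 < chi x 0` iff `p * clo x 0 ≤ p * u 0 < p * chi x 0`. At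
  `l₂`: for every natural number `t`:
  `C M (|q| t + th0) - |p'| M ≤ p' * u 0 + C M (|q| * u 1 + th0) ↔ t ≤ u 1`: if `t ≤ u 1` use
  `|p' * u 0| ≤ |p'| M`; if `t ≥ u 1 + 1` use `C M |q| ≥ C M > 2 |p'| M`. So the point is in the box
  of `inl (w, x)` at `l₂` iff `clo x 1 ≤ u 1 < chi x 1`. At the other coordinates the box is
  `[0, R)`.
* So for `X = 0`: the point is in the box of `x' = inl (false, x)` iff `u` is in the box
  `clo x, chi x`; `ccell_mem` gives `branch_mem`; and if `x ≠ ccell` then `x.1.card < card` of the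
  cell (`ccell_lt`), and `card ≤ k`, so the ranks `k - card` are in the opposite order
  (`branch_lt`). The same for `X = L`. In the other two cases there is only one branch of the kind,
  and `branch_lt` is vacuous.
-/

set_option autoImplicit false

namespace Pool.Agent.MTr

open Pool.Agent.PTr Finset

variable {r k : ℕ}

namespace ShData

variable {B : Matrix (Fin r) (Fin r) ℤ} (d : ShData B) {M L H R : ℕ}

private theorem L_pos (hF : d.Fits M L H R) : 0 < L := lt_of_le_of_lt (Nat.zero_le _) hF.hL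

private theorem zpt_l1 (s : ℕ × (Fin 2 → ℕ)) :
    d.zpt M H s d.l₁ = H + d.f₁ d.l₁ * ((M : ℤ) * s.1 + s.2 0) := by
  unfold zpt
  rw [d.h0]
  push_cast
  ring

private theorem zpt_l2 {s : ℕ × (Fin 2 → ℕ)} (h : s.2 1 ≤ M) :
    d.zpt M H s d.l₂ = H + d.f₁ d.l₂ * ((M : ℤ) * s.1 + s.2 0) +
      d.C * M * (|d.f₂ d.l₂| * s.2 1 + d.th0 M) := by
  rw [← d.th_mul h]
  unfold zpt
  push_cast
  ring

private theorem le_pt (hF : d.Fits M L H R) {s : ℕ × (Fin 2 → ℕ)} (hs : d.Val M L s) (l : Fin r)
    (w : ℤ) : w.toNat ≤ d.pt M H s l ↔ w ≤ d.zpt M H s l := by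
  unfold pt
  rw [Int.toNat_le, Int.toNat_of_nonneg (d.zpt_bounds hF hs l).1]

private theorem pt_lt (hF : d.Fits M L H R) {s : ℕ × (Fin 2 → ℕ)} (hs : d.Val M L s) (l : Fin r)
    (w : ℤ) : d.pt M H s l < w.toNat ↔ d.zpt M H s l < w := by
  unfold pt
  rw [Int.lt_toNat, Int.toNat_of_nonneg (d.zpt_bounds hF hs l).1]

/-- The comparison in the coordinate `l₂`. -/
private theorem cmp (hF : d.Fits M L H R) {x y t : ℕ} (hx : x < M) :
    (d.C : ℤ) * M * (|d.f₂ d.l₂| * t + d.th0 M) - |d.f₁ d.l₂| * M ≤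
      d.f₁ d.l₂ * x + d.C * M * (|d.f₂ d.l₂| * y + d.th0 M) ↔ t ≤ y := by
  have hM : (0 : ℤ) < M := by exact_mod_cast hF.hM
  have hq : 1 ≤ |d.f₂ d.l₂| := Int.one_le_abs d.hq
  have hC : (d.C : ℤ) = 2 * |d.f₁ d.l₂| + 1 := by
    unfold C
    push_cast
    rw [Int.abs_eq_natAbs]
  have hp : 0 ≤ |d.f₁ d.l₂| := abs_nonneg _
  have hxM : (x : ℤ) < M := by exact_mod_cast hx
  have hx0 : (0 : ℤ) ≤ x := Int.natCast_nonneg x
  have e1 : d.f₁ d.l₂ * x ≤ |d.f₁ d.l₂| * M :=
    (mul_le_mul_of_nonneg_right (le_abs_self _) hx0).trans (mul_le_mul_of_nonneg_left hxM.le hp)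
  have e2 : -(|d.f₁ d.l₂| * M) ≤ d.f₁ d.l₂ * x := by
    have := (mul_le_mul_of_nonneg_right (neg_abs_le (d.f₁ d.l₂)) hx0)
    have h2 := mul_le_mul_of_nonneg_left hxM.le hp
    linarith
  have hCM : 0 < (d.C : ℤ) * M := by
    rw [hC]
    positivity
  constructor
  · intro h
    by_contra hlt
    have hty : (y : ℤ) + 1 ≤ t := by exact_mod_cast Nat.succ_le_of_lt (not_le.mp hlt)
    have h3 : (d.C : ℤ) * M * (|d.f₂ d.l₂| * (t - y)) ≤ 2 * (|d.f₁ d.l₂| * M) := by
      linarith
    have h4 : (1 : ℤ) ≤ |d.f₂ d.l₂| * (t - y) := by nlinarith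
    have h5 : (d.C : ℤ) * M * 1 ≤ d.C * M * (|d.f₂ d.l₂| * (t - y)) :=
      mul_le_mul_of_nonneg_left h4 hCM.le
    rw [hC] at h3 h5
    nlinarith
  · intro h
    have hty : (t : ℤ) ≤ y := by exact_mod_cast h
    have h4 : |d.f₂ d.l₂| * (t : ℤ) ≤ |d.f₂ d.l₂| * y :=
      mul_le_mul_of_nonneg_left hty (by linarith)
    have h5 : (d.C : ℤ) * M * (|d.f₂ d.l₂| * t) ≤ d.C * M * (|d.f₂ d.l₂| * y) :=
      mul_le_mul_of_nonneg_left h4 hCM.le
    linarith

/-- The first coordinate of the walk in the window `w`. -/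
private def wx (L : ℕ) (w : Bool) : ℕ := if w = true then L else 0

/-- The boxes of a window. -/
private theorem window (hF : d.Fits M L H R) (a b c : Fin k → Fin 2 → ℕ) {s : ℕ × (Fin 2 → ℕ)}
    (hs : d.Val M L s) {w : Bool} (hw : s.1 = wx L w) (x : Cell k) :
    InBox (d.wlo M L H a c (.inl (w, x))) (d.whi M L H R b c (.inl (w, x))) (d.pt M H s) ↔
      InBox (clo M a c x) (chi M b c x) s.2 := by
  have hp := d.hp
  have hu := hs.2
  have hne := d.l_ne
  have hX : ∀ f : ℤ, (if w = true then f * ((L : ℤ) * M) else 0) = f * (M * s.1) := by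
    intro f
    rw [hw]
    unfold wx
    split_ifs <;> push_cast <;> ring
  have A : ∀ t : ℕ, H + (if w = true then d.f₁ d.l₁ * ((L : ℤ) * M) else 0) + d.f₁ d.l₁ * t ≤
      d.zpt M H s d.l₁ ↔ t ≤ s.2 0 := by
    intro t
    rw [hX, d.zpt_l1]
    constructor
    · intro h
      have h1 : d.f₁ d.l₁ * t ≤ d.f₁ d.l₁ * s.2 0 := by linarith
      exact_mod_cast le_of_mul_le_mul_left h1 hp
    · intro h
      have h1 : (t : ℤ) ≤ s.2 0 := by exact_mod_cast h
      have h2 := mul_le_mul_of_nonneg_left h1 hp.le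
      linarith
  have Z : ∀ t : ℕ, H + (if w = true then d.f₁ d.l₂ * ((L : ℤ) * M) else 0) +
      d.C * M * (|d.f₂ d.l₂| * t + d.th0 M) - |d.f₁ d.l₂| * M ≤
      d.zpt M H s d.l₂ ↔ t ≤ s.2 1 := by
    intro t
    rw [hX, d.zpt_l2 (hu 1).le, ← d.cmp hF (x := s.2 0) (y := s.2 1) (t := t) (hu 0)]
    constructor
    · intro h
      linarith
    · intro h
      linarith
  constructor
  · intro h l
    fin_cases l
    · have h1 := (d.le_pt hF hs d.l₁ _).1 (h d.l₁).1
      have h2 := (d.pt_lt hF hs d.l₁ _).1 (h d.l₁).2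
      simp only [wcor, if_true] at h1 h2
      refine ⟨(A _).1 h1, ?_⟩
      by_contra hlt
      exact absurd ((A _).2 (not_lt.mp hlt)) (not_le.mpr h2)
    · have h1 := (d.le_pt hF hs d.l₂ _).1 (h d.l₂).1
      have h2 := (d.pt_lt hF hs d.l₂ _).1 (h d.l₂).2
      simp only [wcor, if_neg hne.symm, if_true] at h1 h2
      refine ⟨(Z _).1 h1, ?_⟩
      by_contra hlt
      exact absurd ((Z _).2 (not_lt.mp hlt)) (not_le.mpr h2)
  · intro h l
    constructor
    · refine (d.le_pt hF hs l _).2 ?_
      rcases eq_or_ne l d.l₁ with h1 | h1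
      · subst h1
        simp only [wcor, if_true]
        exact (A _).2 (h 0).1
      · rcases eq_or_ne l d.l₂ with h2 | h2
        · subst h2
          simp only [wcor, if_neg hne.symm, if_true]
          exact (Z _).2 (h 1).1
        · simp only [wcor, if_neg h1, if_neg h2]
          exact (d.zpt_bounds hF hs l).1
    · refine (d.pt_lt hF hs l _).2 ?_
      rcases eq_or_ne l d.l₁ with h1 | h1
      · subst h1
        simp only [wcor, if_true]
        by_contra hlt
        exact absurd ((A _).1 (not_lt.mp hlt)) (not_le.mpr (h 0).2)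
      · rcases eq_or_ne l d.l₂ with h2 | h2
        · subst h2
          simp only [wcor, if_neg hne.symm, if_true]
          by_contra hlt
          exact absurd ((Z _).1 (not_lt.mp hlt)) (not_le.mpr (h 1).2)
        · simp only [wcor, if_neg h1, if_neg h2]
          exact (d.zpt_bounds hF hs l).2

theorem branch_mem (hF : d.Fits M L H R) (a b c : Fin k → Fin 2 → ℕ) {s : ℕ × (Fin 2 → ℕ)}
    (hs : d.Val M L s) : InBox (d.wlo M L H a c (brn M L a b c s))
      (d.whi M L H R b c (brn M L a b c s)) (d.pt M H s) := by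
  have hp := d.hp
  have hu := hs.2
  have hM : (0 : ℤ) < M := by exact_mod_cast hF.hM
  have hpM : 0 < d.f₁ d.l₁ * M := mul_pos hp hM
  have hu0 : (s.2 0 : ℤ) < M := by exact_mod_cast hu 0
  have hu0' : (0 : ℤ) ≤ s.2 0 := Int.natCast_nonneg _
  have hpu : d.f₁ d.l₁ * (s.2 0 : ℤ) < d.f₁ d.l₁ * M := mul_lt_mul_of_pos_left hu0 hp
  have hpu' : 0 ≤ d.f₁ d.l₁ * (s.2 0 : ℤ) := mul_nonneg hp.le hu0'
  have hz := d.zpt_l1 (M := M) (H := H) s
  unfold brn
  split_ifs with h0 h1 h2
  · exact (d.window hF a b c hs (w := false) (by simp [wx, h0]) _).2 (ccell_mem a b c hu)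
  · exact (d.window hF a b c hs (w := true) (by simp [wx, h1]) _).2 (ccell_mem a b c hu)
  · intro l
    refine ⟨?_, ?_⟩
    · rcases eq_or_ne l d.l₁ with e | e
      · subst e
        simp only [wlo, if_true]
        refine (d.le_pt hF hs _ _).2 ?_
        rw [hz]
        have h3 : (L : ℤ) + 1 ≤ s.1 := by exact_mod_cast Nat.succ_le_of_lt h2
        have h4 := mul_le_mul_of_nonneg_left h3 hpM.le
        nlinarith
      · simp only [wlo, if_neg e]
        exact Nat.zero_le _
    · have := (d.pt_lt hF hs l R).2 (d.zpt_bounds hF hs l).2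
      simpa only [whi, Int.toNat_natCast] using this
  · intro l
    have h3 : (1 : ℤ) ≤ s.1 := by exact_mod_cast Nat.one_le_iff_ne_zero.mpr h0
    have h4 : (s.1 : ℤ) + 1 ≤ L := by
      have : s.1 < L := lt_of_le_of_ne (not_lt.mp h2) h1
      exact_mod_cast Nat.succ_le_of_lt this
    have h5 := mul_le_mul_of_nonneg_left h3 hpM.le
    have h6 := mul_le_mul_of_nonneg_left h4 hpM.le
    refine ⟨?_, ?_⟩
    · rcases eq_or_ne l d.l₁ with e | e
      · subst e
        simp only [wlo, if_true]
        refine (d.le_pt hF hs _ _).2 ?_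
        rw [hz]
        linarith
      · simp only [wlo, if_neg e]
        exact Nat.zero_le _
    · rcases eq_or_ne l d.l₁ with e | e
      · subst e
        simp only [whi, if_true]
        refine (d.pt_lt hF hs _ _).2 ?_
        rw [hz]
        linarith
      · have := (d.pt_lt hF hs l R).2 (d.zpt_bounds hF hs l).2
        simpa only [whi, if_neg e, Int.toNat_natCast] using this

theorem branch_lt (hF : d.Fits M L H R) (a b c : Fin k → Fin 2 → ℕ) {s : ℕ × (Fin 2 → ℕ)}
    (hs : d.Val M L s) {x : Brn k} (hx : InBox (d.wlo M L H a c x) (d.whi M L H R b c x)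
      (d.pt M H s)) (hne : x ≠ brn M L a b c s) : brk (brn M L a b c s) < brk x := by
  have hp := d.hp
  have hu := hs.2
  have hM : (0 : ℤ) < M := by exact_mod_cast hF.hM
  have hL : (1 : ℤ) ≤ L := by exact_mod_cast Nat.one_le_iff_ne_zero.mpr (d.L_pos hF).ne'
  have hpM : 0 < d.f₁ d.l₁ * M := mul_pos hp hM
  have hu0 : (s.2 0 : ℤ) < M := by exact_mod_cast hu 0
  have hu0' : (0 : ℤ) ≤ s.2 0 := Int.natCast_nonneg _
  have hpu : d.f₁ d.l₁ * (s.2 0 : ℤ) < d.f₁ d.l₁ * M := mul_lt_mul_of_pos_left hu0 hp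
  have hpu' : 0 ≤ d.f₁ d.l₁ * (s.2 0 : ℤ) := mul_nonneg hp.le hu0'
  have hz := d.zpt_l1 (M := M) (H := H) s
  have hpL := mul_le_mul_of_nonneg_left hL hpM.le
  have hx1 := (hx d.l₁).1
  have hx2 := (hx d.l₁).2
  have hcard : ∀ y : Cell k, y.1.card ≤ k := fun y => by
    simpa using Finset.card_le_univ y.1
  have key : ∀ y : Cell k, InBox (clo M a c y) (chi M b c y) s.2 → y ≠ ccell M a b c s.2 →
      k - (ccell M a b c s.2).1.card < k - y.1.card := by
    intro y hy hne
    have h1 := ccell_lt a b c hu hy hne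
    have h2 := hcard (ccell M a b c s.2)
    omega
  rcases x with ⟨w, y⟩ | w
  · have hchi : d.f₁ d.l₁ * (chi M b c y 0 : ℤ) ≤ d.f₁ d.l₁ * M :=
      mul_le_mul_of_nonneg_left (by exact_mod_cast chi_le M b c y 0) hp.le
    have hclo : 0 ≤ d.f₁ d.l₁ * (clo M a c y 0 : ℤ) :=
      mul_nonneg hp.le (Int.natCast_nonneg _)
    have hx1' := (d.le_pt hF hs d.l₁ _).1 hx1
    have hx2' := (d.pt_lt hF hs d.l₁ _).1 hx2
    simp only [wcor, if_true] at hx1' hx2'
    rw [hz] at hx1' hx2'
    cases w
    · simp only [Bool.false_eq_true, if_false] at hx1' hx2'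
      have h0 : s.1 = 0 := by
        by_contra h0
        have h3 : (1 : ℤ) ≤ s.1 := by exact_mod_cast Nat.one_le_iff_ne_zero.mpr h0
        have h5 := mul_le_mul_of_nonneg_left h3 hpM.le
        linarith
      have hb : brn M L a b c s = .inl (false, ccell M a b c s.2) := by
        unfold brn
        rw [if_pos h0]
      rw [hb] at hne ⊢
      refine key y ((d.window hF a b c hs (w := false) (by simp [wx, h0]) y).1 hx) ?_
      rintro rfl
      exact hne rfl
    · simp only [if_true] at hx1' hx2'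
      have h0 : s.1 = L := by
        rcases lt_trichotomy s.1 L with h | h | h
        · exfalso
          have h3 : (s.1 : ℤ) + 1 ≤ L := by exact_mod_cast Nat.succ_le_of_lt h
          have h5 := mul_le_mul_of_nonneg_left h3 hpM.le
          linarith
        · exact h
        · exfalso
          have h3 : (L : ℤ) + 1 ≤ s.1 := by exact_mod_cast Nat.succ_le_of_lt h
          have h5 := mul_le_mul_of_nonneg_left h3 hpM.le
          linarith
      have hb : brn M L a b c s = .inl (true, ccell M a b c s.2) := by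
        unfold brn
        rw [if_neg (by rw [h0]; exact (d.L_pos hF).ne'), if_pos h0]
      rw [hb] at hne ⊢
      refine key y ((d.window hF a b c hs (w := true) (by simp [wx, h0]) y).1 hx) ?_
      rintro rfl
      exact hne rfl
  · exfalso
    cases w
    · simp only [wlo, whi, if_true] at hx1 hx2
      have hx1' := (d.le_pt hF hs d.l₁ _).1 hx1
      have hx2' := (d.pt_lt hF hs d.l₁ _).1 hx2
      rw [hz] at hx1' hx2'
      apply hne
      unfold brn
      have h0 : s.1 ≠ 0 := by
        intro h0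
        rw [h0] at hx1'
        push_cast at hx1'
        linarith
      have h1 : s.1 < L := by
        by_contra h1
        have h3 : (L : ℤ) ≤ s.1 := by exact_mod_cast not_lt.mp h1
        have h5 := mul_le_mul_of_nonneg_left h3 hpM.le
        linarith
      rw [if_neg h0, if_neg h1.ne, if_neg (not_lt.mpr h1.le)]
    · simp only [wlo, if_true] at hx1
      have hx1' := (d.le_pt hF hs d.l₁ _).1 hx1
      rw [hz] at hx1'
      apply hne
      unfold brn
      have h1 : L < s.1 := by
        by_contra h1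
        have h3 : (s.1 : ℤ) ≤ L := by exact_mod_cast not_lt.mp h1
        have h5 := mul_le_mul_of_nonneg_left h3 hpM.le
        linarith
      rw [if_neg (by have := d.L_pos hF; omega), if_neg h1.ne', if_pos h1]

end ShData

end Pool.Agent.MTr
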