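import Mathlib
import Pool.Agent.MTr.WDefs

/-!
# The walk machine simulates the map `S`

Proof of `phi_hits`. `D` is preserved, so all second components are in `D`.

Invariant of the run from `(0, x)`: the first component is `≤ L + G` with `G < L` (`phi_bound`), so
a first component divisible by `L` is `0` or `L` (as `L + G < 2 L`).

(a) From a state `(0, u)` or `(L, u)` the next state is `(g u, S u)`. Write `u' = S u`. If `g = 0` on
`D` this is `(0, S u)`. Otherwise `0 < g u' < L`; as long as the first component is not `0` or `L`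
the next state keeps `u'` and the first component is increased by `g u'` modulo `L`; so the states
after `j` further steps are `(X_j, u')` with `X_j ≡ g u + j * g u'` modulo `L`, as long as no
`X_i` with `i < j` is divisible by `L`. As `L` is prime and `g u'` is invertible modulo `L`, there
is a `j` with `g u + j * g u' ≡ 0`; for the least such `j`, `X_j` is `0` or `L`. So for every state
`(0, u)` or `(L, u)` with `D u` there is `n ≥ 1` such that the state after `n` steps is `(0, S u)` or
`(L, S u)`, and the states after `i` steps, `0 < i < n`, have a first component different from `0`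
and `L`.

(b) `→`: by induction on `t`, `(0, S^[t] x)` or `(L, S^[t] x)` is reached. `←`: by induction on the
time `t` (strong): every reached state `(0, y)` or `(L, y)` has `y = S^[t'] x` for some `t'`. It may
be convenient to prove the invariant: every reached state `(X, u)` has `u = S^[t'] x` for some `t'`
(the second component changes only by `S`, so this direction needs nothing about primes).
-/

set_option autoImplicit false

namespace Pool.Agent.MTr

theorem phi_bound {L G : ℕ} (hG : G < L) {g : (Fin 2 → ℕ) → ℕ} {S : (Fin 2 → ℕ) → Fin 2 → ℕ}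
    {D : (Fin 2 → ℕ) → Prop} (hD : ∀ u, D u → D (S u)) (hg : ∀ u, D u → g u ≤ G)
    {x : Fin 2 → ℕ} (hx : D x) (t : ℕ) :
    ((phi L g S)^[t] (0, x)).1 ≤ L + G ∧ D ((phi L g S)^[t] (0, x)).2 := by
  induction t with
  | zero => exact ⟨Nat.zero_le _, hx⟩
  | succ t ih =>
    rw [Function.iterate_succ_apply']
    obtain ⟨s, hs⟩ : ∃ s, s = (phi L g S)^[t] (0, x) := ⟨_, rfl⟩
    rw [← hs] at ih ⊢
    obtain ⟨h1, h2⟩ := ih
    have h3 := hg s.2 h2
    unfold phi
    split_ifs with h4 h5
    · exact ⟨by show g s.2 ≤ L + G; omega, hD _ h2⟩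
    · exact ⟨by show s.1 - L + g s.2 ≤ L + G; omega, h2⟩
    · exact ⟨by show s.1 + g s.2 ≤ L + G; omega, h2⟩

private lemma step_WPhi {L G : ℕ} (hL : L.Prime) (hG : G < L) {g : (Fin 2 → ℕ) → ℕ}
    {S : (Fin 2 → ℕ) → Fin 2 → ℕ} {D : (Fin 2 → ℕ) → Prop} (hD : ∀ u, D u → D (S u))
    (hgG : ∀ u, D u → g u ≤ G) (hg : (∀ u, D u → g u = 0) ∨ ∀ u, D u → 0 < g u)
    {s : ℕ × (Fin 2 → ℕ)} (hs : s.1 = 0 ∨ s.1 = L) (hu : D s.2) :
    ∃ n, (phi L g S)^[n] s = (0, S s.2) ∨ (phi L g S)^[n] s = (L, S s.2) := by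
  have h1 : phi L g S s = (g s.2, S s.2) := by
    unfold phi
    rw [if_pos hs]
  rcases hg with h0 | hpos
  · refine ⟨1, Or.inl ?_⟩
    rw [Function.iterate_one, h1, h0 _ hu]
  have : Fact L.Prime := ⟨hL⟩
  obtain ⟨u', hu'⟩ : ∃ u', u' = S s.2 := ⟨_, rfl⟩
  have hDu' : D u' := hu' ▸ hD _ hu
  rw [← hu'] at h1 ⊢
  have key : ∀ j : ℕ, (∃ i, (phi L g S)^[i] (g s.2, u') = (0, u') ∨
      (phi L g S)^[i] (g s.2, u') = (L, u')) ∨
      (((phi L g S)^[j] (g s.2, u')).2 = u' ∧
        ((phi L g S)^[j] (g s.2, u')).1 ≤ L + G ∧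
        ((((phi L g S)^[j] (g s.2, u')).1 : ℕ) : ZMod L) = g s.2 + j * g u') := by
    intro j
    induction j with
    | zero =>
      right
      refine ⟨rfl, ?_, ?_⟩
      · show g s.2 ≤ L + G
        have := hgG _ hu
        omega
      · show ((g s.2 : ℕ) : ZMod L) = g s.2 + ((0 : ℕ) : ZMod L) * g u'
        rw [Nat.cast_zero, zero_mul, add_zero]
    | succ j ih =>
      rcases ih with h | ⟨h2, h3, h4⟩
      · exact Or.inl h
      obtain ⟨a, ha⟩ : ∃ a, a = (phi L g S)^[j] (g s.2, u') := ⟨_, rfl⟩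
      rw [← ha] at h2 h3 h4
      rw [Function.iterate_succ_apply', ← ha]
      by_cases h5 : a.1 = 0 ∨ a.1 = L
      · left
        refine ⟨j, ?_⟩
        rw [← ha]
        rcases h5 with h5 | h5
        · exact Or.inl (Prod.ext h5 h2)
        · exact Or.inr (Prod.ext h5 h2)
      · right
        have h6 := hgG u' hDu'
        unfold phi
        rw [if_neg h5]
        split_ifs with h7
        · refine ⟨h2, ?_, ?_⟩
          · show a.1 - L + g a.2 ≤ L + G
            rw [h2]
            omega
          · show ((a.1 - L + g a.2 : ℕ) : ZMod L) = g s.2 + ((j + 1 : ℕ) : ZMod L) * g u'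
            rw [h2, Nat.cast_add, Nat.cast_sub h7.le, h4, ZMod.natCast_self]
            push_cast
            ring
        · refine ⟨h2, ?_, ?_⟩
          · show a.1 + g a.2 ≤ L + G
            rw [h2]
            omega
          · show ((a.1 + g a.2 : ℕ) : ZMod L) = g s.2 + ((j + 1 : ℕ) : ZMod L) * g u'
            rw [h2, Nat.cast_add, h4]
            push_cast
            ring
  have hne : ((g u' : ℕ) : ZMod L) ≠ 0 := by
    rw [Ne, ZMod.natCast_eq_zero_iff]
    intro hdvd
    have h8 := Nat.le_of_dvd (hpos _ hDu') hdvd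
    have h9 := hgG _ hDu'
    omega
  have hfin : ∃ i, (phi L g S)^[i] (g s.2, u') = (0, u') ∨
      (phi L g S)^[i] (g s.2, u') = (L, u') := by
    rcases key ((-((g s.2 : ℕ) : ZMod L)) * (((g u' : ℕ) : ZMod L))⁻¹).val with h | ⟨h2, h3, h4⟩
    · exact h
    · rw [ZMod.natCast_zmod_val, mul_assoc, inv_mul_cancel₀ hne, mul_one, add_neg_cancel,
        ZMod.natCast_eq_zero_iff] at h4
      obtain ⟨c, hc⟩ := h4
      have hc2 : c = 0 ∨ c = 1 := by
        have hlt : L * c < L * 2 := by omega
        have := Nat.lt_of_mul_lt_mul_left hlt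
        omega
      refine ⟨((-((g s.2 : ℕ) : ZMod L)) * (((g u' : ℕ) : ZMod L))⁻¹).val, ?_⟩
      rcases hc2 with rfl | rfl
      · left
        exact Prod.ext (by rw [hc, mul_zero]) h2
      · right
        exact Prod.ext (by rw [hc, mul_one]) h2
  obtain ⟨i, hi⟩ := hfin
  refine ⟨i + 1, ?_⟩
  rw [Function.iterate_succ_apply, h1]
  exact hi

theorem phi_hits {L G : ℕ} (hL : L.Prime) (hG : G < L) {g : (Fin 2 → ℕ) → ℕ}
    {S : (Fin 2 → ℕ) → Fin 2 → ℕ} {D : (Fin 2 → ℕ) → Prop} (hD : ∀ u, D u → D (S u))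
    (hgG : ∀ u, D u → g u ≤ G) (hg : (∀ u, D u → g u = 0) ∨ ∀ u, D u → 0 < g u)
    {x : Fin 2 → ℕ} (hx : D x) (y : Fin 2 → ℕ) :
    (∃ t, S^[t] x = y) ↔
      ∃ t, (phi L g S)^[t] (0, x) = (0, y) ∨ (phi L g S)^[t] (0, x) = (L, y) := by
  constructor
  · rintro ⟨t, rfl⟩
    induction t with
    | zero => exact ⟨0, Or.inl rfl⟩
    | succ t ih =>
      obtain ⟨n, hn⟩ := ih
      have h2 : ((phi L g S)^[n] (0, x)).2 = S^[t] x := by
        rcases hn with hn | hn <;> rw [hn]
      have h1 : ((phi L g S)^[n] (0, x)).1 = 0 ∨ ((phi L g S)^[n] (0, x)).1 = L := by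
        rcases hn with hn | hn
        · left
          rw [hn]
        · right
          rw [hn]
      obtain ⟨k, hk⟩ := step_WPhi hL hG hD hgG hg h1 (phi_bound hG hD hgG hx n).2
      refine ⟨k + n, ?_⟩
      rw [Function.iterate_add_apply, Function.iterate_succ_apply', ← h2]
      exact hk
  · rintro ⟨t, ht⟩
    have key : ∀ t, ∃ t', S^[t'] x = ((phi L g S)^[t] (0, x)).2 := by
      intro t
      induction t with
      | zero => exact ⟨0, rfl⟩
      | succ t ih =>
        obtain ⟨t', ht'⟩ := ih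
        rw [Function.iterate_succ_apply']
        unfold phi
        split_ifs
        · refine ⟨t' + 1, ?_⟩
          rw [Function.iterate_succ_apply', ht']
          rfl
        · exact ⟨t', ht'⟩
        · exact ⟨t', ht'⟩
    obtain ⟨t', ht'⟩ := key t
    refine ⟨t', ?_⟩
    rw [ht']
    rcases ht with ht | ht <;> rw [ht]

end Pool.Agent.MTr
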