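import Mathlib
import Pool.Agent.MTr.WPt
import Pool.Agent.MTr.WCell

/-!
# The value of the exact map in a branch

Proof of `branch_val`. `lin B (pt s) l = ∑ m, B l m * zpt s m`, which is
`H * ∑ m, B l m + (M X + u 0) * f₁ l + C M th * (f₂ l + κ * f₁ l)` (`h1`, `h2`), and
`C M th κ = M * g u`. Adding `wtr`:
* `X = 0`: `H + (M * g u + u 0 + cS 0 - [bit 0] M) f₁ l +
  (C M th(u 1) + C M sign(q) (cS 1 - [bit 1] M)) f₂ l`,
  which is `zpt (g u, S u)` by `tmap_ccell` and `th_sub` (`S u = tmap 1 M a b c u`, whose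
  values are `< M`: `Nat.mod_lt`).
* `X = L`: the same, since `M L` is subtracted.
* `L < X`: `M X - L M = M (X - L)`.
* `0 < X < L`: nothing to subtract.
-/

set_option autoImplicit false

namespace Pool.Agent.MTr

open Pool.Agent.PTr Finset

variable {r k : ℕ}

namespace ShData

variable {B : Matrix (Fin r) (Fin r) ℤ} (d : ShData B) {M L H R : ℕ}

private theorem lin_WVal (hF : d.Fits M L H R) {s : ℕ × (Fin 2 → ℕ)} (hs : d.Val M L s)
    (l : Fin r) : lin B (d.pt M H s) l = (∑ m, B l m * (H : ℤ)) +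
      (M * s.1 + s.2 0) * d.f₁ l + (d.C * M * d.th M (s.2 1)) * (d.f₂ l + d.κ * d.f₁ l) := by
  have hpt : ∀ m, (d.pt M H s m : ℤ) = d.zpt M H s m := fun m =>
    Int.toNat_of_nonneg (d.zpt_bounds hF hs m).1
  have h1 : ∑ m, B l m * d.f₁ m = d.f₁ l := congrFun d.h1 l
  have h2 : ∑ m, B l m * d.f₂ m = d.f₂ l + d.κ * d.f₁ l := congrFun d.h2 l
  unfold lin
  rw [← h2, Finset.mul_sum]
  conv_rhs => rw [← h1]
  rw [Finset.mul_sum, ← Finset.sum_add_distrib, ← Finset.sum_add_distrib]
  refine Finset.sum_congr rfl fun m _ => ?_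
  rw [hpt]
  unfold zpt
  push_cast
  ring

theorem branch_val (hF : d.Fits M L H R) (a b c : Fin k → Fin 2 → ℕ) {s : ℕ × (Fin 2 → ℕ)}
    (hs : d.Val M L s) (l : Fin r) :
    lin B (d.pt M H s) l + d.wtr M L H c (brn M L a b c s) l =
      d.zpt M H (phi L (d.g M) (tmap 1 M a b c) s) l := by
  obtain ⟨X, u⟩ := s
  have hu : ∀ l, u l < M := hs.2
  have hlin := d.lin_WVal hF hs l
  simp only at hlin
  have hS : ∀ j, tmap 1 M a b c u j < M := fun j => Nat.mod_lt _ hF.hM
  have ht0 := tmap_ccell a b c hu 0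
  have ht1 := tmap_ccell a b c hu 1
  have hth := d.th_sub (M := M) (hu 1) (hS 1)
  rw [ht1] at hth
  have hg : (d.g M u : ℤ) = d.κ * d.C * d.th M (u 1) := by
    unfold g
    push_cast
    ring
  rw [hlin]
  by_cases h0 : X = 0
  · subst h0
    have hb : brn M L a b c (0, u) = .inl (false, ccell M a b c u) := by simp [brn]
    have hp : phi L (d.g M) (tmap 1 M a b c) (0, u) = (d.g M u, tmap 1 M a b c u) := by
      simp [phi]
    rw [hb, hp]
    simp only [wtr, zpt]
    push_cast
    rw [ht0, hth, hg]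
    ring
  by_cases hL : X = L
  · subst hL
    have hb : brn M X a b c (X, u) = .inl (true, ccell M a b c u) := by simp [brn, h0]
    have hp : phi X (d.g M) (tmap 1 M a b c) (X, u) = (d.g M u, tmap 1 M a b c u) := by
      simp [phi]
    rw [hb, hp]
    simp only [wtr, zpt]
    push_cast
    rw [ht0, hth, hg]
    ring
  by_cases hLX : L < X
  · have hb : brn M L a b c (X, u) = .inr true := by simp [brn, h0, hL, hLX]
    have hp : phi L (d.g M) (tmap 1 M a b c) (X, u) = (X - L + d.g M u, u) := by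
      simp [phi, h0, hL, hLX]
    rw [hb, hp]
    simp only [wtr, zpt]
    push_cast [Nat.cast_sub hLX.le]
    rw [hg]
    ring
  · have hb : brn M L a b c (X, u) = .inr false := by simp [brn, h0, hL, hLX]
    have hp : phi L (d.g M) (tmap 1 M a b c) (X, u) = (X + d.g M u, u) := by
      simp [phi, h0, hL, hLX]
    rw [hb, hp]
    simp only [wtr, zpt]
    push_cast
    rw [hg]
    ring

end ShData

end Pool.Agent.MTr
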