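import Mathlib
import Pool.Agent.MTr.WBranch
import Pool.Agent.MTr.WVal
import Pool.Agent.MTr.WPhi

/-!
# The exact map of the shear follows the walk machine

Proofs. Let `i = e.symm (brn M L a b c s)`.
* `first_pt`: `branch_mem` gives the membership; if `j < i` and the box of `e j` contains the point
  then `e j ≠ e i`, so `brk (e i) < brk (e j)` by `branch_lt`, but `he j i` gives
  `brk (e j) ≤ brk (e i)`.
* `bmap_pt`: by `first_pt` and `sum_first` (or `bmap_eq` of Phase) the value is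
  `(lin B (pt s) l + (wtr l).toNat - (-wtr l).toNat).toNat = (lin + wtr).toNat`
  (`Int.toNat_sub_toNat_neg`), and `branch_val`.
* `val_phi`: `phi` preserves `Val`: `phi_bound` with `D u := ∀ l, u l < M` for one step is not
  enough as it is stated from `(0, x)`, so check directly: `X = 0` or `L`: `g u ≤ G`;
  `L < X ≤ L + G`:
  `X - L + g u ≤ G + G ≤ L + G`; `X < L`: `X + g u ≤ L + G`, with `G = κ C M < L`, `g_le`.
  The values of `tmap 1 M a b c` are `< M` (`Nat.mod_lt`).
* `iter_pt`: induction with `bmap_pt` and `val_phi`. `Val (0, x)` is clear.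
* `good_pt`: by `iter_pt` each iterate is `pt` of a valid state: `zpt_bounds`, `first_pt`,
  `branch_val` and `0 ≤ zpt (phi s)`.
* `hits_pt`: `iter_pt`, `pt_inj` and `phi_hits` (with `G = κ C M`, `g_le`, `g_dich`).
-/

set_option autoImplicit false

namespace Pool.Agent.MTr

open Pool.Agent.PTr Finset

variable {r k K : ℕ}

private theorem iter_WConj {α β : Type} {f : α → α} {F : β → β} {p : α → β} {V : α → Prop}
    (hV : ∀ s, V s → V (f s)) (hF : ∀ s, V s → F (p s) = p (f s)) {s : α} (hs : V s) (t : ℕ) :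
    V (f^[t] s) ∧ F^[t] (p s) = p (f^[t] s) := by
  induction t with
  | zero => exact ⟨hs, rfl⟩
  | succ t ih =>
    rw [Function.iterate_succ_apply', Function.iterate_succ_apply', ih.2]
    exact ⟨hV _ ih.1, hF _ ih.1⟩

private theorem tmap_WConj {M : ℕ} (hM : 0 < M) (a b c : Fin k → Fin 2 → ℕ) (u : Fin 2 → ℕ)
    (l : Fin 2) : tmap 1 M a b c u l < M := Nat.mod_lt _ hM

namespace ShData

variable {B : Matrix (Fin r) (Fin r) ℤ} (d : ShData B) {M L H R : ℕ}

theorem first_pt (hF : d.Fits M L H R) (a b c : Fin k → Fin 2 → ℕ) (e : Fin K ≃ Brn k)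
    (he : ∀ i j, i < j → brk (e i) ≤ brk (e j)) {s : ℕ × (Fin 2 → ℕ)} (hs : d.Val M L s) :
    First (fun i => d.wlo M L H a c (e i)) (fun i => d.whi M L H R b c (e i)) (d.pt M H s)
      (e.symm (brn M L a b c s)) := by
  refine ⟨?_, fun j hj hbox => ?_⟩
  · show InBox (d.wlo M L H a c (e (e.symm (brn M L a b c s))))
      (d.whi M L H R b c (e (e.symm (brn M L a b c s)))) (d.pt M H s)
    rw [e.apply_symm_apply]
    exact d.branch_mem hF a b c hs
  · have hne : e j ≠ brn M L a b c s := by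
      intro h
      rw [← h, e.symm_apply_apply] at hj
      exact lt_irrefl _ hj
    have h1 := d.branch_lt hF a b c hs hbox hne
    have h2 := he j _ hj
    rw [e.apply_symm_apply] at h2
    omega

theorem bmap_pt (hF : d.Fits M L H R) (a b c : Fin k → Fin 2 → ℕ) (e : Fin K ≃ Brn k)
    (he : ∀ i j, i < j → brk (e i) ≤ brk (e j)) {s : ℕ × (Fin 2 → ℕ)} (hs : d.Val M L s) :
    bmap B (fun i => d.wlo M L H a c (e i)) (fun i => d.whi M L H R b c (e i))
      (fun i l => (d.wtr M L H c (e i) l).toNat) (fun i l => (-d.wtr M L H c (e i) l).toNat)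
      (d.pt M H s) = d.pt M H (phi L (d.g M) (tmap 1 M a b c) s) := by
  have hf := d.first_pt hF a b c e he hs
  funext l
  unfold bmap
  rw [sum_first hf]
  beta_reduce
  rw [e.apply_symm_apply, add_sub_assoc, Int.toNat_sub_toNat_neg, d.branch_val hF a b c hs l]
  rfl

theorem val_phi (hF : d.Fits M L H R) (a b c : Fin k → Fin 2 → ℕ) {s : ℕ × (Fin 2 → ℕ)}
    (hs : d.Val M L s) : d.Val M L (phi L (d.g M) (tmap 1 M a b c) s) := by
  obtain ⟨h1, h2⟩ := hs
  have h3 := d.g_le h2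
  have h4 := hF.hL
  unfold phi
  split_ifs with h5 h6
  · exact ⟨by show d.g M s.2 ≤ _; omega, fun l => tmap_WConj hF.hM a b c s.2 l⟩
  · exact ⟨by show s.1 - L + d.g M s.2 ≤ _; omega, h2⟩
  · exact ⟨by show s.1 + d.g M s.2 ≤ _; omega, h2⟩

theorem good_pt (hF : d.Fits M L H R) (a b c : Fin k → Fin 2 → ℕ) (e : Fin K ≃ Brn k)
    (he : ∀ i j, i < j → brk (e i) ≤ brk (e j)) {x : Fin 2 → ℕ} (hx : ∀ l, x l < M) :
    Good B R (fun i => d.wlo M L H a c (e i)) (fun i => d.whi M L H R b c (e i))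
      (fun i l => (d.wtr M L H c (e i) l).toNat) (fun i l => (-d.wtr M L H c (e i) l).toNat)
      (d.pt M H (0, x)) := by
  intro t
  have hV : d.Val M L (0, x) := ⟨Nat.zero_le _, hx⟩
  obtain ⟨h1, h2⟩ := iter_WConj (f := phi L (d.g M) (tmap 1 M a b c)) (p := d.pt M H)
    (V := d.Val M L) (fun s hs => d.val_phi hF a b c hs)
    (fun s hs => d.bmap_pt hF a b c e he hs) hV t
  rw [h2]
  refine ⟨fun l => ?_, _, d.first_pt hF a b c e he h1, fun l => ?_⟩
  · have h3 := d.zpt_bounds hF h1 l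
    show (d.zpt M H _ l).toNat < R
    omega
  · beta_reduce
    rw [e.apply_symm_apply, add_sub_assoc, Int.toNat_sub_toNat_neg,
      d.branch_val hF a b c h1 l]
    exact (d.zpt_bounds hF (d.val_phi hF a b c h1) l).1

theorem hits_pt (hF : d.Fits M L H R) (hL : L.Prime) (a b c : Fin k → Fin 2 → ℕ)
    (e : Fin K ≃ Brn k) (he : ∀ i j, i < j → brk (e i) ≤ brk (e j)) {x y : Fin 2 → ℕ}
    (hx : ∀ l, x l < M) (hy : ∀ l, y l < M) :
    (∃ t, (tmap 1 M a b c)^[t] x = y) ↔
      (∃ t, (bmap B (fun i => d.wlo M L H a c (e i)) (fun i => d.whi M L H R b c (e i))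
        (fun i l => (d.wtr M L H c (e i) l).toNat)
        (fun i l => (-d.wtr M L H c (e i) l).toNat))^[t] (d.pt M H (0, x)) = d.pt M H (0, y)) ∨
      (∃ t, (bmap B (fun i => d.wlo M L H a c (e i)) (fun i => d.whi M L H R b c (e i))
        (fun i l => (d.wtr M L H c (e i) l).toNat)
        (fun i l => (-d.wtr M L H c (e i) l).toNat))^[t] (d.pt M H (0, x)) = d.pt M H (L, y)) := by
  have hV : d.Val M L (0, x) := ⟨Nat.zero_le _, hx⟩
  have hit := fun t => iter_WConj (f := phi L (d.g M) (tmap 1 M a b c)) (p := d.pt M H)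
    (V := d.Val M L) (fun s hs => d.val_phi hF a b c hs)
    (fun s hs => d.bmap_pt hF a b c e he hs) hV t
  have hy0 : d.Val M L (0, y) := ⟨Nat.zero_le _, hy⟩
  have hyL : d.Val M L (L, y) := ⟨Nat.le_add_right _ _, hy⟩
  rw [phi_hits hL hF.hL (D := fun u => ∀ l, u l < M)
    (fun u _ l => tmap_WConj hF.hM a b c u l) (fun u hu => d.g_le hu) d.g_dich hx y]
  constructor
  · rintro ⟨t, ht | ht⟩
    · left
      exact ⟨t, by rw [(hit t).2, ht]⟩
    · right
      exact ⟨t, by rw [(hit t).2, ht]⟩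
  · rintro (⟨t, ht⟩ | ⟨t, ht⟩)
    · rw [(hit t).2] at ht
      exact ⟨t, Or.inl (d.pt_inj hF (hit t).1 hy0 ht)⟩
    · rw [(hit t).2] at ht
      exact ⟨t, Or.inr (d.pt_inj hF (hit t).1 hyL ht)⟩

end ShData

end Pool.Agent.MTr
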