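import Mathlib
import Pool.Agent.MTr.WDefs
import Pool.Agent.MTr.ZF
import Pool.Agent.MTr.QMain

/-!
# The data of the walk machine are definable

Everything is built from the given functions by the closure properties `DFun.add`, `DFun.mul`,
`DFun.sub` (truncated subtraction), `DFun.const`, `DFun.ite`, `dfun_max`, `dfun_sup` (QMain), and,
for integer valued functions, `ZF.add`, `ZF.sub`, `ZF.mul`, `ZF.sum`, `ZF.const`, `ZF.nat`,
`ZF.toNat`, `ZF.ite` (ZF.lean). Case distinctions on the fixed (independent of `v`) data: the branch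
`x`, the bits, `l = d.l₁`, `l = d.l₂`, `0 < d.f₂ d.l₂`. `min s t = s - (s - t)` (truncated) for
`chi`. `M % ...`: a function `DFun.mod` exists (used in `dfun_amap`, Univ.lean, via `ZF.emod`).
`th M ζ` with `ζ` definable: `DFun.add`, `DFun.sub`.
-/

set_option autoImplicit false

namespace Pool.Agent.MTr

open Pool.Agent.Grz Pool.Agent.PTr Finset

variable {r k n : ℕ}

private theorem dfun_sum_WDef {α : Type} (s : Finset α) {f : α → (Fin n → ℕ) → ℕ}
    (hf : ∀ a, DFun n (f a)) : DFun n (fun v => ∑ a ∈ s, f a v) := by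
  classical
  induction s using Finset.induction_on with
  | empty => simpa using DFun.const (n := n) 0
  | insert a s ha ih =>
    have h := (hf a).add ih
    refine (?_ : (fun v => ∑ b ∈ insert a s, f b v) = _) ▸ h
    funext v
    rw [Finset.sum_insert ha]

private theorem dfun_cS_WDef {M : (Fin n → ℕ) → ℕ} {c : Fin k → Fin 2 → (Fin n → ℕ) → ℕ}
    (hM : DFun n M) (hc : ∀ i l, DFun n (c i l)) (I : Finset (Fin k)) (l : Fin 2) :
    DFun n (fun v => cS (M v) (fun i l => c i l v) I l) :=
  DFun.modAny (dfun_sum_WDef I fun i => hc i l) hM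

private theorem dfun_clo_WDef {M : (Fin n → ℕ) → ℕ} {a c : Fin k → Fin 2 → (Fin n → ℕ) → ℕ}
    (hM : DFun n M) (ha : ∀ i l, DFun n (a i l)) (hc : ∀ i l, DFun n (c i l)) (x : Cell k)
    (l : Fin 2) :
    DFun n (fun v => clo (M v) (fun i l => a i l v) (fun i l => c i l v) x l) := by
  by_cases h : x.2 l = true
  · have h1 := dfun_max (dfun_sup x.1 fun i => ha i l) (hM.sub (dfun_cS_WDef hM hc x.1 l))
    refine (?_ : (fun v => clo (M v) (fun i l => a i l v) (fun i l => c i l v) x l) = _) ▸ h1
    funext v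
    simp only [clo, if_pos h]
  · have h1 := dfun_max (dfun_sup x.1 fun i => ha i l) (DFun.const (n := n) 0)
    refine (?_ : (fun v => clo (M v) (fun i l => a i l v) (fun i l => c i l v) x l) = _) ▸ h1
    funext v
    simp only [clo, if_neg h]

private theorem dfun_min_WDef {f g : (Fin n → ℕ) → ℕ} (hf : DFun n f) (hg : DFun n g) :
    DFun n (fun v => min (f v) (g v)) := by
  have h := hf.sub (hf.sub hg)
  refine (?_ : (fun v => min (f v) (g v)) = fun v => f v - (f v - g v)) ▸ h
  funext v
  omega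

private theorem dfun_chi_WDef {M : (Fin n → ℕ) → ℕ} {b c : Fin k → Fin 2 → (Fin n → ℕ) → ℕ}
    (hM : DFun n M) (hb : ∀ i l, DFun n (b i l)) (hc : ∀ i l, DFun n (c i l)) (x : Cell k)
    (l : Fin 2) :
    DFun n (fun v => chi (M v) (fun i l => b i l v) (fun i l => c i l v) x l) := by
  have h0 := hM.sub (dfun_sup x.1 fun i => hM.sub (hb i l))
  by_cases h : x.2 l = true
  · have h1 := dfun_min_WDef h0 hM
    refine (?_ : (fun v => chi (M v) (fun i l => b i l v) (fun i l => c i l v) x l) = _) ▸ h1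
    funext v
    simp only [chi, if_pos h]
  · have h1 := dfun_min_WDef h0 (hM.sub (dfun_cS_WDef hM hc x.1 l))
    refine (?_ : (fun v => chi (M v) (fun i l => b i l v) (fun i l => c i l v) x l) = _) ▸ h1
    funext v
    simp only [chi, if_neg h]

namespace ShData

variable {B : Matrix (Fin r) (Fin r) ℤ} (d : ShData B) {M L H R : (Fin n → ℕ) → ℕ}
  {a b c : Fin k → Fin 2 → (Fin n → ℕ) → ℕ}

private theorem zf_th0_WDef (hM : DFun n M) : ZF n (fun v => d.th0 (M v)) := by
  by_cases h : 0 < d.f₂ d.l₂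
  · exact (ZF.const (d.f₂ d.l₂)).congr fun v => by simp only [th0, if_pos h]
  · exact ((ZF.const (d.f₂ d.l₂)).mul (ZF.nat hM)).congr fun v => by simp only [th0, if_neg h]

private theorem dfun_th_WDef (hM : DFun n M) {ζ : (Fin n → ℕ) → ℕ} (hζ : DFun n ζ) :
    DFun n (fun v => d.th (M v) (ζ v)) := by
  by_cases h : 0 < d.f₂ d.l₂
  · have h1 := hζ.add (DFun.const (n := n) 1)
    refine (?_ : (fun v => d.th (M v) (ζ v)) = _) ▸ h1
    funext v
    simp only [th, if_pos h]
  · have h1 := hM.sub hζ
    refine (?_ : (fun v => d.th (M v) (ζ v)) = _) ▸ h1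
    funext v
    simp only [th, if_neg h]

private theorem zf_win_WDef (hM : DFun n M) (hL : DFun n L) (w : Bool) (z : ℤ) :
    ZF n (fun v => if w = true then z * ((L v : ℤ) * (M v : ℤ)) else 0) := by
  by_cases h : w = true
  · exact ((ZF.const z).mul ((ZF.nat hL).mul (ZF.nat hM))).congr fun v => by
      simp only [if_pos h]
  · exact (ZF.const 0).congr fun v => by simp only [if_neg h]

private theorem zf_wcor_WDef (hM : DFun n M) (hL : DFun n L) (hH : DFun n H) (w : Bool)
    {t : Fin 2 → (Fin n → ℕ) → ℕ} (ht : ∀ l, DFun n (t l)) {D : (Fin n → ℕ) → ℤ}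
    (hD : ZF n D) (l : Fin r) :
    ZF n (fun v => d.wcor (M v) (L v) (H v) w (fun l => t l v) (D v) l) := by
  by_cases h1 : l = d.l₁
  · exact (((ZF.nat hH).add (zf_win_WDef hM hL w (d.f₁ d.l₁))).add
      ((ZF.const (d.f₁ d.l₁)).mul (ZF.nat (ht 0)))).congr fun v => by
        simp only [wcor, if_pos h1]
  · by_cases h2 : l = d.l₂
    · exact ((((ZF.nat hH).add (zf_win_WDef hM hL w (d.f₁ d.l₂))).add
        (((ZF.const (d.C : ℤ)).mul (ZF.nat hM)).mul
          (((ZF.const |d.f₂ d.l₂|).mul (ZF.nat (ht 1))).add (d.zf_th0_WDef hM)))).sub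
        ((ZF.const |d.f₁ d.l₂|).mul (ZF.nat hM))).congr fun v => by
          simp only [wcor, if_neg h1, if_pos h2]
    · exact hD.congr fun v => by simp only [wcor, if_neg h1, if_neg h2]

theorem dfun_wlo (hM : DFun n M) (hL : DFun n L) (hH : DFun n H) (ha : ∀ i l, DFun n (a i l))
    (hc : ∀ i l, DFun n (c i l)) (x : Brn k) (l : Fin r) :
    DFun n (fun v => d.wlo (M v) (L v) (H v) (fun i l => a i l v) (fun i l => c i l v) x l) := by
  rcases x with x | x
  · exact (d.zf_wcor_WDef hM hL hH x.1 (fun l => dfun_clo_WDef hM ha hc x.2 l) (ZF.const 0)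
      l).toNat
  · cases x
    · by_cases h : l = d.l₁
      · have h1 := ((ZF.nat hH).add ((ZF.const (d.f₁ d.l₁)).mul (ZF.nat hM))).toNat
        refine (?_ : (fun v => d.wlo (M v) (L v) (H v) (fun i l => a i l v) (fun i l => c i l v)
          (.inr false) l) = _) ▸ h1
        funext v
        simp only [wlo, if_pos h]
      · have h1 := DFun.const (n := n) 0
        refine (?_ : (fun v => d.wlo (M v) (L v) (H v) (fun i l => a i l v) (fun i l => c i l v)
          (.inr false) l) = _) ▸ h1
        funext v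
        simp only [wlo, if_neg h]
    · by_cases h : l = d.l₁
      · have h1 := ((ZF.nat hH).add ((ZF.const (d.f₁ d.l₁)).mul ((ZF.nat hM).mul
          ((ZF.nat hL).add (ZF.const 1))))).toNat
        refine (?_ : (fun v => d.wlo (M v) (L v) (H v) (fun i l => a i l v) (fun i l => c i l v)
          (.inr true) l) = _) ▸ h1
        funext v
        simp only [wlo, if_pos h]
      · have h1 := DFun.const (n := n) 0
        refine (?_ : (fun v => d.wlo (M v) (L v) (H v) (fun i l => a i l v) (fun i l => c i l v)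
          (.inr true) l) = _) ▸ h1
        funext v
        simp only [wlo, if_neg h]

theorem dfun_whi (hM : DFun n M) (hL : DFun n L) (hH : DFun n H) (hR : DFun n R)
    (hb : ∀ i l, DFun n (b i l)) (hc : ∀ i l, DFun n (c i l)) (x : Brn k) (l : Fin r) :
    DFun n (fun v => d.whi (M v) (L v) (H v) (R v) (fun i l => b i l v) (fun i l => c i l v)
      x l) := by
  rcases x with x | x
  · exact (d.zf_wcor_WDef hM hL hH x.1 (fun l => dfun_chi_WDef hM hb hc x.2 l) (ZF.nat hR)
      l).toNat
  · cases x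
    · by_cases h : l = d.l₁
      · have h1 := ((ZF.nat hH).add ((ZF.const (d.f₁ d.l₁)).mul ((ZF.nat hM).mul
          (ZF.nat hL)))).toNat
        refine (?_ : (fun v => d.whi (M v) (L v) (H v) (R v) (fun i l => b i l v)
          (fun i l => c i l v) (.inr false) l) = _) ▸ h1
        funext v
        simp only [whi, if_pos h]
      · have h1 : (fun v => d.whi (M v) (L v) (H v) (R v) (fun i l => b i l v)
            (fun i l => c i l v) (.inr false) l) = R := by
          funext v
          simp only [whi, if_neg h]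
        rw [h1]
        exact hR
    · exact hR

theorem zf_wtr (hM : DFun n M) (hL : DFun n L) (hH : DFun n H)
    (hc : ∀ i l, DFun n (c i l)) (x : Brn k) (l : Fin r) :
    ZF n (fun v => d.wtr (M v) (L v) (H v) (fun i l => c i l v) x l) := by
  have h0 : ZF n (fun v => (H v : ℤ) - ∑ m, B l m * (H v : ℤ)) :=
    (ZF.nat hH).sub (ZF.sum univ fun m => (ZF.const (B l m)).mul (ZF.nat hH))
  have hLM : ZF n (fun v => (L v : ℤ) * (M v : ℤ)) := (ZF.nat hL).mul (ZF.nat hM)
  rcases x with x | x
  · have hbit : ∀ w : Bool, ∀ {f : (Fin n → ℕ) → ℤ}, ZF n f →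
        ZF n (fun v => if w = true then f v else 0) := by
      intro w f hf
      by_cases h : w = true
      · exact hf.congr fun v => by simp only [if_pos h]
      · exact (ZF.const 0).congr fun v => by simp only [if_neg h]
    have h1 := ((((ZF.nat (dfun_cS_WDef hM hc x.2.1 0)).sub (hbit (x.2.2 0) (ZF.nat hM))).sub
      (hbit x.1 hLM)).mul (ZF.const (d.f₁ l)))
    have h2 := ((((ZF.const (d.C : ℤ)).mul (ZF.nat hM)).mul (ZF.const (d.f₂ d.l₂).sign)).mul
      ((ZF.nat (dfun_cS_WDef hM hc x.2.1 1)).sub (hbit (x.2.2 1) (ZF.nat hM)))).mul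
        (ZF.const (d.f₂ l))
    exact (h0.add h1).add h2
  · cases x
    · exact h0
    · exact h0.sub (hLM.mul (ZF.const (d.f₁ l)))

theorem dfun_pt (hM : DFun n M) (hH : DFun n H) {X : (Fin n → ℕ) → ℕ}
    {u : Fin 2 → (Fin n → ℕ) → ℕ} (hX : DFun n X) (hu : ∀ l, DFun n (u l)) (l : Fin r) :
    DFun n (fun v => d.pt (M v) (H v) (X v, fun l => u l v) l) := by
  have h1 := (ZF.nat ((hM.mul hX).add (hu 0))).mul (ZF.const (d.f₁ l))
  have h2 := (ZF.nat (((DFun.const (n := n) d.C).mul hM).mul (d.dfun_th_WDef hM (hu 1)))).mul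
    (ZF.const (d.f₂ l))
  exact (((ZF.nat hH).add h1).add h2).toNat

end ShData

end Pool.Agent.MTr
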