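import Mathlib
import Pool.Agent.MTr.WDefs

/-!
# Normalization of a shear

Proof. Let `f₁, f₂, κ` be as in `Shear B`. `f₁ ≠ 0`; choose `l₁` with `f₁ l₁ ≠ 0`. If `f₁ l₁ < 0`
replace `(f₁, κ)` by `(-f₁, -κ)`; so `p = f₁ l₁ > 0`. Replace `(f₂, κ)` by
`(p f₂ - (f₂ l₁) f₁, p κ)`: `B (p f₂ - q f₁) = p f₂ + p κ f₁ - q f₁`; now `f₂ l₁ = 0`, and `f₂ ≠ 0`
because `f₁, f₂` were linearly independent and `p ≠ 0`; choose `l₂` with `f₂ l₂ ≠ 0`. If `κ < 0`
replace `(f₂, κ)` by `(-f₂, -κ)`. (`LinearIndependent ℤ ![f₁, f₂]`: use `LinearIndependent.pair_iff`.)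
-/

set_option autoImplicit false

namespace Pool.Agent.MTr

variable {r : ℕ}

private lemma norm_first {B : Matrix (Fin r) (Fin r) ℤ} {f₁ f₂ : Fin r → ℤ} {κ : ℤ}
    (hli : ∀ s t : ℤ, s • f₁ + t • f₂ = 0 → s = 0 ∧ t = 0)
    (h1 : B.mulVec f₁ = f₁) (h2 : B.mulVec f₂ = f₂ + κ • f₁) :
    ∃ (F : Fin r → ℤ) (κ' : ℤ) (l₁ : Fin r), (∀ s t : ℤ, s • F + t • f₂ = 0 → s = 0 ∧ t = 0) ∧
      B.mulVec F = F ∧ B.mulVec f₂ = f₂ + κ' • F ∧ 0 < F l₁ := by
  have hne : f₁ ≠ 0 := by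
    intro h
    have := (hli 1 0 (by simp [h])).1
    exact one_ne_zero this
  obtain ⟨l, hl⟩ := Function.ne_iff.1 hne
  have hl' : f₁ l ≠ 0 := hl
  rcases lt_or_gt_of_ne hl' with h | h
  · refine ⟨-f₁, -κ, l, ?_, ?_, ?_, ?_⟩
    · intro s t hst
      have := hli (-s) t (by rw [← hst]; simp)
      exact ⟨neg_eq_zero.1 this.1, this.2⟩
    · rw [Matrix.mulVec_neg, h1]
    · rw [h2]; simp
    · simpa using h
  · exact ⟨f₁, κ, l, hli, h1, h2, h⟩

theorem Shear.exists_data {B : Matrix (Fin r) (Fin r) ℤ} (h : Shear B) : Nonempty (ShData B) := by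
  obtain ⟨f₁, f₂, κ, hli, h1, h2⟩ := h
  rw [LinearIndependent.pair_iff] at hli
  obtain ⟨F, κ', l₁, hF, hF1, hF2, hp⟩ := norm_first hli h1 h2
  set G : Fin r → ℤ := F l₁ • f₂ - f₂ l₁ • F with hG
  have hG1 : B.mulVec G = G + (F l₁ * κ') • F := by
    rw [hG, Matrix.mulVec_sub, Matrix.mulVec_smul, Matrix.mulVec_smul, hF1, hF2]
    ext i
    simp
    ring
  have hG0 : G l₁ = 0 := by
    simp [hG]
    ring
  have hGne : G ≠ 0 := by
    intro h0
    have := (hF (-(f₂ l₁)) (F l₁) (by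
      rw [← h0, hG]
      ext i
      simp
      ring)).2
    exact hp.ne' this
  obtain ⟨l₂, hl₂⟩ := Function.ne_iff.1 hGne
  have hl₂' : G l₂ ≠ 0 := hl₂
  rcases le_or_gt 0 (F l₁ * κ') with hk | hk
  · obtain ⟨n, hn⟩ := Int.eq_ofNat_of_zero_le hk
    exact ⟨{ f₁ := F, f₂ := G, κ := n, l₁ := l₁, l₂ := l₂, h1 := hF1
             h2 := by rw [hG1, hn]
             hp := hp, h0 := hG0, hq := hl₂' }⟩
  · obtain ⟨n, hn⟩ := Int.eq_ofNat_of_zero_le (a := -(F l₁ * κ')) (by omega)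
    exact ⟨{ f₁ := F, f₂ := -G, κ := n, l₁ := l₁, l₂ := l₂, h1 := hF1
             h2 := by
               rw [Matrix.mulVec_neg, hG1, ← hn]
               ext i
               simp
               ring
             hp := hp
             h0 := by simp [hG0]
             hq := by simpa using hl₂' }⟩

end Pool.Agent.MTr
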