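import Mathlib
import Pool.Agent.MTr.WConj
import Pool.Agent.MTr.WDef
import Pool.Agent.MTr.WNorm
import Pool.Agent.PTr.Univ

/-!
# Hardness for shears

Proof of `hard_shear`. Let `d` be normalized data of the shear (`Shear.exists_data`). `form2_univ`
(or `form2`) for `R` gives `k`, polynomials `N, a, b, c, x, y` with `x, y < N = M v` and
`R v ↔ ∃ t, (tmap 1 M a b c)^[t] x = y`. Let `K = Fintype.card (Brn k)` and `e : Fin K ≃ Brn k` from
`exists_enum brk`. Claim: this `K` works. Let `H' : OrbB B K`.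

Work with `n + 1` variables `w`, `w 0 = L` and `v = fun i => w i.succ`. Let
`Hw = ∑ l, (M * (2 * L + 1) * |f₁ l| + C * M * (M + 1) * |f₂ l|)`, `Rw = 2 * Hw + 1`. Apply `H'` twice,
with the data `wlo, whi, (wtr).toNat, (-wtr).toNat`, the start `pt (0, x)` and the targets
`pt (0, y)` and `pt (L, y)` (`dfun_wlo, dfun_whi, zf_wtr, dfun_pt`): predicates `Q1, Q2` of `w` in
`Delta0 (n + 1)`, which are equivalent to the hits when the system is good. Then
`R v ↔ ∃ L ≤ 2 * (κ * C * M + 1), L.Prime ∧ κ * C * M < L ∧ (Q1 (L, v) ∨ Q2 (L, v))`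
(`Delta0.bexFun`): for every such `L` the conditions `Fits` hold, `good_pt` gives `Good`, and
`hits_pt` gives `R v ↔ Q1 ∨ Q2`. Such an `L` exists: `Nat.exists_prime_lt_and_le_two_mul`
for `κ * C * M + 1`. The primality of `w 0` is in `Delta0`:
`2 ≤ p ∧ ∀ a ≤ p, ∀ b ≤ p, a * b = p → a = 1 ∨ b = 1` (`Delta0.ballFun`), `Nat.prime_def` or similar.
-/

set_option autoImplicit false

namespace Pool.Agent.MTr

open Pool.Agent.Grz Pool.Agent.PTr Finset

variable {r : ℕ}

private theorem delta0_prime {n : ℕ} {f : (Fin n → ℕ) → ℕ} (hf : DFun n f) :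
    Delta0 n (fun v => (f v).Prime) := by
  have h1 : Delta0 n (fun v => 2 ≤ f v) := Delta0.leFun (DFun.const 2) hf
  have h2 : Delta0 n (fun v => ∀ a, a ≤ f v → ∀ b, b ≤ f v →
      (a * b = f v → a = 1 ∨ a = f v)) := by
    refine Delta0.ballFun hf (P := fun a v => ∀ b, b ≤ f v →
      (a * b = f v → a = 1 ∨ a = f v)) ?_
    refine Delta0.ballFun hf.weak (P := fun b w => (w 0 * b = f (fun i => w i.succ) →
      w 0 = 1 ∨ w 0 = f (fun i => w i.succ))) ?_
    exact Delta0.imp (Delta0.eqFun ((DFun.proj _).mul (DFun.proj 0)) hf.weak.weak)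
      ((Delta0.eqFun (DFun.proj _) (DFun.const 1)).or (Delta0.eqFun (DFun.proj _) hf.weak.weak))
  refine (h1.and h2).of_iff fun v => ?_
  rw [Nat.prime_def]
  constructor
  · rintro ⟨h3, h4⟩
    exact ⟨h3, fun a _ b _ hab => h4 a ⟨b, hab.symm⟩⟩
  · rintro ⟨h3, h4⟩
    refine ⟨h3, fun m hm => ?_⟩
    obtain ⟨b, hb⟩ := hm
    have h0 : 0 < f v := by omega
    have hm0 : 0 < m := Nat.pos_of_mul_pos_right (hb ▸ h0)
    have hb0 : 0 < b := Nat.pos_of_mul_pos_left (hb ▸ h0)
    exact h4 m (hb ▸ Nat.le_mul_of_pos_right m hb0) b (hb ▸ Nat.le_mul_of_pos_left b hm0) hb.symm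

/-- **Hardness for shears.** -/
theorem hard_shear {B : Matrix (Fin r) (Fin r) ℤ} (hS : Shear B) {n : ℕ}
    {R : (Fin n → ℕ) → Prop} (hR : E2Star n R) : ∃ k, OrbB B k → Delta0 n R := by
  classical
  obtain ⟨d⟩ := hS.exists_data
  obtain ⟨k, N, a, b, c, x, y, h⟩ := form2 hR
  obtain ⟨e, he⟩ := exists_enum (brk (k := k))
  refine ⟨Fintype.card (Brn k), fun H' => ?_⟩
  let W : MvPolynomial (Fin n) ℕ → (Fin (n + 1) → ℕ) → ℕ :=
    fun p w => MvPolynomial.eval (fun i => w i.succ) p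
  have hW : ∀ p, DFun (n + 1) (W p) := fun p => (DFun.ofPoly p).weak
  have hL : DFun (n + 1) (fun w => w 0) := DFun.proj 0
  let Hw : (Fin (n + 1) → ℕ) → ℕ := fun w => ∑ l, (W N w * (2 * w 0 + 1) * (d.f₁ l).natAbs +
    d.C * W N w * (W N w + 1) * (d.f₂ l).natAbs)
  have hHw : DFun (n + 1) Hw := DFun.finSum _ fun l =>
    (((hW N).mul (((DFun.const 2).mul hL).add (DFun.const 1))).mul (DFun.const _)).add
      ((((DFun.const d.C).mul (hW N)).mul ((hW N).add (DFun.const 1))).mul (DFun.const _))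
  let Rw : (Fin (n + 1) → ℕ) → ℕ := fun w => 2 * Hw w + 1
  have hRw : DFun (n + 1) Rw := ((DFun.const 2).mul hHw).add (DFun.const 1)
  have key : ∀ (X : (Fin (n + 1) → ℕ) → ℕ), DFun (n + 1) X →
      ∃ Q : (Fin (n + 1) → ℕ) → Prop, Delta0 (n + 1) Q ∧ ∀ w,
      Good B (Rw w) (fun i => d.wlo (W N w) (w 0) (Hw w) (fun i l => W (a i l) w)
          (fun i l => W (c i l) w) (e i))
        (fun i => d.whi (W N w) (w 0) (Hw w) (Rw w) (fun i l => W (b i l) w)
          (fun i l => W (c i l) w) (e i))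
        (fun i l => (d.wtr (W N w) (w 0) (Hw w) (fun i l => W (c i l) w) (e i) l).toNat)
        (fun i l => (-d.wtr (W N w) (w 0) (Hw w) (fun i l => W (c i l) w) (e i) l).toNat)
        (d.pt (W N w) (Hw w) (0, fun l => W (x l) w)) →
      (Q w ↔ ∃ t, (bmap B (fun i => d.wlo (W N w) (w 0) (Hw w) (fun i l => W (a i l) w)
          (fun i l => W (c i l) w) (e i))
        (fun i => d.whi (W N w) (w 0) (Hw w) (Rw w) (fun i l => W (b i l) w)
          (fun i l => W (c i l) w) (e i))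
        (fun i l => (d.wtr (W N w) (w 0) (Hw w) (fun i l => W (c i l) w) (e i) l).toNat)
        (fun i l => (-d.wtr (W N w) (w 0) (Hw w) (fun i l => W (c i l) w) (e i) l).toNat))^[t]
        (d.pt (W N w) (Hw w) (0, fun l => W (x l) w)) =
        d.pt (W N w) (Hw w) (X w, fun l => W (y l) w)) := by
    intro X hX
    exact H' (n + 1) Rw
      (fun i l w => d.wlo (W N w) (w 0) (Hw w) (fun i l => W (a i l) w)
          (fun i l => W (c i l) w) (e i) l)
      (fun i l w => d.whi (W N w) (w 0) (Hw w) (Rw w) (fun i l => W (b i l) w)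
          (fun i l => W (c i l) w) (e i) l)
      (fun i l w => (d.wtr (W N w) (w 0) (Hw w) (fun i l => W (c i l) w) (e i) l).toNat)
      (fun i l w => (-d.wtr (W N w) (w 0) (Hw w) (fun i l => W (c i l) w) (e i) l).toNat)
      (fun l w => d.pt (W N w) (Hw w) (0, fun l => W (x l) w) l)
      (fun l w => d.pt (W N w) (Hw w) (X w, fun l => W (y l) w) l) hRw
      (fun i l => d.dfun_wlo (hW N) hL hHw (fun i l => hW (a i l)) (fun i l => hW (c i l)) _ _)
      (fun i l => d.dfun_whi (hW N) hL hHw hRw (fun i l => hW (b i l)) (fun i l => hW (c i l)) _ _)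
      (fun i l => (d.zf_wtr (hW N) hL hHw (fun i l => hW (c i l)) _ _).toNat)
      (fun i l => (d.zf_wtr (hW N) hL hHw (fun i l => hW (c i l)) _ _).neg.toNat)
      (fun l => d.dfun_pt (hW N) hHw (DFun.const 0) (fun l => hW (x l)) l)
      (fun l => d.dfun_pt (hW N) hHw hX (fun l => hW (y l)) l)
  obtain ⟨Q1, hQ1, k1⟩ := key (fun _ => 0) (DFun.const 0)
  obtain ⟨Q2, hQ2, k2⟩ := key (fun w => w 0) hL
  have hN : DFun n (fun v => MvPolynomial.eval v N) := DFun.ofPoly N
  have hfin := Delta0.bexFun (b := fun v => 2 * (d.κ * d.C * MvPolynomial.eval v N + 1))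
    ((DFun.const 2).mul (((DFun.const (d.κ * d.C)).mul hN).add (DFun.const 1)))
    (P := fun L v => L.Prime ∧ d.κ * d.C * MvPolynomial.eval v N < L ∧
      (Q1 (Fin.cons L v) ∨ Q2 (Fin.cons L v))) (by
      have hcons : ∀ w : Fin (n + 1) → ℕ,
          (Fin.cons (w 0) (fun i => w i.succ) : Fin (n + 1) → ℕ) = w := fun w =>
        Fin.cons_self_tail w
      refine ((delta0_prime hL).and ((Delta0.ltFun ((DFun.const (d.κ * d.C)).mul (hW N)) hL).and
        (hQ1.or hQ2))).of_iff fun w => ?_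
      rw [hcons])
  refine hfin.of_iff fun v => ?_
  obtain ⟨hN0, hx, hy, -, hRv⟩ := h v
  have main : ∀ L, L.Prime → d.κ * d.C * MvPolynomial.eval v N < L →
      (R v ↔ (Q1 (Fin.cons L v) ∨ Q2 (Fin.cons L v))) := by
    intro L hLp hLb
    have hF : d.Fits (MvPolynomial.eval v N) L (Hw (Fin.cons L v)) (Rw (Fin.cons L v)) := by
      refine ⟨hN0, hLb, fun l => ?_, Nat.lt_succ_self _⟩
      exact single_le_sum (f := fun l => (W N (Fin.cons L v) * (2 * (Fin.cons L v :
        Fin (n + 1) → ℕ) 0 + 1) * (d.f₁ l).natAbs + d.C * W N (Fin.cons L v) *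
        (W N (Fin.cons L v) + 1) * (d.f₂ l).natAbs)) (fun _ _ => Nat.zero_le _) (mem_univ l)
    have hG := d.good_pt hF (fun i l => MvPolynomial.eval v (a i l))
      (fun i l => MvPolynomial.eval v (b i l)) (fun i l => MvPolynomial.eval v (c i l)) e he hx
    rw [hRv, d.hits_pt hF hLp (fun i l => MvPolynomial.eval v (a i l))
      (fun i l => MvPolynomial.eval v (b i l)) (fun i l => MvPolynomial.eval v (c i l)) e he hx hy]
    exact or_congr (k1 (Fin.cons L v) hG).symm (k2 (Fin.cons L v) hG).symm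
  constructor
  · intro hR'
    obtain ⟨p, hp, hp1, hp2⟩ := Nat.exists_prime_lt_and_le_two_mul
      (d.κ * d.C * MvPolynomial.eval v N + 1) (Nat.succ_ne_zero _)
    have hp3 : d.κ * d.C * MvPolynomial.eval v N < p := by omega
    exact ⟨p, hp2, hp, hp3, (main p hp hp3).1 hR'⟩
  · rintro ⟨p, -, hp, hp3, hQ⟩
    exact (main p hp hp3).2 hQ

end Pool.Agent.MTr
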