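import Mathlib
import Pool.Agent.MTr.GMain
import Pool.Agent.MTr.WMain
import Pool.Agent.MTr.DMain
import Pool.Agent.MTr.QMain

/-!
# Sets of matrices which are not tame
-/

set_option autoImplicit false

namespace Pool.Agent.MTr

open Pool.Agent.Grz Pool.Agent.PTr Finset

variable {r : ℕ}

/-- **Hardness for all sets which are not tame.** -/
theorem exists_hard {S : Set (Matrix (Fin r) (Fin r) ℤ)} (hr : 0 < r) (hS : ¬ TameSet S) :
    ∃ k₀, ∀ k, k₀ ≤ k → OrbA S k →
      ∀ (n : ℕ) (R : (Fin n → ℕ) → Prop), E2Star n R → Delta0 n R := by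
  unfold TameSet at hS
  push Not at hS
  obtain ⟨M, hM, hT⟩ := hS
  obtain ⟨m, hm, hGS⟩ := growth_or_shear M hT
  have hpow : ∀ j, M ^ (j + 1) ∈ Subsemigroup.closure S := by
    intro j
    induction j with
    | zero => simpa using hM
    | succ j ih =>
      rw [pow_succ]
      exact Subsemigroup.mul_mem _ ih hM
  obtain ⟨j, rfl⟩ : ∃ j, m = j + 1 := ⟨m - 1, by omega⟩
  obtain ⟨As, m', hm', hAs, he⟩ := exists_pprod (hpow j)
  refine exists_k0 hr ⟨As 0, hAs 0 (by omega)⟩ fun n R hR => ?_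
  have key : ∃ k, OrbB (M ^ (j + 1)) k → Delta0 n R := by
    rcases hGS with h | h
    · exact hard_growth hr h hR
    · exact hard_shear h hR
  obtain ⟨k, hk⟩ := key
  refine ⟨k * m', fun H => hk ?_⟩
  rw [← he]
  exact orbB_of_orbA hr hm' hAs H

end Pool.Agent.MTr
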